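import Pool.Agent.Lib.MP_667609_co.Chk

/-! Low coefficients through a Bonferroni inequality. -/

open PowerSeries Finset

namespace Pool.Agent.Lib.MP_667609_co

def a0 (n : ℕ) : ℕ := if n ≤ 40 then 350 else if n ≤ 60 then 200 else 150

theorem geo_two_split (α : ℕ) : geo 2 = ∑ r ∈ range α, X ^ (r * 2) + X ^ (α * 2) * geo 2 := by
  rw [← geo_mul_mul two_pos]; ring

theorem bonf_abstract {P : ℤ⟦X⟧} (hP : NN P) {A M a : ℕ} (ha : A ≤ a)
    (h : ∀ m < M, coeff m (P * X ^ (2 * A + 3) * geo 2) ≤ coeff m P) (m : ℕ) (hm : m < M) :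
    ∀ j, 0 ≤ coeff m (Nser a j * P) ∧ coeff m (Nser a j * P) ≤ coeff m P := by
  induction m using Nat.strong_induction_on with
  | _ m ih =>
    have key : ∀ j, coeff m (P - P * ∑ i ∈ range j, X ^ (2 * a + 2 * i + 3)) ≤
        coeff m (Nser a j * P) ∧ coeff m (Nser a j * P) ≤ coeff m P := by
      intro j
      induction j with
      | zero => simp [Nser]
      | succ j ihj =>
        have e : Nser a (j + 1) * P = Nser a j * P * (1 - X ^ (2 * a + 2 * j + 3)) := by
          rw [Nser, prod_range_succ, ← Nser]; ring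
        rw [e, coeff_mul_one_sub, sum_range_succ, mul_add, ← sub_sub, map_sub, coeff_mul_X_pow']
        split_ifs with h1
        · have := ih (m - (2 * a + 2 * j + 3)) (by omega) (by omega) j
          constructor <;> linarith [ihj.1, ihj.2, this.1, this.2]
        · simpa using ihj
    intro j
    refine ⟨le_trans ?_ (key j).1, (key j).2⟩
    obtain ⟨c, rfl⟩ : ∃ c, a = A + c := ⟨a - A, by omega⟩
    have e : P * X ^ (2 * A + 3) * geo 2 = P * ∑ i ∈ range j, X ^ (2 * (A + c) + 2 * i + 3) +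
        P * (X ^ (2 * A + 3) * (∑ r ∈ range c, X ^ (r * 2) + X ^ (c * 2) * (X ^ (j * 2) * geo 2))) := by
      have e1 : ∑ i ∈ range j, (X ^ (2 * (A + c) + 2 * i + 3) : ℤ⟦X⟧) =
          X ^ (2 * A + 3) * X ^ (c * 2) * ∑ r ∈ range j, X ^ (r * 2) := by
        rw [mul_sum]; exact sum_congr rfl fun i _ => by ring
      have e2 := geo_two_split c
      have e3 := geo_two_split j
      rw [e1]
      linear_combination P * X ^ (2 * A + 3) * e2 + P * X ^ (2 * A + 3) * X ^ (c * 2) * e3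
    have h1 := h m hm
    have h2 := (hP.mul ((NN_X_pow (2 * A + 3)).mul ((NN_sum (range c) _ fun r _ =>
      NN_X_pow (r * 2)).add ((NN_X_pow (c * 2)).mul ((NN_X_pow (j * 2)).mul (NN_geo 2)))))) m
    rw [e, map_add] at h1
    rw [map_sub]; linarith

noncomputable def bonfK (e c _n mask : ℕ) (t : ℕ) : ℕ → ℕ → Bool :=
  Nat.rec (motive := fun _ => ℕ → ℕ → Bool) (fun _ _ => true)
    (fun _ ih b V =>
      let W := Nat.sub (geoK V (Nat.mul (Nat.add e c) (Nat.add (Nat.mul 2 b) 3)) 11) 0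
      let Q := geoK (Nat.shiftRight W (Nat.mul (Nat.add e c)
        (Nat.add (Nat.mul 2 (a0 (Nat.add b 1))) 3))) (Nat.mul (Nat.add e c) 2) 11
      andK (Nat.beq (Nat.land W mask) 0)
        (andK (orK (Nat.ble b 20) (andK (Nat.ble Q W) (Nat.beq (Nat.land (Nat.sub W Q) mask) 0)))
          (ih (Nat.add b 1) W))) t

theorem Rep_zero (B n D : ℕ) (hD : 0 < D) : Rep B n 0 0 D :=
  ⟨fun _ => 0, by simpa using enc_mul (B := B) 0 (fun _ => 0) n, fun m _ => ⟨by simp, hD⟩⟩

theorem bonfK_sound {e : ℕ} (t : ℕ) : ∀ {b V : ℕ}, Rep (e + 12) 3200 V (Pser b) (2 ^ e) →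
    bonfK e 12 3200 (enc (e + 12) (fun _ => (2 ^ 12 - 1) * 2 ^ e) 3200) t b V = true →
    ∀ n, b < n → n ≤ b + t → 22 ≤ n → ∀ m < 3200,
      coeff m (Pser n * X ^ (2 * a0 n + 3) * geo 2) ≤ coeff m (Pser n) := by
  induction t with
  | zero => intro b V _ _ b' h1 h2; omega
  | succ t ih =>
    intro b V h hk n h1 h2 h3
    change andK _ _ = true at hk
    simp only [andK_iff, orK_iff, Nat.ble_eq, Nat.beq_eq] at hk
    obtain ⟨k1, k2, k3⟩ := hk
    have hj : 2 ^ 11 * 2 ^ e = 2 ^ (e + 12 - 1) := by rw [← pow_add]; congr 1; omega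
    have hj' : 2 ^ (e + 12 - 1) ≤ 2 ^ (e + 12) := Nat.pow_le_pow_right two_pos (by omega)
    have hj2 : 2 ^ e ≤ 2 ^ (e + 12) := Nat.pow_le_pow_right two_pos (by omega)
    have hG := (h.geo 11 (u := 2 * b + 3) (by omega) (hj ▸ hj') (by omega))
    rw [hj] at hG
    have hW := Rep.sub (by omega) (hG.mono hj') (Rep_zero _ _ _ (by positivity)) (Nat.zero_le _) k1
    rw [sub_zero, show Pser b * geo (2 * b + 3) = Pser (b + 1) by
      rw [Pser, Pser, prod_range_succ]] at hW
    rcases Nat.eq_or_lt_of_le (show b + 1 ≤ n from h1) with rfl | h4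
    · rcases k2 with k2 | k2
      · omega
      · have hQ := (hW.shift hj2 (2 * a0 (b + 1) + 3)).geo 11 (u := 2) (by omega) (hj ▸ hj')
          (by omega)
        rw [hj] at hQ
        have := Rep.sub (by omega) (hW.mono hj2) hQ k2.1 k2.2
        intro m hm
        have := this.nonneg hm
        rw [map_sub] at this; linarith
    · exact ih hW k3 n h4 (by omega) h3

theorem bonf_run : bonfK 130 12 3200 (Nat.mul (Nat.mul (Nat.sub (Nat.pow 2 12) 1) (Nat.pow 2 130))
    (onesK 142 3200)) 83 0 (Nat.shiftLeft 1 (Nat.mul 142 (Nat.sub 3200 1))) = true := by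
  decide +kernel

theorem bonf {n a : ℕ} (h1 : 22 ≤ n) (h2 : n ≤ 83) (ha : a0 n ≤ a) (b m : ℕ) (hm : m < 3200) :
    0 ≤ coeff m (Kser a b n) := by
  have h := bonf_run
  rw [onesK_eq (by norm_num) (by decide +kernel)] at h
  simp only [Nat.mul_eq, Nat.sub_eq, Nat.pow_eq] at h
  rw [enc_mul] at h
  simp only [mul_one] at h
  have h0 : Rep (130 + 12) 3200 (Nat.shiftLeft 1 (Nat.mul 142 (Nat.sub 3200 1))) (Pser 0)
      (2 ^ 130) := by
    have := (Rep_one (B := 142) (n := 3200) (by norm_num)).mono (D' := 2 ^ 130) (by norm_num)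
    simpa only [Pser, range_zero, prod_empty] using this
  exact (bonf_abstract (NN_Pser n) ha (bonfK_sound 83 h0 h n (by omega) (by omega) h1) m hm b).1

end Pool.Agent.Lib.MP_667609_co
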