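import Pool.Agent.Lib.MP_667609_co.Chk

/-! Finite verification. -/

namespace Pool.Agent.Lib.MP_667609_co

theorem brute0 (a : ℕ) (h1 : 3 ≤ a) (h2 : a < 11) :
    ∀ b, 1 < b → b ≤ a → NN (Vser a b) := by
  interval_cases a
  · exact runK_sound (t := 2) (e := 7) (c := 5) (n := 41) (by norm_num) (by decide +kernel)
  · exact runK_sound (t := 3) (e := 8) (c := 6) (n := 115) (by norm_num) (by decide +kernel)
  · exact runK_sound (t := 4) (e := 11) (c := 9) (n := 723) (by norm_num) (by decide +kernel)
  · exact runK_sound (t := 5) (e := 12) (c := 10) (n := 1335) (by norm_num) (by decide +kernel)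
  · exact runK_sound (t := 6) (e := 13) (c := 10) (n := 2215) (by norm_num) (by decide +kernel)
  · exact runK_sound (t := 7) (e := 17) (c := 14) (n := 36561) (by norm_num) (by decide +kernel)
  · exact runK_sound (t := 8) (e := 17) (c := 15) (n := 63111) (by norm_num) (by decide +kernel)
  · exact runK_sound (t := 9) (e := 17) (c := 15) (n := 63127) (by norm_num) (by decide +kernel)

theorem brute0' (a : ℕ) (h1 : 11 ≤ a) (h2 : a < 14) :
    ∀ b, 1 < b → b ≤ a - 1 → NN (Vser a b) := by
  interval_cases a
  · exact runK_sound (t := 9) (e := 18) (c := 14) (n := 34093) (by norm_num) (by decide +kernel)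
  · exact runK_sound (t := 10) (e := 20) (c := 16) (n := 156227) (by norm_num) (by decide +kernel)
  · exact runK_sound (t := 11) (e := 18) (c := 8) (n := 385) (by norm_num) (by decide +kernel)

theorem brute1 (a : ℕ) (h1 : 14 ≤ a) (h2 : a < 108) :
    ∀ b, 1 < b → b ≤ a → NN (Vser a b) := by
  interval_cases a
  · exact runK_sound (t := 13) (e := 19) (c := 8) (n := 336) (by norm_num) (by decide +kernel)
  · exact runK_sound (t := 14) (e := 21) (c := 8) (n := 390) (by norm_num) (by decide +kernel)
  · exact runK_sound (t := 15) (e := 23) (c := 8) (n := 448) (by norm_num) (by decide +kernel)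
  · exact runK_sound (t := 16) (e := 25) (c := 8) (n := 510) (by norm_num) (by decide +kernel)
  · exact runK_sound (t := 17) (e := 27) (c := 8) (n := 576) (by norm_num) (by decide +kernel)
  · exact runK_sound (t := 18) (e := 28) (c := 9) (n := 646) (by norm_num) (by decide +kernel)
  · exact runK_sound (t := 19) (e := 30) (c := 9) (n := 720) (by norm_num) (by decide +kernel)
  · exact runK_sound (t := 20) (e := 32) (c := 8) (n := 441) (by norm_num) (by decide +kernel)
  · exact runK_sound (t := 21) (e := 34) (c := 8) (n := 484) (by norm_num) (by decide +kernel)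
  · exact runK_sound (t := 22) (e := 36) (c := 8) (n := 529) (by norm_num) (by decide +kernel)
  · exact runK_sound (t := 23) (e := 38) (c := 8) (n := 576) (by norm_num) (by decide +kernel)
  · exact runK_sound (t := 24) (e := 40) (c := 8) (n := 625) (by norm_num) (by decide +kernel)
  · exact runK_sound (t := 25) (e := 42) (c := 9) (n := 676) (by norm_num) (by decide +kernel)
  · exact runK_sound (t := 26) (e := 43) (c := 9) (n := 729) (by norm_num) (by decide +kernel)
  · exact runK_sound (t := 27) (e := 45) (c := 9) (n := 784) (by norm_num) (by decide +kernel)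
  · exact runK_sound (t := 28) (e := 47) (c := 9) (n := 841) (by norm_num) (by decide +kernel)
  · exact runK_sound (t := 29) (e := 49) (c := 9) (n := 900) (by norm_num) (by decide +kernel)
  · exact runK_sound (t := 30) (e := 51) (c := 9) (n := 961) (by norm_num) (by decide +kernel)
  · exact runK_sound (t := 31) (e := 53) (c := 9) (n := 1024) (by norm_num) (by decide +kernel)
  · exact runK_sound (t := 32) (e := 55) (c := 9) (n := 1089) (by norm_num) (by decide +kernel)
  · exact runK_sound (t := 33) (e := 57) (c := 9) (n := 1156) (by norm_num) (by decide +kernel)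
  · exact runK_sound (t := 34) (e := 59) (c := 9) (n := 1225) (by norm_num) (by decide +kernel)
  · exact runK_sound (t := 35) (e := 61) (c := 10) (n := 1296) (by norm_num) (by decide +kernel)
  · exact runK_sound (t := 36) (e := 63) (c := 10) (n := 1369) (by norm_num) (by decide +kernel)
  · exact runK_sound (t := 37) (e := 64) (c := 10) (n := 1444) (by norm_num) (by decide +kernel)
  · exact runK_sound (t := 38) (e := 66) (c := 10) (n := 1521) (by norm_num) (by decide +kernel)
  · exact runK_sound (t := 39) (e := 68) (c := 10) (n := 1600) (by norm_num) (by decide +kernel)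
  · exact runK_sound (t := 40) (e := 70) (c := 10) (n := 1681) (by norm_num) (by decide +kernel)
  · exact runK_sound (t := 41) (e := 72) (c := 10) (n := 1764) (by norm_num) (by decide +kernel)
  · exact runK_sound (t := 42) (e := 74) (c := 10) (n := 1849) (by norm_num) (by decide +kernel)
  · exact runK_sound (t := 43) (e := 76) (c := 10) (n := 1936) (by norm_num) (by decide +kernel)
  · exact runK_sound (t := 44) (e := 78) (c := 10) (n := 2025) (by norm_num) (by decide +kernel)
  · exact runK_sound (t := 45) (e := 80) (c := 10) (n := 2116) (by norm_num) (by decide +kernel)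
  · exact runK_sound (t := 46) (e := 82) (c := 10) (n := 2209) (by norm_num) (by decide +kernel)
  · exact runK_sound (t := 47) (e := 84) (c := 10) (n := 2304) (by norm_num) (by decide +kernel)
  · exact runK_sound (t := 48) (e := 86) (c := 10) (n := 2401) (by norm_num) (by decide +kernel)
  · exact runK_sound (t := 49) (e := 88) (c := 10) (n := 2500) (by norm_num) (by decide +kernel)
  · exact runK_sound (t := 50) (e := 90) (c := 11) (n := 2601) (by norm_num) (by decide +kernel)
  · exact runK_sound (t := 51) (e := 92) (c := 11) (n := 2704) (by norm_num) (by decide +kernel)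
  · exact runK_sound (t := 52) (e := 94) (c := 11) (n := 2809) (by norm_num) (by decide +kernel)
  · exact runK_sound (t := 53) (e := 95) (c := 11) (n := 2916) (by norm_num) (by decide +kernel)
  · exact runK_sound (t := 54) (e := 97) (c := 11) (n := 3025) (by norm_num) (by decide +kernel)
  · exact runK_sound (t := 55) (e := 99) (c := 11) (n := 3136) (by norm_num) (by decide +kernel)
  · exact runK_sound (t := 56) (e := 101) (c := 11) (n := 3249) (by norm_num) (by decide +kernel)
  · exact runK_sound (t := 57) (e := 103) (c := 11) (n := 3364) (by norm_num) (by decide +kernel)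
  · exact runK_sound (t := 58) (e := 105) (c := 11) (n := 3481) (by norm_num) (by decide +kernel)
  · exact runK_sound (t := 59) (e := 107) (c := 11) (n := 3600) (by norm_num) (by decide +kernel)
  · exact runK_sound (t := 60) (e := 109) (c := 11) (n := 3721) (by norm_num) (by decide +kernel)
  · exact runK_sound (t := 61) (e := 111) (c := 11) (n := 3844) (by norm_num) (by decide +kernel)
  · exact runK_sound (t := 62) (e := 113) (c := 11) (n := 3969) (by norm_num) (by decide +kernel)
  · exact runK_sound (t := 63) (e := 115) (c := 11) (n := 4096) (by norm_num) (by decide +kernel)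
  · exact runK_sound (t := 64) (e := 117) (c := 11) (n := 4225) (by norm_num) (by decide +kernel)
  · exact runK_sound (t := 65) (e := 119) (c := 11) (n := 4356) (by norm_num) (by decide +kernel)
  · exact runK_sound (t := 66) (e := 121) (c := 11) (n := 4489) (by norm_num) (by decide +kernel)
  · exact runK_sound (t := 67) (e := 123) (c := 11) (n := 4624) (by norm_num) (by decide +kernel)
  · exact runK_sound (t := 68) (e := 125) (c := 11) (n := 4761) (by norm_num) (by decide +kernel)
  · exact runK_sound (t := 69) (e := 127) (c := 11) (n := 4900) (by norm_num) (by decide +kernel)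
  · exact runK_sound (t := 70) (e := 129) (c := 11) (n := 5041) (by norm_num) (by decide +kernel)
  · exact runK_sound (t := 71) (e := 131) (c := 12) (n := 5184) (by norm_num) (by decide +kernel)
  · exact runK_sound (t := 72) (e := 133) (c := 12) (n := 5329) (by norm_num) (by decide +kernel)
  · exact runK_sound (t := 73) (e := 135) (c := 12) (n := 5476) (by norm_num) (by decide +kernel)
  · exact runK_sound (t := 74) (e := 137) (c := 12) (n := 5625) (by norm_num) (by decide +kernel)
  · exact runK_sound (t := 75) (e := 138) (c := 12) (n := 5776) (by norm_num) (by decide +kernel)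
  · exact runK_sound (t := 76) (e := 140) (c := 12) (n := 5929) (by norm_num) (by decide +kernel)
  · exact runK_sound (t := 77) (e := 142) (c := 12) (n := 6084) (by norm_num) (by decide +kernel)
  · exact runK_sound (t := 78) (e := 144) (c := 12) (n := 6241) (by norm_num) (by decide +kernel)
  · exact runK_sound (t := 79) (e := 146) (c := 12) (n := 6400) (by norm_num) (by decide +kernel)
  · exact runK_sound (t := 80) (e := 148) (c := 12) (n := 6561) (by norm_num) (by decide +kernel)
  · exact runK_sound (t := 81) (e := 150) (c := 12) (n := 6724) (by norm_num) (by decide +kernel)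
  · exact runK_sound (t := 82) (e := 152) (c := 12) (n := 6889) (by norm_num) (by decide +kernel)
  · exact runK_sound (t := 83) (e := 154) (c := 12) (n := 7056) (by norm_num) (by decide +kernel)
  · exact runK_sound (t := 84) (e := 156) (c := 12) (n := 7225) (by norm_num) (by decide +kernel)
  · exact runK_sound (t := 85) (e := 158) (c := 12) (n := 7396) (by norm_num) (by decide +kernel)
  · exact runK_sound (t := 86) (e := 160) (c := 12) (n := 7569) (by norm_num) (by decide +kernel)
  · exact runK_sound (t := 87) (e := 162) (c := 12) (n := 7744) (by norm_num) (by decide +kernel)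
  · exact runK_sound (t := 88) (e := 164) (c := 12) (n := 7921) (by norm_num) (by decide +kernel)
  · exact runK_sound (t := 89) (e := 166) (c := 12) (n := 8100) (by norm_num) (by decide +kernel)
  · exact runK_sound (t := 90) (e := 168) (c := 12) (n := 8281) (by norm_num) (by decide +kernel)
  · exact runK_sound (t := 91) (e := 170) (c := 12) (n := 8464) (by norm_num) (by decide +kernel)
  · exact runK_sound (t := 92) (e := 172) (c := 12) (n := 8649) (by norm_num) (by decide +kernel)
  · exact runK_sound (t := 93) (e := 174) (c := 12) (n := 8836) (by norm_num) (by decide +kernel)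
  · exact runK_sound (t := 94) (e := 176) (c := 12) (n := 9025) (by norm_num) (by decide +kernel)
  · exact runK_sound (t := 95) (e := 178) (c := 12) (n := 9216) (by norm_num) (by decide +kernel)
  · exact runK_sound (t := 96) (e := 180) (c := 12) (n := 9409) (by norm_num) (by decide +kernel)
  · exact runK_sound (t := 97) (e := 182) (c := 12) (n := 9604) (by norm_num) (by decide +kernel)
  · exact runK_sound (t := 98) (e := 184) (c := 12) (n := 9801) (by norm_num) (by decide +kernel)
  · exact runK_sound (t := 99) (e := 186) (c := 12) (n := 10000) (by norm_num) (by decide +kernel)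
  · exact runK_sound (t := 100) (e := 188) (c := 12) (n := 10201) (by norm_num) (by decide +kernel)
  · exact runK_sound (t := 101) (e := 190) (c := 13) (n := 10404) (by norm_num) (by decide +kernel)
  · exact runK_sound (t := 102) (e := 192) (c := 13) (n := 10609) (by norm_num) (by decide +kernel)
  · exact runK_sound (t := 103) (e := 194) (c := 13) (n := 10816) (by norm_num) (by decide +kernel)
  · exact runK_sound (t := 104) (e := 196) (c := 13) (n := 11025) (by norm_num) (by decide +kernel)
  · exact runK_sound (t := 105) (e := 198) (c := 13) (n := 11236) (by norm_num) (by decide +kernel)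
  · exact runK_sound (t := 106) (e := 200) (c := 13) (n := 11449) (by norm_num) (by decide +kernel)

end Pool.Agent.Lib.MP_667609_co
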