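import Pool.Agent.Lib.MP_667609_co.Chk

/-! Finite verification. -/

namespace Pool.Agent.Lib.MP_667609_co

theorem brute2 (a : ℕ) (h1 : 108 ≤ a) (h2 : a < 124) :
    ∀ b, 1 < b → b ≤ a → NN (Vser a b) := by
  interval_cases a
  · exact runK_sound (t := 107) (e := 201) (c := 13) (n := 11664) (by norm_num) (by decide +kernel)
  · exact runK_sound (t := 108) (e := 203) (c := 13) (n := 11881) (by norm_num) (by decide +kernel)
  · exact runK_sound (t := 109) (e := 205) (c := 13) (n := 12100) (by norm_num) (by decide +kernel)
  · exact runK_sound (t := 110) (e := 207) (c := 13) (n := 12321) (by norm_num) (by decide +kernel)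
  · exact runK_sound (t := 111) (e := 209) (c := 13) (n := 12544) (by norm_num) (by decide +kernel)
  · exact runK_sound (t := 112) (e := 211) (c := 13) (n := 12769) (by norm_num) (by decide +kernel)
  · exact runK_sound (t := 113) (e := 213) (c := 13) (n := 12996) (by norm_num) (by decide +kernel)
  · exact runK_sound (t := 114) (e := 215) (c := 13) (n := 13225) (by norm_num) (by decide +kernel)
  · exact runK_sound (t := 115) (e := 217) (c := 13) (n := 13456) (by norm_num) (by decide +kernel)
  · exact runK_sound (t := 116) (e := 219) (c := 13) (n := 13689) (by norm_num) (by decide +kernel)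
  · exact runK_sound (t := 117) (e := 221) (c := 13) (n := 13924) (by norm_num) (by decide +kernel)
  · exact runK_sound (t := 118) (e := 223) (c := 13) (n := 14161) (by norm_num) (by decide +kernel)
  · exact runK_sound (t := 119) (e := 225) (c := 13) (n := 14400) (by norm_num) (by decide +kernel)
  · exact runK_sound (t := 120) (e := 227) (c := 13) (n := 14641) (by norm_num) (by decide +kernel)
  · exact runK_sound (t := 121) (e := 229) (c := 13) (n := 14884) (by norm_num) (by decide +kernel)
  · exact runK_sound (t := 122) (e := 231) (c := 13) (n := 15129) (by norm_num) (by decide +kernel)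

end Pool.Agent.Lib.MP_667609_co
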