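import Pool.Agent.Lib.MP_667609_co.Chk

/-! Finite verification. -/

namespace Pool.Agent.Lib.MP_667609_co

theorem brute3 (a : ℕ) (h1 : 124 ≤ a) (h2 : a < 134) :
    ∀ b, 1 < b → b ≤ a → NN (Vser a b) := by
  interval_cases a
  · exact runK_sound (t := 123) (e := 233) (c := 13) (n := 15376) (by norm_num) (by decide +kernel)
  · exact runK_sound (t := 124) (e := 235) (c := 13) (n := 15625) (by norm_num) (by decide +kernel)
  · exact runK_sound (t := 125) (e := 237) (c := 13) (n := 15876) (by norm_num) (by decide +kernel)
  · exact runK_sound (t := 126) (e := 239) (c := 13) (n := 16129) (by norm_num) (by decide +kernel)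
  · exact runK_sound (t := 127) (e := 241) (c := 13) (n := 16384) (by norm_num) (by decide +kernel)
  · exact runK_sound (t := 128) (e := 243) (c := 13) (n := 16641) (by norm_num) (by decide +kernel)
  · exact runK_sound (t := 129) (e := 245) (c := 13) (n := 16900) (by norm_num) (by decide +kernel)
  · exact runK_sound (t := 130) (e := 247) (c := 13) (n := 17161) (by norm_num) (by decide +kernel)
  · exact runK_sound (t := 131) (e := 249) (c := 13) (n := 17424) (by norm_num) (by decide +kernel)
  · exact runK_sound (t := 132) (e := 251) (c := 13) (n := 17689) (by norm_num) (by decide +kernel)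

end Pool.Agent.Lib.MP_667609_co
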