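import Pool.Agent.Lib.MP_667609_co.Chk

/-! Finite verification. -/

namespace Pool.Agent.Lib.MP_667609_co

theorem brute4 (a : ℕ) (h1 : 134 ≤ a) (h2 : a < 143) :
    ∀ b, 1 < b → b ≤ a → NN (Vser a b) := by
  interval_cases a
  · exact runK_sound (t := 133) (e := 253) (c := 13) (n := 17956) (by norm_num) (by decide +kernel)
  · exact runK_sound (t := 134) (e := 255) (c := 13) (n := 18225) (by norm_num) (by decide +kernel)
  · exact runK_sound (t := 135) (e := 257) (c := 13) (n := 18496) (by norm_num) (by decide +kernel)
  · exact runK_sound (t := 136) (e := 259) (c := 13) (n := 18769) (by norm_num) (by decide +kernel)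
  · exact runK_sound (t := 137) (e := 261) (c := 13) (n := 19044) (by norm_num) (by decide +kernel)
  · exact runK_sound (t := 138) (e := 263) (c := 13) (n := 19321) (by norm_num) (by decide +kernel)
  · exact runK_sound (t := 139) (e := 265) (c := 13) (n := 19600) (by norm_num) (by decide +kernel)
  · exact runK_sound (t := 140) (e := 267) (c := 13) (n := 19881) (by norm_num) (by decide +kernel)
  · exact runK_sound (t := 141) (e := 269) (c := 13) (n := 20164) (by norm_num) (by decide +kernel)

end Pool.Agent.Lib.MP_667609_co
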