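import Pool.Agent.Lib.MP_667609_co.Chk

/-! Finite verification. -/

namespace Pool.Agent.Lib.MP_667609_co

theorem brute5 (a : ℕ) (h1 : 143 ≤ a) (h2 : a < 150) :
    ∀ b, 1 < b → b ≤ a → NN (Vser a b) := by
  interval_cases a
  · exact runK_sound (t := 142) (e := 271) (c := 13) (n := 20449) (by norm_num) (by decide +kernel)
  · exact runK_sound (t := 143) (e := 273) (c := 14) (n := 20736) (by norm_num) (by decide +kernel)
  · exact runK_sound (t := 144) (e := 275) (c := 14) (n := 21025) (by norm_num) (by decide +kernel)
  · exact runK_sound (t := 145) (e := 277) (c := 14) (n := 21316) (by norm_num) (by decide +kernel)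
  · exact runK_sound (t := 146) (e := 279) (c := 14) (n := 21609) (by norm_num) (by decide +kernel)
  · exact runK_sound (t := 147) (e := 281) (c := 14) (n := 21904) (by norm_num) (by decide +kernel)
  · exact runK_sound (t := 148) (e := 283) (c := 14) (n := 22201) (by norm_num) (by decide +kernel)

end Pool.Agent.Lib.MP_667609_co
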