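import Pool.Agent.Lib.MP_667609_co.Chk

/-! Finite verification. -/

namespace Pool.Agent.Lib.MP_667609_co

theorem brute6 (a : ℕ) (h1 : 150 ≤ a) (h2 : a < 200) :
    ∀ b, 1 < b → b ≤ 60 → NN (Vser a b) := by
  interval_cases a
  · exact runK_sound (t := 59) (e := 168) (c := 12) (n := 9000) (by norm_num) (by decide +kernel)
  · exact runK_sound (t := 59) (e := 169) (c := 12) (n := 9060) (by norm_num) (by decide +kernel)
  · exact runK_sound (t := 59) (e := 169) (c := 12) (n := 9120) (by norm_num) (by decide +kernel)
  · exact runK_sound (t := 59) (e := 170) (c := 12) (n := 9180) (by norm_num) (by decide +kernel)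
  · exact runK_sound (t := 59) (e := 170) (c := 12) (n := 9240) (by norm_num) (by decide +kernel)
  · exact runK_sound (t := 59) (e := 170) (c := 12) (n := 9300) (by norm_num) (by decide +kernel)
  · exact runK_sound (t := 59) (e := 171) (c := 12) (n := 9360) (by norm_num) (by decide +kernel)
  · exact runK_sound (t := 59) (e := 171) (c := 12) (n := 9420) (by norm_num) (by decide +kernel)
  · exact runK_sound (t := 59) (e := 172) (c := 12) (n := 9480) (by norm_num) (by decide +kernel)
  · exact runK_sound (t := 59) (e := 172) (c := 12) (n := 9540) (by norm_num) (by decide +kernel)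
  · exact runK_sound (t := 59) (e := 173) (c := 12) (n := 9600) (by norm_num) (by decide +kernel)
  · exact runK_sound (t := 59) (e := 173) (c := 12) (n := 9660) (by norm_num) (by decide +kernel)
  · exact runK_sound (t := 59) (e := 174) (c := 12) (n := 9720) (by norm_num) (by decide +kernel)
  · exact runK_sound (t := 59) (e := 174) (c := 12) (n := 9780) (by norm_num) (by decide +kernel)
  · exact runK_sound (t := 59) (e := 175) (c := 12) (n := 9840) (by norm_num) (by decide +kernel)
  · exact runK_sound (t := 59) (e := 175) (c := 12) (n := 9900) (by norm_num) (by decide +kernel)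
  · exact runK_sound (t := 59) (e := 175) (c := 12) (n := 9960) (by norm_num) (by decide +kernel)
  · exact runK_sound (t := 59) (e := 176) (c := 12) (n := 10020) (by norm_num) (by decide +kernel)
  · exact runK_sound (t := 59) (e := 176) (c := 12) (n := 10080) (by norm_num) (by decide +kernel)
  · exact runK_sound (t := 59) (e := 177) (c := 12) (n := 10140) (by norm_num) (by decide +kernel)
  · exact runK_sound (t := 59) (e := 177) (c := 12) (n := 10200) (by norm_num) (by decide +kernel)
  · exact runK_sound (t := 59) (e := 178) (c := 13) (n := 10260) (by norm_num) (by decide +kernel)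
  · exact runK_sound (t := 59) (e := 178) (c := 13) (n := 10320) (by norm_num) (by decide +kernel)
  · exact runK_sound (t := 59) (e := 178) (c := 13) (n := 10380) (by norm_num) (by decide +kernel)
  · exact runK_sound (t := 59) (e := 179) (c := 13) (n := 10440) (by norm_num) (by decide +kernel)
  · exact runK_sound (t := 59) (e := 179) (c := 13) (n := 10500) (by norm_num) (by decide +kernel)
  · exact runK_sound (t := 59) (e := 180) (c := 13) (n := 10560) (by norm_num) (by decide +kernel)
  · exact runK_sound (t := 59) (e := 180) (c := 13) (n := 10620) (by norm_num) (by decide +kernel)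
  · exact runK_sound (t := 59) (e := 180) (c := 13) (n := 10680) (by norm_num) (by decide +kernel)
  · exact runK_sound (t := 59) (e := 181) (c := 13) (n := 10740) (by norm_num) (by decide +kernel)
  · exact runK_sound (t := 59) (e := 181) (c := 13) (n := 10800) (by norm_num) (by decide +kernel)
  · exact runK_sound (t := 59) (e := 182) (c := 13) (n := 10860) (by norm_num) (by decide +kernel)
  · exact runK_sound (t := 59) (e := 182) (c := 13) (n := 10920) (by norm_num) (by decide +kernel)
  · exact runK_sound (t := 59) (e := 183) (c := 13) (n := 10980) (by norm_num) (by decide +kernel)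
  · exact runK_sound (t := 59) (e := 183) (c := 13) (n := 11040) (by norm_num) (by decide +kernel)
  · exact runK_sound (t := 59) (e := 183) (c := 13) (n := 11100) (by norm_num) (by decide +kernel)
  · exact runK_sound (t := 59) (e := 184) (c := 13) (n := 11160) (by norm_num) (by decide +kernel)
  · exact runK_sound (t := 59) (e := 184) (c := 13) (n := 11220) (by norm_num) (by decide +kernel)
  · exact runK_sound (t := 59) (e := 184) (c := 13) (n := 11280) (by norm_num) (by decide +kernel)
  · exact runK_sound (t := 59) (e := 185) (c := 13) (n := 11340) (by norm_num) (by decide +kernel)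
  · exact runK_sound (t := 59) (e := 185) (c := 13) (n := 11400) (by norm_num) (by decide +kernel)
  · exact runK_sound (t := 59) (e := 186) (c := 13) (n := 11460) (by norm_num) (by decide +kernel)
  · exact runK_sound (t := 59) (e := 186) (c := 13) (n := 11520) (by norm_num) (by decide +kernel)
  · exact runK_sound (t := 59) (e := 186) (c := 13) (n := 11580) (by norm_num) (by decide +kernel)
  · exact runK_sound (t := 59) (e := 187) (c := 13) (n := 11640) (by norm_num) (by decide +kernel)
  · exact runK_sound (t := 59) (e := 187) (c := 13) (n := 11700) (by norm_num) (by decide +kernel)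
  · exact runK_sound (t := 59) (e := 188) (c := 13) (n := 11760) (by norm_num) (by decide +kernel)
  · exact runK_sound (t := 59) (e := 188) (c := 13) (n := 11820) (by norm_num) (by decide +kernel)
  · exact runK_sound (t := 59) (e := 188) (c := 13) (n := 11880) (by norm_num) (by decide +kernel)
  · exact runK_sound (t := 59) (e := 189) (c := 13) (n := 11940) (by norm_num) (by decide +kernel)

end Pool.Agent.Lib.MP_667609_co
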