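import Pool.Agent.Lib.MP_667609_co.Chk

/-! Finite verification. -/

namespace Pool.Agent.Lib.MP_667609_co

theorem brute7 (a : ℕ) (h1 : 200 ≤ a) (h2 : a < 350) :
    ∀ b, 1 < b → b ≤ 40 → NN (Vser a b) := by
  interval_cases a
  · exact runK_sound (t := 39) (e := 143) (c := 12) (n := 8000) (by norm_num) (by decide +kernel)
  · exact runK_sound (t := 39) (e := 143) (c := 12) (n := 8040) (by norm_num) (by decide +kernel)
  · exact runK_sound (t := 39) (e := 144) (c := 12) (n := 8080) (by norm_num) (by decide +kernel)
  · exact runK_sound (t := 39) (e := 144) (c := 12) (n := 8120) (by norm_num) (by decide +kernel)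
  · exact runK_sound (t := 39) (e := 144) (c := 12) (n := 8160) (by norm_num) (by decide +kernel)
  · exact runK_sound (t := 39) (e := 144) (c := 12) (n := 8200) (by norm_num) (by decide +kernel)
  · exact runK_sound (t := 39) (e := 145) (c := 12) (n := 8240) (by norm_num) (by decide +kernel)
  · exact runK_sound (t := 39) (e := 145) (c := 12) (n := 8280) (by norm_num) (by decide +kernel)
  · exact runK_sound (t := 39) (e := 145) (c := 12) (n := 8320) (by norm_num) (by decide +kernel)
  · exact runK_sound (t := 39) (e := 145) (c := 12) (n := 8360) (by norm_num) (by decide +kernel)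
  · exact runK_sound (t := 39) (e := 146) (c := 12) (n := 8400) (by norm_num) (by decide +kernel)
  · exact runK_sound (t := 39) (e := 146) (c := 12) (n := 8440) (by norm_num) (by decide +kernel)
  · exact runK_sound (t := 39) (e := 146) (c := 12) (n := 8480) (by norm_num) (by decide +kernel)
  · exact runK_sound (t := 39) (e := 146) (c := 12) (n := 8520) (by norm_num) (by decide +kernel)
  · exact runK_sound (t := 39) (e := 146) (c := 12) (n := 8560) (by norm_num) (by decide +kernel)
  · exact runK_sound (t := 39) (e := 147) (c := 12) (n := 8600) (by norm_num) (by decide +kernel)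
  · exact runK_sound (t := 39) (e := 147) (c := 12) (n := 8640) (by norm_num) (by decide +kernel)
  · exact runK_sound (t := 39) (e := 147) (c := 12) (n := 8680) (by norm_num) (by decide +kernel)
  · exact runK_sound (t := 39) (e := 147) (c := 12) (n := 8720) (by norm_num) (by decide +kernel)
  · exact runK_sound (t := 39) (e := 148) (c := 12) (n := 8760) (by norm_num) (by decide +kernel)
  · exact runK_sound (t := 39) (e := 148) (c := 12) (n := 8800) (by norm_num) (by decide +kernel)
  · exact runK_sound (t := 39) (e := 148) (c := 12) (n := 8840) (by norm_num) (by decide +kernel)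
  · exact runK_sound (t := 39) (e := 148) (c := 12) (n := 8880) (by norm_num) (by decide +kernel)
  · exact runK_sound (t := 39) (e := 149) (c := 12) (n := 8920) (by norm_num) (by decide +kernel)
  · exact runK_sound (t := 39) (e := 149) (c := 12) (n := 8960) (by norm_num) (by decide +kernel)
  · exact runK_sound (t := 39) (e := 149) (c := 12) (n := 9000) (by norm_num) (by decide +kernel)
  · exact runK_sound (t := 39) (e := 149) (c := 12) (n := 9040) (by norm_num) (by decide +kernel)
  · exact runK_sound (t := 39) (e := 150) (c := 12) (n := 9080) (by norm_num) (by decide +kernel)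
  · exact runK_sound (t := 39) (e := 150) (c := 12) (n := 9120) (by norm_num) (by decide +kernel)
  · exact runK_sound (t := 39) (e := 150) (c := 12) (n := 9160) (by norm_num) (by decide +kernel)
  · exact runK_sound (t := 39) (e := 150) (c := 12) (n := 9200) (by norm_num) (by decide +kernel)
  · exact runK_sound (t := 39) (e := 150) (c := 12) (n := 9240) (by norm_num) (by decide +kernel)
  · exact runK_sound (t := 39) (e := 151) (c := 12) (n := 9280) (by norm_num) (by decide +kernel)
  · exact runK_sound (t := 39) (e := 151) (c := 12) (n := 9320) (by norm_num) (by decide +kernel)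
  · exact runK_sound (t := 39) (e := 151) (c := 12) (n := 9360) (by norm_num) (by decide +kernel)
  · exact runK_sound (t := 39) (e := 151) (c := 12) (n := 9400) (by norm_num) (by decide +kernel)
  · exact runK_sound (t := 39) (e := 152) (c := 12) (n := 9440) (by norm_num) (by decide +kernel)
  · exact runK_sound (t := 39) (e := 152) (c := 12) (n := 9480) (by norm_num) (by decide +kernel)
  · exact runK_sound (t := 39) (e := 152) (c := 12) (n := 9520) (by norm_num) (by decide +kernel)
  · exact runK_sound (t := 39) (e := 152) (c := 12) (n := 9560) (by norm_num) (by decide +kernel)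
  · exact runK_sound (t := 39) (e := 152) (c := 12) (n := 9600) (by norm_num) (by decide +kernel)
  · exact runK_sound (t := 39) (e := 153) (c := 12) (n := 9640) (by norm_num) (by decide +kernel)
  · exact runK_sound (t := 39) (e := 153) (c := 12) (n := 9680) (by norm_num) (by decide +kernel)
  · exact runK_sound (t := 39) (e := 153) (c := 12) (n := 9720) (by norm_num) (by decide +kernel)
  · exact runK_sound (t := 39) (e := 153) (c := 12) (n := 9760) (by norm_num) (by decide +kernel)
  · exact runK_sound (t := 39) (e := 153) (c := 12) (n := 9800) (by norm_num) (by decide +kernel)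
  · exact runK_sound (t := 39) (e := 154) (c := 12) (n := 9840) (by norm_num) (by decide +kernel)
  · exact runK_sound (t := 39) (e := 154) (c := 12) (n := 9880) (by norm_num) (by decide +kernel)
  · exact runK_sound (t := 39) (e := 154) (c := 12) (n := 9920) (by norm_num) (by decide +kernel)
  · exact runK_sound (t := 39) (e := 154) (c := 12) (n := 9960) (by norm_num) (by decide +kernel)
  · exact runK_sound (t := 39) (e := 155) (c := 12) (n := 10000) (by norm_num) (by decide +kernel)
  · exact runK_sound (t := 39) (e := 155) (c := 12) (n := 10040) (by norm_num) (by decide +kernel)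
  · exact runK_sound (t := 39) (e := 155) (c := 12) (n := 10080) (by norm_num) (by decide +kernel)
  · exact runK_sound (t := 39) (e := 155) (c := 12) (n := 10120) (by norm_num) (by decide +kernel)
  · exact runK_sound (t := 39) (e := 155) (c := 12) (n := 10160) (by norm_num) (by decide +kernel)
  · exact runK_sound (t := 39) (e := 156) (c := 12) (n := 10200) (by norm_num) (by decide +kernel)
  · exact runK_sound (t := 39) (e := 156) (c := 13) (n := 10240) (by norm_num) (by decide +kernel)
  · exact runK_sound (t := 39) (e := 156) (c := 13) (n := 10280) (by norm_num) (by decide +kernel)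
  · exact runK_sound (t := 39) (e := 156) (c := 13) (n := 10320) (by norm_num) (by decide +kernel)
  · exact runK_sound (t := 39) (e := 156) (c := 13) (n := 10360) (by norm_num) (by decide +kernel)
  · exact runK_sound (t := 39) (e := 157) (c := 13) (n := 10400) (by norm_num) (by decide +kernel)
  · exact runK_sound (t := 39) (e := 157) (c := 13) (n := 10440) (by norm_num) (by decide +kernel)
  · exact runK_sound (t := 39) (e := 157) (c := 13) (n := 10480) (by norm_num) (by decide +kernel)
  · exact runK_sound (t := 39) (e := 157) (c := 13) (n := 10520) (by norm_num) (by decide +kernel)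
  · exact runK_sound (t := 39) (e := 157) (c := 13) (n := 10560) (by norm_num) (by decide +kernel)
  · exact runK_sound (t := 39) (e := 158) (c := 13) (n := 10600) (by norm_num) (by decide +kernel)
  · exact runK_sound (t := 39) (e := 158) (c := 13) (n := 10640) (by norm_num) (by decide +kernel)
  · exact runK_sound (t := 39) (e := 158) (c := 13) (n := 10680) (by norm_num) (by decide +kernel)
  · exact runK_sound (t := 39) (e := 158) (c := 13) (n := 10720) (by norm_num) (by decide +kernel)
  · exact runK_sound (t := 39) (e := 158) (c := 13) (n := 10760) (by norm_num) (by decide +kernel)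
  · exact runK_sound (t := 39) (e := 159) (c := 13) (n := 10800) (by norm_num) (by decide +kernel)
  · exact runK_sound (t := 39) (e := 159) (c := 13) (n := 10840) (by norm_num) (by decide +kernel)
  · exact runK_sound (t := 39) (e := 159) (c := 13) (n := 10880) (by norm_num) (by decide +kernel)
  · exact runK_sound (t := 39) (e := 159) (c := 13) (n := 10920) (by norm_num) (by decide +kernel)
  · exact runK_sound (t := 39) (e := 159) (c := 13) (n := 10960) (by norm_num) (by decide +kernel)
  · exact runK_sound (t := 39) (e := 160) (c := 13) (n := 11000) (by norm_num) (by decide +kernel)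
  · exact runK_sound (t := 39) (e := 160) (c := 13) (n := 11040) (by norm_num) (by decide +kernel)
  · exact runK_sound (t := 39) (e := 160) (c := 13) (n := 11080) (by norm_num) (by decide +kernel)
  · exact runK_sound (t := 39) (e := 160) (c := 13) (n := 11120) (by norm_num) (by decide +kernel)
  · exact runK_sound (t := 39) (e := 160) (c := 13) (n := 11160) (by norm_num) (by decide +kernel)
  · exact runK_sound (t := 39) (e := 160) (c := 13) (n := 11200) (by norm_num) (by decide +kernel)
  · exact runK_sound (t := 39) (e := 161) (c := 13) (n := 11240) (by norm_num) (by decide +kernel)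
  · exact runK_sound (t := 39) (e := 161) (c := 13) (n := 11280) (by norm_num) (by decide +kernel)
  · exact runK_sound (t := 39) (e := 161) (c := 13) (n := 11320) (by norm_num) (by decide +kernel)
  · exact runK_sound (t := 39) (e := 161) (c := 13) (n := 11360) (by norm_num) (by decide +kernel)
  · exact runK_sound (t := 39) (e := 161) (c := 13) (n := 11400) (by norm_num) (by decide +kernel)
  · exact runK_sound (t := 39) (e := 162) (c := 13) (n := 11440) (by norm_num) (by decide +kernel)
  · exact runK_sound (t := 39) (e := 162) (c := 13) (n := 11480) (by norm_num) (by decide +kernel)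
  · exact runK_sound (t := 39) (e := 162) (c := 13) (n := 11520) (by norm_num) (by decide +kernel)
  · exact runK_sound (t := 39) (e := 162) (c := 13) (n := 11560) (by norm_num) (by decide +kernel)
  · exact runK_sound (t := 39) (e := 162) (c := 13) (n := 11600) (by norm_num) (by decide +kernel)
  · exact runK_sound (t := 39) (e := 162) (c := 13) (n := 11640) (by norm_num) (by decide +kernel)
  · exact runK_sound (t := 39) (e := 163) (c := 13) (n := 11680) (by norm_num) (by decide +kernel)
  · exact runK_sound (t := 39) (e := 163) (c := 13) (n := 11720) (by norm_num) (by decide +kernel)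
  · exact runK_sound (t := 39) (e := 163) (c := 13) (n := 11760) (by norm_num) (by decide +kernel)
  · exact runK_sound (t := 39) (e := 163) (c := 13) (n := 11800) (by norm_num) (by decide +kernel)
  · exact runK_sound (t := 39) (e := 163) (c := 13) (n := 11840) (by norm_num) (by decide +kernel)
  · exact runK_sound (t := 39) (e := 164) (c := 13) (n := 11880) (by norm_num) (by decide +kernel)
  · exact runK_sound (t := 39) (e := 164) (c := 13) (n := 11920) (by norm_num) (by decide +kernel)
  · exact runK_sound (t := 39) (e := 164) (c := 13) (n := 11960) (by norm_num) (by decide +kernel)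
  · exact runK_sound (t := 39) (e := 164) (c := 13) (n := 12000) (by norm_num) (by decide +kernel)
  · exact runK_sound (t := 39) (e := 164) (c := 13) (n := 12040) (by norm_num) (by decide +kernel)
  · exact runK_sound (t := 39) (e := 164) (c := 13) (n := 12080) (by norm_num) (by decide +kernel)
  · exact runK_sound (t := 39) (e := 165) (c := 13) (n := 12120) (by norm_num) (by decide +kernel)
  · exact runK_sound (t := 39) (e := 165) (c := 13) (n := 12160) (by norm_num) (by decide +kernel)
  · exact runK_sound (t := 39) (e := 165) (c := 13) (n := 12200) (by norm_num) (by decide +kernel)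
  · exact runK_sound (t := 39) (e := 165) (c := 13) (n := 12240) (by norm_num) (by decide +kernel)
  · exact runK_sound (t := 39) (e := 165) (c := 13) (n := 12280) (by norm_num) (by decide +kernel)
  · exact runK_sound (t := 39) (e := 165) (c := 13) (n := 12320) (by norm_num) (by decide +kernel)
  · exact runK_sound (t := 39) (e := 166) (c := 13) (n := 12360) (by norm_num) (by decide +kernel)
  · exact runK_sound (t := 39) (e := 166) (c := 13) (n := 12400) (by norm_num) (by decide +kernel)
  · exact runK_sound (t := 39) (e := 166) (c := 13) (n := 12440) (by norm_num) (by decide +kernel)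
  · exact runK_sound (t := 39) (e := 166) (c := 13) (n := 12480) (by norm_num) (by decide +kernel)
  · exact runK_sound (t := 39) (e := 166) (c := 13) (n := 12520) (by norm_num) (by decide +kernel)
  · exact runK_sound (t := 39) (e := 167) (c := 13) (n := 12560) (by norm_num) (by decide +kernel)
  · exact runK_sound (t := 39) (e := 167) (c := 13) (n := 12600) (by norm_num) (by decide +kernel)
  · exact runK_sound (t := 39) (e := 167) (c := 13) (n := 12640) (by norm_num) (by decide +kernel)
  · exact runK_sound (t := 39) (e := 167) (c := 13) (n := 12680) (by norm_num) (by decide +kernel)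
  · exact runK_sound (t := 39) (e := 167) (c := 13) (n := 12720) (by norm_num) (by decide +kernel)
  · exact runK_sound (t := 39) (e := 167) (c := 13) (n := 12760) (by norm_num) (by decide +kernel)
  · exact runK_sound (t := 39) (e := 168) (c := 13) (n := 12800) (by norm_num) (by decide +kernel)
  · exact runK_sound (t := 39) (e := 168) (c := 13) (n := 12840) (by norm_num) (by decide +kernel)
  · exact runK_sound (t := 39) (e := 168) (c := 13) (n := 12880) (by norm_num) (by decide +kernel)
  · exact runK_sound (t := 39) (e := 168) (c := 13) (n := 12920) (by norm_num) (by decide +kernel)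
  · exact runK_sound (t := 39) (e := 168) (c := 13) (n := 12960) (by norm_num) (by decide +kernel)
  · exact runK_sound (t := 39) (e := 168) (c := 13) (n := 13000) (by norm_num) (by decide +kernel)
  · exact runK_sound (t := 39) (e := 168) (c := 13) (n := 13040) (by norm_num) (by decide +kernel)
  · exact runK_sound (t := 39) (e := 169) (c := 13) (n := 13080) (by norm_num) (by decide +kernel)
  · exact runK_sound (t := 39) (e := 169) (c := 13) (n := 13120) (by norm_num) (by decide +kernel)
  · exact runK_sound (t := 39) (e := 169) (c := 13) (n := 13160) (by norm_num) (by decide +kernel)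
  · exact runK_sound (t := 39) (e := 169) (c := 13) (n := 13200) (by norm_num) (by decide +kernel)
  · exact runK_sound (t := 39) (e := 169) (c := 13) (n := 13240) (by norm_num) (by decide +kernel)
  · exact runK_sound (t := 39) (e := 169) (c := 13) (n := 13280) (by norm_num) (by decide +kernel)
  · exact runK_sound (t := 39) (e := 170) (c := 13) (n := 13320) (by norm_num) (by decide +kernel)
  · exact runK_sound (t := 39) (e := 170) (c := 13) (n := 13360) (by norm_num) (by decide +kernel)
  · exact runK_sound (t := 39) (e := 170) (c := 13) (n := 13400) (by norm_num) (by decide +kernel)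
  · exact runK_sound (t := 39) (e := 170) (c := 13) (n := 13440) (by norm_num) (by decide +kernel)
  · exact runK_sound (t := 39) (e := 170) (c := 13) (n := 13480) (by norm_num) (by decide +kernel)
  · exact runK_sound (t := 39) (e := 170) (c := 13) (n := 13520) (by norm_num) (by decide +kernel)
  · exact runK_sound (t := 39) (e := 171) (c := 13) (n := 13560) (by norm_num) (by decide +kernel)
  · exact runK_sound (t := 39) (e := 171) (c := 13) (n := 13600) (by norm_num) (by decide +kernel)
  · exact runK_sound (t := 39) (e := 171) (c := 13) (n := 13640) (by norm_num) (by decide +kernel)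
  · exact runK_sound (t := 39) (e := 171) (c := 13) (n := 13680) (by norm_num) (by decide +kernel)
  · exact runK_sound (t := 39) (e := 171) (c := 13) (n := 13720) (by norm_num) (by decide +kernel)
  · exact runK_sound (t := 39) (e := 171) (c := 13) (n := 13760) (by norm_num) (by decide +kernel)
  · exact runK_sound (t := 39) (e := 172) (c := 13) (n := 13800) (by norm_num) (by decide +kernel)
  · exact runK_sound (t := 39) (e := 172) (c := 13) (n := 13840) (by norm_num) (by decide +kernel)
  · exact runK_sound (t := 39) (e := 172) (c := 13) (n := 13880) (by norm_num) (by decide +kernel)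
  · exact runK_sound (t := 39) (e := 172) (c := 13) (n := 13920) (by norm_num) (by decide +kernel)
  · exact runK_sound (t := 39) (e := 172) (c := 13) (n := 13960) (by norm_num) (by decide +kernel)

end Pool.Agent.Lib.MP_667609_co
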