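import Pool.Agent.Lib.MP_667609_co.Chk

/-! Finite verification. -/

namespace Pool.Agent.Lib.MP_667609_co

theorem brute8 (a : ℕ) (h1 : 350 ≤ a) (h2 : a < 600) :
    ∀ b, 1 < b → b ≤ 21 → NN (Vser a b) := by
  interval_cases a
  · exact runK_sound (t := 20) (e := 104) (c := 12) (n := 7350) (by norm_num) (by decide +kernel)
  · exact runK_sound (t := 20) (e := 104) (c := 12) (n := 7371) (by norm_num) (by decide +kernel)
  · exact runK_sound (t := 20) (e := 104) (c := 12) (n := 7392) (by norm_num) (by decide +kernel)
  · exact runK_sound (t := 20) (e := 104) (c := 12) (n := 7413) (by norm_num) (by decide +kernel)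
  · exact runK_sound (t := 20) (e := 104) (c := 12) (n := 7434) (by norm_num) (by decide +kernel)
  · exact runK_sound (t := 20) (e := 104) (c := 12) (n := 7455) (by norm_num) (by decide +kernel)
  · exact runK_sound (t := 20) (e := 104) (c := 12) (n := 7476) (by norm_num) (by decide +kernel)
  · exact runK_sound (t := 20) (e := 104) (c := 12) (n := 7497) (by norm_num) (by decide +kernel)
  · exact runK_sound (t := 20) (e := 104) (c := 12) (n := 7518) (by norm_num) (by decide +kernel)
  · exact runK_sound (t := 20) (e := 104) (c := 12) (n := 7539) (by norm_num) (by decide +kernel)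
  · exact runK_sound (t := 20) (e := 104) (c := 12) (n := 7560) (by norm_num) (by decide +kernel)
  · exact runK_sound (t := 20) (e := 104) (c := 12) (n := 7581) (by norm_num) (by decide +kernel)
  · exact runK_sound (t := 20) (e := 104) (c := 12) (n := 7602) (by norm_num) (by decide +kernel)
  · exact runK_sound (t := 20) (e := 105) (c := 12) (n := 7623) (by norm_num) (by decide +kernel)
  · exact runK_sound (t := 20) (e := 105) (c := 12) (n := 7644) (by norm_num) (by decide +kernel)
  · exact runK_sound (t := 20) (e := 105) (c := 12) (n := 7665) (by norm_num) (by decide +kernel)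
  · exact runK_sound (t := 20) (e := 105) (c := 12) (n := 7686) (by norm_num) (by decide +kernel)
  · exact runK_sound (t := 20) (e := 105) (c := 12) (n := 7707) (by norm_num) (by decide +kernel)
  · exact runK_sound (t := 20) (e := 105) (c := 12) (n := 7728) (by norm_num) (by decide +kernel)
  · exact runK_sound (t := 20) (e := 105) (c := 12) (n := 7749) (by norm_num) (by decide +kernel)
  · exact runK_sound (t := 20) (e := 105) (c := 12) (n := 7770) (by norm_num) (by decide +kernel)
  · exact runK_sound (t := 20) (e := 105) (c := 12) (n := 7791) (by norm_num) (by decide +kernel)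
  · exact runK_sound (t := 20) (e := 105) (c := 12) (n := 7812) (by norm_num) (by decide +kernel)
  · exact runK_sound (t := 20) (e := 105) (c := 12) (n := 7833) (by norm_num) (by decide +kernel)
  · exact runK_sound (t := 20) (e := 105) (c := 12) (n := 7854) (by norm_num) (by decide +kernel)
  · exact runK_sound (t := 20) (e := 105) (c := 12) (n := 7875) (by norm_num) (by decide +kernel)
  · exact runK_sound (t := 20) (e := 106) (c := 12) (n := 7896) (by norm_num) (by decide +kernel)
  · exact runK_sound (t := 20) (e := 106) (c := 12) (n := 7917) (by norm_num) (by decide +kernel)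
  · exact runK_sound (t := 20) (e := 106) (c := 12) (n := 7938) (by norm_num) (by decide +kernel)
  · exact runK_sound (t := 20) (e := 106) (c := 12) (n := 7959) (by norm_num) (by decide +kernel)
  · exact runK_sound (t := 20) (e := 106) (c := 12) (n := 7980) (by norm_num) (by decide +kernel)
  · exact runK_sound (t := 20) (e := 106) (c := 12) (n := 8001) (by norm_num) (by decide +kernel)
  · exact runK_sound (t := 20) (e := 106) (c := 12) (n := 8022) (by norm_num) (by decide +kernel)
  · exact runK_sound (t := 20) (e := 106) (c := 12) (n := 8043) (by norm_num) (by decide +kernel)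
  · exact runK_sound (t := 20) (e := 106) (c := 12) (n := 8064) (by norm_num) (by decide +kernel)
  · exact runK_sound (t := 20) (e := 106) (c := 12) (n := 8085) (by norm_num) (by decide +kernel)
  · exact runK_sound (t := 20) (e := 106) (c := 12) (n := 8106) (by norm_num) (by decide +kernel)
  · exact runK_sound (t := 20) (e := 106) (c := 12) (n := 8127) (by norm_num) (by decide +kernel)
  · exact runK_sound (t := 20) (e := 106) (c := 12) (n := 8148) (by norm_num) (by decide +kernel)
  · exact runK_sound (t := 20) (e := 107) (c := 12) (n := 8169) (by norm_num) (by decide +kernel)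
  · exact runK_sound (t := 20) (e := 107) (c := 12) (n := 8190) (by norm_num) (by decide +kernel)
  · exact runK_sound (t := 20) (e := 107) (c := 12) (n := 8211) (by norm_num) (by decide +kernel)
  · exact runK_sound (t := 20) (e := 107) (c := 12) (n := 8232) (by norm_num) (by decide +kernel)
  · exact runK_sound (t := 20) (e := 107) (c := 12) (n := 8253) (by norm_num) (by decide +kernel)
  · exact runK_sound (t := 20) (e := 107) (c := 12) (n := 8274) (by norm_num) (by decide +kernel)
  · exact runK_sound (t := 20) (e := 107) (c := 12) (n := 8295) (by norm_num) (by decide +kernel)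
  · exact runK_sound (t := 20) (e := 107) (c := 12) (n := 8316) (by norm_num) (by decide +kernel)
  · exact runK_sound (t := 20) (e := 107) (c := 12) (n := 8337) (by norm_num) (by decide +kernel)
  · exact runK_sound (t := 20) (e := 107) (c := 12) (n := 8358) (by norm_num) (by decide +kernel)
  · exact runK_sound (t := 20) (e := 107) (c := 12) (n := 8379) (by norm_num) (by decide +kernel)
  · exact runK_sound (t := 20) (e := 107) (c := 12) (n := 8400) (by norm_num) (by decide +kernel)
  · exact runK_sound (t := 20) (e := 107) (c := 12) (n := 8421) (by norm_num) (by decide +kernel)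
  · exact runK_sound (t := 20) (e := 107) (c := 12) (n := 8442) (by norm_num) (by decide +kernel)
  · exact runK_sound (t := 20) (e := 108) (c := 12) (n := 8463) (by norm_num) (by decide +kernel)
  · exact runK_sound (t := 20) (e := 108) (c := 12) (n := 8484) (by norm_num) (by decide +kernel)
  · exact runK_sound (t := 20) (e := 108) (c := 12) (n := 8505) (by norm_num) (by decide +kernel)
  · exact runK_sound (t := 20) (e := 108) (c := 12) (n := 8526) (by norm_num) (by decide +kernel)
  · exact runK_sound (t := 20) (e := 108) (c := 12) (n := 8547) (by norm_num) (by decide +kernel)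
  · exact runK_sound (t := 20) (e := 108) (c := 12) (n := 8568) (by norm_num) (by decide +kernel)
  · exact runK_sound (t := 20) (e := 108) (c := 12) (n := 8589) (by norm_num) (by decide +kernel)
  · exact runK_sound (t := 20) (e := 108) (c := 12) (n := 8610) (by norm_num) (by decide +kernel)
  · exact runK_sound (t := 20) (e := 108) (c := 12) (n := 8631) (by norm_num) (by decide +kernel)
  · exact runK_sound (t := 20) (e := 108) (c := 12) (n := 8652) (by norm_num) (by decide +kernel)
  · exact runK_sound (t := 20) (e := 108) (c := 12) (n := 8673) (by norm_num) (by decide +kernel)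
  · exact runK_sound (t := 20) (e := 108) (c := 12) (n := 8694) (by norm_num) (by decide +kernel)
  · exact runK_sound (t := 20) (e := 108) (c := 12) (n := 8715) (by norm_num) (by decide +kernel)
  · exact runK_sound (t := 20) (e := 108) (c := 12) (n := 8736) (by norm_num) (by decide +kernel)
  · exact runK_sound (t := 20) (e := 108) (c := 12) (n := 8757) (by norm_num) (by decide +kernel)
  · exact runK_sound (t := 20) (e := 109) (c := 12) (n := 8778) (by norm_num) (by decide +kernel)
  · exact runK_sound (t := 20) (e := 109) (c := 12) (n := 8799) (by norm_num) (by decide +kernel)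
  · exact runK_sound (t := 20) (e := 109) (c := 12) (n := 8820) (by norm_num) (by decide +kernel)
  · exact runK_sound (t := 20) (e := 109) (c := 12) (n := 8841) (by norm_num) (by decide +kernel)
  · exact runK_sound (t := 20) (e := 109) (c := 12) (n := 8862) (by norm_num) (by decide +kernel)
  · exact runK_sound (t := 20) (e := 109) (c := 12) (n := 8883) (by norm_num) (by decide +kernel)
  · exact runK_sound (t := 20) (e := 109) (c := 12) (n := 8904) (by norm_num) (by decide +kernel)
  · exact runK_sound (t := 20) (e := 109) (c := 12) (n := 8925) (by norm_num) (by decide +kernel)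
  · exact runK_sound (t := 20) (e := 109) (c := 12) (n := 8946) (by norm_num) (by decide +kernel)
  · exact runK_sound (t := 20) (e := 109) (c := 12) (n := 8967) (by norm_num) (by decide +kernel)
  · exact runK_sound (t := 20) (e := 109) (c := 12) (n := 8988) (by norm_num) (by decide +kernel)
  · exact runK_sound (t := 20) (e := 109) (c := 12) (n := 9009) (by norm_num) (by decide +kernel)
  · exact runK_sound (t := 20) (e := 109) (c := 12) (n := 9030) (by norm_num) (by decide +kernel)
  · exact runK_sound (t := 20) (e := 109) (c := 12) (n := 9051) (by norm_num) (by decide +kernel)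
  · exact runK_sound (t := 20) (e := 109) (c := 12) (n := 9072) (by norm_num) (by decide +kernel)
  · exact runK_sound (t := 20) (e := 110) (c := 12) (n := 9093) (by norm_num) (by decide +kernel)
  · exact runK_sound (t := 20) (e := 110) (c := 12) (n := 9114) (by norm_num) (by decide +kernel)
  · exact runK_sound (t := 20) (e := 110) (c := 12) (n := 9135) (by norm_num) (by decide +kernel)
  · exact runK_sound (t := 20) (e := 110) (c := 12) (n := 9156) (by norm_num) (by decide +kernel)
  · exact runK_sound (t := 20) (e := 110) (c := 12) (n := 9177) (by norm_num) (by decide +kernel)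
  · exact runK_sound (t := 20) (e := 110) (c := 12) (n := 9198) (by norm_num) (by decide +kernel)
  · exact runK_sound (t := 20) (e := 110) (c := 12) (n := 9219) (by norm_num) (by decide +kernel)
  · exact runK_sound (t := 20) (e := 110) (c := 12) (n := 9240) (by norm_num) (by decide +kernel)
  · exact runK_sound (t := 20) (e := 110) (c := 12) (n := 9261) (by norm_num) (by decide +kernel)
  · exact runK_sound (t := 20) (e := 110) (c := 12) (n := 9282) (by norm_num) (by decide +kernel)
  · exact runK_sound (t := 20) (e := 110) (c := 12) (n := 9303) (by norm_num) (by decide +kernel)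
  · exact runK_sound (t := 20) (e := 110) (c := 12) (n := 9324) (by norm_num) (by decide +kernel)
  · exact runK_sound (t := 20) (e := 110) (c := 12) (n := 9345) (by norm_num) (by decide +kernel)
  · exact runK_sound (t := 20) (e := 110) (c := 12) (n := 9366) (by norm_num) (by decide +kernel)
  · exact runK_sound (t := 20) (e := 110) (c := 12) (n := 9387) (by norm_num) (by decide +kernel)
  · exact runK_sound (t := 20) (e := 110) (c := 12) (n := 9408) (by norm_num) (by decide +kernel)
  · exact runK_sound (t := 20) (e := 111) (c := 12) (n := 9429) (by norm_num) (by decide +kernel)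
  · exact runK_sound (t := 20) (e := 111) (c := 12) (n := 9450) (by norm_num) (by decide +kernel)
  · exact runK_sound (t := 20) (e := 111) (c := 12) (n := 9471) (by norm_num) (by decide +kernel)
  · exact runK_sound (t := 20) (e := 111) (c := 12) (n := 9492) (by norm_num) (by decide +kernel)
  · exact runK_sound (t := 20) (e := 111) (c := 12) (n := 9513) (by norm_num) (by decide +kernel)
  · exact runK_sound (t := 20) (e := 111) (c := 12) (n := 9534) (by norm_num) (by decide +kernel)
  · exact runK_sound (t := 20) (e := 111) (c := 12) (n := 9555) (by norm_num) (by decide +kernel)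
  · exact runK_sound (t := 20) (e := 111) (c := 12) (n := 9576) (by norm_num) (by decide +kernel)
  · exact runK_sound (t := 20) (e := 111) (c := 12) (n := 9597) (by norm_num) (by decide +kernel)
  · exact runK_sound (t := 20) (e := 111) (c := 12) (n := 9618) (by norm_num) (by decide +kernel)
  · exact runK_sound (t := 20) (e := 111) (c := 12) (n := 9639) (by norm_num) (by decide +kernel)
  · exact runK_sound (t := 20) (e := 111) (c := 12) (n := 9660) (by norm_num) (by decide +kernel)
  · exact runK_sound (t := 20) (e := 111) (c := 12) (n := 9681) (by norm_num) (by decide +kernel)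
  · exact runK_sound (t := 20) (e := 111) (c := 12) (n := 9702) (by norm_num) (by decide +kernel)
  · exact runK_sound (t := 20) (e := 111) (c := 12) (n := 9723) (by norm_num) (by decide +kernel)
  · exact runK_sound (t := 20) (e := 111) (c := 12) (n := 9744) (by norm_num) (by decide +kernel)
  · exact runK_sound (t := 20) (e := 112) (c := 12) (n := 9765) (by norm_num) (by decide +kernel)
  · exact runK_sound (t := 20) (e := 112) (c := 12) (n := 9786) (by norm_num) (by decide +kernel)
  · exact runK_sound (t := 20) (e := 112) (c := 12) (n := 9807) (by norm_num) (by decide +kernel)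
  · exact runK_sound (t := 20) (e := 112) (c := 12) (n := 9828) (by norm_num) (by decide +kernel)
  · exact runK_sound (t := 20) (e := 112) (c := 12) (n := 9849) (by norm_num) (by decide +kernel)
  · exact runK_sound (t := 20) (e := 112) (c := 12) (n := 9870) (by norm_num) (by decide +kernel)
  · exact runK_sound (t := 20) (e := 112) (c := 12) (n := 9891) (by norm_num) (by decide +kernel)
  · exact runK_sound (t := 20) (e := 112) (c := 12) (n := 9912) (by norm_num) (by decide +kernel)
  · exact runK_sound (t := 20) (e := 112) (c := 12) (n := 9933) (by norm_num) (by decide +kernel)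
  · exact runK_sound (t := 20) (e := 112) (c := 12) (n := 9954) (by norm_num) (by decide +kernel)
  · exact runK_sound (t := 20) (e := 112) (c := 12) (n := 9975) (by norm_num) (by decide +kernel)
  · exact runK_sound (t := 20) (e := 112) (c := 12) (n := 9996) (by norm_num) (by decide +kernel)
  · exact runK_sound (t := 20) (e := 112) (c := 12) (n := 10017) (by norm_num) (by decide +kernel)
  · exact runK_sound (t := 20) (e := 112) (c := 12) (n := 10038) (by norm_num) (by decide +kernel)
  · exact runK_sound (t := 20) (e := 112) (c := 12) (n := 10059) (by norm_num) (by decide +kernel)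
  · exact runK_sound (t := 20) (e := 112) (c := 12) (n := 10080) (by norm_num) (by decide +kernel)
  · exact runK_sound (t := 20) (e := 112) (c := 12) (n := 10101) (by norm_num) (by decide +kernel)
  · exact runK_sound (t := 20) (e := 113) (c := 12) (n := 10122) (by norm_num) (by decide +kernel)
  · exact runK_sound (t := 20) (e := 113) (c := 12) (n := 10143) (by norm_num) (by decide +kernel)
  · exact runK_sound (t := 20) (e := 113) (c := 12) (n := 10164) (by norm_num) (by decide +kernel)
  · exact runK_sound (t := 20) (e := 113) (c := 12) (n := 10185) (by norm_num) (by decide +kernel)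
  · exact runK_sound (t := 20) (e := 113) (c := 12) (n := 10206) (by norm_num) (by decide +kernel)
  · exact runK_sound (t := 20) (e := 113) (c := 12) (n := 10227) (by norm_num) (by decide +kernel)
  · exact runK_sound (t := 20) (e := 113) (c := 13) (n := 10248) (by norm_num) (by decide +kernel)
  · exact runK_sound (t := 20) (e := 113) (c := 13) (n := 10269) (by norm_num) (by decide +kernel)
  · exact runK_sound (t := 20) (e := 113) (c := 13) (n := 10290) (by norm_num) (by decide +kernel)
  · exact runK_sound (t := 20) (e := 113) (c := 13) (n := 10311) (by norm_num) (by decide +kernel)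
  · exact runK_sound (t := 20) (e := 113) (c := 13) (n := 10332) (by norm_num) (by decide +kernel)
  · exact runK_sound (t := 20) (e := 113) (c := 13) (n := 10353) (by norm_num) (by decide +kernel)
  · exact runK_sound (t := 20) (e := 113) (c := 13) (n := 10374) (by norm_num) (by decide +kernel)
  · exact runK_sound (t := 20) (e := 113) (c := 13) (n := 10395) (by norm_num) (by decide +kernel)
  · exact runK_sound (t := 20) (e := 113) (c := 13) (n := 10416) (by norm_num) (by decide +kernel)
  · exact runK_sound (t := 20) (e := 113) (c := 13) (n := 10437) (by norm_num) (by decide +kernel)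
  · exact runK_sound (t := 20) (e := 113) (c := 13) (n := 10458) (by norm_num) (by decide +kernel)
  · exact runK_sound (t := 20) (e := 114) (c := 13) (n := 10479) (by norm_num) (by decide +kernel)
  · exact runK_sound (t := 20) (e := 114) (c := 13) (n := 10500) (by norm_num) (by decide +kernel)
  · exact runK_sound (t := 20) (e := 114) (c := 13) (n := 10521) (by norm_num) (by decide +kernel)
  · exact runK_sound (t := 20) (e := 114) (c := 13) (n := 10542) (by norm_num) (by decide +kernel)
  · exact runK_sound (t := 20) (e := 114) (c := 13) (n := 10563) (by norm_num) (by decide +kernel)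
  · exact runK_sound (t := 20) (e := 114) (c := 13) (n := 10584) (by norm_num) (by decide +kernel)
  · exact runK_sound (t := 20) (e := 114) (c := 13) (n := 10605) (by norm_num) (by decide +kernel)
  · exact runK_sound (t := 20) (e := 114) (c := 13) (n := 10626) (by norm_num) (by decide +kernel)
  · exact runK_sound (t := 20) (e := 114) (c := 13) (n := 10647) (by norm_num) (by decide +kernel)
  · exact runK_sound (t := 20) (e := 114) (c := 13) (n := 10668) (by norm_num) (by decide +kernel)
  · exact runK_sound (t := 20) (e := 114) (c := 13) (n := 10689) (by norm_num) (by decide +kernel)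
  · exact runK_sound (t := 20) (e := 114) (c := 13) (n := 10710) (by norm_num) (by decide +kernel)
  · exact runK_sound (t := 20) (e := 114) (c := 13) (n := 10731) (by norm_num) (by decide +kernel)
  · exact runK_sound (t := 20) (e := 114) (c := 13) (n := 10752) (by norm_num) (by decide +kernel)
  · exact runK_sound (t := 20) (e := 114) (c := 13) (n := 10773) (by norm_num) (by decide +kernel)
  · exact runK_sound (t := 20) (e := 114) (c := 13) (n := 10794) (by norm_num) (by decide +kernel)
  · exact runK_sound (t := 20) (e := 114) (c := 13) (n := 10815) (by norm_num) (by decide +kernel)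
  · exact runK_sound (t := 20) (e := 114) (c := 13) (n := 10836) (by norm_num) (by decide +kernel)
  · exact runK_sound (t := 20) (e := 115) (c := 13) (n := 10857) (by norm_num) (by decide +kernel)
  · exact runK_sound (t := 20) (e := 115) (c := 13) (n := 10878) (by norm_num) (by decide +kernel)
  · exact runK_sound (t := 20) (e := 115) (c := 13) (n := 10899) (by norm_num) (by decide +kernel)
  · exact runK_sound (t := 20) (e := 115) (c := 13) (n := 10920) (by norm_num) (by decide +kernel)
  · exact runK_sound (t := 20) (e := 115) (c := 13) (n := 10941) (by norm_num) (by decide +kernel)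
  · exact runK_sound (t := 20) (e := 115) (c := 13) (n := 10962) (by norm_num) (by decide +kernel)
  · exact runK_sound (t := 20) (e := 115) (c := 13) (n := 10983) (by norm_num) (by decide +kernel)
  · exact runK_sound (t := 20) (e := 115) (c := 13) (n := 11004) (by norm_num) (by decide +kernel)
  · exact runK_sound (t := 20) (e := 115) (c := 13) (n := 11025) (by norm_num) (by decide +kernel)
  · exact runK_sound (t := 20) (e := 115) (c := 13) (n := 11046) (by norm_num) (by decide +kernel)
  · exact runK_sound (t := 20) (e := 115) (c := 13) (n := 11067) (by norm_num) (by decide +kernel)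
  · exact runK_sound (t := 20) (e := 115) (c := 13) (n := 11088) (by norm_num) (by decide +kernel)
  · exact runK_sound (t := 20) (e := 115) (c := 13) (n := 11109) (by norm_num) (by decide +kernel)
  · exact runK_sound (t := 20) (e := 115) (c := 13) (n := 11130) (by norm_num) (by decide +kernel)
  · exact runK_sound (t := 20) (e := 115) (c := 13) (n := 11151) (by norm_num) (by decide +kernel)
  · exact runK_sound (t := 20) (e := 115) (c := 13) (n := 11172) (by norm_num) (by decide +kernel)
  · exact runK_sound (t := 20) (e := 115) (c := 13) (n := 11193) (by norm_num) (by decide +kernel)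
  · exact runK_sound (t := 20) (e := 115) (c := 13) (n := 11214) (by norm_num) (by decide +kernel)
  · exact runK_sound (t := 20) (e := 115) (c := 13) (n := 11235) (by norm_num) (by decide +kernel)
  · exact runK_sound (t := 20) (e := 116) (c := 13) (n := 11256) (by norm_num) (by decide +kernel)
  · exact runK_sound (t := 20) (e := 116) (c := 13) (n := 11277) (by norm_num) (by decide +kernel)
  · exact runK_sound (t := 20) (e := 116) (c := 13) (n := 11298) (by norm_num) (by decide +kernel)
  · exact runK_sound (t := 20) (e := 116) (c := 13) (n := 11319) (by norm_num) (by decide +kernel)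
  · exact runK_sound (t := 20) (e := 116) (c := 13) (n := 11340) (by norm_num) (by decide +kernel)
  · exact runK_sound (t := 20) (e := 116) (c := 13) (n := 11361) (by norm_num) (by decide +kernel)
  · exact runK_sound (t := 20) (e := 116) (c := 13) (n := 11382) (by norm_num) (by decide +kernel)
  · exact runK_sound (t := 20) (e := 116) (c := 13) (n := 11403) (by norm_num) (by decide +kernel)
  · exact runK_sound (t := 20) (e := 116) (c := 13) (n := 11424) (by norm_num) (by decide +kernel)
  · exact runK_sound (t := 20) (e := 116) (c := 13) (n := 11445) (by norm_num) (by decide +kernel)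
  · exact runK_sound (t := 20) (e := 116) (c := 13) (n := 11466) (by norm_num) (by decide +kernel)
  · exact runK_sound (t := 20) (e := 116) (c := 13) (n := 11487) (by norm_num) (by decide +kernel)
  · exact runK_sound (t := 20) (e := 116) (c := 13) (n := 11508) (by norm_num) (by decide +kernel)
  · exact runK_sound (t := 20) (e := 116) (c := 13) (n := 11529) (by norm_num) (by decide +kernel)
  · exact runK_sound (t := 20) (e := 116) (c := 13) (n := 11550) (by norm_num) (by decide +kernel)
  · exact runK_sound (t := 20) (e := 116) (c := 13) (n := 11571) (by norm_num) (by decide +kernel)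
  · exact runK_sound (t := 20) (e := 116) (c := 13) (n := 11592) (by norm_num) (by decide +kernel)
  · exact runK_sound (t := 20) (e := 116) (c := 13) (n := 11613) (by norm_num) (by decide +kernel)
  · exact runK_sound (t := 20) (e := 116) (c := 13) (n := 11634) (by norm_num) (by decide +kernel)
  · exact runK_sound (t := 20) (e := 117) (c := 13) (n := 11655) (by norm_num) (by decide +kernel)
  · exact runK_sound (t := 20) (e := 117) (c := 13) (n := 11676) (by norm_num) (by decide +kernel)
  · exact runK_sound (t := 20) (e := 117) (c := 13) (n := 11697) (by norm_num) (by decide +kernel)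
  · exact runK_sound (t := 20) (e := 117) (c := 13) (n := 11718) (by norm_num) (by decide +kernel)
  · exact runK_sound (t := 20) (e := 117) (c := 13) (n := 11739) (by norm_num) (by decide +kernel)
  · exact runK_sound (t := 20) (e := 117) (c := 13) (n := 11760) (by norm_num) (by decide +kernel)
  · exact runK_sound (t := 20) (e := 117) (c := 13) (n := 11781) (by norm_num) (by decide +kernel)
  · exact runK_sound (t := 20) (e := 117) (c := 13) (n := 11802) (by norm_num) (by decide +kernel)
  · exact runK_sound (t := 20) (e := 117) (c := 13) (n := 11823) (by norm_num) (by decide +kernel)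
  · exact runK_sound (t := 20) (e := 117) (c := 13) (n := 11844) (by norm_num) (by decide +kernel)
  · exact runK_sound (t := 20) (e := 117) (c := 13) (n := 11865) (by norm_num) (by decide +kernel)
  · exact runK_sound (t := 20) (e := 117) (c := 13) (n := 11886) (by norm_num) (by decide +kernel)
  · exact runK_sound (t := 20) (e := 117) (c := 13) (n := 11907) (by norm_num) (by decide +kernel)
  · exact runK_sound (t := 20) (e := 117) (c := 13) (n := 11928) (by norm_num) (by decide +kernel)
  · exact runK_sound (t := 20) (e := 117) (c := 13) (n := 11949) (by norm_num) (by decide +kernel)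
  · exact runK_sound (t := 20) (e := 117) (c := 13) (n := 11970) (by norm_num) (by decide +kernel)
  · exact runK_sound (t := 20) (e := 117) (c := 13) (n := 11991) (by norm_num) (by decide +kernel)
  · exact runK_sound (t := 20) (e := 117) (c := 13) (n := 12012) (by norm_num) (by decide +kernel)
  · exact runK_sound (t := 20) (e := 117) (c := 13) (n := 12033) (by norm_num) (by decide +kernel)
  · exact runK_sound (t := 20) (e := 117) (c := 13) (n := 12054) (by norm_num) (by decide +kernel)
  · exact runK_sound (t := 20) (e := 118) (c := 13) (n := 12075) (by norm_num) (by decide +kernel)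
  · exact runK_sound (t := 20) (e := 118) (c := 13) (n := 12096) (by norm_num) (by decide +kernel)
  · exact runK_sound (t := 20) (e := 118) (c := 13) (n := 12117) (by norm_num) (by decide +kernel)
  · exact runK_sound (t := 20) (e := 118) (c := 13) (n := 12138) (by norm_num) (by decide +kernel)
  · exact runK_sound (t := 20) (e := 118) (c := 13) (n := 12159) (by norm_num) (by decide +kernel)
  · exact runK_sound (t := 20) (e := 118) (c := 13) (n := 12180) (by norm_num) (by decide +kernel)
  · exact runK_sound (t := 20) (e := 118) (c := 13) (n := 12201) (by norm_num) (by decide +kernel)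
  · exact runK_sound (t := 20) (e := 118) (c := 13) (n := 12222) (by norm_num) (by decide +kernel)
  · exact runK_sound (t := 20) (e := 118) (c := 13) (n := 12243) (by norm_num) (by decide +kernel)
  · exact runK_sound (t := 20) (e := 118) (c := 13) (n := 12264) (by norm_num) (by decide +kernel)
  · exact runK_sound (t := 20) (e := 118) (c := 13) (n := 12285) (by norm_num) (by decide +kernel)
  · exact runK_sound (t := 20) (e := 118) (c := 13) (n := 12306) (by norm_num) (by decide +kernel)
  · exact runK_sound (t := 20) (e := 118) (c := 13) (n := 12327) (by norm_num) (by decide +kernel)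
  · exact runK_sound (t := 20) (e := 118) (c := 13) (n := 12348) (by norm_num) (by decide +kernel)
  · exact runK_sound (t := 20) (e := 118) (c := 13) (n := 12369) (by norm_num) (by decide +kernel)
  · exact runK_sound (t := 20) (e := 118) (c := 13) (n := 12390) (by norm_num) (by decide +kernel)
  · exact runK_sound (t := 20) (e := 118) (c := 13) (n := 12411) (by norm_num) (by decide +kernel)
  · exact runK_sound (t := 20) (e := 118) (c := 13) (n := 12432) (by norm_num) (by decide +kernel)
  · exact runK_sound (t := 20) (e := 118) (c := 13) (n := 12453) (by norm_num) (by decide +kernel)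
  · exact runK_sound (t := 20) (e := 118) (c := 13) (n := 12474) (by norm_num) (by decide +kernel)
  · exact runK_sound (t := 20) (e := 118) (c := 13) (n := 12495) (by norm_num) (by decide +kernel)
  · exact runK_sound (t := 20) (e := 119) (c := 13) (n := 12516) (by norm_num) (by decide +kernel)
  · exact runK_sound (t := 20) (e := 119) (c := 13) (n := 12537) (by norm_num) (by decide +kernel)
  · exact runK_sound (t := 20) (e := 119) (c := 13) (n := 12558) (by norm_num) (by decide +kernel)
  · exact runK_sound (t := 20) (e := 119) (c := 13) (n := 12579) (by norm_num) (by decide +kernel)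

end Pool.Agent.Lib.MP_667609_co
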