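import Pool.Agent.Lib.MP_667609_co.Chk

/-! Finite verification. -/

namespace Pool.Agent.Lib.MP_667609_co

theorem brute9 (a : ℕ) (h1 : 600 ≤ a) (h2 : a < 840) :
    ∀ b, 1 < b → b ≤ 21 → NN (Vser a b) := by
  interval_cases a
  · exact runK_sound (t := 20) (e := 119) (c := 13) (n := 12600) (by norm_num) (by decide +kernel)
  · exact runK_sound (t := 20) (e := 119) (c := 13) (n := 12621) (by norm_num) (by decide +kernel)
  · exact runK_sound (t := 20) (e := 119) (c := 13) (n := 12642) (by norm_num) (by decide +kernel)
  · exact runK_sound (t := 20) (e := 119) (c := 13) (n := 12663) (by norm_num) (by decide +kernel)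
  · exact runK_sound (t := 20) (e := 119) (c := 13) (n := 12684) (by norm_num) (by decide +kernel)
  · exact runK_sound (t := 20) (e := 119) (c := 13) (n := 12705) (by norm_num) (by decide +kernel)
  · exact runK_sound (t := 20) (e := 119) (c := 13) (n := 12726) (by norm_num) (by decide +kernel)
  · exact runK_sound (t := 20) (e := 119) (c := 13) (n := 12747) (by norm_num) (by decide +kernel)
  · exact runK_sound (t := 20) (e := 119) (c := 13) (n := 12768) (by norm_num) (by decide +kernel)
  · exact runK_sound (t := 20) (e := 119) (c := 13) (n := 12789) (by norm_num) (by decide +kernel)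
  · exact runK_sound (t := 20) (e := 119) (c := 13) (n := 12810) (by norm_num) (by decide +kernel)
  · exact runK_sound (t := 20) (e := 119) (c := 13) (n := 12831) (by norm_num) (by decide +kernel)
  · exact runK_sound (t := 20) (e := 119) (c := 13) (n := 12852) (by norm_num) (by decide +kernel)
  · exact runK_sound (t := 20) (e := 119) (c := 13) (n := 12873) (by norm_num) (by decide +kernel)
  · exact runK_sound (t := 20) (e := 119) (c := 13) (n := 12894) (by norm_num) (by decide +kernel)
  · exact runK_sound (t := 20) (e := 119) (c := 13) (n := 12915) (by norm_num) (by decide +kernel)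
  · exact runK_sound (t := 20) (e := 119) (c := 13) (n := 12936) (by norm_num) (by decide +kernel)
  · exact runK_sound (t := 20) (e := 120) (c := 13) (n := 12957) (by norm_num) (by decide +kernel)
  · exact runK_sound (t := 20) (e := 120) (c := 13) (n := 12978) (by norm_num) (by decide +kernel)
  · exact runK_sound (t := 20) (e := 120) (c := 13) (n := 12999) (by norm_num) (by decide +kernel)
  · exact runK_sound (t := 20) (e := 120) (c := 13) (n := 13020) (by norm_num) (by decide +kernel)
  · exact runK_sound (t := 20) (e := 120) (c := 13) (n := 13041) (by norm_num) (by decide +kernel)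
  · exact runK_sound (t := 20) (e := 120) (c := 13) (n := 13062) (by norm_num) (by decide +kernel)
  · exact runK_sound (t := 20) (e := 120) (c := 13) (n := 13083) (by norm_num) (by decide +kernel)
  · exact runK_sound (t := 20) (e := 120) (c := 13) (n := 13104) (by norm_num) (by decide +kernel)
  · exact runK_sound (t := 20) (e := 120) (c := 13) (n := 13125) (by norm_num) (by decide +kernel)
  · exact runK_sound (t := 20) (e := 120) (c := 13) (n := 13146) (by norm_num) (by decide +kernel)
  · exact runK_sound (t := 20) (e := 120) (c := 13) (n := 13167) (by norm_num) (by decide +kernel)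
  · exact runK_sound (t := 20) (e := 120) (c := 13) (n := 13188) (by norm_num) (by decide +kernel)
  · exact runK_sound (t := 20) (e := 120) (c := 13) (n := 13209) (by norm_num) (by decide +kernel)
  · exact runK_sound (t := 20) (e := 120) (c := 13) (n := 13230) (by norm_num) (by decide +kernel)
  · exact runK_sound (t := 20) (e := 120) (c := 13) (n := 13251) (by norm_num) (by decide +kernel)
  · exact runK_sound (t := 20) (e := 120) (c := 13) (n := 13272) (by norm_num) (by decide +kernel)
  · exact runK_sound (t := 20) (e := 120) (c := 13) (n := 13293) (by norm_num) (by decide +kernel)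
  · exact runK_sound (t := 20) (e := 120) (c := 13) (n := 13314) (by norm_num) (by decide +kernel)
  · exact runK_sound (t := 20) (e := 120) (c := 13) (n := 13335) (by norm_num) (by decide +kernel)
  · exact runK_sound (t := 20) (e := 120) (c := 13) (n := 13356) (by norm_num) (by decide +kernel)
  · exact runK_sound (t := 20) (e := 120) (c := 13) (n := 13377) (by norm_num) (by decide +kernel)
  · exact runK_sound (t := 20) (e := 120) (c := 13) (n := 13398) (by norm_num) (by decide +kernel)
  · exact runK_sound (t := 20) (e := 121) (c := 13) (n := 13419) (by norm_num) (by decide +kernel)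
  · exact runK_sound (t := 20) (e := 121) (c := 13) (n := 13440) (by norm_num) (by decide +kernel)
  · exact runK_sound (t := 20) (e := 121) (c := 13) (n := 13461) (by norm_num) (by decide +kernel)
  · exact runK_sound (t := 20) (e := 121) (c := 13) (n := 13482) (by norm_num) (by decide +kernel)
  · exact runK_sound (t := 20) (e := 121) (c := 13) (n := 13503) (by norm_num) (by decide +kernel)
  · exact runK_sound (t := 20) (e := 121) (c := 13) (n := 13524) (by norm_num) (by decide +kernel)
  · exact runK_sound (t := 20) (e := 121) (c := 13) (n := 13545) (by norm_num) (by decide +kernel)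
  · exact runK_sound (t := 20) (e := 121) (c := 13) (n := 13566) (by norm_num) (by decide +kernel)
  · exact runK_sound (t := 20) (e := 121) (c := 13) (n := 13587) (by norm_num) (by decide +kernel)
  · exact runK_sound (t := 20) (e := 121) (c := 13) (n := 13608) (by norm_num) (by decide +kernel)
  · exact runK_sound (t := 20) (e := 121) (c := 13) (n := 13629) (by norm_num) (by decide +kernel)
  · exact runK_sound (t := 20) (e := 121) (c := 13) (n := 13650) (by norm_num) (by decide +kernel)
  · exact runK_sound (t := 20) (e := 121) (c := 13) (n := 13671) (by norm_num) (by decide +kernel)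
  · exact runK_sound (t := 20) (e := 121) (c := 13) (n := 13692) (by norm_num) (by decide +kernel)
  · exact runK_sound (t := 20) (e := 121) (c := 13) (n := 13713) (by norm_num) (by decide +kernel)
  · exact runK_sound (t := 20) (e := 121) (c := 13) (n := 13734) (by norm_num) (by decide +kernel)
  · exact runK_sound (t := 20) (e := 121) (c := 13) (n := 13755) (by norm_num) (by decide +kernel)
  · exact runK_sound (t := 20) (e := 121) (c := 13) (n := 13776) (by norm_num) (by decide +kernel)
  · exact runK_sound (t := 20) (e := 121) (c := 13) (n := 13797) (by norm_num) (by decide +kernel)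
  · exact runK_sound (t := 20) (e := 121) (c := 13) (n := 13818) (by norm_num) (by decide +kernel)
  · exact runK_sound (t := 20) (e := 121) (c := 13) (n := 13839) (by norm_num) (by decide +kernel)
  · exact runK_sound (t := 20) (e := 121) (c := 13) (n := 13860) (by norm_num) (by decide +kernel)
  · exact runK_sound (t := 20) (e := 121) (c := 13) (n := 13881) (by norm_num) (by decide +kernel)
  · exact runK_sound (t := 20) (e := 122) (c := 13) (n := 13902) (by norm_num) (by decide +kernel)
  · exact runK_sound (t := 20) (e := 122) (c := 13) (n := 13923) (by norm_num) (by decide +kernel)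
  · exact runK_sound (t := 20) (e := 122) (c := 13) (n := 13944) (by norm_num) (by decide +kernel)
  · exact runK_sound (t := 20) (e := 122) (c := 13) (n := 13965) (by norm_num) (by decide +kernel)
  · exact runK_sound (t := 20) (e := 122) (c := 13) (n := 13986) (by norm_num) (by decide +kernel)
  · exact runK_sound (t := 20) (e := 122) (c := 13) (n := 14007) (by norm_num) (by decide +kernel)
  · exact runK_sound (t := 20) (e := 122) (c := 13) (n := 14028) (by norm_num) (by decide +kernel)
  · exact runK_sound (t := 20) (e := 122) (c := 13) (n := 14049) (by norm_num) (by decide +kernel)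
  · exact runK_sound (t := 20) (e := 122) (c := 13) (n := 14070) (by norm_num) (by decide +kernel)
  · exact runK_sound (t := 20) (e := 122) (c := 13) (n := 14091) (by norm_num) (by decide +kernel)
  · exact runK_sound (t := 20) (e := 122) (c := 13) (n := 14112) (by norm_num) (by decide +kernel)
  · exact runK_sound (t := 20) (e := 122) (c := 13) (n := 14133) (by norm_num) (by decide +kernel)
  · exact runK_sound (t := 20) (e := 122) (c := 13) (n := 14154) (by norm_num) (by decide +kernel)
  · exact runK_sound (t := 20) (e := 122) (c := 13) (n := 14175) (by norm_num) (by decide +kernel)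
  · exact runK_sound (t := 20) (e := 122) (c := 13) (n := 14196) (by norm_num) (by decide +kernel)
  · exact runK_sound (t := 20) (e := 122) (c := 13) (n := 14217) (by norm_num) (by decide +kernel)
  · exact runK_sound (t := 20) (e := 122) (c := 13) (n := 14238) (by norm_num) (by decide +kernel)
  · exact runK_sound (t := 20) (e := 122) (c := 13) (n := 14259) (by norm_num) (by decide +kernel)
  · exact runK_sound (t := 20) (e := 122) (c := 13) (n := 14280) (by norm_num) (by decide +kernel)
  · exact runK_sound (t := 20) (e := 122) (c := 13) (n := 14301) (by norm_num) (by decide +kernel)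
  · exact runK_sound (t := 20) (e := 122) (c := 13) (n := 14322) (by norm_num) (by decide +kernel)
  · exact runK_sound (t := 20) (e := 122) (c := 13) (n := 14343) (by norm_num) (by decide +kernel)
  · exact runK_sound (t := 20) (e := 122) (c := 13) (n := 14364) (by norm_num) (by decide +kernel)
  · exact runK_sound (t := 20) (e := 122) (c := 13) (n := 14385) (by norm_num) (by decide +kernel)
  · exact runK_sound (t := 20) (e := 123) (c := 13) (n := 14406) (by norm_num) (by decide +kernel)
  · exact runK_sound (t := 20) (e := 123) (c := 13) (n := 14427) (by norm_num) (by decide +kernel)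
  · exact runK_sound (t := 20) (e := 123) (c := 13) (n := 14448) (by norm_num) (by decide +kernel)
  · exact runK_sound (t := 20) (e := 123) (c := 13) (n := 14469) (by norm_num) (by decide +kernel)
  · exact runK_sound (t := 20) (e := 123) (c := 13) (n := 14490) (by norm_num) (by decide +kernel)
  · exact runK_sound (t := 20) (e := 123) (c := 13) (n := 14511) (by norm_num) (by decide +kernel)
  · exact runK_sound (t := 20) (e := 123) (c := 13) (n := 14532) (by norm_num) (by decide +kernel)
  · exact runK_sound (t := 20) (e := 123) (c := 13) (n := 14553) (by norm_num) (by decide +kernel)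
  · exact runK_sound (t := 20) (e := 123) (c := 13) (n := 14574) (by norm_num) (by decide +kernel)
  · exact runK_sound (t := 20) (e := 123) (c := 13) (n := 14595) (by norm_num) (by decide +kernel)
  · exact runK_sound (t := 20) (e := 123) (c := 13) (n := 14616) (by norm_num) (by decide +kernel)
  · exact runK_sound (t := 20) (e := 123) (c := 13) (n := 14637) (by norm_num) (by decide +kernel)
  · exact runK_sound (t := 20) (e := 123) (c := 13) (n := 14658) (by norm_num) (by decide +kernel)
  · exact runK_sound (t := 20) (e := 123) (c := 13) (n := 14679) (by norm_num) (by decide +kernel)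
  · exact runK_sound (t := 20) (e := 123) (c := 13) (n := 14700) (by norm_num) (by decide +kernel)
  · exact runK_sound (t := 20) (e := 123) (c := 13) (n := 14721) (by norm_num) (by decide +kernel)
  · exact runK_sound (t := 20) (e := 123) (c := 13) (n := 14742) (by norm_num) (by decide +kernel)
  · exact runK_sound (t := 20) (e := 123) (c := 13) (n := 14763) (by norm_num) (by decide +kernel)
  · exact runK_sound (t := 20) (e := 123) (c := 13) (n := 14784) (by norm_num) (by decide +kernel)
  · exact runK_sound (t := 20) (e := 123) (c := 13) (n := 14805) (by norm_num) (by decide +kernel)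
  · exact runK_sound (t := 20) (e := 123) (c := 13) (n := 14826) (by norm_num) (by decide +kernel)
  · exact runK_sound (t := 20) (e := 123) (c := 13) (n := 14847) (by norm_num) (by decide +kernel)
  · exact runK_sound (t := 20) (e := 123) (c := 13) (n := 14868) (by norm_num) (by decide +kernel)
  · exact runK_sound (t := 20) (e := 123) (c := 13) (n := 14889) (by norm_num) (by decide +kernel)
  · exact runK_sound (t := 20) (e := 124) (c := 13) (n := 14910) (by norm_num) (by decide +kernel)
  · exact runK_sound (t := 20) (e := 124) (c := 13) (n := 14931) (by norm_num) (by decide +kernel)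
  · exact runK_sound (t := 20) (e := 124) (c := 13) (n := 14952) (by norm_num) (by decide +kernel)
  · exact runK_sound (t := 20) (e := 124) (c := 13) (n := 14973) (by norm_num) (by decide +kernel)
  · exact runK_sound (t := 20) (e := 124) (c := 13) (n := 14994) (by norm_num) (by decide +kernel)
  · exact runK_sound (t := 20) (e := 124) (c := 13) (n := 15015) (by norm_num) (by decide +kernel)
  · exact runK_sound (t := 20) (e := 124) (c := 13) (n := 15036) (by norm_num) (by decide +kernel)
  · exact runK_sound (t := 20) (e := 124) (c := 13) (n := 15057) (by norm_num) (by decide +kernel)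
  · exact runK_sound (t := 20) (e := 124) (c := 13) (n := 15078) (by norm_num) (by decide +kernel)
  · exact runK_sound (t := 20) (e := 124) (c := 13) (n := 15099) (by norm_num) (by decide +kernel)
  · exact runK_sound (t := 20) (e := 124) (c := 13) (n := 15120) (by norm_num) (by decide +kernel)
  · exact runK_sound (t := 20) (e := 124) (c := 13) (n := 15141) (by norm_num) (by decide +kernel)
  · exact runK_sound (t := 20) (e := 124) (c := 13) (n := 15162) (by norm_num) (by decide +kernel)
  · exact runK_sound (t := 20) (e := 124) (c := 13) (n := 15183) (by norm_num) (by decide +kernel)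
  · exact runK_sound (t := 20) (e := 124) (c := 13) (n := 15204) (by norm_num) (by decide +kernel)
  · exact runK_sound (t := 20) (e := 124) (c := 13) (n := 15225) (by norm_num) (by decide +kernel)
  · exact runK_sound (t := 20) (e := 124) (c := 13) (n := 15246) (by norm_num) (by decide +kernel)
  · exact runK_sound (t := 20) (e := 124) (c := 13) (n := 15267) (by norm_num) (by decide +kernel)
  · exact runK_sound (t := 20) (e := 124) (c := 13) (n := 15288) (by norm_num) (by decide +kernel)
  · exact runK_sound (t := 20) (e := 124) (c := 13) (n := 15309) (by norm_num) (by decide +kernel)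
  · exact runK_sound (t := 20) (e := 124) (c := 13) (n := 15330) (by norm_num) (by decide +kernel)
  · exact runK_sound (t := 20) (e := 124) (c := 13) (n := 15351) (by norm_num) (by decide +kernel)
  · exact runK_sound (t := 20) (e := 124) (c := 13) (n := 15372) (by norm_num) (by decide +kernel)
  · exact runK_sound (t := 20) (e := 124) (c := 13) (n := 15393) (by norm_num) (by decide +kernel)
  · exact runK_sound (t := 20) (e := 124) (c := 13) (n := 15414) (by norm_num) (by decide +kernel)
  · exact runK_sound (t := 20) (e := 124) (c := 13) (n := 15435) (by norm_num) (by decide +kernel)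
  · exact runK_sound (t := 20) (e := 125) (c := 13) (n := 15456) (by norm_num) (by decide +kernel)
  · exact runK_sound (t := 20) (e := 125) (c := 13) (n := 15477) (by norm_num) (by decide +kernel)
  · exact runK_sound (t := 20) (e := 125) (c := 13) (n := 15498) (by norm_num) (by decide +kernel)
  · exact runK_sound (t := 20) (e := 125) (c := 13) (n := 15519) (by norm_num) (by decide +kernel)
  · exact runK_sound (t := 20) (e := 125) (c := 13) (n := 15540) (by norm_num) (by decide +kernel)
  · exact runK_sound (t := 20) (e := 125) (c := 13) (n := 15561) (by norm_num) (by decide +kernel)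
  · exact runK_sound (t := 20) (e := 125) (c := 13) (n := 15582) (by norm_num) (by decide +kernel)
  · exact runK_sound (t := 20) (e := 125) (c := 13) (n := 15603) (by norm_num) (by decide +kernel)
  · exact runK_sound (t := 20) (e := 125) (c := 13) (n := 15624) (by norm_num) (by decide +kernel)
  · exact runK_sound (t := 20) (e := 125) (c := 13) (n := 15645) (by norm_num) (by decide +kernel)
  · exact runK_sound (t := 20) (e := 125) (c := 13) (n := 15666) (by norm_num) (by decide +kernel)
  · exact runK_sound (t := 20) (e := 125) (c := 13) (n := 15687) (by norm_num) (by decide +kernel)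
  · exact runK_sound (t := 20) (e := 125) (c := 13) (n := 15708) (by norm_num) (by decide +kernel)
  · exact runK_sound (t := 20) (e := 125) (c := 13) (n := 15729) (by norm_num) (by decide +kernel)
  · exact runK_sound (t := 20) (e := 125) (c := 13) (n := 15750) (by norm_num) (by decide +kernel)
  · exact runK_sound (t := 20) (e := 125) (c := 13) (n := 15771) (by norm_num) (by decide +kernel)
  · exact runK_sound (t := 20) (e := 125) (c := 13) (n := 15792) (by norm_num) (by decide +kernel)
  · exact runK_sound (t := 20) (e := 125) (c := 13) (n := 15813) (by norm_num) (by decide +kernel)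
  · exact runK_sound (t := 20) (e := 125) (c := 13) (n := 15834) (by norm_num) (by decide +kernel)
  · exact runK_sound (t := 20) (e := 125) (c := 13) (n := 15855) (by norm_num) (by decide +kernel)
  · exact runK_sound (t := 20) (e := 125) (c := 13) (n := 15876) (by norm_num) (by decide +kernel)
  · exact runK_sound (t := 20) (e := 125) (c := 13) (n := 15897) (by norm_num) (by decide +kernel)
  · exact runK_sound (t := 20) (e := 125) (c := 13) (n := 15918) (by norm_num) (by decide +kernel)
  · exact runK_sound (t := 20) (e := 125) (c := 13) (n := 15939) (by norm_num) (by decide +kernel)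
  · exact runK_sound (t := 20) (e := 125) (c := 13) (n := 15960) (by norm_num) (by decide +kernel)
  · exact runK_sound (t := 20) (e := 125) (c := 13) (n := 15981) (by norm_num) (by decide +kernel)
  · exact runK_sound (t := 20) (e := 126) (c := 13) (n := 16002) (by norm_num) (by decide +kernel)
  · exact runK_sound (t := 20) (e := 126) (c := 13) (n := 16023) (by norm_num) (by decide +kernel)
  · exact runK_sound (t := 20) (e := 126) (c := 13) (n := 16044) (by norm_num) (by decide +kernel)
  · exact runK_sound (t := 20) (e := 126) (c := 13) (n := 16065) (by norm_num) (by decide +kernel)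
  · exact runK_sound (t := 20) (e := 126) (c := 13) (n := 16086) (by norm_num) (by decide +kernel)
  · exact runK_sound (t := 20) (e := 126) (c := 13) (n := 16107) (by norm_num) (by decide +kernel)
  · exact runK_sound (t := 20) (e := 126) (c := 13) (n := 16128) (by norm_num) (by decide +kernel)
  · exact runK_sound (t := 20) (e := 126) (c := 13) (n := 16149) (by norm_num) (by decide +kernel)
  · exact runK_sound (t := 20) (e := 126) (c := 13) (n := 16170) (by norm_num) (by decide +kernel)
  · exact runK_sound (t := 20) (e := 126) (c := 13) (n := 16191) (by norm_num) (by decide +kernel)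
  · exact runK_sound (t := 20) (e := 126) (c := 13) (n := 16212) (by norm_num) (by decide +kernel)
  · exact runK_sound (t := 20) (e := 126) (c := 13) (n := 16233) (by norm_num) (by decide +kernel)
  · exact runK_sound (t := 20) (e := 126) (c := 13) (n := 16254) (by norm_num) (by decide +kernel)
  · exact runK_sound (t := 20) (e := 126) (c := 13) (n := 16275) (by norm_num) (by decide +kernel)
  · exact runK_sound (t := 20) (e := 126) (c := 13) (n := 16296) (by norm_num) (by decide +kernel)
  · exact runK_sound (t := 20) (e := 126) (c := 13) (n := 16317) (by norm_num) (by decide +kernel)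
  · exact runK_sound (t := 20) (e := 126) (c := 13) (n := 16338) (by norm_num) (by decide +kernel)
  · exact runK_sound (t := 20) (e := 126) (c := 13) (n := 16359) (by norm_num) (by decide +kernel)
  · exact runK_sound (t := 20) (e := 126) (c := 13) (n := 16380) (by norm_num) (by decide +kernel)
  · exact runK_sound (t := 20) (e := 126) (c := 13) (n := 16401) (by norm_num) (by decide +kernel)
  · exact runK_sound (t := 20) (e := 126) (c := 13) (n := 16422) (by norm_num) (by decide +kernel)
  · exact runK_sound (t := 20) (e := 126) (c := 13) (n := 16443) (by norm_num) (by decide +kernel)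
  · exact runK_sound (t := 20) (e := 126) (c := 13) (n := 16464) (by norm_num) (by decide +kernel)
  · exact runK_sound (t := 20) (e := 126) (c := 13) (n := 16485) (by norm_num) (by decide +kernel)
  · exact runK_sound (t := 20) (e := 126) (c := 13) (n := 16506) (by norm_num) (by decide +kernel)
  · exact runK_sound (t := 20) (e := 126) (c := 13) (n := 16527) (by norm_num) (by decide +kernel)
  · exact runK_sound (t := 20) (e := 126) (c := 13) (n := 16548) (by norm_num) (by decide +kernel)
  · exact runK_sound (t := 20) (e := 127) (c := 13) (n := 16569) (by norm_num) (by decide +kernel)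
  · exact runK_sound (t := 20) (e := 127) (c := 13) (n := 16590) (by norm_num) (by decide +kernel)
  · exact runK_sound (t := 20) (e := 127) (c := 13) (n := 16611) (by norm_num) (by decide +kernel)
  · exact runK_sound (t := 20) (e := 127) (c := 13) (n := 16632) (by norm_num) (by decide +kernel)
  · exact runK_sound (t := 20) (e := 127) (c := 13) (n := 16653) (by norm_num) (by decide +kernel)
  · exact runK_sound (t := 20) (e := 127) (c := 13) (n := 16674) (by norm_num) (by decide +kernel)
  · exact runK_sound (t := 20) (e := 127) (c := 13) (n := 16695) (by norm_num) (by decide +kernel)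
  · exact runK_sound (t := 20) (e := 127) (c := 13) (n := 16716) (by norm_num) (by decide +kernel)
  · exact runK_sound (t := 20) (e := 127) (c := 13) (n := 16737) (by norm_num) (by decide +kernel)
  · exact runK_sound (t := 20) (e := 127) (c := 13) (n := 16758) (by norm_num) (by decide +kernel)
  · exact runK_sound (t := 20) (e := 127) (c := 13) (n := 16779) (by norm_num) (by decide +kernel)
  · exact runK_sound (t := 20) (e := 127) (c := 13) (n := 16800) (by norm_num) (by decide +kernel)
  · exact runK_sound (t := 20) (e := 127) (c := 13) (n := 16821) (by norm_num) (by decide +kernel)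
  · exact runK_sound (t := 20) (e := 127) (c := 13) (n := 16842) (by norm_num) (by decide +kernel)
  · exact runK_sound (t := 20) (e := 127) (c := 13) (n := 16863) (by norm_num) (by decide +kernel)
  · exact runK_sound (t := 20) (e := 127) (c := 13) (n := 16884) (by norm_num) (by decide +kernel)
  · exact runK_sound (t := 20) (e := 127) (c := 13) (n := 16905) (by norm_num) (by decide +kernel)
  · exact runK_sound (t := 20) (e := 127) (c := 13) (n := 16926) (by norm_num) (by decide +kernel)
  · exact runK_sound (t := 20) (e := 127) (c := 13) (n := 16947) (by norm_num) (by decide +kernel)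
  · exact runK_sound (t := 20) (e := 127) (c := 13) (n := 16968) (by norm_num) (by decide +kernel)
  · exact runK_sound (t := 20) (e := 127) (c := 13) (n := 16989) (by norm_num) (by decide +kernel)
  · exact runK_sound (t := 20) (e := 127) (c := 13) (n := 17010) (by norm_num) (by decide +kernel)
  · exact runK_sound (t := 20) (e := 127) (c := 13) (n := 17031) (by norm_num) (by decide +kernel)
  · exact runK_sound (t := 20) (e := 127) (c := 13) (n := 17052) (by norm_num) (by decide +kernel)
  · exact runK_sound (t := 20) (e := 127) (c := 13) (n := 17073) (by norm_num) (by decide +kernel)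
  · exact runK_sound (t := 20) (e := 127) (c := 13) (n := 17094) (by norm_num) (by decide +kernel)
  · exact runK_sound (t := 20) (e := 127) (c := 13) (n := 17115) (by norm_num) (by decide +kernel)
  · exact runK_sound (t := 20) (e := 127) (c := 13) (n := 17136) (by norm_num) (by decide +kernel)
  · exact runK_sound (t := 20) (e := 128) (c := 13) (n := 17157) (by norm_num) (by decide +kernel)
  · exact runK_sound (t := 20) (e := 128) (c := 13) (n := 17178) (by norm_num) (by decide +kernel)
  · exact runK_sound (t := 20) (e := 128) (c := 13) (n := 17199) (by norm_num) (by decide +kernel)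
  · exact runK_sound (t := 20) (e := 128) (c := 13) (n := 17220) (by norm_num) (by decide +kernel)
  · exact runK_sound (t := 20) (e := 128) (c := 13) (n := 17241) (by norm_num) (by decide +kernel)
  · exact runK_sound (t := 20) (e := 128) (c := 13) (n := 17262) (by norm_num) (by decide +kernel)
  · exact runK_sound (t := 20) (e := 128) (c := 13) (n := 17283) (by norm_num) (by decide +kernel)
  · exact runK_sound (t := 20) (e := 128) (c := 13) (n := 17304) (by norm_num) (by decide +kernel)
  · exact runK_sound (t := 20) (e := 128) (c := 13) (n := 17325) (by norm_num) (by decide +kernel)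
  · exact runK_sound (t := 20) (e := 128) (c := 13) (n := 17346) (by norm_num) (by decide +kernel)
  · exact runK_sound (t := 20) (e := 128) (c := 13) (n := 17367) (by norm_num) (by decide +kernel)
  · exact runK_sound (t := 20) (e := 128) (c := 13) (n := 17388) (by norm_num) (by decide +kernel)
  · exact runK_sound (t := 20) (e := 128) (c := 13) (n := 17409) (by norm_num) (by decide +kernel)
  · exact runK_sound (t := 20) (e := 128) (c := 13) (n := 17430) (by norm_num) (by decide +kernel)
  · exact runK_sound (t := 20) (e := 128) (c := 13) (n := 17451) (by norm_num) (by decide +kernel)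
  · exact runK_sound (t := 20) (e := 128) (c := 13) (n := 17472) (by norm_num) (by decide +kernel)
  · exact runK_sound (t := 20) (e := 128) (c := 13) (n := 17493) (by norm_num) (by decide +kernel)
  · exact runK_sound (t := 20) (e := 128) (c := 13) (n := 17514) (by norm_num) (by decide +kernel)
  · exact runK_sound (t := 20) (e := 128) (c := 13) (n := 17535) (by norm_num) (by decide +kernel)
  · exact runK_sound (t := 20) (e := 128) (c := 13) (n := 17556) (by norm_num) (by decide +kernel)
  · exact runK_sound (t := 20) (e := 128) (c := 13) (n := 17577) (by norm_num) (by decide +kernel)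
  · exact runK_sound (t := 20) (e := 128) (c := 13) (n := 17598) (by norm_num) (by decide +kernel)
  · exact runK_sound (t := 20) (e := 128) (c := 13) (n := 17619) (by norm_num) (by decide +kernel)

end Pool.Agent.Lib.MP_667609_co
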