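import Pool.Agent.Lib.MP_667609_co.Defs
import Mathlib.Algebra.Order.Ring.Int

/-! Positivity by repeated splitting when the numerator exponents are large. -/

open PowerSeries Finset

namespace Pool.Agent.Lib.MP_667609_co

noncomputable def FF (S U : Finset ℕ) : ℤ⟦X⟧ := (∏ s ∈ S, (1 - X ^ s)) * ∏ u ∈ U, geo u

theorem FF_split {S U : Finset ℕ} {s u v w α β γ : ℕ} (hs : s ∈ S) (hu : u ∈ U) (hv : v ∈ U)
    (hw : w ∈ U) (hpos : ∀ x ∈ U, 0 < x) (h : s = α * u + β * v + γ * w)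
    (h1 : NN (FF (S.erase s) (U.erase u))) (h2 : NN (FF (S.erase s) (U.erase v)))
    (h3 : NN (FF (S.erase s) (U.erase w))) : NN (FF S U) := by
  have key : ∀ x ∈ U, ∀ c : ℕ, NN (FF (S.erase s) (U.erase x)) →
      NN ((1 - X ^ (c * x)) * ((∏ s ∈ S.erase s, (1 - X ^ s)) * ∏ u ∈ U, geo u)) := by
    intro x hx c hN
    have := hN.mul (NN_geo_mul_mul (hpos x hx) c)
    rw [← mul_prod_erase U _ hx]
    convert this using 1
    unfold FF; ring
  have e : FF S U = (1 - X ^ (α * u)) * ((∏ s ∈ S.erase s, (1 - X ^ s)) * ∏ u ∈ U, geo u) +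
      X ^ (α * u) * ((1 - X ^ (β * v)) * ((∏ s ∈ S.erase s, (1 - X ^ s)) * ∏ u ∈ U, geo u)) +
      X ^ (α * u + β * v) *
        ((1 - X ^ (γ * w)) * ((∏ s ∈ S.erase s, (1 - X ^ s)) * ∏ u ∈ U, geo u)) := by
    unfold FF
    rw [← mul_prod_erase S _ hs]
    have : (X ^ s : ℤ⟦X⟧) = X ^ (α * u) * X ^ (β * v) * X ^ (γ * w) := by
      rw [h, pow_add, pow_add]
    rw [this, pow_add]; ring
  rw [e]
  exact ((key u hu α h1).add ((NN_X_pow _).mul (key v hv β h2))).add
    ((NN_X_pow _).mul (key w hw γ h3))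

/-- The moduli that matter. -/
def DD : Finset ℕ := {3, 9, 5, 7, 11, 13}

def PP : Finset ℕ := {3, 5, 7, 11, 13}

def cond (S U : Finset ℕ) : Prop :=
  ∀ g ∈ DD, (U.filter (g ∣ ·)).card ≤ (S.filter (g ∣ ·)).card + 1

def tight (S U : Finset ℕ) (g : ℕ) : Prop :=
  (U.filter (g ∣ ·)).card = (S.filter (g ∣ ·)).card + 1

theorem cond_erase {S U : Finset ℕ} (h : cond S U) {s u : ℕ} (hs : s ∈ S) (hu : u ∈ U)
    (ht : ∀ g ∈ DD, g ∣ s → tight S U g → g ∣ u) : cond (S.erase s) (U.erase u) := by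
  intro g hg
  have h0 := h g hg
  rw [filter_erase, filter_erase]
  by_cases hgs : g ∣ s
  · rw [card_erase_of_mem (show s ∈ S.filter (g ∣ ·) from mem_filter.2 ⟨hs, hgs⟩)]
    have hpos : 0 < (S.filter (g ∣ ·)).card := card_pos.2 ⟨s, mem_filter.2 ⟨hs, hgs⟩⟩
    by_cases htg : tight S U g
    · rw [card_erase_of_mem (show u ∈ U.filter (g ∣ ·) from mem_filter.2 ⟨hu, ht g hg hgs htg⟩)]
      omega
    · have := card_erase_le (s := U.filter (g ∣ ·)) (a := u)
      unfold tight at htg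
      omega
  · rw [erase_eq_of_notMem (s := S.filter (g ∣ ·)) (by simp [hgs])]
    have := card_erase_le (s := U.filter (g ∣ ·)) (a := u)
    omega

theorem dec1 : ∀ u < 44, 0 < u → (PP.filter (· ∣ u)).card ≤ 2 := by decide +kernel

theorem dec2 : ∀ p ∈ PP, ∀ p' ∈ PP, p ≠ p' → ∀ u < 44, u % 2 = 1 → p ∣ u → p' ∣ u →
    u = p * p' := by decide +kernel

set_option synthInstance.maxSize 4000 in
theorem dec3 : ∀ p ∈ PP, p ≠ 3 → ∀ u < 44, ∀ v < 44, u % 2 = 1 → v % 2 = 1 → u ≠ v → p ∣ u →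
    p ∣ v → Nat.gcd u v = p := by decide +kernel

set_option synthInstance.maxSize 4000 in
theorem dec4 : ∀ u < 44, ∀ v < 44, u % 2 = 1 → v % 2 = 1 → u ≠ v → 3 ∣ u →
    3 ∣ v → Nat.gcd u v = 3 ∨ (Nat.gcd u v = 9 ∧ 9 ∣ u ∧ 9 ∣ v) := by decide +kernel

def tri (p u v : ℕ) : Prop := ∀ w < 44, w % 2 = 1 → ¬ p ∣ w →
  Nat.gcd u w = 1 ∨ Nat.gcd v w = 1 ∨ ∀ x ∈ ({15, 21, 35} : Finset ℕ), x = u ∨ x = v ∨ x = w

set_option synthInstance.maxSize 4000 in
instance (p u v : ℕ) : Decidable (tri p u v) := by unfold tri; infer_instance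

set_option synthInstance.maxSize 4000 in
theorem dec5 : ∀ u < 44, ∀ v < 44, u % 2 = 1 → v % 2 = 1 → u ≠ v →
    Nat.gcd u v = 1 ∨ ∃ p ∈ PP, p ∣ u ∧ p ∣ v ∧ tri p u v := by
  decide +kernel

theorem rep2 {u v s w : ℕ} (hu : u ≤ w) (hv : v ≤ w) (huv : u ≠ v) (hu2 : u % 2 = 1)
    (hv2 : v % 2 = 1) (hw2 : w % 2 = 1) (hs : (w - 1) * (w - 3) ≤ s) (hg : Nat.gcd u v ∣ s) :
    ∃ α β, s = α * u + β * v := by
  have : u.pred * v.pred ≤ s := by
    refine le_trans ?_ hs
    simp only [Nat.pred_eq_sub_one]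
    rcases lt_or_gt_of_ne huv with h | h
    · rw [mul_comm]; exact Nat.mul_le_mul (by omega) (by omega)
    · exact Nat.mul_le_mul (by omega) (by omega)
  obtain ⟨α, β, h⟩ := Nat.exists_add_mul_eq_of_gcd_dvd_of_mul_pred_le u v s hg this
  exact ⟨α, β, h.symm⟩

theorem exists_good {S U : Finset ℕ} (hU : ∀ u ∈ U, u < 44 ∧ u % 2 = 1)
    (hc : S.card + 1 = U.card) (hS : S.Nonempty) (c : ℕ → ℕ) (hcp : ∀ p, p ∣ c p) :
    ∃ s ∈ S, ∀ p ∈ PP, ∀ p' ∈ PP, c p ∣ s → tight S U (c p) → c p' ∣ s → tight S U (c p') →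
      p = p' := by
  classical
  by_contra hcon
  push Not at hcon
  set T := PP.filter fun p => tight S U (c p) with hT
  have h2 : ∀ s ∈ S, 2 ≤ (T.filter (fun p => c p ∣ s)).card := by
    intro s hs
    obtain ⟨p, hp, p', hp', h1, h2, h3, h4, h5⟩ := hcon s hs
    exact one_lt_card.2 ⟨p, by simp [hT, hp, h1, h2], p', by simp [hT, hp', h3, h4], h5⟩
  have hsum : ∑ p ∈ T, (S.filter (c p ∣ ·)).card = ∑ s ∈ S, (T.filter (fun p => c p ∣ s)).card := by
    simp only [card_filter]; exact sum_comm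
  have hsumU : ∑ p ∈ T, (U.filter (c p ∣ ·)).card =
      ∑ s ∈ U, (T.filter (fun p => c p ∣ s)).card := by
    simp only [card_filter]; exact sum_comm
  have hge : 2 * S.card ≤ ∑ p ∈ T, (S.filter (c p ∣ ·)).card := by
    rw [hsum, mul_comm]; simpa using card_nsmul_le_sum S _ 2 h2
  have heq : ∑ p ∈ T, (U.filter (c p ∣ ·)).card = ∑ p ∈ T, (S.filter (c p ∣ ·)).card + T.card := by
    rw [card_eq_sum_ones T, ← sum_add_distrib]
    exact sum_congr rfl fun p hp => (mem_filter.1 hp).2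
  have hT2 : 2 ≤ T.card := by
    obtain ⟨s, hs⟩ := hS
    exact (h2 s hs).trans (card_filter_le _ _)
  have hSpos := hS.card_pos
  rcases Nat.eq_or_lt_of_le hT2 with h | h
  · obtain ⟨p, p', hne, hTe⟩ := card_eq_two.1 h.symm
    have hp : p ∈ PP := (mem_filter.1 (show p ∈ T by simp [hTe])).1
    have hp' : p' ∈ PP := (mem_filter.1 (show p' ∈ T by simp [hTe])).1
    rw [hTe, sum_pair hne] at heq
    have h3 := card_union_add_card_inter (U.filter (c p ∣ ·)) (U.filter (c p' ∣ ·))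
    have h4 : ((U.filter (c p ∣ ·)) ∪ (U.filter (c p' ∣ ·))).card ≤ U.card :=
      card_le_card (union_subset (filter_subset _ _) (filter_subset _ _))
    have h5 : ((U.filter (c p ∣ ·)) ∩ (U.filter (c p' ∣ ·))).card ≤ 1 := by
      refine le_trans (card_le_card (t := {p * p'}) ?_) (by simp)
      intro u hu
      simp only [mem_inter, mem_filter] at hu
      exact mem_singleton.2 (dec2 p hp p' hp' hne u (hU u hu.1.1).1 (hU u hu.1.1).2
        ((hcp p).trans hu.1.2) ((hcp p').trans hu.2.2))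
    rw [hTe] at hge
    rw [card_pair hne] at heq
    omega
  · have : ∑ s ∈ U, (T.filter (fun p => c p ∣ s)).card ≤ U.card * 2 := by
      have := sum_le_card_nsmul U (fun s => (T.filter (fun p => c p ∣ s)).card) 2 (by
        intro u hu
        refine le_trans (card_le_card ?_) (dec1 u (hU u hu).1 (by have := (hU u hu).2; omega))
        intro p hp
        simp only [hT, mem_filter] at hp ⊢
        exact ⟨hp.1.1, (hcp p).trans hp.2⟩)
      simpa using this
    omega

theorem two_of_tight {S U : Finset ℕ} {g s : ℕ} (ht : tight S U g) (hs : s ∈ S) (hg : g ∣ s) :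
    ∃ u ∈ U, ∃ v ∈ U, u ≠ v ∧ g ∣ u ∧ g ∣ v := by
  have hpos : 0 < (S.filter (g ∣ ·)).card := card_pos.2 ⟨s, mem_filter.2 ⟨hs, hg⟩⟩
  have : 1 < (U.filter (g ∣ ·)).card := by unfold tight at ht; omega
  obtain ⟨u, hu, v, hv, huv⟩ := one_lt_card.1 this
  rw [mem_filter] at hu hv
  exact ⟨u, hu.1, v, hv.1, huv, hu.2, hv.2⟩

theorem exists_rep {S U : Finset ℕ} {W : ℕ} (hW : W < 44) (hW2 : W % 2 = 1)
    (hU : ∀ u ∈ U, u ≤ W ∧ u % 2 = 1) (hSW : ∀ s ∈ S, (W - 1) * (W - 3) ≤ s)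
    (hc : S.card + 1 = U.card) (hS : S.Nonempty) (h : cond S U) :
    ∃ s ∈ S, ∃ u ∈ U, ∃ v ∈ U, ∃ w ∈ U, (∃ α β γ, s = α * u + β * v + γ * w) ∧
      ∀ g ∈ DD, g ∣ s → tight S U g → g ∣ u ∧ g ∣ v ∧ g ∣ w := by
  classical
  have hU' : ∀ u ∈ U, u < 44 ∧ u % 2 = 1 := fun u hu => ⟨by have := (hU u hu).1; omega, (hU u hu).2⟩
  set c : ℕ → ℕ := fun p => if p = 3 ∧ ¬ tight S U 3 then 9 else p with hcdef
  have hcp : ∀ p, p ∣ c p := by
    intro p; simp only [hcdef]; split_ifs with h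
    · rw [h.1]; norm_num
    · exact dvd_refl p
  obtain ⟨s, hs, hgood⟩ := exists_good hU' hc hS c hcp
  refine ⟨s, hs, ?_⟩
  have pair : ∀ u ∈ U, ∀ v ∈ U, u ≠ v → Nat.gcd u v ∣ s →
      (∀ g ∈ DD, g ∣ s → tight S U g → g ∣ u ∧ g ∣ v) →
      ∃ u ∈ U, ∃ v ∈ U, ∃ w ∈ U, (∃ α β γ, s = α * u + β * v + γ * w) ∧
      ∀ g ∈ DD, g ∣ s → tight S U g → g ∣ u ∧ g ∣ v ∧ g ∣ w := by
    intro u hu v hv huv hg hT
    obtain ⟨α, β, hab⟩ := rep2 (hU u hu).1 (hU v hv).1 huv (hU u hu).2 (hU v hv).2 hW2 (hSW s hs) hg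
    exact ⟨u, hu, v, hv, v, hv, ⟨α, β, 0, by simpa using hab⟩, fun g hg h1 h2 =>
      ⟨(hT g hg h1 h2).1, (hT g hg h1 h2).2, (hT g hg h1 h2).2⟩⟩
  -- every tight modulus dividing `s` gives a prime class
  have cls : ∀ g ∈ DD, g ∣ s → tight S U g → ∃ p ∈ PP, c p ∣ s ∧ tight S U (c p) ∧
      (g = p ∨ (g = 9 ∧ p = 3)) := by
    intro g hg h1 h2
    by_cases h9 : g = 9
    · subst h9
      refine ⟨3, by decide, ?_, ?_, Or.inr ⟨rfl, rfl⟩⟩ <;> simp only [hcdef] <;> split_ifs with h3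
      · exact h1
      · exact (show 3 ∣ 9 by norm_num).trans h1
      · exact h2
      · simpa using h3
    · have hp : g ∈ PP := by
        simp only [DD, PP, mem_insert, mem_singleton] at hg ⊢; omega
      have : c g = g := by
        simp only [hcdef]; split_ifs with h3
        · exact absurd (h3.1 ▸ h2) h3.2
        · rfl
      exact ⟨g, hp, by rwa [this], by rwa [this], Or.inl rfl⟩
  by_cases hex : ∃ p ∈ PP, c p ∣ s ∧ tight S U (c p)
  · obtain ⟨p, hp, hp1, hp2⟩ := hex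
    have hT : ∀ g ∈ DD, g ∣ s → tight S U g → g = p ∨ (g = 9 ∧ p = 3) := by
      intro g hg h1 h2
      obtain ⟨p', hp', h3, h4, h5⟩ := cls g hg h1 h2
      rwa [hgood p hp p' hp' hp1 hp2 h3 h4]
    by_cases hp3 : p = 3
    · subst hp3
      by_cases h9 : 9 ∣ s ∧ tight S U 9
      · obtain ⟨u, hu, v, hv, huv, h1, h2⟩ := two_of_tight h9.2 hs h9.1
        have h39 : 3 ∣ 9 := by norm_num
        refine pair u hu v hv huv ?_ ?_
        · rcases dec4 u (hU' u hu).1 v (hU' v hv).1 (hU' u hu).2 (hU' v hv).2 huv (h39.trans h1)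
            (h39.trans h2) with h3 | h3
          · rw [h3]; exact h39.trans h9.1
          · rw [h3.1]; exact h9.1
        · intro g hg h3 h4
          rcases hT g hg h3 h4 with rfl | ⟨rfl, -⟩
          · exact ⟨h39.trans h1, h39.trans h2⟩
          · exact ⟨h1, h2⟩
      · have hc3 : c 3 = 3 := by
          by_contra hne
          have : c 3 = 9 := by
            simp only [hcdef] at hne ⊢; split_ifs at hne ⊢ with h3
            · rfl
            · exact absurd rfl hne
          rw [this] at hp1 hp2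
          exact h9 ⟨hp1, hp2⟩
        rw [hc3] at hp1 hp2
        have hT3 : ∀ x y : ℕ, 3 ∣ x → 3 ∣ y → ∀ g ∈ DD, g ∣ s → tight S U g → g ∣ x ∧ g ∣ y := by
          intro x y hx hy g hg h3 h4
          rcases hT g hg h3 h4 with rfl | ⟨rfl, -⟩
          · exact ⟨hx, hy⟩
          · exact absurd ⟨h3, h4⟩ h9
        obtain ⟨u, hu, v, hv, huv, h1, h2⟩ := two_of_tight hp2 hs hp1
        rcases dec4 u (hU' u hu).1 v (hU' v hv).1 (hU' u hu).2 (hU' v hv).2 huv h1 h2 with h3 | h3
        · exact pair u hu v hv huv (by rw [h3]; exact hp1) (hT3 u v h1 h2)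
        · by_cases hw : ∃ w ∈ U, 3 ∣ w ∧ ¬ 9 ∣ w
          · obtain ⟨w, hw, h4, h5⟩ := hw
            have huw : u ≠ w := fun e => h5 (e ▸ h3.2.1)
            rcases dec4 u (hU' u hu).1 w (hU' w hw).1 (hU' u hu).2 (hU' w hw).2 huw h1 h4 with
              h6 | h6
            · exact pair u hu w hw huw (by rw [h6]; exact hp1) (hT3 u w h1 h4)
            · exact absurd h6.2.2 h5
          · push Not at hw
            have e1 : U.filter (3 ∣ ·) ⊆ U.filter (9 ∣ ·) := fun x hx => by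
              rw [mem_filter] at hx ⊢; exact ⟨hx.1, hw x hx.1 hx.2⟩
            have e2 : S.filter (9 ∣ ·) ⊆ S.filter (3 ∣ ·) := fun x hx => by
              rw [mem_filter] at hx ⊢; exact ⟨hx.1, (show 3 ∣ 9 by norm_num).trans hx.2⟩
            have e3 := h 9 (by decide)
            have e4 := card_le_card e1
            have e5 : S.filter (9 ∣ ·) = S.filter (3 ∣ ·) :=
              eq_of_subset_of_card_le e2 (by unfold tight at hp2; omega)
            have e6 : s ∈ S.filter (9 ∣ ·) := by rw [e5]; exact mem_filter.2 ⟨hs, hp1⟩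
            exact pair u hu v hv huv (by rw [h3.1]; exact (mem_filter.1 e6).2) (hT3 u v h1 h2)
    · have hcp' : c p = p := by simp [hcdef, hp3]
      rw [hcp'] at hp1 hp2
      obtain ⟨u, hu, v, hv, huv, h1, h2⟩ := two_of_tight hp2 hs hp1
      refine pair u hu v hv huv ?_ ?_
      · rw [dec3 p hp hp3 u (hU' u hu).1 v (hU' v hv).1 (hU' u hu).2 (hU' v hv).2 huv h1 h2]
        exact hp1
      · intro g hg h3 h4
        rcases hT g hg h3 h4 with rfl | ⟨-, h5⟩
        · exact ⟨h1, h2⟩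
        · exact absurd h5 hp3
  · have hT : ∀ g ∈ DD, g ∣ s → ¬ tight S U g := by
      intro g hg h1 h2
      obtain ⟨p, hp, h3, h4, -⟩ := cls g hg h1 h2
      exact hex ⟨p, hp, h3, h4⟩
    have cop : ∀ u ∈ U, ∀ v ∈ U, u ≠ v → Nat.gcd u v = 1 →
        ∃ u ∈ U, ∃ v ∈ U, ∃ w ∈ U, (∃ α β γ, s = α * u + β * v + γ * w) ∧
        ∀ g ∈ DD, g ∣ s → tight S U g → g ∣ u ∧ g ∣ v ∧ g ∣ w := fun u hu v hv huv h1 =>
      pair u hu v hv huv (by rw [h1]; exact one_dvd _) fun g hg h1 h2 => absurd h2 (hT g hg h1)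
    have hSpos := hS.card_pos
    obtain ⟨u, hu, v, hv, huv⟩ := one_lt_card.1 (show 1 < U.card by omega)
    rcases dec5 u (hU' u hu).1 v (hU' v hv).1 (hU' u hu).2 (hU' v hv).2 huv with
      h1 | ⟨p, hp, h1, h2, h3⟩
    · exact cop u hu v hv huv h1
    · by_cases hw : ∃ w ∈ U, ¬ p ∣ w
      · obtain ⟨w, hw, h4⟩ := hw
        rcases h3 w (hU' w hw).1 (hU' w hw).2 h4 with h5 | h5 | h5
        · exact cop u hu w hw (fun e => h4 (e ▸ h1)) h5
        · exact cop v hv w hw (fun e => h4 (e ▸ h2)) h5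
        · have mem : ∀ x ∈ ({15, 21, 35} : Finset ℕ), x ∈ U := by
            intro x hx; rcases h5 x hx with rfl | rfl | rfl <;> assumption
          have h35 := (hU 35 (mem 35 (by decide))).1
          have hs1 : 34 * 32 ≤ s := le_trans (Nat.mul_le_mul (by omega) (by omega)) (hSW s hs)
          refine ⟨15, mem 15 (by decide), 21, mem 21 (by decide), 35, mem 35 (by decide), ?_,
            fun g hg h1 h2 => absurd h2 (hT g hg h1)⟩
          obtain ⟨α, β, hab⟩ := Nat.exists_add_mul_eq_of_gcd_dvd_of_mul_pred_le 15 21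
            (s - 35 * (2 * s % 3)) (by norm_num; omega) (by norm_num; omega)
          exact ⟨α, β, 2 * s % 3, by omega⟩
      · push Not at hw
        have hpD : p ∈ DD := by
          simp only [DD, PP, mem_insert, mem_singleton] at hp ⊢; omega
        have e1 : U.filter (p ∣ ·) = U := filter_true_of_mem hw
        have e2 := h p hpD
        have e3 := card_filter_le S (p ∣ ·)
        rw [e1] at e2
        have e4 : S.filter (p ∣ ·) = S := eq_of_subset_of_card_le (filter_subset _ _) (by omega)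
        have e5 : s ∈ S.filter (p ∣ ·) := by rw [e4]; exact hs
        exact absurd (by unfold tight; rw [e1, e4]; omega) (hT p hpD (mem_filter.1 e5).2)

theorem FF_NN {W : ℕ} (hW : W < 44) (hW2 : W % 2 = 1) (n : ℕ) : ∀ S U : Finset ℕ, S.card = n →
    (∀ u ∈ U, u ≤ W ∧ u % 2 = 1) → (∀ s ∈ S, (W - 1) * (W - 3) ≤ s) →
    S.card + 1 = U.card → cond S U → NN (FF S U) := by
  induction n with
  | zero =>
    intro S U hn _ _ _ _
    rw [card_eq_zero] at hn
    subst hn
    simpa [FF] using NN_prod U geo fun _ _ => NN_geo _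
  | succ n ih =>
    intro S U hn hU hSW hc h
    obtain ⟨s, hs, u, hu, v, hv, w, hw, ⟨α, β, γ, hrep⟩, hT⟩ :=
      exists_rep hW hW2 hU hSW hc (card_pos.1 (by omega)) h
    have step : ∀ x ∈ U, (∀ g ∈ DD, g ∣ s → tight S U g → g ∣ x) →
        NN (FF (S.erase s) (U.erase x)) := by
      intro x hx hx'
      refine ih _ _ (by rw [card_erase_of_mem hs]; omega)
        (fun y hy => hU y (mem_of_mem_erase hy)) (fun y hy => hSW y (mem_of_mem_erase hy))
        (by rw [card_erase_of_mem hs, card_erase_of_mem hx]; omega) (cond_erase h hs hx hx')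
    exact FF_split hs hu hv hw (fun x hx => by have := (hU x hx).2; omega) hrep
      (step u hu fun g a b c => (hT g a b c).1) (step v hv fun g a b c => (hT g a b c).2.1)
      (step w hw fun g a b c => (hT g a b c).2.2)

theorem card_filter_odd (g c n : ℕ) (hg : g % 2 = 1) :
    n / g ≤ ((range n).filter fun i => g ∣ c + 2 * i).card := by
  have hg0 : 0 < g := by omega
  obtain ⟨r, hr, hr2⟩ : ∃ r < g, g ∣ c + 2 * r := by
    refine ⟨((g - c % g) * ((g + 1) / 2)) % g, Nat.mod_lt _ hg0, ?_⟩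
    have h1 : 2 * ((g + 1) / 2) = g + 1 := by omega
    have h2 : c + 2 * (((g - c % g) * ((g + 1) / 2)) % g) ≡
        c % g + 2 * ((g - c % g) * ((g + 1) / 2)) [MOD g] :=
      ((Nat.mod_modEq c g).symm).add ((Nat.mod_modEq _ g).mul_left 2)
    refine (Nat.modEq_zero_iff_dvd).1 (h2.trans (Nat.modEq_zero_iff_dvd.2 ?_))
    have h3 := (Nat.mod_lt c hg0).le
    rw [mul_left_comm, h1, mul_add, mul_one]
    have : c % g + ((g - c % g) * g + (g - c % g)) = g * (g - c % g + 1) := by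
      rw [mul_add, mul_comm g]; omega
    rw [this]; exact dvd_mul_right _ _
  have : ((range (n / g)).image fun j => r + g * j) ⊆
      (range n).filter fun i => g ∣ c + 2 * i := by
    intro x hx
    obtain ⟨j, hj, rfl⟩ := mem_image.1 hx
    rw [mem_range] at hj
    refine mem_filter.2 ⟨mem_range.2 ?_, ?_⟩
    · have h1 : g * (j + 1) ≤ g * (n / g) := Nat.mul_le_mul_left _ hj
      have h2 := Nat.mul_div_le n g
      rw [mul_add] at h1; omega
    · rw [mul_add, ← add_assoc]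
      exact dvd_add hr2 (Dvd.dvd.mul_left (dvd_mul_right _ _) 2)
  refine le_trans ?_ (card_le_card this)
  rw [card_image_of_injective _ (fun x y h => Nat.eq_of_mul_eq_mul_left hg0 (by simpa using h))]
  simp

theorem dec6 : ∀ b < 22, ∀ g ∈ DD,
    ((range b).filter fun i => g ∣ 2 * i + 3).card ≤ (b - 1) / g + 1 := by decide +kernel

theorem Vser_NN_CI {a b : ℕ} (hb1 : 1 ≤ b) (hb : b ≤ 21) (ha : 2 * b * (2 * b - 2) ≤ 2 * a + 3) :
    NN (Vser a b) := by
  have i1 : Function.Injective fun i : ℕ => 2 * a + 2 * i + 3 := fun x y h => by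
    simp only at h; omega
  have i2 : Function.Injective fun i : ℕ => 2 * i + 3 := fun x y h => by
    simp only at h; omega
  have := FF_NN (W := 2 * b + 1) (by omega) (by omega) _
    ((range (b - 1)).image fun i => 2 * a + 2 * i + 3) ((range b).image fun i => 2 * i + 3) rfl
    (by
      intro u hu
      obtain ⟨i, hi, rfl⟩ := mem_image.1 hu
      rw [mem_range] at hi; omega)
    (by
      intro s hs
      obtain ⟨i, hi, rfl⟩ := mem_image.1 hs
      have : 2 * b + 1 - 3 = 2 * b - 2 := by omega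
      rw [this, Nat.add_sub_cancel]; omega)
    (by rw [card_image_of_injective _ i1, card_image_of_injective _ i2]; simp; omega)
    (by
      intro g hg
      rw [filter_image, filter_image, card_image_of_injective _ i1, card_image_of_injective _ i2]
      refine (dec6 b (by omega) g hg).trans (Nat.add_le_add_right ?_ 1)
      have := card_filter_odd g (2 * a + 3) (b - 1)
        (by simp only [DD, mem_insert, mem_singleton] at hg; omega)
      convert this using 3
      ring_nf)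
  unfold FF at this
  rwa [prod_image (fun x _ y _ h => i1 h), prod_image (fun x _ y _ h => i2 h)] at this

end Pool.Agent.Lib.MP_667609_co
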