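import Pool.Agent.Lib.MP_667609_co.Defs
import Mathlib.Analysis.Complex.CauchyIntegral
import Mathlib.Analysis.SpecialFunctions.Integrals.Basic
import Mathlib.MeasureTheory.Integral.DominatedConvergence

/-! The coefficient as a contour integral. -/

open Finset Complex

namespace Pool.Agent.Lib.MP_667609_co

def Ev (φ : PowerSeries ℤ) (z A : ℂ) : Prop :=
  Summable (fun k => ‖((PowerSeries.coeff k φ : ℤ) : ℂ) * z ^ k‖) ∧
    HasSum (fun k => ((PowerSeries.coeff k φ : ℤ) : ℂ) * z ^ k) A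

theorem Ev.mul {φ ψ : PowerSeries ℤ} {z A B : ℂ} (h : Ev φ z A) (k : Ev ψ z B) :
    Ev (φ * ψ) z (A * B) := by
  have e : ∀ n, ((PowerSeries.coeff n (φ * ψ) : ℤ) : ℂ) * z ^ n =
      ∑ kl ∈ antidiagonal n, (((PowerSeries.coeff kl.1 φ : ℤ) : ℂ) * z ^ kl.1) *
        (((PowerSeries.coeff kl.2 ψ : ℤ) : ℂ) * z ^ kl.2) := by
    intro n
    rw [PowerSeries.coeff_mul]; push_cast
    rw [sum_mul]
    refine sum_congr rfl fun kl hkl => ?_
    rw [← mem_antidiagonal.1 hkl, pow_add]; ring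
  have h1 := summable_norm_sum_mul_antidiagonal_of_summable_norm h.1 k.1
  unfold Ev
  simp only [e]
  refine ⟨h1, ?_⟩
  rw [← h.2.tsum_eq, ← k.2.tsum_eq, tsum_mul_tsum_eq_tsum_sum_antidiagonal_of_summable_norm h.1 k.1]
  exact h1.of_norm.hasSum

theorem Ev_X_pow (s : ℕ) (z : ℂ) : Ev (PowerSeries.X ^ s) z (z ^ s) := by
  have h : ∀ k, k ≠ s → ((PowerSeries.coeff k (PowerSeries.X ^ s : PowerSeries ℤ) : ℤ) : ℂ) *
      z ^ k = 0 := by
    intro k hk; simp [PowerSeries.coeff_X_pow, hk]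
  refine ⟨(hasSum_single s fun k hk => by rw [h k hk, norm_zero]).summable, ?_⟩
  simpa [PowerSeries.coeff_X_pow] using hasSum_single s h

theorem Ev.sub {φ ψ : PowerSeries ℤ} {z A B : ℂ} (h : Ev φ z A) (k : Ev ψ z B) :
    Ev (φ - ψ) z (A - B) := by
  unfold Ev
  simp only [map_sub, Int.cast_sub, sub_mul]
  exact ⟨Summable.of_nonneg_of_le (fun _ => norm_nonneg _) (fun _ => norm_sub_le _ _)
    (h.1.add k.1), h.2.sub k.2⟩

theorem Ev_one (z : ℂ) : Ev 1 z 1 := by simpa using Ev_X_pow 0 z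

theorem Ev_geo {u : ℕ} (hu : 0 < u) {z : ℂ} (hz : ‖z‖ < 1) : Ev (geo u) z (1 - z ^ u)⁻¹ := by
  have h1 : Summable (fun k => ‖((PowerSeries.coeff k (geo u) : ℤ) : ℂ) * z ^ k‖) := by
    refine Summable.of_nonneg_of_le (fun _ => norm_nonneg _) (fun k => ?_)
      (summable_geometric_of_lt_one (norm_nonneg z) hz)
    rw [geo, PowerSeries.coeff_mk]
    split_ifs <;> simp
  have h2 : Ev (geo u) z _ := ⟨h1, h1.of_norm.hasSum⟩
  have h3 := h2.mul ((Ev_one z).sub (Ev_X_pow u z))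
  rw [geo_mul hu] at h3
  have h4 := h3.2.unique (Ev_one z).2
  rwa [eq_inv_of_mul_eq_one_left h4] at h2

theorem Ev_prod (f : ℕ → PowerSeries ℤ) (g : ℕ → ℂ) (z : ℂ) (h : ∀ i, Ev (f i) z (g i)) (n : ℕ) :
    Ev (∏ i ∈ range n, f i) z (∏ i ∈ range n, g i) := by
  induction n with
  | zero => simpa using Ev_one z
  | succ n ih => rw [prod_range_succ, prod_range_succ]; exact ih.mul (h n)

/-- The integrand of Cauchy's formula in the variable `w = -log q`. -/
noncomputable def II (a b n m : ℕ) (w : ℂ) : ℂ :=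
  (∏ i ∈ range b, (1 - exp (-w) ^ (2 * a + 2 * i + 3))) *
    (∏ i ∈ range n, (1 - exp (-w) ^ (2 * i + 3))⁻¹) * exp w ^ m

theorem norm_exp_neg_lt {w : ℂ} (hw : 0 < w.re) : ‖exp (-w)‖ < 1 := by
  rw [norm_exp, Real.exp_lt_one_iff]; simpa using hw

theorem one_sub_ne_zero {w : ℂ} (hw : 0 < w.re) {u : ℕ} (hu : 0 < u) : 1 - exp (-w) ^ u ≠ 0 := by
  intro h
  have h1 := pow_lt_one₀ (norm_nonneg _) (norm_exp_neg_lt hw) hu.ne'
  rw [← norm_pow, ← sub_eq_zero.1 h] at h1
  simp at h1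

theorem II_diff (a b n m : ℕ) {w : ℂ} (hw : 0 < w.re) : DifferentiableAt ℂ (II a b n m) w := by
  unfold II
  refine (DifferentiableAt.mul (DifferentiableAt.fun_finsetProd fun i _ => by fun_prop)
    (DifferentiableAt.fun_finsetProd fun i _ => ?_)).mul (by fun_prop)
  exact DifferentiableAt.inv (by fun_prop) (one_sub_ne_zero hw (by omega))

theorem II_cont (a b n m : ℕ) {t : ℝ} (ht : 0 < t) :
    Continuous fun θ : ℝ => II a b n m (t + θ * I) :=
  continuous_iff_continuousAt.2 fun θ =>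
    ContinuousAt.comp (f := fun θ : ℝ => (t + θ * I : ℂ))
      (II_diff a b n m (by simpa using ht)).continuousAt (by fun_prop)

theorem cauchy (a b n m : ℕ) {t : ℝ} (ht : 0 < t) :
    (∫ θ in (0 : ℝ)..Real.pi, II a b n m (t + θ * I)).re =
      Real.pi * PowerSeries.coeff m (Kser a b n) := by
  have hE : ∀ w : ℂ, 0 < w.re → Ev (Kser a b n) (exp (-w))
      ((∏ i ∈ range b, (1 - exp (-w) ^ (2 * a + 2 * i + 3))) *
        (∏ i ∈ range n, (1 - exp (-w) ^ (2 * i + 3))⁻¹)) := fun w hw =>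
    (Ev_prod _ _ _ (fun i => (Ev_one _).sub (Ev_X_pow _ _)) b).mul
      (Ev_prod _ _ _ (fun i => Ev_geo (by omega) (norm_exp_neg_lt hw)) n)
  set c : ℕ → ℂ := fun k => ((PowerSeries.coeff k (Kser a b n) : ℤ) : ℂ) with hc
  have hs := ((hE t (by simpa using ht)).1).mul_right (Real.exp t ^ m)
  have h := intervalIntegral.hasSum_integral_of_dominated_convergence (μ := MeasureTheory.volume)
    (a := 0) (b := Real.pi) (f := fun θ : ℝ => II a b n m (t + θ * I))
    (F := fun k (θ : ℝ) => c k * exp (-(t + θ * I)) ^ k * exp (t + θ * I) ^ m)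
    (fun k _ => ‖c k * exp (-t) ^ k‖ * Real.exp t ^ m)
    (fun k => Continuous.aestronglyMeasurable (by fun_prop))
    (fun k => Filter.Eventually.of_forall fun θ _ => le_of_eq (by
      simp [norm_exp]))
    (Filter.Eventually.of_forall fun _ _ => hs) intervalIntegrable_const
    (Filter.Eventually.of_forall fun θ _ => (hE _ (by simpa using ht)).2.mul_right _)
  have h2 := (reCLM.hasSum h)
  have h3 : ∀ k, k ≠ m → reCLM (∫ θ in (0 : ℝ)..Real.pi,
      c k * exp (-(t + θ * I)) ^ k * exp (t + θ * I) ^ m) = 0 := by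
    intro k hk
    have e : ∀ θ : ℝ, c k * exp (-(t + θ * I)) ^ k * exp (t + θ * I) ^ m =
        (c k * exp (((m - k : ℤ) : ℂ) * t)) * exp ((((m - k : ℤ) : ℂ) * I) * θ) := by
      intro θ
      rw [← exp_nat_mul, ← exp_nat_mul, mul_assoc, mul_assoc, ← exp_add, ← exp_add]
      congr 2; push_cast; ring
    have hne : ((m - k : ℤ) : ℂ) ≠ 0 := by
      rw [Int.cast_ne_zero]; omega
    simp only [e]
    rw [intervalIntegral.integral_const_mul, integral_exp_mul_complex (mul_ne_zero hne I_ne_zero),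
      show ((m - k : ℤ) : ℂ) * I * Real.pi = ((m - k : ℤ) : ℂ) * (Real.pi * I) by ring,
      exp_int_mul (Real.pi * I), exp_pi_mul_I]
    have : c k * exp (((m - k : ℤ) : ℂ) * t) *
        (((-1) ^ (m - k : ℤ) - exp (((m - k : ℤ) : ℂ) * I * (0 : ℝ))) / (((m - k : ℤ) : ℂ) * I)) =
        ((PowerSeries.coeff k (Kser a b n) * Real.exp ((m - k : ℤ) * t) *
          ((1 - (-1) ^ (m - k : ℤ)) / (m - k : ℤ)) : ℝ) : ℂ) * I := by
      simp only [hc, ofReal_zero, mul_zero, exp_zero, ofReal_mul, ofReal_intCast, ofReal_exp,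
        ofReal_div, ofReal_sub, ofReal_one, ofReal_zpow, ofReal_neg]
      field_simp
      rw [I_sq]; ring
    rw [this, reCLM_apply, re_ofReal_mul]; simp
  have h4 := h2.unique (hasSum_single m h3)
  rw [reCLM_apply] at h4
  rw [h4]
  have e : ∀ θ : ℝ, c m * exp (-(t + θ * I)) ^ m * exp (t + θ * I) ^ m = c m := by
    intro θ; rw [mul_assoc, ← mul_pow, ← exp_add]; simp
  simp only [e]
  simp [hc]

theorem rect (a b n m : ℕ) {t t3 θ1 : ℝ} (ht : 0 < t) (h3 : t ≤ t3) :
    (∫ θ in θ1..Real.pi, II a b n m (t + θ * I)).re =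
      (∫ θ in θ1..Real.pi, II a b n m (t3 + θ * I)).re +
        (∫ x in t..t3, II a b n m (x + θ1 * I)).im := by
  have h := integral_boundary_rect_eq_zero_of_differentiableOn (II a b n m) (t + θ1 * I)
    (t3 + Real.pi * I) (fun w hw => (II_diff a b n m (by
      have := hw.1
      simp only [add_re, ofReal_re, mul_re, I_re, mul_zero, ofReal_im, I_im, mul_one, sub_self,
        add_zero, Set.mem_preimage, Set.uIcc_of_le h3] at this
      exact ht.trans_le this.1)).differentiableWithinAt)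
  simp only [add_re, ofReal_re, mul_re, I_re, mul_zero, ofReal_im, I_im, mul_one, sub_self,
    add_zero, add_im, mul_im, zero_add, smul_eq_mul] at h
  have hre : (∫ x in t..t3, II a b n m (x + Real.pi * I)).im = 0 := by
    have : ∀ x : ℝ, II a b n m (x + Real.pi * I) =
        (((∏ i ∈ range b, (1 - (-Real.exp (-x)) ^ (2 * a + 2 * i + 3))) *
        (∏ i ∈ range n, (1 - (-Real.exp (-x)) ^ (2 * i + 3))⁻¹) * (-Real.exp x) ^ m : ℝ) : ℂ) := by
      intro x
      have e1 : exp (x + Real.pi * I) = -exp x := by rw [exp_add, exp_pi_mul_I]; ring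
      have e2 : exp (-(x + Real.pi * I)) = -exp (-x) := by rw [exp_neg, e1, exp_neg, inv_neg]
      rw [II, e1, e2]; push_cast; rfl
    simp only [this]
    rw [intervalIntegral.integral_ofReal, ofReal_im]
  have := congrArg im h
  simp only [sub_im, add_im, mul_im, I_re, I_im, zero_mul, one_mul, zero_add, hre, zero_im] at this
  linarith

end Pool.Agent.Lib.MP_667609_co
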