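import Pool.Agent.Lib.MP_667609_co.Defs

/-! Partial fraction certificates for three diagonal cases. -/

open PowerSeries

namespace Pool.Agent.Lib.MP_667609_co

/-- The polynomial with the given list of coefficients. -/
noncomputable def ev : List ℤ → ℤ⟦X⟧
  | [] => 0
  | c :: l => C c + X * ev l

def addL : List ℤ → List ℤ → List ℤ
  | [], m => m
  | a :: l, [] => a :: l
  | a :: l, b :: m => (a + b) :: addL l m

def shL (s : ℕ) (l : List ℤ) : List ℤ := List.replicate s 0 ++ l

def binL (s : ℕ) (l : List ℤ) : List ℤ := addL l (shL s (l.map fun x => -x))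

def binsL (ss : List ℕ) (l : List ℤ) : List ℤ := ss.foldr binL l

theorem ev_add : ∀ l m, ev (addL l m) = ev l + ev m
  | [], m => by simp [addL, ev]
  | a :: l, [] => by simp [addL, ev]
  | a :: l, b :: m => by simp only [addL, ev, ev_add l m, map_add]; ring

theorem ev_sh (s : ℕ) (l : List ℤ) : ev (shL s l) = X ^ s * ev l := by
  induction s with
  | zero => simp [shL]
  | succ s ih =>
    rw [shL, List.replicate_succ, List.cons_append, ev, ← shL, ih, map_zero]
    ring

theorem ev_neg (l : List ℤ) : ev (l.map fun x => -x) = -ev l := by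
  induction l with
  | nil => simp [ev]
  | cons a l ih => simp only [List.map_cons, ev, ih, map_neg]; ring

theorem ev_bin (s : ℕ) (l : List ℤ) : ev (binL s l) = ev l * (1 - X ^ s) := by
  rw [binL, ev_add, ev_sh, ev_neg]; ring

theorem ev_bins (ss : List ℕ) (l : List ℤ) :
    ev (binsL ss l) = ev l * (ss.map fun s => (1 - X ^ s : ℤ⟦X⟧)).prod := by
  induction ss with
  | nil => simp [binsL]
  | cons s ss ih =>
    rw [binsL, List.foldr_cons, ← binsL, ev_bin, ih, List.map_cons, List.prod_cons]; ring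

theorem ev_zero {l : List ℤ} (h : l.all (· == 0) = true) : ev l = 0 := by
  induction l with
  | nil => rfl
  | cons a l ih =>
    simp only [List.all_cons, Bool.and_eq_true, beq_iff_eq] at h
    simp [ev, h.1, ih h.2]

theorem NN_ev (l : List ℕ) : NN (ev (l.map Int.ofNat)) := by
  induction l with
  | nil => exact NN_zero
  | cons a l ih =>
    refine NN.add (fun m => ?_) (NN.mul (by simpa using NN_X_pow 1) ih)
    rw [coeff_C]
    split_ifs <;> simp

def certL (P : List ℕ) : List (ℕ × List ℕ) → List ℤ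
  | [] => P.map Int.ofNat
  | x :: l => addL (binL x.1 (certL P l))
      (binsL (l.map Prod.fst) (shL P.length (x.2.map Int.ofNat)))

theorem ev_cert (P : List ℕ) (l : List (ℕ × List ℕ)) (h : l.all (fun x => 0 < x.1) = true) :
    ∃ S, NN S ∧
      ev (certL P l) = S * ((l.map Prod.fst).map fun s => (1 - X ^ s : ℤ⟦X⟧)).prod := by
  induction l with
  | nil => exact ⟨_, NN_ev P, by simp [certL]⟩
  | cons x l ih =>
    simp only [List.all_cons, Bool.and_eq_true, decide_eq_true_eq] at h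
    obtain ⟨S, h1, h2⟩ := ih h.2
    refine ⟨S + X ^ P.length * ev (x.2.map Int.ofNat) * geo x.1,
      h1.add (((NN_X_pow _).mul (NN_ev _)).mul (NN_geo _)), ?_⟩
    rw [certL, ev_add, ev_bin, ev_bins, ev_sh, h2, List.map_cons, List.map_cons, List.prod_cons]
    linear_combination (-(X ^ P.length * ev (x.2.map Int.ofNat) *
      ((l.map Prod.fst).map fun s => (1 - X ^ s : ℤ⟦X⟧)).prod)) * geo_mul h.1

theorem Pser_mul (n : ℕ) : Pser n * ∏ i ∈ Finset.range n, (1 - X ^ (2 * i + 3)) = 1 := by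
  rw [Pser, ← Finset.prod_mul_distrib]
  exact Finset.prod_eq_one fun i _ => geo_mul (by omega)

theorem cert_sound {a b : ℕ} {P : List ℕ} {l : List (ℕ × List ℕ)}
    (h : (l.all (fun x => 0 < x.1) &&
      (addL (binsL ((List.range b).map fun i => 2 * i + 3) (certL P l))
        (binsL (l.map Prod.fst)
          (binsL ((List.range (b - 1)).map fun i => 2 * a + 2 * i + 3) [-1]))).all (· == 0)) = true) :
    NN (Vser a b) := by
  rw [Bool.and_eq_true] at h
  obtain ⟨S, h1, h2⟩ := ev_cert P l h.1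
  have h3 := ev_zero h.2
  have h4 : ((l.map Prod.fst).map fun s => (1 - X ^ s : ℤ⟦X⟧)).prod ≠ 0 := by
    refine List.prod_ne_zero fun h0 => ?_
    obtain ⟨s, hs, h5⟩ := List.mem_map.1 h0
    obtain ⟨x, hx, rfl⟩ := List.mem_map.1 hs
    have := geo_mul (of_decide_eq_true (List.all_eq_true.1 h.1 x hx))
    rw [h5, mul_zero] at this
    exact zero_ne_one this
  have h5 : ∀ (f : ℕ → ℕ) n, (((List.range n).map f).map fun s => (1 - X ^ s : ℤ⟦X⟧)).prod =
      ∏ i ∈ Finset.range n, (1 - X ^ f i) := fun f n => by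
    induction n with
    | zero => simp
    | succ n ih => rw [List.range_succ, Finset.prod_range_succ, ← ih]; simp
  rw [ev_add, ev_bins, ev_bins, ev_bins, h2, h5, h5] at h3
  have h6 : ev [-1] = -1 := by simp [ev]
  rw [h6, ← Nser] at h3
  have h7 : S * ∏ i ∈ Finset.range b, (1 - X ^ (2 * i + 3)) = Nser a (b - 1) :=
    mul_right_cancel₀ h4 (by linear_combination h3)
  rwa [Vser, ← h7, mul_assoc, mul_comm _ (Pser b), Pser_mul, mul_one]

theorem diag11 : NN (Vser 11 11) := cert_sound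
  (P := [1, 0, 0, 1, 0, 1, 1, 1, 1, 2, 2, 2, 3, 3, 4, 5, 5, 6, 8, 8, 10, 12, 13, 15, 18, 18, 23, 25,
    28, 32, 36, 40, 44, 52, 54, 63, 69, 76, 84, 94, 101, 113, 124, 134, 148, 163, 174, 191, 209,
    223, 245, 263, 286, 304, 334, 352, 384, 409, 437, 469, 502, 533, 568, 609, 640, 686, 725,
    768, 811, 863, 901, 960, 1005, 1061, 1111, 1175, 1222, 1287, 1350, 1403, 1475, 1533, 1604,
    1664, 1745, 1797, 1884, 1945, 2022, 2091, 2176, 2236, 2322, 2395, 2469, 2549, 2626, 2703,
    2776, 2868, 2922, 3026, 3081, 3174, 3234, 3334, 3381, 3479, 3542, 3616, 3690, 3764, 3831,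
    3899, 3979, 4023, 4115, 4158, 4239, 4278, 4374, 4388, 4487, 4512, 4588, 4622, 4693, 4722,
    4783, 4833, 4856, 4928, 4943, 5006, 5015, 5096, 5076, 5162, 5150, 5217, 5210, 5280, 5260,
    5325, 5325, 5350, 5381, 5391, 5419, 5414, 5477, 5427, 5511, 5461, 5532, 5483, 5562, 5500,
    5576, 5536, 5571, 5561, 5587, 5575, 5584, 5612, 5570, 5633, 5576, 5643, 5574, 5665, 5564,
    5672, 5584, 5656, 5598, 5659, 5603, 5643, 5638, 5618, 5653, 5613, 5660, 5601, 5683, 5579,
    5696, 5585, 5684, 5587, 5695, 5583, 5679, 5613, 5651, 5633])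
  (l := [(105, [16, 8, 15, 20, 4, 19, 19, 4, 20, 15, 8, 16, 19, 6, 18, 18, 5, 18, 19, 3, 22, 14, 11, 11,
      24, 1, 21, 16, 7, 19, 15, 8, 16, 20, 3, 21, 16, 8, 14, 23, 0, 24, 11, 14, 10, 24, 1, 21,
      17, 4, 22, 13, 11, 12, 24, 0, 23, 13, 11, 13, 23, 0, 24, 12, 11, 13, 22, 4, 17, 21, 1, 24,
      10, 14, 11, 24, 0, 23, 14, 8, 16, 21, 3, 20, 16, 8, 15, 19, 7, 16, 21, 1, 24, 11, 11, 14,
      22, 3, 19, 18, 5, 18, 18, 6, 19]),
    (17, [5612, 5580, 5596, 5596, 5580, 5612, 5566, 5625, 5554, 5633, 5549, 5637, 5549, 5633, 5554,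
      5625, 5566]),
    (19, [10, 59, 4, 62, 0, 66, 0, 62, 4, 59, 10, 49, 20, 41, 29, 29, 41, 20, 49]),
    (23, [0, 0, 0, 0, 1, 0, 0, 0, 0, 0, 0, 0, 0, 0, 0, 0, 0, 0, 0, 0, 0, 0, 0])])
  (by decide +kernel)

theorem diag12 : NN (Vser 12 12) := cert_sound
  (P := [1, 0, 0, 1, 0, 1, 1, 1, 1, 2, 2, 2, 3, 3, 4, 5, 5, 6, 8, 8, 10, 12, 13, 15, 18, 20, 23, 25,
    30, 32, 38, 42, 46, 54, 58, 67, 73, 82, 90, 102, 111, 123, 136, 150, 164, 182, 198, 216,
    238, 259, 282, 308, 334, 361, 395, 424, 463, 495, 539, 576, 626, 668, 718, 773, 826, 885,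
    946, 1011, 1076, 1152, 1222, 1303, 1381, 1471, 1554, 1655, 1743, 1850, 1950, 2063, 2170,
    2294, 2409, 2535, 2669, 2797, 2940, 3074, 3231, 3369, 3538, 3683, 3855, 4014, 4195, 4358,
    4548, 4719, 4914, 5098, 5295, 5488, 5688, 5894, 6090, 6314, 6508, 6737, 6936, 7176, 7371,
    7619, 7817, 8064, 8273, 8517, 8730, 8969, 9193, 9425, 9660, 9880, 10118, 10337, 10584,
    10784, 11044, 11232, 11493, 11677, 11937, 12115, 12367, 12550, 12786, 12977, 13195, 13387,
    13590, 13794, 13971, 14185, 14336, 14558, 14695, 14918, 15033, 15257, 15363, 15578, 15679,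
    15881, 15976, 16163, 16269, 16420, 16544, 16662, 16802, 16890, 17043, 17101, 17264, 17297,
    17468, 17485, 17655, 17650, 17821, 17820, 17966, 17973, 18091, 18118, 18205, 18255, 18300,
    18377, 18386, 18491, 18461, 18591, 18528, 18677, 18597, 18745, 18662, 18799, 18721, 18845,
    18784, 18874, 18840, 18893, 18900, 18905, 18957, 18904, 19004, 18915, 19044, 18919, 19070,
    18932, 19093, 18945, 19098, 18966, 19098, 18993, 19087, 19027, 19064, 19059, 19045, 19095,
    19021, 19123, 18998, 19152, 18984, 19169, 18973, 19172, 18982, 19168, 18995, 19146, 19020,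
    19126, 19047, 19094, 19078, 19062, 19117, 19027, 19149, 18994, 19178, 18973])
  (l := [(21, [76, 15, 68, 25, 53, 41, 41, 53, 25, 68, 15, 76, 6, 84, 2, 86, 0, 86, 2, 84, 6]),
    (25, [18924, 18924, 18920, 18924, 18924, 18924, 18924, 18920, 18924, 18924, 18924, 18924,
      18920, 18924, 18924, 18924, 18924, 18919, 18924, 18924, 18924, 18924, 18920, 18924, 18924]),
    (17, [24, 11, 30, 5, 35, 2, 37, 0, 37, 2, 35, 5, 30, 11, 24, 17, 17]),
    (19, [167, 6, 176, 0, 176, 6, 167, 19, 149, 41, 124, 67, 97, 97, 67, 124, 41, 149, 19]),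
    (23, [3, 9, 2, 10, 1, 11, 0, 11, 1, 10, 2, 9, 3, 8, 4, 7, 5, 6, 6, 5, 7, 4, 8])])
  (by decide +kernel)

theorem diag13 : NN (Vser 13 13) := cert_sound
  (P := [1, 0, 0, 1, 0, 1, 1, 1, 1, 2, 2, 2, 3, 3, 4, 5, 5, 6, 8, 8, 10, 12, 13, 15, 18, 20, 23, 27,
    30, 32, 40, 42, 48, 56, 60, 69, 77, 86, 94, 108, 117, 131, 146, 160, 176, 198, 214, 236,
    262, 284, 312, 343, 373, 407, 446, 483, 525, 572, 620, 668, 733, 782, 850, 918, 988, 1062,
    1148, 1229, 1320, 1421, 1517, 1626, 1742, 1860, 1981, 2126, 2253, 2406, 2561, 2721, 2887,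
    3075, 3249, 3449, 3652, 3864, 4079, 4321, 4551, 4799, 5072, 5326, 5612, 5902, 6204, 6505,
    6846, 7157, 7515, 7864, 8235, 8598, 9009, 9388, 9805, 10236, 10659, 11103, 11570, 12028,
    12502, 13009, 13487, 14013, 14528, 15070, 15587, 16179, 16702, 17297, 17871, 18468, 19047,
    19688, 20273, 20911, 21548, 22174, 22825, 23481, 24141, 24782, 25495, 26123, 26831, 27500,
    28204, 28853, 29603, 30237, 30977, 31650, 32364, 33033, 33773, 34435, 35136, 35851, 36516,
    37217, 37905, 38595, 39235, 39978, 40569, 41298, 41909, 42607, 43187, 43913, 44461, 45140,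
    45729, 46360, 46917, 47564, 48102, 48679, 49275, 49777, 50362, 50865, 51423, 51862, 52469,
    52846, 53414, 53812, 54344, 54683, 55247, 55545, 56043, 56396, 56812, 57153, 57569, 57887,
    58220, 58611, 58859, 59231, 59477, 59843, 60000, 60435, 60520, 60918, 61040, 61382, 61468,
    61839, 61890, 62192, 62319, 62539, 62655, 62873, 63003, 63112, 63350, 63356, 63602, 63616,
    63849, 63789, 64109, 63974, 64266, 64180, 64435, 64313, 64595, 64476, 64667, 64662, 64748,
    64766, 64854, 64890, 64872, 65046, 64911, 65114, 64980, 65206, 64981, 65302, 65024, 65313,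
    65109, 65337, 65123, 65389, 65175, 65346, 65276, 65326, 65306, 65330, 65377, 65264, 65465,
    65238, 65477, 65256, 65510, 65202, 65578, 65198, 65544, 65252, 65532, 65246, 65532, 65294,
    65457, 65379, 65405, 65398, 65395, 65453, 65296, 65551, 65247, 65558, 65248, 65588, 65194,
    65631, 65196, 65590, 65243, 65566, 65238, 65570])
  (l := [(189, [78, 217, 162, 170, 170, 161, 217, 78, 297, 41, 291, 53, 311, 0, 356, 0, 311, 53, 291, 41,
      297, 78, 217, 160, 170, 170, 162, 217, 78, 297, 41, 291, 52, 311, 0, 358, 0, 311, 53, 291,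
      41, 295, 78, 217, 162, 170, 170, 162, 217, 78, 295, 41, 291, 53, 311, 0, 358, 0, 311, 52,
      291, 41, 297, 78, 217, 162, 170, 170, 160, 217, 78, 297, 41, 291, 53, 311, 0, 356, 0, 311,
      53, 291, 41, 297, 78, 217, 161, 170, 170, 162, 217, 78, 297, 41, 291, 51, 311, 0, 358, 0,
      311, 53, 291, 41, 295, 78, 217, 162, 170, 170, 162, 217, 78, 296, 41, 291, 53, 311, 0,
      358, 0, 311, 51, 291, 41, 297, 78, 217, 162, 170, 170, 160, 217, 78, 297, 41, 291, 53,
      311, 0, 357, 0, 311, 53, 291, 41, 297, 78, 217, 160, 170, 170, 162, 217, 78, 297, 41, 291,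
      51, 311, 0, 358, 0, 311, 53, 291, 41, 296, 78, 217, 162, 170, 170, 162, 217, 78, 295, 41,
      291, 53, 311, 0, 358, 0, 311, 51, 291, 41, 297]),
    (19, [65100, 65231, 65108, 65223, 65121, 65204, 65141, 65186, 65161, 65161, 65186, 65141,
      65204, 65121, 65223, 65108, 65231, 65100, 65238]),
    (23, [98, 13, 111, 5, 115, 0, 120, 0, 115, 5, 111, 13, 98, 26, 87, 39, 70, 56, 56, 70, 39, 87,
      26]),
    (25, [9, 7, 12, 4, 15, 5, 10, 10, 5, 15, 4, 12, 7, 9, 10, 10, 5, 15, 0, 20, 0, 15, 5, 10, 10])])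
  (by decide +kernel)

end Pool.Agent.Lib.MP_667609_co
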