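import Pool.Agent.Lib.MP_667609_co.Defs

/-! Truncated power series packed into one natural number. -/

open PowerSeries Finset

namespace Pool.Agent.Lib.MP_667609_co

def enc (B : ℕ) (f : ℕ → ℕ) : ℕ → ℕ
  | 0 => 0
  | n + 1 => enc B f n * 2 ^ B + f n

theorem enc_congr {B : ℕ} {f g : ℕ → ℕ} {n : ℕ} (h : ∀ m < n, f m = g m) :
    enc B f n = enc B g n := by
  induction n with
  | zero => rfl
  | succ n ih => rw [enc, enc, ih fun m hm => h m (by omega), h n (by omega)]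

theorem enc_lt {B : ℕ} {f : ℕ → ℕ} {n : ℕ} (h : ∀ m < n, f m < 2 ^ B) :
    enc B f n < 2 ^ (B * n) := by
  induction n with
  | zero => simp [enc]
  | succ n ih =>
    have h1 := ih fun m hm => h m (by omega)
    have h2 := h n (by omega)
    rw [enc, mul_add, pow_add, mul_one]
    nlinarith

theorem enc_div_one {B : ℕ} {f : ℕ → ℕ} {n : ℕ} (h : f n < 2 ^ B) :
    enc B f (n + 1) / 2 ^ B = enc B f n := by
  rw [enc, add_comm, Nat.add_mul_div_right _ _ (by positivity), Nat.div_eq_of_lt h, zero_add]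

theorem enc_mod_one {B : ℕ} {f : ℕ → ℕ} {n : ℕ} (h : f n < 2 ^ B) :
    enc B f (n + 1) % 2 ^ B = f n := by
  rw [enc, add_comm, Nat.add_mul_mod_self_right, Nat.mod_eq_of_lt h]

theorem enc_div {B : ℕ} {f : ℕ → ℕ} (k : ℕ) : ∀ {n : ℕ}, (∀ m < n, f m < 2 ^ B) →
    enc B f n / 2 ^ (B * k) = enc B f (n - k) := by
  induction k with
  | zero => intro n _; simp
  | succ k ih =>
    intro n h
    rcases n with _ | n
    · simp [enc]
    · rw [mul_add, mul_one, add_comm (B * k), pow_add, ← Nat.div_div_eq_div_mul,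
        enc_div_one (h n (by omega)), ih fun m hm => h m (by omega), Nat.add_sub_add_right]

theorem enc_shift {B : ℕ} (f : ℕ → ℕ) (k n : ℕ) :
    enc B f (n - k) = enc B (fun m => if k ≤ m then f (m - k) else 0) n := by
  induction n with
  | zero => simp [enc]
  | succ n ih =>
    by_cases h : k ≤ n
    · rw [Nat.succ_sub h, enc, enc, ih, if_pos h]
    · rw [enc, ← ih, if_neg h, show n + 1 - k = 0 by omega, show n - k = 0 by omega]; simp [enc]

theorem enc_add {B : ℕ} (f g : ℕ → ℕ) (n : ℕ) :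
    enc B f n + enc B g n = enc B (fun m => f m + g m) n := by
  induction n with
  | zero => rfl
  | succ n ih => simp only [enc, ← ih]; ring

theorem enc_mul {B : ℕ} (c : ℕ) (f : ℕ → ℕ) (n : ℕ) :
    c * enc B f n = enc B (fun m => c * f m) n := by
  induction n with
  | zero => rfl
  | succ n ih => simp only [enc, ← ih]; ring

theorem enc_inj {B : ℕ} {f g : ℕ → ℕ} {n : ℕ} (hf : ∀ m < n, f m < 2 ^ B)
    (hg : ∀ m < n, g m < 2 ^ B) (h : enc B f n = enc B g n) : ∀ m < n, f m = g m := by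
  intro m hm
  have h1 := enc_div (n - (m + 1)) hf
  have h2 := enc_div (n - (m + 1)) hg
  rw [show n - (n - (m + 1)) = m + 1 by omega] at h1 h2
  rw [← enc_mod_one (hf m hm), ← enc_mod_one (hg m hm), ← h1, ← h2, h]

theorem exists_enc {B : ℕ} (n : ℕ) : ∀ W < 2 ^ (B * n),
    ∃ f, W = enc B f n ∧ ∀ m < n, f m < 2 ^ B := by
  induction n with
  | zero => intro W h; exact ⟨fun _ => 0, by simpa [enc] using h, by simp⟩
  | succ n ih =>
    intro W h
    obtain ⟨f, h1, h2⟩ := ih (W / 2 ^ B) (by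
      rw [Nat.div_lt_iff_lt_mul (by positivity), ← pow_add]; rwa [mul_add, mul_one] at h)
    refine ⟨fun m => if m < n then f m else W % 2 ^ B, ?_, fun m _ => ?_⟩
    · rw [enc, enc_congr (g := f) fun m hm => if_pos hm, ← h1, if_neg (lt_irrefl n),
        Nat.div_add_mod']
    · beta_reduce
      split_ifs with h3
      · exact h2 m h3
      · exact Nat.mod_lt _ (by positivity)

theorem digit_mask {e c r : ℕ} (hr : r < 2 ^ (e + c)) (h : r &&& ((2 ^ c - 1) * 2 ^ e) = 0) :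
    r < 2 ^ e := by
  have := congrArg (· / 2 ^ e) h
  simp only [Nat.and_div_two_pow, Nat.zero_div] at this
  rw [Nat.mul_div_cancel _ (by positivity), Nat.and_two_pow_sub_one_eq_mod, Nat.mod_eq_of_lt
    (by rw [Nat.div_lt_iff_lt_mul (by positivity), ← pow_add, add_comm]; exact hr)] at this
  rwa [Nat.div_eq_zero_iff_lt (by positivity)] at this

theorem mask_lt (e c : ℕ) : (2 ^ c - 1) * 2 ^ e < 2 ^ (e + c) := by
  rw [add_comm, pow_add]
  exact Nat.mul_lt_mul_of_pos_right (Nat.sub_lt (by positivity) one_pos) (by positivity)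

theorem enc_mask {e c : ℕ} {f : ℕ → ℕ} (n : ℕ) : ∀ N, n ≤ N → (∀ m < n, f m < 2 ^ (e + c)) →
    enc (e + c) f n &&& enc (e + c) (fun _ => (2 ^ c - 1) * 2 ^ e) N = 0 →
    ∀ m < n, f m < 2 ^ e := by
  induction n with
  | zero => intro _ _ _ _ m hm; omega
  | succ n ih =>
    intro N hN hf h m hm
    obtain ⟨N, rfl⟩ : ∃ M, N = M + 1 := ⟨N - 1, by omega⟩
    have h1 := congrArg (· / 2 ^ (e + c)) h
    have h2 := congrArg (· % 2 ^ (e + c)) h
    simp only [Nat.and_div_two_pow, Nat.zero_div, Nat.and_mod_two_pow, Nat.zero_mod] at h1 h2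
    rw [enc_div_one (hf n (by omega)), enc_div_one (f := fun _ => (2 ^ c - 1) * 2 ^ e)
      (mask_lt e c)] at h1
    rw [enc_mod_one (hf n (by omega)), enc_mod_one (f := fun _ => (2 ^ c - 1) * 2 ^ e)
      (mask_lt e c)] at h2
    rcases Nat.lt_succ_iff_lt_or_eq.1 hm with h3 | rfl
    · exact ih N (by omega) (fun m hm => hf m (by omega)) h1 m h3
    · exact digit_mask (hf m hm) h2

/-- `W` packs the first `n` coefficients of `φ`, all of which lie in `[0, D)`. -/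
def Rep (B n W : ℕ) (φ : ℤ⟦X⟧) (D : ℕ) : Prop :=
  ∃ f : ℕ → ℕ, W = enc B f n ∧ ∀ m < n, (f m : ℤ) = coeff m φ ∧ f m < D

theorem Rep.mono {B n W D D' : ℕ} {φ : ℤ⟦X⟧} (h : Rep B n W φ D) (hD : D ≤ D') :
    Rep B n W φ D' := by
  obtain ⟨f, h1, h2⟩ := h
  exact ⟨f, h1, fun m hm => ⟨(h2 m hm).1, (h2 m hm).2.trans_le hD⟩⟩

theorem Rep.nonneg {B n W D : ℕ} {φ : ℤ⟦X⟧} (h : Rep B n W φ D) {m : ℕ} (hm : m < n) :
    0 ≤ coeff m φ := by
  obtain ⟨f, -, h2⟩ := h
  rw [← (h2 m hm).1]; positivity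

theorem Rep.shift {B n W D : ℕ} {φ : ℤ⟦X⟧} (h : Rep B n W φ D) (hD : D ≤ 2 ^ B) (k : ℕ) :
    Rep B n (Nat.shiftRight W (Nat.mul B k)) (φ * X ^ k) D := by
  obtain ⟨f, h1, h2⟩ := h
  refine ⟨fun m => if k ≤ m then f (m - k) else 0, ?_, fun m hm => ?_⟩
  · rw [← enc_shift, ← enc_div k fun m hm => (h2 m hm).2.trans_le hD, ← h1]
    exact Nat.shiftRight_eq_div_pow _ _
  · rw [coeff_mul_X_pow']
    beta_reduce
    split_ifs with h3
    · exact h2 _ (by omega)
    · exact ⟨rfl, lt_of_le_of_lt (Nat.zero_le _) (h2 m hm).2⟩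

theorem Rep.add {B n W W' D D' : ℕ} {φ ψ : ℤ⟦X⟧} (h : Rep B n W φ D) (h' : Rep B n W' ψ D') :
    Rep B n (Nat.add W W') (φ + ψ) (D + D') := by
  obtain ⟨f, h1, h2⟩ := h
  obtain ⟨g, h3, h4⟩ := h'
  refine ⟨fun m => f m + g m, by rw [← enc_add, ← h1, ← h3]; rfl, fun m hm => ⟨?_, ?_⟩⟩
  · rw [map_add, ← (h2 m hm).1, ← (h4 m hm).1]; push_cast; rfl
  · exact add_lt_add (h2 m hm).2 (h4 m hm).2

/-- Multiplication by `1 / (1 - q ^ u)` through repeated doubling. -/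
noncomputable def geoK (x k j : ℕ) : ℕ :=
  Nat.rec (motive := fun _ => ℕ → ℕ → ℕ) (fun x _ => x)
    (fun _ ih x k => ih (Nat.add x (Nat.shiftRight x k)) (Nat.mul 2 k)) j x k

theorem geo_double {u : ℕ} (hu : 0 < u) : geo u = (1 + X ^ u) * geo (2 * u) := by
  have h1 := geo_mul hu
  have h2 := geo_mul (u := 2 * u) (by omega)
  rw [pow_mul'] at h2
  linear_combination (-geo u) * h2 + (1 + X ^ u) * geo (2 * u) * h1

theorem Rep.geo {B n : ℕ} (j : ℕ) : ∀ {W D u : ℕ} {φ : ℤ⟦X⟧}, Rep B n W φ D → 0 < u →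
    2 ^ j * D ≤ 2 ^ B → n ≤ u * 2 ^ j → Rep B n (geoK W (Nat.mul B u) j) (φ * geo u) (2 ^ j * D) := by
  induction j with
  | zero =>
    intro W D u φ h hu _ hn
    obtain ⟨f, h1, h2⟩ := h
    refine ⟨f, h1, fun m hm => ⟨?_, by simpa using (h2 m hm).2⟩⟩
    have h3 := coeff_mul_one_sub (φ * MP_667609_co.geo u) u m
    rw [mul_assoc, geo_mul hu, mul_one, if_neg (by omega), sub_zero] at h3
    rw [← h3, (h2 m hm).1]
  | succ j ih =>
    intro W D u φ h hu hD hn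
    have hD1 : D ≤ 2 ^ B := le_trans (Nat.le_mul_of_pos_left _ (by positivity)) hD
    have := ih (u := 2 * u) (h.add (h.shift hD1 u)) (by omega)
      (by rw [pow_succ] at hD; linarith) (by rw [pow_succ] at hn; linarith)
    have e1 : Nat.mul B (2 * u) = Nat.mul 2 (Nat.mul B u) := by
      simp only [Nat.mul_eq]; ring
    rw [e1, show (φ + φ * X ^ u) * MP_667609_co.geo (2 * u) = φ * MP_667609_co.geo u by
      rw [geo_double hu]; ring, show 2 ^ j * (D + D) = 2 ^ (j + 1) * D by ring] at this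
    exact this

theorem Rep.sub {e c n G G' : ℕ} {φ ψ : ℤ⟦X⟧} (hc : 1 ≤ c)
    (h : Rep (e + c) n G φ (2 ^ (e + c))) (h' : Rep (e + c) n G' ψ (2 ^ (e + c - 1)))
    (hle : G' ≤ G)
    (hm : Nat.land (Nat.sub G G') (enc (e + c) (fun _ => (2 ^ c - 1) * 2 ^ e) n) = 0) :
    Rep (e + c) n (Nat.sub G G') (φ - ψ) (2 ^ e) := by
  obtain ⟨f, h1, h2⟩ := h
  obtain ⟨g, h3, h4⟩ := h'
  have hlt : G - G' < 2 ^ ((e + c) * n) :=
    lt_of_le_of_lt (Nat.sub_le _ _) (h1 ▸ enc_lt fun m hm => (h2 m hm).2)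
  obtain ⟨w, h5, h6⟩ := exists_enc n _ hlt
  have h7 := enc_mask n n le_rfl h6 (by rw [← h5]; exact hm)
  have h8 : enc (e + c) (fun m => w m + g m) n = enc (e + c) f n := by
    rw [← enc_add, ← h5, ← h3, ← h1]; omega
  have hp : 2 ^ e + 2 ^ (e + c - 1) ≤ 2 ^ (e + c) := by
    have a1 : 2 ^ e ≤ 2 ^ (e + c - 1) := Nat.pow_le_pow_right two_pos (by omega)
    have a2 : 2 ^ (e + c) = 2 ^ (e + c - 1) * 2 := by rw [← pow_succ]; congr 1; omega
    omega
  have h9 := enc_inj (fun m hm => (add_lt_add (h7 m hm) (h4 m hm).2).trans_le hp)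
    (fun m hm => (h2 m hm).2) h8
  refine ⟨w, h5, fun m hm => ⟨?_, h7 m hm⟩⟩
  rw [map_sub, ← (h2 m hm).1, ← (h4 m hm).1, ← h9 m hm]; push_cast; ring

theorem Rep.upper {e c n W k T : ℕ} {φ : ℤ⟦X⟧} (hc : 1 ≤ c) (h : Rep (e + c) n W φ (2 ^ e))
    (hk : k ≤ n)
    (hm : Nat.land (Nat.add (Nat.shiftRight W (Nat.mul (e + c) (Nat.sub n k)))
      (Nat.mul (Nat.sub (Nat.sub (Nat.pow 2 e) 1) T)
        (Nat.shiftRight (enc (e + c) (fun _ => 1) n) (Nat.mul (e + c) (Nat.sub n k)))))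
      (enc (e + c) (fun _ => (2 ^ c - 1) * 2 ^ e) n) = 0) :
    ∀ m < k, coeff m φ ≤ T := by
  obtain ⟨f, h1, h2⟩ := h
  have hp : 2 ^ e + 2 ^ e ≤ 2 ^ (e + c) := by
    have a1 : 2 ^ (e + 1) ≤ 2 ^ (e + c) := Nat.pow_le_pow_right two_pos (by omega)
    rw [pow_succ] at a1; omega
  have hp0 : 0 < 2 ^ e := by positivity
  simp only [Nat.add_eq, Nat.mul_eq, Nat.sub_eq, Nat.pow_eq, Nat.land_eq, Nat.shiftRight_eq,
    Nat.shiftRight_eq_div_pow] at hm
  rw [h1, enc_div _ fun m hm => by have := (h2 m hm).2; omega,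
    enc_div _ fun m hm => by omega, enc_mul, enc_add, Nat.sub_sub_self hk] at hm
  have := enc_mask k n hk (fun m hm => by have := (h2 m (by omega)).2; omega) hm
  intro m hm
  have h3 := this m hm
  have h4 := h2 m (by omega)
  rw [← h4.1]
  have := h4.2
  exact_mod_cast (by omega : f m ≤ T)

theorem Rep_one {B n : ℕ} (hn : 0 < n) : Rep B n (Nat.shiftLeft 1 (Nat.mul B (Nat.sub n 1))) 1 2 := by
  refine ⟨fun m => if m = 0 then 1 else 0, ?_, fun m _ => ?_⟩
  · obtain ⟨n, rfl⟩ : ∃ k, n = k + 1 := ⟨n - 1, by omega⟩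
    simp only [Nat.mul_eq, Nat.sub_eq, Nat.add_sub_cancel, Nat.shiftLeft_eq', Nat.shiftLeft_eq,
      one_mul]
    induction n with
    | zero => simp [enc]
    | succ n ih => rw [enc, ← ih (by omega)]; simp [mul_add, pow_add]
  · rw [coeff_one]; beta_reduce; split_ifs <;> simp

theorem Rep.eq_ones {B n W D : ℕ} (h : Rep B n W (1 * MP_667609_co.geo 1) D) :
    W = enc B (fun _ => 1) n := by
  obtain ⟨f, h1, h2⟩ := h
  rw [h1]
  refine enc_congr fun m hm => ?_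
  have := (h2 m hm).1
  simp only [one_mul, MP_667609_co.geo, coeff_mk, one_dvd, if_true] at this
  exact_mod_cast this

end Pool.Agent.Lib.MP_667609_co
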