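import Pool.Agent.Lib.MP_667609_co.Noise
import Pool.Agent.Lib.MP_667609_co.Kron
import Mathlib.Algebra.Order.Floor.Semifield

/-! A verified checker for a finite range of parameters. -/

open PowerSeries Finset

namespace Pool.Agent.Lib.MP_667609_co

theorem ndiv (x y : ℕ) : Nat.div x y = x / y := rfl

theorem dvd_odd_iff {d : ℕ} (hd : d % 2 = 1) (i : ℕ) : d ∣ 2 * i + 3 ↔ d ∣ d / 2 + 1 + i + 1 := by
  have hco : Nat.Coprime 2 d := (Nat.odd_iff.2 hd).coprime_two_left
  rw [← hco.symm.dvd_mul_left (n := d / 2 + 1 + i + 1),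
    show 2 * (d / 2 + 1 + i + 1) = 2 * i + 3 + d by omega, Nat.dvd_add_left (dvd_refl d)]

theorem cntU {d : ℕ} (hd : d % 2 = 1) (hd3 : 3 ≤ d) (b : ℕ) :
    ((range b).filter fun i => d ∣ 2 * i + 3).card = (b + d / 2 + 1) / d := by
  have := count_shift d (d / 2 + 1) b
  rw [Nat.div_eq_of_lt (show d / 2 + 1 < d by omega)] at this
  simp only [dvd_odd_iff hd]
  rw [show b + d / 2 + 1 = d / 2 + 1 + b by ring, ← this, add_zero]

theorem cntS {d : ℕ} (hd : d % 2 = 1) (a : ℕ) {b : ℕ} (hb : 1 ≤ b) :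
    ((range (b - 1)).filter fun i => d ∣ 2 * a + 2 * i + 3).card =
      (a + b + d / 2) / d - (a + d / 2 + 1) / d := by
  have := count_shift d (d / 2 + 1 + a) (b - 1)
  have es : ∀ i, 2 * a + 2 * i + 3 = 2 * (a + i) + 3 := fun i => by ring
  have es' : ∀ i, d / 2 + 1 + (a + i) + 1 = d / 2 + 1 + a + i + 1 := fun i => by ring
  simp only [es, dvd_odd_iff hd, es']
  rw [show a + b + d / 2 = d / 2 + 1 + a + (b - 1) by omega,
    show a + d / 2 + 1 = d / 2 + 1 + a by ring, ← this, Nat.add_sub_cancel]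

theorem pud_eq {d : ℕ} (hd : d % 2 = 1) (hd3 : 3 ≤ d) (b : ℕ) :
    pud b d = ∏ j ∈ range ((b + d / 2 + 1) / d), d * (2 * j + 1) := by
  induction b with
  | zero => rw [Nat.div_eq_of_lt (by omega)]; simp [pud]
  | succ b ih =>
    rw [pud, range_add_one, filter_insert, show b + 1 + d / 2 + 1 = (b + d / 2 + 1) + 1 by ring,
      Nat.succ_div]
    have e : d ∣ 2 * b + 3 ↔ d ∣ b + d / 2 + 1 + 1 := by
      rw [dvd_odd_iff hd, show d / 2 + 1 + b + 1 = b + d / 2 + 1 + 1 by ring]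
    by_cases h : d ∣ 2 * b + 3
    · rw [if_pos h, if_pos (e.1 h), prod_insert (by simp), ← pud, ih, prod_range_succ, mul_comm]
      congr 1
      have h1 := Nat.succ_div (a := b + d / 2 + 1) (b := d)
      rw [if_pos (e.1 h)] at h1
      have h2 := Nat.mul_div_cancel' (e.1 h)
      rw [h1, mul_add] at h2
      rw [mul_add, mul_left_comm]; omega
    · rw [if_neg h, if_neg (fun h' => h (e.2 h')), ← pud, ih, add_zero]

theorem psd_le (a b d : ℕ) : psd a b d ≤ (2 * a + 2 * b - 1) ^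
    ((range (b - 1)).filter fun i => d ∣ 2 * a + 2 * i + 3).card :=
  prod_le_pow_card _ _ _ fun i hi => by
    have := mem_range.1 (mem_filter.1 hi).1; omega

noncomputable def oddProd (d k : ℕ) : ℕ :=
  Nat.rec (motive := fun _ => ℕ) 1 (fun j acc => Nat.mul acc (Nat.mul d (Nat.add (Nat.mul 2 j) 1))) k

noncomputable def factK (n : ℕ) : ℕ :=
  Nat.rec (motive := fun _ => ℕ) 1 (fun j acc => Nat.mul acc (Nat.add j 1)) n

theorem oddProd_eq (d k : ℕ) : oddProd d k = ∏ j ∈ range k, d * (2 * j + 1) := by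
  induction k with
  | zero => rfl
  | succ k ih => rw [prod_range_succ, ← ih]; rfl

theorem factK_eq (n : ℕ) : factK n = n.factorial := by
  induction n with
  | zero => rfl
  | succ k ih => rw [Nat.factorial_succ, ← ih, mul_comm]; rfl

def poleK (a b d : ℕ) : Bool :=
  Nat.beq (Nat.div (Nat.add (Nat.add b (Nat.div d 2)) 1) d)
    (Nat.add (Nat.sub (Nat.div (Nat.add (Nat.add a b) (Nat.div d 2)) d)
      (Nat.div (Nat.add (Nat.add a (Nat.div d 2)) 1) d)) 1)

theorem poleK_iff {a b d : ℕ} (hd : d % 2 = 1) (hd3 : 3 ≤ d) (hb : 1 ≤ b) :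
    poleK a b d = true ↔ pole a b d := by
  rw [pole, cntU hd hd3, cntS hd a hb, poleK, Nat.beq_eq]; rfl

noncomputable def tdK (a b d : ℕ) : ℕ :=
  let r := Nat.pow 2 (Nat.div (Nat.add (Nat.log2 d) 1) 2)
  let p := Nat.add d (Nat.mul r r)
  let q := Nat.mul 2 r
  let k := Nat.div (Nat.add (Nat.add b (Nat.div d 2)) 1) d
  let n := Nat.div d 6
  Bool.rec (motive := fun _ => ℕ) 0
    (Nat.add (Nat.div
      (Nat.mul (Nat.mul (Nat.mul (Nat.mul 1024 (Nat.sub d 1))
        (Nat.add (Nat.mul d (Nat.mul q q)) (Nat.mul p p)))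
        (Nat.pow (Nat.sub (Nat.add (Nat.mul 2 a) (Nat.mul 2 b)) 1) (Nat.sub k 1)))
        (Nat.pow d (Nat.mul n 3)))
      (Nat.mul (Nat.mul (Nat.mul p q) (oddProd d k))
        (Nat.pow (Nat.mul (Nat.pow 6 n) (factK n)) 3))) 1)
    (poleK a b d)

theorem Td_le {a b d : ℕ} (hd : d % 2 = 1) (hd3 : 3 ≤ d) (hb : 1 ≤ b) :
    1024 * Td a b d ≤ tdK a b d := by
  unfold Td tdK
  by_cases h : pole a b d
  · rw [if_pos h, (poleK_iff hd hd3 hb).2 h]
    simp only [Nat.add_eq, Nat.mul_eq, Nat.sub_eq, Nat.pow_eq, ndiv, oddProd_eq, factK_eq]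
    rw [← pud_eq hd hd3]
    have h1 := psd_le a b d
    unfold pole at h
    rw [cntU hd hd3] at h
    rw [h, Nat.add_sub_cancel]
    set r := 2 ^ ((d.log2 + 1) / 2)
    have hr : 0 < r := by positivity
    set p := d + r * r
    set q := 2 * r
    set S := (2 * a + 2 * b - 1) ^ ((range (b - 1)).filter fun i => d ∣ 2 * a + 2 * i + 3).card
    have hp : (0 : ℝ) < p := by positivity
    have hq : (0 : ℝ) < q := by positivity
    have hd' : (0 : ℝ) < d := by positivity
    have hpu : (0 : ℝ) < pud b d := by exact_mod_cast prod_pos fun _ _ => by omega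
    have hs : 2 * √d ≤ (d * (q * q) + p * p) / (p * q) := by
      rw [le_div_iff₀ (by positivity)]
      have := Real.mul_self_sqrt hd'.le
      nlinarith [sq_nonneg (√d * q - p)]
    have hfl : ∀ N D : ℕ, (N : ℝ) / D ≤ (N / D + 1 : ℕ) := fun N D => by
      have := Nat.lt_floor_add_one ((N : ℝ) / D)
      rw [Nat.floor_div_eq_div] at this
      push_cast; exact this.le
    refine le_trans ?_ (hfl _ _)
    have h1' : (psd a b d : ℝ) ≤ S := by exact_mod_cast h1
    have hd1 : (0 : ℝ) ≤ d - 1 := by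
      have : (3 : ℝ) ≤ d := by exact_mod_cast hd3
      linarith
    have hF := Fd_pos d (by omega)
    calc 1024 * ((d - 1 : ℝ) * (2 * √d * psd a b d / (pud b d * Fd d ^ 3)))
        ≤ 1024 * ((d - 1 : ℝ) * ((d * (q * q) + p * p) / (p * q) * S / (pud b d * Fd d ^ 3))) := by
          gcongr
      _ = _ := by
          rw [Fd]; push_cast [Nat.cast_sub (show 1 ≤ d by omega)]
          rw [pow_mul]; field_simp
  · rw [if_neg h]; simp

noncomputable def nuK (a b : ℕ) : ℕ :=
  Nat.rec (motive := fun _ => ℕ) 0 (fun i acc => Nat.add acc (tdK a b (Nat.add (Nat.mul 2 i) 3))) b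

theorem nu_le {a b : ℕ} (hb : 1 ≤ b) : 1024 * nu a b ≤ nuK a b := by
  have : ∀ n, 1024 * ∑ i ∈ range n, Td a b (2 * i + 3) ≤ (Nat.rec (motive := fun _ => ℕ) 0
      (fun i acc => Nat.add acc (tdK a b (Nat.add (Nat.mul 2 i) 3))) n : ℕ) := by
    intro n
    induction n with
    | zero => simp
    | succ n ih =>
      rw [sum_range_succ, mul_add]
      have := Td_le (a := a) (d := 2 * n + 3) (by omega) (by omega) hb
      simp only [Nat.add_eq, Nat.mul_eq] at ih ⊢
      push_cast; linarith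
  exact this b

noncomputable def perK (a b : ℕ) : ℕ :=
  Nat.rec (motive := fun _ => ℕ) 1 (fun i acc => Bool.rec (motive := fun _ => ℕ) acc
    (Nat.lcm acc (Nat.add (Nat.mul 2 i) 3)) (poleK a b (Nat.add (Nat.mul 2 i) 3))) b

theorem perK_spec {a b : ℕ} (hb : 1 ≤ b) :
    0 < perK a b ∧ ∀ i < b, pole a b (2 * i + 3) → 2 * i + 3 ∣ perK a b := by
  have : ∀ n, 0 < (Nat.rec (motive := fun _ => ℕ) 1 (fun i acc => Bool.rec (motive := fun _ => ℕ) acc
      (Nat.lcm acc (Nat.add (Nat.mul 2 i) 3)) (poleK a b (Nat.add (Nat.mul 2 i) 3))) n : ℕ) ∧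
      ∀ i < n, pole a b (2 * i + 3) → 2 * i + 3 ∣ (Nat.rec (motive := fun _ => ℕ) 1
      (fun i acc => Bool.rec (motive := fun _ => ℕ) acc
      (Nat.lcm acc (Nat.add (Nat.mul 2 i) 3)) (poleK a b (Nat.add (Nat.mul 2 i) 3))) n : ℕ) := by
    intro n
    induction n with
    | zero => simp
    | succ n ih =>
      simp only [Nat.add_eq, Nat.mul_eq] at ih ⊢
      cases hp : poleK a b (2 * n + 3)
      · refine ⟨ih.1, fun i hi h => ?_⟩
        rcases Nat.lt_succ_iff_lt_or_eq.1 hi with h1 | rfl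
        · exact ih.2 i h1 h
        · rw [(poleK_iff (by omega) (by omega) hb).2 h] at hp; exact absurd hp (by simp)
      · refine ⟨Nat.lcm_pos ih.1 (by omega), fun i hi h => ?_⟩
        rcases Nat.lt_succ_iff_lt_or_eq.1 hi with h1 | rfl
        · exact (ih.2 i h1 h).trans (Nat.dvd_lcm_left _ _)
        · exact Nat.dvd_lcm_right _ _
  exact this b

def orK (x y : Bool) : Bool := Bool.rec (motive := fun _ => Bool) y true x

def andK (x y : Bool) : Bool := Bool.rec (motive := fun _ => Bool) false y x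

theorem orK_iff {x y : Bool} : orK x y = true ↔ x = true ∨ y = true := by
  cases x <;> simp [orK]

theorem andK_iff {x y : Bool} : andK x y = true ↔ x = true ∧ y = true := by
  cases x <;> simp [andK]

noncomputable def pairK (e c n ones mask a b W ps pu : ℕ) : Bool :=
  let E := Nat.sub (Nat.mul (Nat.mul 2 a) b) (Nat.add (Nat.add (Nat.mul 2 a) (Nat.mul 2 b)) 1)
  let L := Nat.div (Nat.mul 1024 ps) pu
  let k := Nat.sub (Nat.add E 1) n
  orK (andK (Nat.ble b 21)
      (Nat.ble (Nat.mul (Nat.mul 2 b) (Nat.sub (Nat.mul 2 b) 2)) (Nat.add (Nat.mul 2 a) 3)))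
    (orK (andK (Nat.ble (nuK a b) L) (andK (Nat.ble k n)
      (Nat.beq (Nat.land (Nat.add (Nat.shiftRight W (Nat.mul (Nat.add e c) (Nat.sub n k)))
        (Nat.mul (Nat.sub (Nat.sub (Nat.pow 2 e) 1) (Nat.div (Nat.sub L (nuK a b)) 1024))
          (Nat.shiftRight ones (Nat.mul (Nat.add e c) (Nat.sub n k))))) mask) 0)))
      (Nat.ble (Nat.add (Nat.add E 1) (perK a b)) n))

theorem pairK_sound {e c n a b W : ℕ} (hc : 1 ≤ c) (hb : 2 ≤ b) (ha : 3 ≤ a)
    (h : Rep (e + c) n W (Vser a b) (2 ^ e))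
    (hk : pairK e c n (enc (e + c) (fun _ => 1) n) (enc (e + c) (fun _ => (2 ^ c - 1) * 2 ^ e) n)
      a b W (∏ i ∈ range (b - 1), (2 * a + 2 * i + 3)) (Lam b) = true) : NN (Vser a b) := by
  have hE : (2 * a * b - (2 * a + 2 * b + 1)) + 2 * a + 2 * b + 1 = 2 * a * b := by
    have : 2 * a + 2 * b + 1 ≤ 2 * a * b := by nlinarith
    omega
  obtain ⟨per, p1, p2, p3⟩ := exists_per (by omega) hE
  simp only [pairK, orK_iff, andK_iff, Nat.ble_eq, Nat.beq_eq] at hk
  rcases hk with hk | hk | hk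
  · exact Vser_NN_CI (by omega) hk.1 hk.2
  · obtain ⟨k1, k2, k3⟩ := hk
    have hup := h.upper hc k2 k3
    simp only [Nat.add_eq, Nat.mul_eq, Nat.sub_eq, ndiv] at k1 k2 hup
    set E := 2 * a * b - (2 * a + 2 * b + 1)
    set L := 1024 * (∏ i ∈ range (b - 1), (2 * a + 2 * i + 3)) / Lam b with hL
    set T := (L - nuK a b) / 1024 with hT
    have hT1 : (T : ℝ) ≤ LV a b - nu a b := by
      have a1 : (L : ℝ) ≤ 1024 * LV a b := by
        rw [hL, LV]; refine Nat.cast_div_le.trans (le_of_eq ?_); push_cast; ring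
      have a2 := nu_le (a := a) (b := b) (by omega)
      have a3 : (T : ℝ) ≤ ((L - nuK a b : ℕ) : ℝ) / (1024 : ℕ) := Nat.cast_div_le
      rw [Nat.cast_sub k1] at a3
      push_cast at a3
      linarith
    have hper : ∀ m, (T : ℤ) ≤ per m := fun m => by
      have := (abs_le.1 (p2 m)).1
      exact_mod_cast (by linarith : (T : ℝ) ≤ per m)
    intro m
    by_cases hm : m < n
    · exact h.nonneg hm
    · have a1 := p1 m
      have a2 := hper m
      split_ifs at a1 with h1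
      · have := hup (E - m) (by omega)
        linarith
      · have : (0 : ℤ) ≤ T := by positivity
        linarith
  · simp only [Nat.add_eq, Nat.mul_eq, Nat.sub_eq] at hk
    set E := 2 * a * b - (2 * a + 2 * b + 1)
    obtain ⟨q1, q2⟩ := perK_spec (a := a) (b := b) (by omega)
    intro m
    induction m using Nat.strong_induction_on with
    | _ m ih =>
      by_cases hm : m < n
      · exact h.nonneg hm
      · have a1 := p1 m
        have a2 := p1 (m - perK a b)
        have a3 := p3 _ q2 (m - perK a b)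
        rw [if_neg (by omega), add_zero] at a1 a2
        rw [Nat.sub_add_cancel (by omega)] at a3
        rw [a1, a3, ← a2]
        exact ih _ (by omega)

noncomputable def chainK (e c n ones mask a : ℕ) (t : ℕ) : ℕ → ℕ → ℕ → ℕ → Bool :=
  Nat.rec (motive := fun _ => ℕ → ℕ → ℕ → ℕ → Bool) (fun _ _ _ _ => true)
    (fun _ ih b V ps pu =>
      let u := Nat.add (Nat.mul 2 b) 3
      let s := Nat.add (Nat.add (Nat.mul 2 a) (Nat.mul 2 b)) 1
      let j := Nat.add (Nat.log2 (Nat.div n u)) 1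
      let G := geoK V (Nat.mul (Nat.add e c) u) j
      let W := Nat.sub G (Nat.shiftRight G (Nat.mul (Nat.add e c) s))
      andK (Nat.ble n (Nat.mul u (Nat.pow 2 j))) (andK (Nat.ble (Nat.add j 1) c)
        (andK (Nat.beq (Nat.land W mask) 0)
          (andK (pairK e c n ones mask a (Nat.add b 1) W (Nat.mul ps s) (Nat.mul pu u))
            (ih (Nat.add b 1) W (Nat.mul ps s) (Nat.mul pu u)))))) t

theorem chainK_sound {e c n a : ℕ} (ha : 3 ≤ a) (t : ℕ) : ∀ {b V : ℕ}, 1 ≤ b →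
    Rep (e + c) n V (Vser a b) (2 ^ e) →
    chainK e c n (enc (e + c) (fun _ => 1) n) (enc (e + c) (fun _ => (2 ^ c - 1) * 2 ^ e) n) a t
      b V (∏ i ∈ range (b - 1), (2 * a + 2 * i + 3)) (Lam b) = true →
    ∀ b', b < b' → b' ≤ b + t → NN (Vser a b') := by
  induction t with
  | zero => intro b V _ _ _ b' h1 h2; omega
  | succ t ih =>
    intro b V hb h hk b' h1 h2
    change andK _ _ = true at hk
    simp only [andK_iff, Nat.ble_eq, Nat.beq_eq] at hk
    obtain ⟨k1, k2, k3, k4, k5⟩ := hk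
    set j := Nat.add (Nat.log2 (Nat.div n (Nat.add (Nat.mul 2 b) 3))) 1
    have k2' : j + 1 ≤ c := k2
    have hj : 2 ^ j * 2 ^ e ≤ 2 ^ (e + c - 1) := by
      rw [← pow_add]; exact Nat.pow_le_pow_right two_pos (by omega)
    have hj' : 2 ^ (e + c - 1) ≤ 2 ^ (e + c) := Nat.pow_le_pow_right two_pos (by omega)
    have hG := (h.geo j (u := 2 * b + 3) (by omega) (hj.trans hj') k1).mono hj
    have hW := Rep.sub (by omega) (hG.mono hj') (hG.shift hj' (2 * a + 2 * b + 1))
      (Nat.shiftRight_le _ _) k3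
    rw [← mul_one_sub, ← Vser_succ a b hb] at hW
    have e1 : (∏ i ∈ range (b - 1), (2 * a + 2 * i + 3)) * (2 * a + 2 * b + 1) =
        ∏ i ∈ range (b + 1 - 1), (2 * a + 2 * i + 3) := by
      obtain ⟨b, rfl⟩ : ∃ k, b = k + 1 := ⟨b - 1, by omega⟩
      simp only [Nat.add_sub_cancel]
      rw [prod_range_succ]; congr 1
    have e2 : Lam b * (2 * b + 3) = Lam (b + 1) := by rw [Lam, Lam, prod_range_succ]
    simp only [Nat.add_eq, Nat.mul_eq] at k4 k5
    rw [e1, e2] at k4 k5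
    rcases Nat.eq_or_lt_of_le (show b + 1 ≤ b' from h1) with rfl | h3
    · exact pairK_sound (by omega) (by omega) ha hW k4
    · exact ih (by omega) hW k5 b' h3 (by omega)

noncomputable def onesK (B n : ℕ) : ℕ :=
  geoK (Nat.shiftLeft 1 (Nat.mul B (Nat.sub n 1))) (Nat.mul B 1) (Nat.add (Nat.log2 n) 1)

theorem Rep_start {B n u : ℕ} (hn : 0 < n) (hu : 0 < u) (h : n.log2 + 2 ≤ B) :
    Rep B n (geoK (Nat.shiftLeft 1 (Nat.mul B (Nat.sub n 1))) (Nat.mul B u)
      (Nat.add (Nat.log2 n) 1)) (1 * geo u) (2 ^ (n.log2 + 2)) := by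
  have := (Rep_one (B := B) hn).geo (n.log2 + 1) hu
    (by rw [← pow_succ]; exact Nat.pow_le_pow_right two_pos h)
    (le_trans Nat.lt_log2_self.le (Nat.le_mul_of_pos_left _ hu))
  rwa [← pow_succ] at this

noncomputable def runK (a t e c n : ℕ) : Bool :=
  let ones := onesK (Nat.add e c) n
  andK (Nat.ble (Nat.add (Nat.log2 n) 2) e) (andK (Nat.ble 1 n)
    (chainK e c n ones (Nat.mul (Nat.mul (Nat.sub (Nat.pow 2 c) 1) (Nat.pow 2 e)) ones) a t 1
      (geoK (Nat.shiftLeft 1 (Nat.mul (Nat.add e c) (Nat.sub n 1))) (Nat.mul (Nat.add e c) 3)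
        (Nat.add (Nat.log2 n) 1)) 1 3))

theorem onesK_eq {B n : ℕ} (hn : 0 < n) (h : n.log2 + 2 ≤ B) :
    onesK B n = enc B (fun _ => 1) n := (Rep_start hn one_pos h).eq_ones

theorem runK_sound {a t e c n : ℕ} (ha : 3 ≤ a) (h : runK a t e c n = true) :
    ∀ b, 1 < b → b ≤ 1 + t → NN (Vser a b) := by
  simp only [runK, andK_iff, Nat.ble_eq] at h
  obtain ⟨h1, h2, h3⟩ := h
  have h1' : n.log2 + 2 ≤ e := h1
  have e1 : onesK (Nat.add e c) n = enc (e + c) (fun _ => 1) n := onesK_eq h2 (by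
    simp only [Nat.add_eq]; omega)
  rw [e1] at h3
  have e2 : Nat.mul (Nat.mul (Nat.sub (Nat.pow 2 c) 1) (Nat.pow 2 e)) (enc (e + c) (fun _ => 1) n) =
      enc (e + c) (fun _ => (2 ^ c - 1) * 2 ^ e) n := by
    simp only [Nat.mul_eq, Nat.sub_eq, Nat.pow_eq]
    rw [enc_mul]; simp
  rw [e2] at h3
  have := (Rep_start (B := e + c) (u := 3) h2 (by omega) (by omega)).mono
    (Nat.pow_le_pow_right two_pos h1')
  rw [one_mul, ← Vser_one a] at this
  exact chainK_sound ha t le_rfl this h3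

end Pool.Agent.Lib.MP_667609_co
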