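import Mathlib.RingTheory.PowerSeries.Basic
import Mathlib.RingTheory.PowerSeries.Inverse
import Mathlib.Algebra.Order.BigOperators.Ring.Finset
import Mathlib.Tactic

/-! Basic power series for the positivity problem. -/

open PowerSeries Finset

namespace Pool.Agent.Lib.MP_667609_co

/-- The series `1 / (1 - q ^ u)`. -/
noncomputable def geo (u : ℕ) : ℤ⟦X⟧ := PowerSeries.mk fun m => if u ∣ m then 1 else 0

/-- All coefficients are nonnegative. -/
def NN (φ : ℤ⟦X⟧) : Prop := ∀ m, 0 ≤ coeff m φ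

theorem NN.mul {φ ψ : ℤ⟦X⟧} (h : NN φ) (k : NN ψ) : NN (φ * ψ) := fun m => by
  rw [coeff_mul]; exact sum_nonneg fun p _ => mul_nonneg (h _) (k _)

theorem NN.add {φ ψ : ℤ⟦X⟧} (h : NN φ) (k : NN ψ) : NN (φ + ψ) := fun m => by
  rw [map_add]; exact add_nonneg (h _) (k _)

theorem NN_X_pow (n : ℕ) : NN (X ^ n) := fun m => by
  rw [coeff_X_pow]; split_ifs <;> norm_num

theorem NN_one : NN 1 := by simpa using NN_X_pow 0

theorem NN_zero : NN 0 := fun m => by simp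

theorem NN_geo (u : ℕ) : NN (geo u) := fun m => by
  rw [geo, coeff_mk]; split_ifs <;> norm_num

theorem NN_sum {ι : Type*} (s : Finset ι) (f : ι → ℤ⟦X⟧) (h : ∀ i ∈ s, NN (f i)) :
    NN (∑ i ∈ s, f i) :=
  Finset.sum_induction f NN (fun _ _ => NN.add) NN_zero h

theorem NN_prod {ι : Type*} (s : Finset ι) (f : ι → ℤ⟦X⟧) (h : ∀ i ∈ s, NN (f i)) :
    NN (∏ i ∈ s, f i) :=
  Finset.prod_induction f NN (fun _ _ => NN.mul) NN_one h

theorem coeff_mul_one_sub (φ : ℤ⟦X⟧) (s m : ℕ) :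
    coeff m (φ * (1 - X ^ s)) = coeff m φ - if s ≤ m then coeff (m - s) φ else 0 := by
  rw [mul_sub, mul_one, map_sub, coeff_mul_X_pow']

theorem geo_mul {u : ℕ} (hu : 0 < u) : geo u * (1 - X ^ u) = 1 := by
  ext m
  rw [coeff_mul_one_sub, coeff_one]
  simp only [geo, coeff_mk]
  by_cases hm : u ≤ m
  · have : u ∣ m - u ↔ u ∣ m := (Nat.dvd_sub_iff_left hm (dvd_refl u))
    have hm0 : m ≠ 0 := by omega
    simp [hm, this, hm0]
  · by_cases h0 : m = 0
    · subst h0; simp [hm]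
    · have : ¬ u ∣ m := fun h => hm (Nat.le_of_dvd (by omega) h)
      simp [hm, this, h0]

theorem geo_mul_mul {u : ℕ} (hu : 0 < u) (α : ℕ) :
    geo u * (1 - X ^ (α * u)) = ∑ r ∈ range α, X ^ (r * u) := by
  have h : (1 - X ^ (α * u) : ℤ⟦X⟧) = (1 - X ^ u) * ∑ r ∈ range α, X ^ (r * u) := by
    have := mul_neg_geom_sum (X ^ u : ℤ⟦X⟧) α
    simp only [← pow_mul] at this
    rw [mul_comm α u, ← this]
    congr 1
    exact sum_congr rfl fun r _ => by rw [mul_comm]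
  rw [h, ← mul_assoc, geo_mul hu, one_mul]

theorem NN_geo_mul_mul {u : ℕ} (hu : 0 < u) (α : ℕ) : NN (geo u * (1 - X ^ (α * u))) := by
  rw [geo_mul_mul hu]; exact NN_sum _ _ fun r _ => NN_X_pow _

/-- Numerator with `b` factors. -/
noncomputable def Nser (a b : ℕ) : ℤ⟦X⟧ := ∏ i ∈ range b, (1 - X ^ (2 * a + 2 * i + 3))

/-- Partitions into the parts `3, 5, …, 2 n + 1`. -/
noncomputable def Pser (n : ℕ) : ℤ⟦X⟧ := ∏ i ∈ range n, geo (2 * i + 3)

/-- The main series. -/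
noncomputable def Vser (a b : ℕ) : ℤ⟦X⟧ := Nser a (b - 1) * Pser b

/-- The series with `b` numerator factors and `n` denominator factors. -/
noncomputable def Kser (a b n : ℕ) : ℤ⟦X⟧ := Nser a b * Pser n

theorem NN_Pser (n : ℕ) : NN (Pser n) := NN_prod _ _ fun _ _ => NN_geo _

theorem Kser_eq (a b : ℕ) (hb : 1 ≤ b) :
    Kser a b b = Vser a b * (1 - X ^ (2 * a + 2 * b + 1)) := by
  obtain ⟨c, rfl⟩ : ∃ c, b = c + 1 := ⟨b - 1, by omega⟩
  simp only [Kser, Vser, Nser, Nat.add_sub_cancel, prod_range_succ]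
  rw [show 2 * a + 2 * (c + 1) + 1 = 2 * a + 2 * c + 3 by ring]; ring

theorem Vser_succ (a b : ℕ) (hb : 1 ≤ b) :
    Vser a (b + 1) = Vser a b * geo (2 * b + 3) * (1 - X ^ (2 * a + 2 * b + 1)) := by
  obtain ⟨c, rfl⟩ : ∃ c, b = c + 1 := ⟨b - 1, by omega⟩
  simp only [Vser, Nser, Pser, Nat.add_sub_cancel, prod_range_succ]
  rw [show 2 * a + 2 * (c + 1) + 1 = 2 * a + 2 * c + 3 by ring]; ring

theorem Vser_one (a : ℕ) : Vser a 1 = geo 3 := by
  simp [Vser, Nser, Pser]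

theorem Kser_succ (a b n : ℕ) : Kser a b (n + 1) = Kser a b n * geo (2 * n + 3) := by
  simp only [Kser, Pser, prod_range_succ]; ring

/-- The series of the problem, over `ℚ`. -/
noncomputable def G (k n : ℕ) : ℚ⟦X⟧ :=
  (∏ j ∈ range n, (1 - X ^ (2 * k - 1 + 2 * j))) * (∏ j ∈ range (n + 1), (1 - X ^ (1 + 2 * j)))⁻¹

theorem inv_prod (n : ℕ) :
    (∏ j ∈ range n, (1 - X ^ (1 + 2 * j) : ℚ⟦X⟧))⁻¹ =
      PowerSeries.map (Int.castRingHom ℚ) (∏ j ∈ range n, geo (1 + 2 * j)) := by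
  symm
  rw [PowerSeries.eq_inv_iff_mul_eq_one]
  · have : (∏ j ∈ range n, (1 - X ^ (1 + 2 * j) : ℚ⟦X⟧)) =
        PowerSeries.map (Int.castRingHom ℚ) (∏ j ∈ range n, (1 - X ^ (1 + 2 * j))) := by
      simp [map_prod]
    rw [this, ← map_mul, ← prod_mul_distrib]
    rw [prod_congr rfl fun j _ => geo_mul (u := 1 + 2 * j) (by omega)]
    simp
  · rw [map_prod]
    refine prod_ne_zero_iff.2 fun j _ => ?_
    simp

theorem G_sub (a b : ℕ) (hb : 1 ≤ b) (hab : b ≤ a) :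
    G (a + 1) b - G (a + 2) (b - 1) = PowerSeries.map (Int.castRingHom ℚ)
      (X ^ (2 * b + 1) * (geo 1 * (1 - X ^ (2 * (a - b) * 1))) * Vser a b) := by
  obtain ⟨c, rfl⟩ : ∃ c, b = c + 1 := ⟨b - 1, by omega⟩
  obtain ⟨e, rfl⟩ : ∃ e, a = c + 1 + e := ⟨a - (c + 1), by omega⟩
  have h1 : ∀ k n, (∏ j ∈ range n, (1 - X ^ (2 * k - 1 + 2 * j) : ℚ⟦X⟧)) =
      PowerSeries.map (Int.castRingHom ℚ) (∏ j ∈ range n, (1 - X ^ (2 * k - 1 + 2 * j))) := by
    intro k n; simp [map_prod]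
  simp only [G, inv_prod, h1, ← map_mul, ← map_sub]
  congr 1
  have hP : ∀ n, ∏ j ∈ range (n + 1), geo (1 + 2 * j) = geo 1 * Pser n := by
    intro n
    rw [prod_range_succ', Pser, mul_comm]
    congr 1
    exact prod_congr rfl fun j _ => by congr 1; ring
  have hN1 : ∏ j ∈ range (c + 1), (1 - X ^ (2 * (c + 1 + e + 1) - 1 + 2 * j) : ℤ⟦X⟧) =
      (1 - X ^ (2 * (c + 1 + e) + 1)) * Nser (c + 1 + e) c := by
    rw [prod_range_succ', Nser, mul_comm]
    congr 1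
    exact prod_congr rfl fun j _ => by congr 2; omega
  have hN2 : ∏ j ∈ range c, (1 - X ^ (2 * (c + 1 + e + 2) - 1 + 2 * j) : ℤ⟦X⟧) =
      Nser (c + 1 + e) c := by
    rw [Nser]; exact prod_congr rfl fun j _ => by congr 2; omega
  simp only [Nat.add_sub_cancel, hP, hN1, hN2, Vser, Nat.add_sub_cancel_left]
  have hP2 : Pser c = Pser (c + 1) * (1 - X ^ (2 * c + 3)) := by
    simp only [Pser, prod_range_succ]
    rw [mul_assoc, geo_mul (by omega), mul_one]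
  rw [hP2]
  ring

theorem G_sub_nonneg (hV : ∀ a b, 1 ≤ b → b < a → NN (Vser a b)) (k n : ℕ) (hn : 1 ≤ n)
    (hk : n + 1 ≤ k) (m : ℕ) : 0 ≤ coeff m (G k n - G (k + 1) (n - 1)) := by
  obtain ⟨a, rfl⟩ : ∃ a, k = a + 1 := ⟨k - 1, by omega⟩
  rw [show a + 1 + 1 = a + 2 by ring, G_sub a n hn (by omega), coeff_map]
  have : NN (X ^ (2 * n + 1) * (geo 1 * (1 - X ^ (2 * (a - n) * 1))) * Vser a n) := by
    rcases Nat.eq_or_lt_of_le (show n ≤ a by omega) with h | h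
    · subst h; simpa using NN_zero
    · exact ((NN_X_pow _).mul (NN_geo_mul_mul one_pos _)).mul (hV a n hn h)
  simpa using this m

end Pool.Agent.Lib.MP_667609_co
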