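import Pool.Agent.Lib.MP_667609_co.Final

/-! The common factor of two neighbouring series has nonnegative coefficients, with one
exception. -/

open PowerSeries Finset

namespace Pool.Agent.Lib.MP_667609_co

theorem Vser_mul (a b : ℕ) (hb : 1 ≤ b) :
    Vser a b * ((∏ i ∈ range a, (1 - X ^ (2 * i + 3))) * ∏ i ∈ range b, (1 - X ^ (2 * i + 3))) =
      ∏ i ∈ range (a + b - 1), (1 - X ^ (2 * i + 3)) := by
  rw [show a + b - 1 = a + (b - 1) by omega, prod_range_add, Vser, Nser,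
    prod_congr rfl fun i (_ : i ∈ range (b - 1)) =>
      show (1 - X ^ (2 * (a + i) + 3) : ℤ⟦X⟧) = 1 - X ^ (2 * a + 2 * i + 3) by rw [mul_add]]
  linear_combination (∏ i ∈ range a, (1 - X ^ (2 * i + 3))) *
    (∏ i ∈ range (b - 1), (1 - X ^ (2 * a + 2 * i + 3))) * Pser_mul b

theorem prod_ne (n : ℕ) : (∏ i ∈ range n, (1 - X ^ (2 * i + 3)) : ℤ⟦X⟧) ≠ 0 :=
  right_ne_zero_of_mul_eq_one (Pser_mul n)

theorem Vser_symm {a b : ℕ} (ha : 1 ≤ a) (hb : 1 ≤ b) : Vser a b = Vser b a := by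
  refine mul_right_cancel₀ (mul_ne_zero (prod_ne a) (prod_ne b)) ?_
  rw [Vser_mul a b hb, mul_comm (∏ i ∈ range a, _), Vser_mul b a ha, add_comm]

theorem Vser_zero (c : ℕ) : Vser 0 (c + 1) = geo (2 * c + 3) := by
  have h := Pser_mul c
  simp only [Vser, Nser, Nat.add_sub_cancel, mul_zero, zero_add]
  rw [Pser, prod_range_succ, ← Pser]
  linear_combination geo (2 * c + 3) * h

theorem Vser_two : ¬ NN (Vser 2 2) := fun h => by
  have h1 := h 7
  have h2 : Vser 2 2 = geo 3 * geo 5 * (1 - X ^ 7) := by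
    rw [Vser_succ 2 1 le_rfl, Vser_one]
  rw [h2, coeff_mul_one_sub, coeff_mul, coeff_mul] at h1
  simp only [geo, coeff_mk] at h1
  revert h1
  decide

theorem Vser_iff (a b : ℕ) (hb : 1 ≤ b) : NN (Vser a b) ↔ ¬(a = 2 ∧ b = 2) := by
  refine ⟨fun h ⟨h1, h2⟩ => Vser_two (by rwa [h1, h2] at h), fun h => ?_⟩
  rcases Nat.eq_zero_or_pos a with rfl | ha
  · obtain ⟨c, rfl⟩ : ∃ c, b = c + 1 := ⟨b - 1, by omega⟩
    rw [Vser_zero]
    exact NN_geo _
  rcases le_total b a with h1 | h1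
  · exact Vser_NN_le a b hb h1 (by omega)
  · rw [Vser_symm ha hb]
    exact Vser_NN_le b a ha h1 (by omega)

theorem geo_one (α : ℕ) : geo 1 * (1 - X ^ α) = ∑ r ∈ range α, X ^ r := by
  simpa using geo_mul_mul one_pos α

theorem G_fac (a b : ℕ) (hb : 1 ≤ b) : G (a + 1) b =
    (∑ i ∈ range (2 * a + 1), X ^ i) * PowerSeries.map (Int.castRingHom ℚ) (Vser a b) := by
  obtain ⟨c, rfl⟩ : ∃ c, b = c + 1 := ⟨b - 1, by omega⟩
  have h1 : (∏ j ∈ range (c + 1), (1 - X ^ (2 * (a + 1) - 1 + 2 * j) : ℚ⟦X⟧)) =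
      PowerSeries.map (Int.castRingHom ℚ) ((1 - X ^ (2 * a + 1)) * Nser a c) := by
    rw [prod_range_succ', Nser, mul_comm]
    simp only [map_mul, map_prod, map_sub, map_one, map_pow, map_X]
    congr 1
    exact prod_congr rfl fun j _ => by congr 2; omega
  have h2 : ∏ j ∈ range (c + 1 + 1), geo (1 + 2 * j) = geo 1 * Pser (c + 1) := by
    rw [prod_range_succ', Pser, mul_comm]
    congr 1
    exact prod_congr rfl fun j _ => by congr 1; ring
  have h3 : (∑ i ∈ range (2 * a + 1), X ^ i : ℚ⟦X⟧) =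
      PowerSeries.map (Int.castRingHom ℚ) (geo 1 * (1 - X ^ (2 * a + 1))) := by
    rw [geo_one]; simp
  rw [G, inv_prod, h1, h2, h3, ← map_mul, ← map_mul, Vser, Nat.add_sub_cancel]
  congr 1
  ring

theorem G_sub_fac (a b : ℕ) (hb : 1 ≤ b) (hab : b ≤ a) : G (a + 1) b - G (a + 2) (b - 1) =
    (∑ i ∈ Ico (2 * b + 1) (2 * a + 1), X ^ i) *
      PowerSeries.map (Int.castRingHom ℚ) (Vser a b) := by
  rw [G_sub a b hb hab, map_mul, geo_one, sum_Ico_eq_sum_range, mul_sum,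
    show 2 * a + 1 - (2 * b + 1) = 2 * (a - b) * 1 by omega]
  simp [pow_add]

theorem factor (k n : ℕ) (hk : 1 ≤ k) (hn : 1 ≤ n) : ∃ V : ℚ⟦X⟧,
    G k n = (∑ i ∈ range (2 * k - 1), X ^ i) * V ∧
    (n + 1 ≤ k → G k n - G (k + 1) (n - 1) = (∑ i ∈ Ico (2 * n + 1) (2 * k - 1), X ^ i) * V) ∧
    ((∀ m, 0 ≤ coeff m V) ↔ ¬(k = 3 ∧ n = 2)) := by
  obtain ⟨a, rfl⟩ : ∃ a, k = a + 1 := ⟨k - 1, by omega⟩
  refine ⟨PowerSeries.map (Int.castRingHom ℚ) (Vser a n), G_fac a n hn,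
    fun h => G_sub_fac a n hn (by omega), ?_⟩
  rw [show (a + 1 = 3 ∧ n = 2) ↔ (a = 2 ∧ n = 2) by omega, ← Vser_iff a n hn]
  simp [NN]

end Pool.Agent.Lib.MP_667609_co
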