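import Pool.Agent.Lib.MP_667609_co.Saddle
import Pool.Agent.Lib.MP_667609_co.Brute1
import Pool.Agent.Lib.MP_667609_co.Brute2
import Pool.Agent.Lib.MP_667609_co.Brute3
import Pool.Agent.Lib.MP_667609_co.Brute4
import Pool.Agent.Lib.MP_667609_co.Brute5
import Pool.Agent.Lib.MP_667609_co.Brute6
import Pool.Agent.Lib.MP_667609_co.Brute7
import Pool.Agent.Lib.MP_667609_co.Brute8
import Pool.Agent.Lib.MP_667609_co.Brute9
import Pool.Agent.Lib.MP_667609_co.Cert

/-! The periodic part is small; conclusion. -/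

open Finset Real

namespace Pool.Agent.Lib.MP_667609_co

theorem Td_le_exp {a b i : ℕ} (hi : i < b) {ρ M : ℝ} (hρ : exp ρ * (2 * b + 1) = 2 * a + 2 * b + 1)
    (hρ0 : 0 ≤ ρ) (h1 : (2 * b + 1) / 2 ≤ M) (h2 : (b - 1) / 3 * (ρ + 1) + (2 * b + 1) / 6 ≤ M) :
    Td a b (2 * i + 3) ≤ 2 * √(2 * b + 1) * exp M := by
  unfold Td
  split_ifs with h
  swap
  · positivity
  set d := 2 * i + 3 with hd
  have hd2 : d % 2 = 1 := by omega
  have hps := psd_le a b d
  have hpu := pud_eq hd2 (by omega) b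
  unfold pole at h
  rw [cntU hd2 (by omega)] at h
  set k := ((range (b - 1)).filter fun i => d ∣ 2 * a + 2 * i + 3).card
  have a1 := Nat.div_mul_le_self (b + d / 2 + 1) d
  have a2 := Nat.lt_mul_div_succ (b + d / 2 + 1) (show 0 < d by omega)
  rw [h] at a1 a2 hpu
  have a3 : ((2 * k + 1) * d : ℝ) ≤ 2 * b + 1 := by
    have : (2 * k + 1) * d ≤ 2 * b + 1 := by nlinarith [Nat.div_add_mod d 2]
    exact_mod_cast this
  have a4 : (2 * b + 1 : ℝ) ≤ d * uu k := by
    have : 2 * b + 1 ≤ d * (2 * k + 3) := by nlinarith [Nat.div_add_mod d 2]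
    unfold uu; exact_mod_cast this
  have hd3 : (3 : ℝ) ≤ d := by exact_mod_cast (show 3 ≤ d by omega)
  have hk : (0 : ℝ) ≤ k := by positivity
  have b1 : (psd a b d : ℝ) ≤ (exp ρ * (d * uu k)) ^ k := by
    have : (psd a b d : ℝ) ≤ (2 * a + 2 * b + 1) ^ k := by
      exact_mod_cast hps.trans (Nat.pow_le_pow_left (show _ ≤ 2 * a + 2 * b + 1 by omega) k)
    refine this.trans ?_
    rw [← hρ]; gcongr
  have b2 : (pud b d : ℝ) = d ^ k * (∏ j ∈ range k, uu j) * d := by
    rw [hpu, prod_range_succ']; push_cast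
    rw [prod_mul_distrib, prod_const, card_range, mul_one]
    congr 2; exact prod_congr rfl fun j _ => by rw [uu]; ring
  have b0 : 0 < ∏ j ∈ range k, uu j := prod_pos fun j _ => uu_pos j
  have b3 : uu k ^ k ≤ exp k * ∏ j ∈ range k, uu j := by
    have := exp_le_exp.2 (sum_log_le k)
    rwa [exp_sum, prod_congr rfl fun j _ => exp_log (div_pos (uu_pos k) (uu_pos j)),
      prod_div_distrib, prod_const, card_range, div_le_iff₀ b0] at this
  have b4 : exp (-(d / 2)) ≤ Fd d ^ 3 := by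
    rw [show -((d : ℝ) / 2) = (3 : ℕ) * -(d / 6) by push_cast; ring, exp_nat_mul]
    gcongr; exact Fd_ge (by omega)
  have b5 : k * (ρ + 1) + d / 2 ≤ M := by
    rcases Nat.eq_zero_or_pos k with h0 | h0
    · rw [h0] at a3 ⊢; push_cast at a3 ⊢; linarith
    · have c1 : (1 : ℝ) ≤ k := by exact_mod_cast h0
      have c2 : (k : ℝ) ≤ (b - 1) / 3 := by nlinarith
      nlinarith [mul_le_mul_of_nonneg_right c2 (show 0 ≤ ρ + 1 by linarith)]
  have hF := Fd_pos d (by omega)
  rw [← mul_div_assoc, div_le_iff₀ (by rw [b2]; positivity), b2]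
  calc _ ≤ d * (2 * √(2 * b + 1) * (exp ρ ^ k * (d ^ k * (exp k * ∏ j ∈ range k, uu j)))) := by
        gcongr
        · linarith
        · nlinarith
        · refine b1.trans ?_; rw [mul_pow, mul_pow]; gcongr
    _ = 2 * √(2 * b + 1) * exp (k * (ρ + 1) + d / 2) *
          (d ^ k * (∏ j ∈ range k, uu j) * d * exp (-(d / 2))) := by
        rw [exp_add, mul_add, exp_add, exp_nat_mul, mul_one, exp_neg]; field_simp
    _ ≤ _ := by gcongr

theorem LK_eq (a : ℕ) {b : ℕ} (hb : 1 ≤ b) : LK a b = LV a b * (2 * a + 2 * b + 1) := by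
  obtain ⟨c, rfl⟩ : ∃ c, b = c + 1 := ⟨b - 1, by omega⟩
  rw [LK, LV, Lam, prod_div_distrib, prod_range_succ, Nat.add_sub_cancel]
  unfold ss uu; push_cast; ring

theorem noise_le {a b : ℕ} (hb : 22 ≤ b) (ha : a0 b ≤ a) (hab : b ≤ a) :
    97 * √(2 * b + 1) * nu a b ≤ LV a b := by
  obtain ⟨h1, h2, h3⟩ := a0_cases ha hab
  have hb' : (22 : ℝ) ≤ b := by exact_mod_cast hb
  have hU : (0 : ℝ) < 2 * b + 1 := by positivity
  set w : ℝ := 2 * a + 2 * b + 1 with hw
  have hw0 : 0 < w := by positivity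
  set ρ := log (w / (2 * b + 1)) with hρ
  have hρ' : ∀ c : ℝ, 0 < c → c * (2 * b + 1) ≤ w → log c ≤ ρ := fun c a1 a2 =>
    log_le_log a1 ((le_div_iff₀ hU).2 a2)
  have l2 := log_two_gt_d9
  have hρ2 := hρ' (2 * 0.998) (by norm_num) (by linarith)
  have l3 := one_sub_inv_le_log_of_pos (x := 0.998) (by norm_num)
  rw [log_mul (by norm_num) (by norm_num)] at hρ2
  norm_num at l3
  set M : ℝ := max ((2 * b + 1) / 2) ((b - 1) / 3 * (ρ + 1) + (2 * b + 1) / 6)
  have a1 : nu a b ≤ b * (2 * √(2 * b + 1) * exp M) := by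
    refine (sum_le_card_nsmul _ _ _ fun i hi => Td_le_exp (mem_range.1 hi) (ρ := ρ)
      (by rw [exp_log (by positivity), div_mul_cancel₀ _ hU.ne']) (by linarith) (le_max_left _ _)
      (le_max_right _ _)).trans (by simp [M])
  have a2 : ∑ i ∈ range b, (log w + (2 / w * ss a i - 2) * log 2) ≤ ∑ i ∈ range b, log (ss a i) :=
    sum_le_sum fun i hi => by
      have hi' : (i : ℝ) + 1 ≤ b := by exact_mod_cast mem_range.1 hi
      have := chord (ζ := 2 * ss a i / w - 1) (M := 1)
        (by rw [sub_nonneg, one_le_div hw0, ss]; linarith [Nat.cast_nonneg (α := ℝ) i])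
        (by rw [sub_le_iff_le_add, div_le_iff₀ hw0, ss]; linarith) one_pos
      rw [add_sub_cancel, log_div (by linarith [ss_pos a i]) hw0.ne',
        log_mul two_ne_zero (ss_pos a i).ne', one_add_one_eq_two] at this
      rw [div_mul_eq_mul_div]; linarith
  rw [sum_add_distrib, ← sum_mul, sum_sub_distrib, ← mul_sum, sum_ss, sum_const, sum_const,
    card_range, nsmul_eq_mul, nsmul_eq_mul] at a2
  have a3 : 3 / 2 * b ≤ 2 / w * (b * (2 * a + b + 2)) := by
    rw [div_mul_eq_mul_div 2, le_div_iff₀ hw0]; nlinarith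
  have a4 : log (LV a b) + log w = ∑ i ∈ range b, log (ss a i) - ∑ i ∈ range b, log (uu i) := by
    have := LK_pos a b
    rw [LK_eq a (by omega)] at this
    rw [← log_mul (left_ne_zero_of_mul this.ne') hw0.ne', ← LK_eq a (by omega), LK,
      log_prod fun i _ => (div_pos (ss_pos a i) (uu_pos i)).ne', ← sum_sub_distrib]
    exact sum_congr rfl fun i _ => log_div (ss_pos a i).ne' (uu_pos i).ne'
  have a5 := sum_log_uu b
  have a6 := log_tan2 hU 7
  have a7 := log_tan2 (x := 97) (by norm_num) 7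
  have a8 : log w = ρ + log (2 * b + 1) := by rw [hρ, log_div hw0.ne' hU.ne']; ring
  have a9 : M + 0.4091 * b + 20.06 ≤ (b - 1) * ρ + b := by
    have c : ∀ ρ0 b0 : ℝ, ρ0 ≤ ρ → b0 ≤ b → 0.62 ≤ ρ0 → 0.4091 * b0 + 20.56 ≤ (b0 - 1) * ρ0 →
        0.0758 * b0 + 19.9 ≤ 2 / 3 * ((b0 - 1) * ρ0) → M + 0.4091 * b + 20.06 ≤ (b - 1) * ρ + b := by
      intro ρ0 b0 c1 c2 c3 c4 c5
      have c6 := mul_le_mul_of_nonneg_left c1 (show (0 : ℝ) ≤ b - 1 by linarith)
      have c7 := mul_le_mul_of_nonneg_left c3 (sub_nonneg.2 c2)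
      rw [add_assoc, ← le_sub_iff_add_le]
      exact max_le (by linarith) (by linarith)
    by_cases c1 : b ≤ 40
    · have c2 : (b : ℝ) ≤ 40 := by exact_mod_cast c1
      have c3 := hρ' (2 ^ 3) (by norm_num) (by rcases h3 with ⟨-, c⟩ | ⟨c, -⟩ | c <;> linarith)
      rw [log_pow] at c3
      exact c 2.079 22 (by push_cast at c3; linarith) hb' (by norm_num) (by norm_num) (by norm_num)
    by_cases c2 : b ≤ 74
    · have c3 : (b : ℝ) ≤ 74 := by exact_mod_cast c2
      have c4 := hρ' (2 * (1 + 1 / 2)) (by norm_num) (by linarith)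
      have c5 := le_log_one_add_of_nonneg (x := 1 / 2) (by norm_num)
      rw [log_mul (by norm_num) (by norm_num)] at c4
      exact c 1.09 41 (by linarith) (by exact_mod_cast not_le.1 c1) (by norm_num) (by norm_num)
        (by norm_num)
    rcases hab.lt_or_eq with c3 | c3
    · have c4 : (b : ℝ) + 1 ≤ a := by exact_mod_cast c3
      exact c 0.6931 75 (by linarith [hρ' 2 two_pos (by linarith)]) (by exact_mod_cast not_le.1 c2)
        (by norm_num) (by norm_num) (by norm_num)
    · exact c 0.69 150 (by linarith) (by rw [c3]; exact h2) (by norm_num) (by norm_num)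
        (by norm_num)
  have hL : 0 < LV a b := by
    have := LK_pos a b
    rw [LK_eq a (by omega)] at this
    exact pos_of_mul_pos_left this hw0.le
  have a10 : log 97 + 2 * log (2 * b + 1) + M ≤ log (LV a b) := by
    norm_num at a6 a7
    nlinarith [log_two_lt_d9, mul_le_mul_of_nonneg_right a3 (show 0 ≤ log 2 by linarith)]
  have a11 := exp_le_exp.2 a10
  rw [exp_log hL, exp_add, exp_add, exp_log (by norm_num), two_mul (log _), exp_add, exp_log hU] at a11
  refine le_trans ?_ a11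
  calc _ ≤ 97 * √(2 * b + 1) * (b * (2 * √(2 * b + 1) * exp M)) := by gcongr
    _ = 97 * (2 * b * (√(2 * b + 1) * √(2 * b + 1))) * exp M := by ring
    _ ≤ _ := by rw [mul_self_sqrt hU.le]; gcongr; linarith

theorem Vser_NN_big {a b : ℕ} (hb : 22 ≤ b) (ha : a0 b ≤ a) (hab : b ≤ a) : NN (Vser a b) := by
  have hE : (2 * a * b - (2 * a + 2 * b + 1)) + 2 * a + 2 * b + 1 = 2 * a * b := by
    have : 2 * a + 2 * b + 1 ≤ 2 * a * b := by nlinarith
    omega
  obtain ⟨per, h1, h2, -⟩ := exists_per (by omega) hE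
  generalize 2 * a * b - (2 * a + 2 * b + 1) = E at *
  rw [mul_assoc] at hE
  have hN := noise_le hb ha hab
  have hb' : (22 : ℝ) ≤ b := by exact_mod_cast hb
  have hab' : (b : ℝ) ≤ a := by exact_mod_cast hab
  have hν : 0 ≤ nu a b := (abs_nonneg _).trans (h2 0)
  have hs : 1 ≤ √(2 * b + 1 : ℝ) := by rw [one_le_sqrt]; linarith
  have hrec : ∀ m, PowerSeries.coeff m (Kser a b b) = PowerSeries.coeff m (Vser a b) -
      if 2 * a + 2 * b + 1 ≤ m then PowerSeries.coeff (m - (2 * a + 2 * b + 1)) (Vser a b) else 0 :=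
    fun m => by rw [Kser_eq a b (by omega), coeff_mul_one_sub]
  have hV : ∀ m ≤ a * b, 0 ≤ PowerSeries.coeff m (Vser a b) := by
    intro m
    induction m using Nat.strong_induction_on with
    | _ m ih =>
      intro hm
      have a1 := K_nonneg hb ha hab hm
      rw [hrec] at a1
      split_ifs at a1 with h
      · linarith [ih (m - (2 * a + 2 * b + 1)) (by omega) (by omega)]
      · linarith
  have hK : ∀ m ≤ a * b, a * b ≤ m + (2 * a + 2 * b + 1) →
      2 * nu a b ≤ PowerSeries.coeff m (Kser a b b) := by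
    intro m a1 a2
    obtain ⟨σ, b1, b2, b3⟩ := K_window hb ha hab a1 a2
    have b4 : 0.1105 ≤ exp (-2.2) := by
      have : 0.5766 ≤ exp (-0.55) := le_trans (by norm_num) (one_sub_div_pow_le_exp_neg (n := 256)
        (t := 0.55) (by norm_num))
      rw [show (-2.2 : ℝ) = (4 : ℕ) * -0.55 by norm_num, exp_nat_mul]
      exact le_trans (by norm_num) (pow_le_pow_left₀ (by norm_num) this 4)
    have b5 : 4.89 * σ ≤ (2 * a + 2 * b + 1) * √(2 * b + 1) := le_of_sq_le_sq (by
      rw [mul_pow, mul_pow, sq_sqrt (by positivity)]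
      have : (4 * a * (a + b + 2) : ℝ) ≤ (2 * a + 2 * b + 1) ^ 2 := by nlinarith
      nlinarith [sq_nonneg σ, sq_nonneg (2 * a + 2 * b + 1 : ℝ)]) (by positivity)
    have b6 : (0 : ℝ) ≤ PowerSeries.coeff m (Kser a b b) := by exact_mod_cast K_nonneg hb ha hab a1
    rw [LK_eq a (by omega)] at b3
    refine le_of_mul_le_mul_right ?_ (mul_pos pi_pos b1)
    have b7 : π * σ ≤ 3.1416 * σ := by gcongr; exact pi_lt_d4.le
    calc _ ≤ 2 * nu a b * (0.6425 * ((2 * a + 2 * b + 1) * √(2 * b + 1))) :=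
          mul_le_mul_of_nonneg_left (by linarith) (by positivity)
      _ ≤ 0.12 * (97 * √(2 * b + 1) * nu a b * (2 * a + 2 * b + 1) * 0.1105) := by
        nlinarith [show 0 ≤ nu a b * ((2 * a + 2 * b + 1) * √(2 * b + 1)) by positivity]
      _ ≤ 0.12 * (LV a b * (2 * a + 2 * b + 1) * exp (-2.2)) := by
        gcongr; exact mul_nonneg (le_trans (by positivity) hN) (by positivity)
      _ ≤ _ := by linarith
  have hup : ∀ j m, m + (2 * a + 2 * b + 1) + j = a * b →
      ((PowerSeries.coeff m (Vser a b) : ℤ) : ℝ) ≤ LV a b - nu a b := by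
    intro j
    induction j using Nat.strong_induction_on with
    | _ j ih =>
      intro m hm
      have a1 := hrec (m + (2 * a + 2 * b + 1))
      rw [if_pos (by omega), Nat.add_sub_cancel] at a1
      have a1' := congrArg (Int.cast : ℤ → ℝ) a1
      push_cast at a1'
      by_cases h : j ≤ 2 * a + 2 * b + 1
      · have a2 := hK (m + (2 * a + 2 * b + 1)) (by omega) (by omega)
        have a3 : PowerSeries.coeff (m + (2 * a + 2 * b + 1)) (Vser a b) ≤
            per (m + (2 * a + 2 * b + 1)) := by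
          rw [← h1]
          split_ifs
          · linarith [hV (E - (m + (2 * a + 2 * b + 1))) (by omega)]
          · simp
        have a4 : ((PowerSeries.coeff (m + (2 * a + 2 * b + 1)) (Vser a b) : ℤ) : ℝ) ≤
            per (m + (2 * a + 2 * b + 1)) := by exact_mod_cast a3
        linarith [(abs_le.1 (h2 (m + (2 * a + 2 * b + 1)))).2]
      · have a2 := ih (j - (2 * a + 2 * b + 1)) (by omega) (m + (2 * a + 2 * b + 1)) (by omega)
        have a3 : (0 : ℝ) ≤ PowerSeries.coeff (m + (2 * a + 2 * b + 1)) (Kser a b b) := by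
          exact_mod_cast K_nonneg hb ha hab (by omega)
        linarith
  intro m
  by_cases h : m ≤ a * b
  · exact hV m h
  have a1 := congrArg (Int.cast : ℤ → ℝ) (h1 m)
  have a2 := (abs_le.1 (h2 m)).1
  have a3 : (0 : ℝ) ≤ PowerSeries.coeff m (Vser a b) := by
    split_ifs at a1 with h'
    · have := hup (a * b - (E - m + (2 * a + 2 * b + 1))) (E - m) (by omega)
      push_cast at a1; linarith
    · push_cast at a1; nlinarith
  exact_mod_cast a3

theorem Vser_NN_le (a b : ℕ) (hb : 1 ≤ b) (hab : b ≤ a) (h2 : 3 ≤ a ∨ b = 1) :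
    NN (Vser a b) := by
  rcases hb.eq_or_lt with rfl | h1
  · rw [Vser_one]; exact NN_geo 3
  by_cases h : 22 ≤ b ∧ a0 b ≤ a
  · exact Vser_NN_big h.1 h.2 hab
  have h' : a < 350 ∧ (a < 200 ∨ b ≤ 40) ∧ (a < 150 ∨ b ≤ 60) ∨ b ≤ 21 := by
    unfold a0 at h; split_ifs at h <;> omega
  by_cases c0 : a < 11
  · exact brute0 a (by omega) c0 b h1 hab
  by_cases c0' : a < 14
  · rcases hab.lt_or_eq with h3 | rfl
    · exact brute0' a (by omega) c0' b h1 (by omega)
    · rcases (show b = 11 ∨ b = 12 ∨ b = 13 by omega) with rfl | rfl | rfl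
      exacts [diag11, diag12, diag13]
  by_cases c1 : a < 108
  · exact brute1 a (by omega) c1 b h1 hab
  by_cases c2 : a < 124
  · exact brute2 a (by omega) c2 b h1 hab
  by_cases c3 : a < 134
  · exact brute3 a (by omega) c3 b h1 hab
  by_cases c4 : a < 143
  · exact brute4 a (by omega) c4 b h1 hab
  by_cases c5 : a < 150
  · exact brute5 a (by omega) c5 b h1 hab
  by_cases c6 : a < 200
  · exact brute6 a (by omega) c6 b h1 (by omega)
  by_cases c7 : a < 350
  · exact brute7 a (by omega) c7 b h1 (by omega)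
  by_cases c8 : a < 600
  · exact brute8 a (by omega) c8 b h1 (by omega)
  by_cases c9 : a < 840
  · exact brute9 a (by omega) c9 b h1 (by omega)
  have hb' : b ≤ 21 := by omega
  exact Vser_NN_CI hb hb' (le_trans (Nat.mul_le_mul (show 2 * b ≤ 42 by omega)
    (show 2 * b - 2 ≤ 40 by omega)) (by omega))

theorem Vser_NN (a b : ℕ) (hb : 1 ≤ b) (hab : b < a) : NN (Vser a b) :=
  Vser_NN_le a b hb hab.le (by omega)

end Pool.Agent.Lib.MP_667609_co
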