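import Pool.Agent.Lib.MP_667609_co.Minor2

/-! Comparison of radii and the horizontal segment. -/

open Finset Real

namespace Pool.Agent.Lib.MP_667609_co

noncomputable def LK (a b : ℕ) : ℝ := ∏ i ∈ range b, ss a i / uu i

theorem LK_pos (a b : ℕ) : 0 < LK a b := prod_pos fun i _ => div_pos (ss_pos a i) (uu_pos i)

theorem Phi_eq (a b m : ℕ) {t : ℝ} (ht : 0 < t) : Phi a b b m t =
    (∏ i ∈ range b, sinh (ss a i * t / 2) / sinh (uu i * t / 2)) * exp ((m - a * b) * t) := by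
  rw [Phi, ← prod_mul_distrib, show (m - a * b : ℝ) * t = b * (-(a * t)) + m * t by ring, exp_add,
    exp_nat_mul (-(a * t)), ← mul_assoc]
  congr 1
  nth_rw 3 [← card_range b]
  rw [← prod_const, ← prod_mul_distrib]
  refine prod_congr rfl fun i _ => ?_
  have := sinh_pos' (half_pos (mul_pos (uu_pos i) ht))
  rw [one_sub_exp_eq, one_sub_exp_eq, show -(ss a i * t / 2) = -(a * t) + -(uu i * t / 2) by
    unfold ss uu; ring, exp_add]
  field_simp

theorem Phi_ge (a b m : ℕ) {t : ℝ} (ht : 0 < t) : LK a b * exp ((m - a * b) * t) ≤ Phi a b b m t := by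
  rw [Phi_eq _ _ _ ht, LK]
  refine mul_le_mul_of_nonneg_right (prod_le_prod (fun i _ => (div_pos (ss_pos a i) (uu_pos i)).le)
    fun i _ => ?_) (exp_pos _).le
  have h0 := half_pos (mul_pos (uu_pos i) ht)
  have := le_sinh_div h0 (x := ss a i * t / 2) (by gcongr; exact uu_le_ss a i)
  rw [div_le_div_iff₀ (uu_pos i) (sinh_pos' h0)]
  refine le_of_mul_le_mul_right ?_ ht; linarith

theorem sum_sq_sub (a b : ℕ) : ∑ i ∈ range b, (ss a i ^ 2 - uu i ^ 2) = 4 * a * b * (a + b + 2) := by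
  induction b with
  | zero => simp
  | succ n ih => rw [sum_range_succ, ih, ss, uu]; push_cast; ring

theorem Phi_le (a b m : ℕ) {t : ℝ} (ht : 0 < t) : Phi a b b m t ≤
    LK a b * exp (a * b * (a + b + 2) / 3 * t ^ 2 / 2) * exp ((m - a * b) * t) := by
  rw [Phi_eq _ _ _ ht, LK, show (a * b * (a + b + 2) / 3 * t ^ 2 / 2 : ℝ) =
    ∑ i ∈ range b, (ss a i ^ 2 - uu i ^ 2) * (t ^ 2 / 24) by rw [← sum_mul, sum_sq_sub]; ring,
    exp_sum, ← prod_mul_distrib]
  have h0 := fun i => half_pos (mul_pos (uu_pos i) ht)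
  gcongr with i
  · exact fun i _ => (div_pos (sinh_pos' (half_pos (mul_pos (ss_pos a i) ht))) (sinh_pos' (h0 i))).le
  have := sinh_div_le (h0 i) (x := ss a i * t / 2) (by gcongr; exact uu_le_ss a i)
  rw [show ((ss a i * t / 2) ^ 2 - (uu i * t / 2) ^ 2) / 6 = (ss a i ^ 2 - uu i ^ 2) * (t ^ 2 / 24) by
    ring] at this
  rw [div_mul_eq_mul_div, div_le_div_iff₀ (sinh_pos' (h0 i)) (uu_pos i)]
  refine le_of_mul_le_mul_right ?_ ht; linarith

theorem SS_le (a b : ℕ) {t : ℝ} (ht : 0 < t) : SS a b t ≤ a * b * (a + b + 2) / 3 * t ^ 2 := by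
  rw [show (a * b * (a + b + 2) / 3 * t ^ 2 : ℝ) =
    ∑ i ∈ range b, (ss a i ^ 2 - uu i ^ 2) * (t ^ 2 / 12) by rw [← sum_mul, sum_sq_sub]; ring]
  refine sum_le_sum fun i _ => (hh_sub_le (mul_pos (uu_pos i) ht)
    (by gcongr; exact uu_le_ss a i)).trans (le_of_eq (by ring))

theorem SS_le' (a n : ℕ) {t : ℝ} (ht : 0 < t) : SS a n t ≤ n := by
  refine (sum_le_card_nsmul _ _ 1 fun i _ => ?_).trans (by simp)
  linarith [hh_le_one (mul_pos (uu_pos i) ht), hh_pos (mul_pos (ss_pos a i) ht)]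

theorem sinh_fac_sq {x : ℝ} (hx : 0 < x) (φ : ℝ) :
    (sinh (x / 2) * exp (log (fac x φ) / 2)) ^ 2 = sinh (x / 2) ^ 2 + sin (φ / 2) ^ 2 := by
  have := sinh_pos' (half_pos hx)
  rw [mul_pow, ← exp_nat_mul, Nat.cast_ofNat, mul_div_cancel₀ _ two_ne_zero,
    exp_log (fac_pos x φ), fac]
  field_simp

theorem sin_ge_cubic {r : ℝ} (h0 : 0 ≤ r) : r * (3 - r ^ 2) / 2 ≤ sin (r * π / 2) := by
  by_cases h : r ≤ 0.6
  · refine le_trans ?_ (sin_ge_sub_cube (by positivity))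
    have a1 : π ^ 3 ≤ 3.15 ^ 3 := by gcongr; exact pi_lt_d2.le
    have a2 : r ^ 3 * π ^ 3 ≤ r ^ 3 * 3.15 ^ 3 := by gcongr
    nlinarith [mul_le_mul_of_nonneg_left pi_gt_d2.le h0, mul_nonneg h0 (show 0 ≤ 0.36 - r ^ 2 by nlinarith)]
  · have a1 := one_sub_sq_div_two_le_cos (x := π / 2 - r * π / 2)
    rw [cos_pi_div_two_sub] at a1
    have a2 : π ^ 2 ≤ 3.15 ^ 2 := by gcongr; exact pi_lt_d2.le
    nlinarith [mul_le_mul_of_nonneg_left a2 (sq_nonneg (1 - r)),
      mul_nonneg (sq_nonneg (1 - r)) (show 0 ≤ r - 0.6 by linarith)]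

theorem cosh_le_quad {y : ℝ} (h0 : 0 ≤ y) (h1 : y ≤ 1.203) : cosh y ≤ 1 + 0.57 * y ^ 2 := by
  have a1 := sinh_le_mul_exp (y := y / 2) (by positivity)
  have a2 : exp ((y / 2) ^ 2 / 6) ≤ 1.065 := by
    refine le_trans (exp_le_exp.2 (show _ ≤ 0.0604 by nlinarith)) ?_
    refine (exp_bound_div_one_sub_of_interval (by norm_num) (by norm_num)).trans (by norm_num)
  have a3 : sinh (y / 2) ^ 2 ≤ (y / 2 * 1.065) ^ 2 := by
    have := sinh_nonneg_iff.2 (show 0 ≤ y / 2 by positivity)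
    gcongr; exact a1.trans (by gcongr)
  have a4 := cosh_two_mul (y / 2)
  rw [mul_div_cancel₀ _ two_ne_zero, cosh_sq] at a4
  nlinarith [sq_nonneg y]

theorem mul_pow_le {c : ℝ} (hc : 0 ≤ c) {n0 n : ℕ} (h : (n0 + 1) * c ≤ n0) (hn : n0 ≤ n) :
    n * c ^ n ≤ n0 * c ^ n0 := by
  induction n, hn using Nat.le_induction with
  | base => exact le_rfl
  | succ k hk ih =>
    refine le_trans ?_ ih
    have h1 : (n0 : ℝ) ≤ k := by exact_mod_cast hk
    have h2 : c ≤ 1 := by nlinarith [Nat.cast_nonneg (α := ℝ) n0]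
    rw [pow_succ', ← mul_assoc]
    gcongr
    push_cast; nlinarith

theorem horiz {a b m : ℕ} (hb : 22 ≤ b) (ha : 150 ≤ a) (hab : b ≤ a) {τ : ℝ} (hτ : τ ≤ 0.006)
    (h : (a + b) * τ = 1.2) : ∃ q : ℝ, 0 ≤ q ∧ b * q ^ 2 ≤ 0.03 ^ 2 ∧ ∀ x, 0 < x → x ≤ τ →
      ‖II a b b m (x + (π / (2 * b + 1) : ℝ) * Complex.I)‖ ≤ LK a b * q * exp ((m - a * b) * x) := by
  have ha' : (150 : ℝ) ≤ a := by exact_mod_cast ha
  have hab' : (b : ℝ) ≤ a := by exact_mod_cast hab
  have hU : (0 : ℝ) < 2 * b + 1 := by positivity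
  obtain ⟨c, hc0, hc1, hc⟩ : ∃ c : ℝ, 0 ≤ c ∧ b * (c ^ b) ^ 2 ≤ 0.03 ^ 2 ∧ ∀ i < b, ∀ y, 0 ≤ y →
      y ≤ 1.203 * (ss a i / (2 * a + 2 * b + 1)) → cosh y * (2 * b + 1) ≤
        c * ss a i * ((3 - (uu i / (2 * b + 1)) ^ 2) / 2) := by
    have key : ∀ i < b, 0 < uu i / (2 * b + 1) ∧ uu i / (2 * b + 1) ≤ 1 ∧
        ss a i / (2 * a + 2 * b + 1) ≤ 1 := fun i hi => by
      have hi' : (i : ℝ) + 1 ≤ b := by exact_mod_cast hi
      exact ⟨div_pos (uu_pos i) hU, by rw [div_le_one hU, uu]; linarith,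
        by rw [div_le_one (by positivity), ss]; linarith⟩
    by_cases h1 : b ≤ 74
    · have h1' : (b : ℝ) ≤ 74 := by exact_mod_cast h1
      refine ⟨0.61, by norm_num, ?_, fun i hi y h2 h3 => ?_⟩
      · rw [← pow_mul, mul_comm b 2, pow_mul]
        exact (mul_pow_le (by norm_num) (by norm_num) hb).trans (by norm_num)
      obtain ⟨a1, a2, a3⟩ := key i hi
      have a4 : cosh y ≤ 1.83 := by nlinarith [cosh_le_quad h2 (by linarith)]
      have a5 : (2 + uu i / (2 * b + 1)) * (2 * b + 1) ≤ ss a i := by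
        rw [add_mul, div_mul_cancel₀ _ hU.ne', ss, uu]; linarith
      generalize uu i / (2 * b + 1) = r at *
      calc _ ≤ 0.61 * ((2 + r) * ((3 - r ^ 2) / 2)) * (2 * b + 1) := by
            gcongr; nlinarith [mul_nonneg a1.le (show 0 ≤ 1 - r ^ 2 by nlinarith)]
        _ = 0.61 * ((2 + r) * (2 * b + 1)) * ((3 - r ^ 2) / 2) := by ring
        _ ≤ _ := by gcongr; nlinarith
    · refine ⟨0.925, by norm_num, ?_, fun i hi y h2 h3 => ?_⟩
      · rw [← pow_mul, mul_comm b 2, pow_mul]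
        exact (mul_pow_le (n0 := 75) (by norm_num) (by norm_num) (by omega)).trans (by norm_num)
      obtain ⟨a1, a2, a3⟩ := key i hi
      have a6 : (0 : ℝ) < 2 * a + 2 * b + 1 := by positivity
      have a4 : (uu i / (2 * b + 1) + 0.996) / 2 ≤ ss a i / (2 * a + 2 * b + 1) := by
        have b1 : ss a i = 2 * a + uu i / (2 * b + 1) * (2 * b + 1) := by
          rw [div_mul_cancel₀ _ hU.ne', ss, uu]; ring
        rw [le_div_iff₀ a6, b1]; nlinarith
      have a5 : 2 * (ss a i / (2 * a + 2 * b + 1)) * (2 * b + 1) ≤ 1.002 * ss a i := by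
        have b1 : 2 * (2 * b + 1 : ℝ) ≤ 1.002 * (2 * a + 2 * b + 1) := by
          rcases hab.lt_or_eq with b2 | b2
          · have : (b : ℝ) + 1 ≤ a := by exact_mod_cast b2
            linarith
          · rw [b2]; linarith
        rw [← mul_div_assoc, div_mul_eq_mul_div, div_le_iff₀ a6]
        nlinarith [mul_le_mul_of_nonneg_left b1 (ss_pos a i).le]
      have a7 := cosh_le_quad h2 (by linarith)
      generalize uu i / (2 * b + 1) = r at *
      generalize ss a i / (2 * a + 2 * b + 1) = l at *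
      have a8 : y ^ 2 ≤ (1.203 * l) ^ 2 := by gcongr
      have a9 : r ^ 2 ≤ (2 * l - 0.996) ^ 2 := by gcongr; linarith
      calc _ ≤ 0.923 * (2 * l * ((3 - r ^ 2) / 2)) * (2 * b + 1) := by
            gcongr
            nlinarith [mul_le_mul_of_nonneg_left a9 (show 0 ≤ l by linarith), mul_nonneg
              (mul_nonneg (show 0 ≤ l - 0.498 by linarith) (sub_nonneg.2 a3)) (show 0 ≤ l by linarith),
              mul_nonneg (show 0 ≤ l - 0.498 by linarith) (sub_nonneg.2 a3)]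
        _ = 0.923 * (2 * l * (2 * b + 1)) * ((3 - r ^ 2) / 2) := by ring
        _ ≤ 0.925 * ss a i * ((3 - r ^ 2) / 2) :=
            mul_le_mul_of_nonneg_right (by linarith [ss_pos a i]) (by nlinarith)
  refine ⟨c ^ b, by positivity, hc1, fun x hx hxτ => ?_⟩
  rw [norm_II _ _ _ _ hx, Phi_eq _ _ _ hx, mul_right_comm, LL, ← sum_sub_distrib, sum_div, exp_sum,
    ← prod_mul_distrib, LK]
  nth_rw 6 [← card_range b]
  rw [← prod_const, ← prod_mul_distrib]
  have hs := fun i => mul_pos (ss_pos a i) hx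
  have hu := fun i => mul_pos (uu_pos i) hx
  refine mul_le_mul_of_nonneg_right (prod_le_prod (fun i _ => (mul_pos (div_pos (sinh_pos'
    (half_pos (hs i))) (sinh_pos' (half_pos (hu i)))) (exp_pos _)).le) fun i hi => ?_) (exp_pos _).le
  have hi' : (i : ℝ) + 1 ≤ b := by exact_mod_cast mem_range.1 hi
  have b0 := sinh_pos' (half_pos (hu i))
  have b1 : sinh (ss a i * x / 2) * exp (log (fac (ss a i * x) (ss a i * (π / (2 * b + 1)))) / 2) ≤
      cosh (ss a i * x / 2) := le_of_sq_le_sq (by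
    rw [sinh_fac_sq (hs i), cosh_sq]; linarith [sin_sq_le_one (ss a i * (π / (2 * b + 1)) / 2)])
    (cosh_pos _).le
  have b2 : sin (uu i * (π / (2 * b + 1)) / 2) ≤
      sinh (uu i * x / 2) * exp (log (fac (uu i * x) (uu i * (π / (2 * b + 1)))) / 2) :=
    le_of_sq_le_sq (by rw [sinh_fac_sq (hu i)]; linarith [sq_nonneg (sinh (uu i * x / 2))])
      (by positivity)
  have b3 := sin_ge_cubic (r := uu i / (2 * b + 1)) (div_pos (uu_pos i) hU).le
  have b4 := hc i (mem_range.1 hi) _ (half_pos (hs i)).le (by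
    rw [← mul_div_assoc, div_le_div_iff₀ two_pos (by positivity)]
    have : x * (2 * a + 2 * b + 1) ≤ 2.406 := by nlinarith
    nlinarith [ss_pos a i])
  rw [show uu i / (2 * b + 1) * π / 2 = uu i * (π / (2 * b + 1)) / 2 by ring] at b3
  rw [sub_div, exp_sub, div_mul_div_comm, div_le_iff₀ (by positivity)]
  refine b1.trans (le_trans ?_ (mul_le_mul_of_nonneg_left (b3.trans b2)
    (mul_nonneg (div_pos (ss_pos a i) (uu_pos i)).le hc0)))
  rw [← le_div_iff₀ hU] at b4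
  refine b4.trans (le_of_eq ?_)
  have := uu_pos i
  field_simp

end Pool.Agent.Lib.MP_667609_co
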