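import Mathlib.Analysis.SpecialFunctions.Trigonometric.Series
import Mathlib.Analysis.SpecialFunctions.Trigonometric.DerivHyp
import Mathlib.Analysis.SpecialFunctions.Trigonometric.Bounds
import Mathlib.Analysis.SpecialFunctions.Log.Deriv
import Mathlib.Analysis.Calculus.Deriv.MeanValue
import Mathlib.Tactic

/-! Elementary inequalities for hyperbolic functions. -/

open Real Finset

namespace Pool.Agent.Lib.MP_667609_co

theorem le_of_deriv {f f' : ℝ → ℝ} {a b : ℝ} (hab : a ≤ b)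
    (h : ∀ x, a ≤ x → x ≤ b → HasDerivAt f (f' x) x) (h' : ∀ x, a ≤ x → x ≤ b → 0 ≤ f' x) :
    f a ≤ f b := by
  have := monotoneOn_of_hasDerivWithinAt_nonneg (D := Set.Icc a b) (f := f) (f' := f')
    (convex_Icc a b) (fun x hx => (h x hx.1 hx.2).continuousAt.continuousWithinAt)
    (fun x hx => by
      rw [interior_Icc] at hx; exact (h x hx.1.le hx.2.le).hasDerivWithinAt)
    (fun x hx => by rw [interior_Icc] at hx; exact h' x hx.1.le hx.2.le)
  exact this ⟨le_rfl, hab⟩ ⟨hab, le_rfl⟩ hab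

theorem sinh_ge {y : ℝ} (hy : 0 ≤ y) : y ≤ sinh y := self_le_sinh_iff.2 hy

theorem sinh_pos' {y : ℝ} (hy : 0 < y) : 0 < sinh y := sinh_pos_iff.2 hy

theorem sinh_le_mul_cosh {y : ℝ} (hy : 0 ≤ y) : sinh y ≤ y * cosh y := by
  have := le_of_deriv (f := fun x => x * cosh x - sinh x) (f' := fun x => x * sinh x) hy
    (fun x _ _ => (((hasDerivAt_id' x).mul (hasDerivAt_cosh x)).sub
      (hasDerivAt_sinh x)).congr_deriv (by ring))
    (fun x h _ => mul_nonneg h (sinh_nonneg_iff.2 h))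
  simpa using this

theorem mul_cosh_le {y : ℝ} (hy : 0 ≤ y) : y * cosh y ≤ (1 + y ^ 2 / 3) * sinh y := by
  have := le_of_deriv (f := fun x => (1 + x ^ 2 / 3) * sinh x - x * cosh x)
    (f' := fun x => x / 3 * (x * cosh x - sinh x)) hy
    (fun x _ _ => (((((hasDerivAt_pow 2 x).div_const 3).const_add 1).mul (hasDerivAt_sinh x)).sub
        ((hasDerivAt_id' x).mul (hasDerivAt_cosh x))).congr_deriv (by ring))
    (fun x h _ => mul_nonneg (by positivity) (sub_nonneg.2 (sinh_le_mul_cosh h)))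
  simpa using this

theorem le_mul_cosh {y : ℝ} (hy : 0 ≤ y) (hy2 : y ^ 2 ≤ 3) :
    (1 + y ^ 2 / 4) * sinh y ≤ y * cosh y := by
  have := le_of_deriv (f := fun x => x * cosh x - (1 + x ^ 2 / 4) * sinh x)
    (f' := fun x => x / 4 * (2 * sinh x - x * cosh x)) hy
    (fun x _ _ => (((hasDerivAt_id' x).mul (hasDerivAt_cosh x)).sub
        ((((hasDerivAt_pow 2 x).div_const 4).const_add 1).mul (hasDerivAt_sinh x))).congr_deriv
        (by ring))
    (fun x h h' => mul_nonneg (by positivity) (by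
      have h1 := mul_cosh_le h
      have h2 := sinh_nonneg_iff.2 h
      have h3 : x ^ 2 ≤ 3 := le_trans (pow_le_pow_left₀ h h' 2) hy2
      nlinarith))
  simpa using this

theorem sinh_ge_poly {y : ℝ} (hy : 0 ≤ y) : y + y ^ 3 / 6 + y ^ 5 / 120 + y ^ 7 / 5040 ≤ sinh y := by
  have := sum_le_hasSum (range 4) (fun n _ => by positivity) (hasSum_sinh y)
  simp only [sum_range_succ, range_zero, sum_empty, Nat.factorial] at this
  norm_num at this
  linarith

theorem cosh_ge_poly (y : ℝ) : 1 + y ^ 2 / 2 + y ^ 4 / 24 ≤ cosh y := by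
  have := sum_le_hasSum (range 3) (fun n _ => by rw [pow_mul]; positivity) (hasSum_cosh y)
  simp only [sum_range_succ, range_zero, sum_empty, Nat.factorial] at this
  norm_num at this
  linarith

theorem sinh_le_mul_exp {y : ℝ} (hy : 0 ≤ y) : sinh y ≤ y * exp (y ^ 2 / 6) := by
  have h1 := (NormedSpace.expSeries_div_hasSum_exp (y ^ 2 / 6)).mul_left y
  rw [← exp_eq_exp_ℝ] at h1
  refine hasSum_le (fun i => ?_) (hasSum_sinh y) h1
  have : ∀ i : ℕ, 6 ^ i * i.factorial ≤ (2 * i + 1).factorial := by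
    intro i
    induction i with
    | zero => simp
    | succ i ih =>
      rw [show 2 * (i + 1) + 1 = (2 * i + 1) + 1 + 1 by ring, Nat.factorial_succ (2 * i + 1 + 1),
        Nat.factorial_succ (2 * i + 1), Nat.factorial_succ i, pow_succ]
      have : 6 * (i + 1) ≤ (2 * i + 1 + 1 + 1) * (2 * i + 1 + 1) := by nlinarith
      calc 6 ^ i * 6 * ((i + 1) * i.factorial) = 6 * (i + 1) * (6 ^ i * i.factorial) := by ring
        _ ≤ _ := by rw [← mul_assoc (2 * i + 1 + 1 + 1)]; exact Nat.mul_le_mul this ih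
  have h2 : (6 : ℝ) ^ i * i.factorial ≤ (2 * i + 1).factorial := by exact_mod_cast this i
  rw [div_pow, div_div, ← mul_div_assoc, ← pow_mul, ← pow_succ']
  gcongr

/-- The function `(x / 2) ^ 2 / sinh (x / 2) ^ 2`. -/
noncomputable def hh (x : ℝ) : ℝ := (x / 2) ^ 2 / sinh (x / 2) ^ 2

theorem hh_pos {x : ℝ} (hx : 0 < x) : 0 < hh x := by
  have := sinh_pos' (half_pos hx); unfold hh; positivity

theorem hh_ge {x : ℝ} (hx : 0 < x) : 1 - x ^ 2 / 12 ≤ hh x := by
  have h1 := sinh_le_mul_exp (half_pos hx).le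
  have h2 := sinh_pos' (half_pos hx)
  have h3 := add_one_le_exp (-(x ^ 2 / 12))
  have h4 : exp ((x / 2) ^ 2 / 6) ^ 2 * exp (-(x ^ 2 / 12)) = 1 := by
    rw [← exp_nat_mul, ← exp_add, exp_eq_one_iff]; push_cast; ring
  rw [hh, le_div_iff₀ (by positivity)]
  calc (1 - x ^ 2 / 12) * sinh (x / 2) ^ 2 ≤ exp (-(x ^ 2 / 12)) * sinh (x / 2) ^ 2 := by
        gcongr; linarith
    _ ≤ exp (-(x ^ 2 / 12)) * (x / 2 * exp ((x / 2) ^ 2 / 6)) ^ 2 := by gcongr
    _ = _ := by rw [mul_pow]; linear_combination (x / 2) ^ 2 * h4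

theorem hh_le {x : ℝ} (hx : 0 < x) :
    hh x * (1 + x ^ 2 / 12 + x ^ 4 / 360 + x ^ 6 / 20160) ≤ 1 := by
  have h1 := sinh_ge_poly (half_pos hx).le
  have h2 := sinh_pos' (half_pos hx)
  rw [hh, div_mul_eq_mul_div, div_le_one (by positivity)]
  refine le_trans ?_ (pow_le_pow_left₀ (by positivity) h1 2)
  have : 0 ≤ x ^ 10 / 9676800 + x ^ 12 / 1238630400 + x ^ 14 / 416179814400 := by positivity
  nlinarith [pow_pos hx 10]

theorem hh_le_one {x : ℝ} (hx : 0 < x) : hh x ≤ 1 := by
  have := hh_le hx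
  have h := hh_pos hx
  have : 0 ≤ hh x * (x ^ 2 / 12 + x ^ 4 / 360 + x ^ 6 / 20160) := by positivity
  nlinarith

theorem hasDerivAt_hh {x : ℝ} (hx : 0 < x) :
    HasDerivAt hh (x / 2 * (sinh (x / 2) - x / 2 * cosh (x / 2)) / sinh (x / 2) ^ 3) x := by
  have h2 := sinh_pos' (half_pos hx)
  have h1 := (hasDerivAt_id' x).div_const 2
  refine ((h1.fun_pow 2).fun_div (h1.sinh.fun_pow 2) (by positivity)).congr_deriv ?_
  norm_num
  field_simp

theorem hh_anti {x y : ℝ} (hy : 0 < y) (h : y ≤ x) : hh x ≤ hh y := by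
  have := le_of_deriv (f := fun x => -hh x) h (fun z hz _ => (hasDerivAt_hh (hy.trans_le hz)).neg)
    (fun z hz _ => by
      have hz0 := half_pos (hy.trans_le hz)
      have h1 := sinh_le_mul_cosh hz0.le
      have h2 := sinh_pos' hz0
      rw [neg_nonneg]
      exact div_nonpos_of_nonpos_of_nonneg (mul_nonpos_of_nonneg_of_nonpos hz0.le (by linarith))
        (by positivity))
  linarith

theorem hh_sub_le {x y : ℝ} (hy : 0 < y) (h : y ≤ x) : hh y - hh x ≤ (x ^ 2 - y ^ 2) / 12 := by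
  have := le_of_deriv (f := fun x => hh x + x ^ 2 / 12) h
    (fun z hz _ => (hasDerivAt_hh (hy.trans_le hz)).add ((hasDerivAt_pow 2 z).div_const 12))
    (fun z hz _ => by
      have hz0 := half_pos (hy.trans_le hz)
      have h1 := mul_cosh_le hz0.le
      have h2 := sinh_pos' hz0
      have h3 := sinh_ge hz0.le
      have h4 : (z / 2) ^ 2 ≤ sinh (z / 2) ^ 2 := by gcongr
      have : -(z / 6) ≤ z / 2 * (sinh (z / 2) - z / 2 * cosh (z / 2)) / sinh (z / 2) ^ 3 := by
        rw [le_div_iff₀ (by positivity)]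
        have : z / 2 * cosh (z / 2) - sinh (z / 2) ≤ sinh (z / 2) ^ 3 / 3 := by nlinarith
        nlinarith
      norm_num; linarith)
  linarith

theorem hh_half {x : ℝ} (hx : 0 < x) : hh x * cosh (x / 4) ^ 2 = hh (x / 2) := by
  have h2 := sinh_pos' (show 0 < x / 4 by positivity)
  have h3 := cosh_pos (x / 4)
  unfold hh
  rw [show x / 2 = 2 * (x / 4) by ring, sinh_two_mul, show 2 * (x / 4) / 2 = x / 4 by ring]
  field_simp

theorem sinh_div_le {x y : ℝ} (hy : 0 < y) (h : y ≤ x) :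
    y * sinh x ≤ x * sinh y * exp ((x ^ 2 - y ^ 2) / 6) := by
  have := le_of_deriv (f := fun x => x ^ 2 / 6 + log x - log (sinh x))
    (f' := fun x => x / 3 + 1 / x - cosh x / sinh x) h
    (fun z hz _ => by
      have hz0 := hy.trans_le hz
      refine ((((hasDerivAt_pow 2 z).div_const 6).add (hasDerivAt_log hz0.ne')).sub
        ((hasDerivAt_sinh z).log (sinh_pos' hz0).ne')).congr_deriv ?_
      norm_num; ring)
    (fun z hz _ => by
      have hz0 := hy.trans_le hz
      have h1 := mul_cosh_le hz0.le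
      have h2 := sinh_pos' hz0
      rw [sub_nonneg, div_le_iff₀ h2]
      apply le_of_mul_le_mul_left _ hz0
      refine h1.trans (le_of_eq ?_)
      field_simp; ring)
  have hx := hy.trans_le h
  have h1 := sinh_pos' hy
  have h2 := sinh_pos' hx
  rw [← log_le_log_iff (by positivity) (by positivity), log_mul hy.ne' h2.ne',
    log_mul (by positivity) (by positivity), log_mul hx.ne' h1.ne', log_exp]
  linarith

theorem le_sinh_div {x y : ℝ} (hy : 0 < y) (h : y ≤ x) : x * sinh y ≤ y * sinh x := by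
  have hx := hy.trans_le h
  have h1 := hh_anti (x := 2 * x) (y := 2 * y) (by linarith) (by linarith)
  have h2 := sinh_pos' hy
  have h3 := sinh_pos' hx
  simp only [hh, mul_div_cancel_left₀ _ (two_ne_zero' ℝ)] at h1
  rw [div_le_div_iff₀ (by positivity) (by positivity), ← mul_pow, ← mul_pow] at h1
  exact (pow_le_pow_iff_left₀ (by positivity) (by positivity) two_ne_zero).1 h1

theorem tanh_div_le {x y : ℝ} (hy : 0 < y) (h : y ≤ x) : y * tanh x ≤ x * tanh y := by
  have := le_of_deriv (f := fun x => log x + log (cosh x) - log (sinh x))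
    (f' := fun x => 1 / x + sinh x / cosh x - cosh x / sinh x) h
    (fun z hz _ => by
      have hz0 := hy.trans_le hz
      refine (((hasDerivAt_log hz0.ne').add ((hasDerivAt_cosh z).log (cosh_pos z).ne')).sub
        ((hasDerivAt_sinh z).log (sinh_pos' hz0).ne')).congr_deriv ?_
      norm_num)
    (fun z hz _ => by
      have hz0 := hy.trans_le hz
      have h2 := sinh_pos' hz0
      have h3 := cosh_pos z
      have h4 := sinh_ge hz0.le
      have h5 := one_le_cosh z
      have : 1 / z + sinh z / cosh z - cosh z / sinh z = 1 / z - 1 / (sinh z * cosh z) := by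
        field_simp; linear_combination (-z) * cosh_sq_sub_sinh_sq z
      rw [this, sub_nonneg]
      gcongr; nlinarith)
  have hx := hy.trans_le h
  have h1 := sinh_pos' hy
  have h2 := sinh_pos' hx
  have h3 := cosh_pos x
  have h4 := cosh_pos y
  rw [tanh_eq_sinh_div_cosh, tanh_eq_sinh_div_cosh,
    ← log_le_log_iff (by positivity) (by positivity), log_mul hy.ne' (by positivity),
    log_mul hx.ne' (by positivity), log_div h2.ne' h3.ne', log_div h1.ne' h4.ne']
  linarith

theorem tanh_pos' {y : ℝ} (hy : 0 < y) : 0 < tanh y := by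
  rw [tanh_eq_sinh_div_cosh]; exact div_pos (sinh_pos' hy) (cosh_pos y)

theorem tanh_sq (y : ℝ) : tanh y ^ 2 = 1 - 1 / cosh y ^ 2 := by
  have := cosh_pos y
  rw [tanh_eq_sinh_div_cosh]; field_simp; linear_combination -cosh_sq_sub_sinh_sq y

theorem tanh_mono {x y : ℝ} (hy : 0 < y) (h : y ≤ x) : tanh y ≤ tanh x := by
  refine (pow_le_pow_iff_left₀ (tanh_pos' hy).le (tanh_pos' (hy.trans_le h)).le two_ne_zero).1 ?_
  rw [tanh_sq, tanh_sq]
  have := cosh_pos y
  have : cosh y ≤ cosh x := cosh_le_cosh.2 (by rw [abs_of_pos hy, abs_of_pos (hy.trans_le h)]; exact h)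
  gcongr

theorem vhat_ge {x y : ℝ} (hy : 0 < y) (h : 2 * y ≤ x) : hh y * tanh (x / 4) ^ 2 ≤ hh y - hh x := by
  have h1 := hh_half (show 0 < x by linarith)
  have h2 := hh_anti hy (show y ≤ x / 2 by linarith)
  have h3 := cosh_pos (x / 4)
  have : hh x ≤ hh y / cosh (x / 4) ^ 2 := by rw [le_div_iff₀ (by positivity)]; linarith
  rw [tanh_sq, mul_sub, mul_one, mul_one_div]; linarith

theorem vhat_le {x y : ℝ} (hy : 0 < y) (hx : 0 < x) : hh y - hh x ≤ 4 / 3 * tanh (x / 4) ^ 2 := by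
  have h1 := hh_half hx
  have h2 := hh_le_one hy
  have h3 := cosh_pos (x / 4)
  have h4 := hh_ge (half_pos hx)
  have h5 := sinh_ge (show 0 ≤ x / 4 by positivity)
  have h6 : (x / 4) ^ 2 ≤ sinh (x / 4) ^ 2 := by gcongr
  have h7 := cosh_sq (x / 4)
  rw [tanh_eq_sinh_div_cosh, div_pow, ← mul_div_assoc, le_div_iff₀ (by positivity)]
  nlinarith

/-- The weight `log (1 + 1 / sinh (x / 2) ^ 2)`. -/
noncomputable def WW (x : ℝ) : ℝ := log (1 + 1 / sinh (x / 2) ^ 2)

theorem WW_eq {x : ℝ} (hx : 0 < x) : WW x = 2 * log (cosh (x / 2) / sinh (x / 2)) := by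
  have h2 := sinh_pos' (half_pos hx)
  have := log_pow (cosh (x / 2) / sinh (x / 2)) 2
  rw [Nat.cast_ofNat] at this
  rw [← this, WW, div_pow, cosh_sq]; congr 1; field_simp

theorem WW_nonneg (x : ℝ) : 0 ≤ WW x := log_nonneg (le_add_of_nonneg_right (by positivity))

theorem WW_anti {x y : ℝ} (hy : 0 < y) (h : y ≤ x) : WW x ≤ WW y := by
  have h2 := sinh_pos' (half_pos hy)
  have : sinh (y / 2) ≤ sinh (x / 2) := sinh_le_sinh.2 (by linarith)
  unfold WW; gcongr

theorem WW_le {x : ℝ} (hx : 0 < x) : WW x ≤ 2 * log (2 / x) + x ^ 2 / 6 := by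
  have h2 := sinh_pos' (half_pos hx)
  have h3 := cosh_pos (x / 2)
  have h1 := mul_cosh_le (half_pos hx).le
  have h4 : cosh (x / 2) / sinh (x / 2) ≤ 2 / x * (1 + x ^ 2 / 12) := by
    rw [div_le_iff₀ h2]
    apply le_of_mul_le_mul_left _ (half_pos hx)
    refine h1.trans (le_of_eq ?_); field_simp; ring
  have h5 := log_le_log (by positivity) h4
  rw [log_mul (by positivity) (by positivity)] at h5
  have h6 := log_le_sub_one_of_pos (show 0 < 1 + x ^ 2 / 12 by positivity)
  rw [WW_eq hx]; linarith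

theorem WW_ge {x : ℝ} (hx : 0 < x) (hx2 : x ≤ 5 / 2) : 2 * log (2 / x) + x ^ 2 / 10 ≤ WW x := by
  have h2 := sinh_pos' (half_pos hx)
  have h1 := le_mul_cosh (half_pos hx).le (by nlinarith)
  have h4 : 2 / x * (1 + x ^ 2 / 16) ≤ cosh (x / 2) / sinh (x / 2) := by
    rw [le_div_iff₀ h2]
    apply le_of_mul_le_mul_left _ (half_pos hx)
    refine le_trans (le_of_eq ?_) h1; field_simp; ring
  have h5 := log_le_log (by positivity) h4
  rw [log_mul (by positivity) (by positivity)] at h5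
  have h6 := le_log_one_add_of_nonneg (show 0 ≤ x ^ 2 / 16 by positivity)
  have h7 : x ^ 2 / 20 ≤ 2 * (x ^ 2 / 16) / (x ^ 2 / 16 + 2) := by
    rw [le_div_iff₀ (by positivity)]
    have : x ^ 2 ≤ 25 / 4 := by nlinarith
    nlinarith [sq_nonneg x]
  rw [WW_eq hx]; linarith

theorem WW_ge' {x : ℝ} (hx : 0 < x) : 2 * log (2 / x) ≤ WW x := by
  have h2 := sinh_pos' (half_pos hx)
  have h1 := sinh_le_mul_cosh (half_pos hx).le
  have h4 : 2 / x ≤ cosh (x / 2) / sinh (x / 2) := by
    rw [div_le_div_iff₀ hx h2]; linarith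
  have h5 := log_le_log (by positivity) h4
  rw [WW_eq hx]; linarith

theorem WW_le_sinh {x : ℝ} (hx : 0 < x) : WW x ≤ 2 / sinh x := by
  have h2 := sinh_pos' (half_pos hx)
  have h3 := cosh_pos (x / 2)
  have h0 := WW_nonneg x
  rw [WW_eq hx] at h0 ⊢
  have h1 := sinh_ge (y := log (cosh (x / 2) / sinh (x / 2))) (by linarith)
  rw [sinh_log (by positivity)] at h1
  have : (cosh (x / 2) / sinh (x / 2) - (cosh (x / 2) / sinh (x / 2))⁻¹) / 2 = 1 / sinh x := by
    conv_rhs => rw [show x = 2 * (x / 2) by ring, sinh_two_mul]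
    field_simp; linear_combination cosh_sq_sub_sinh_sq (x / 2)
  rw [this] at h1
  rw [div_eq_mul_one_div 2]; linarith

theorem WW_ge_exp {x : ℝ} (hx : 0 < x) : 4 * exp (-x) ≤ WW x := by
  have h2 := sinh_pos' (half_pos hx)
  have h3 := cosh_sub_sinh (x / 2)
  have h4 := cosh_add_sinh (x / 2)
  have h1 := le_log_one_add_of_nonneg (x := exp (-(x / 2)) / sinh (x / 2)) (by positivity)
  have e1 : 1 + exp (-(x / 2)) / sinh (x / 2) = cosh (x / 2) / sinh (x / 2) := by
    field_simp; linarith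
  have e2 : 2 * (exp (-(x / 2)) / sinh (x / 2)) / (exp (-(x / 2)) / sinh (x / 2) + 2) =
      2 * exp (-x) := by
    have : exp (-x) * exp (x / 2) = exp (-(x / 2)) := by rw [← exp_add]; congr 1; ring
    have h5 : exp (-(x / 2)) + 2 * sinh (x / 2) = exp (x / 2) := by linarith
    field_simp
    rw [h5, mul_comm, this]
  rw [e1, e2] at h1
  rw [WW_eq hx]; linarith

theorem WW_ratio {x y : ℝ} (hy : 0 < y) (h : y ≤ x) : WW y ≤ WW x + 2 * log (x / y) := by
  have hx := hy.trans_le h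
  have h1 := tanh_div_le (half_pos hy) (show y / 2 ≤ x / 2 by linarith)
  have h2 := sinh_pos' (half_pos hx)
  have h3 := sinh_pos' (half_pos hy)
  have h4 := cosh_pos (x / 2)
  have h5 := cosh_pos (y / 2)
  have : cosh (y / 2) / sinh (y / 2) ≤ cosh (x / 2) / sinh (x / 2) * (x / y) := by
    rw [tanh_eq_sinh_div_cosh, tanh_eq_sinh_div_cosh] at h1
    rw [div_mul_div_comm, div_le_div_iff₀ h3 (by positivity)]
    rw [← mul_div_assoc, ← mul_div_assoc, div_le_div_iff₀ h4 h5] at h1
    nlinarith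
  have h6 := log_le_log (by positivity) this
  rw [log_mul (by positivity) (by positivity)] at h6
  rw [WW_eq hx, WW_eq hy]; linarith

theorem WW_half {x : ℝ} (hx : 0 < x) :
    log (1 + 1 / (2 * sinh (x / 2) ^ 2)) = WW x / 2 + WW (2 * x) / 2 := by
  have h2 := sinh_pos' (half_pos hx)
  have h3 := cosh_pos (x / 2)
  have : WW x + WW (2 * x) = 2 * log (1 + 1 / (2 * sinh (x / 2) ^ 2)) := by
    have := log_pow (1 + 1 / (2 * sinh (x / 2) ^ 2)) 2
    rw [Nat.cast_ofNat] at this
    have h4 := sinh_pos' (show 0 < 2 * x / 2 by linarith)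
    rw [← this, WW, WW, ← log_mul (by positivity) (by positivity),
      show 2 * x / 2 = 2 * (x / 2) by ring, sinh_two_mul]
    congr 1
    field_simp
    rw [cosh_sq]; ring
  linarith

end Pool.Agent.Lib.MP_667609_co
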