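import Pool.Agent.Lib.MP_667609_co.MajorQ

/-! The major arc when some denominators are dropped. -/

open Finset Real

namespace Pool.Agent.Lib.MP_667609_co

theorem hh_le_of {x A B : ℝ} (hx : 0 < x) (hA : 0 ≤ A)
    (h : A ≤ B * (1 + x ^ 2 / 12 + x ^ 4 / 360 + x ^ 6 / 20160)) : hh x * A ≤ B := by
  have h1 := hh_le hx
  have h2 := hh_pos hx
  have h3 : 0 < 1 + x ^ 2 / 12 + x ^ 4 / 360 + x ^ 6 / 20160 := by positivity
  have h4 : 0 ≤ B := by
    by_contra h0; nlinarith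
  nlinarith

theorem hh_lin {y : ℝ} (h0 : 0 ≤ y) (h1 : y ≤ 5 / 2) : hh (y + 2.49) ≤ 0.615 - 0.162 * y := by
  have h2 : 0 ≤ 0.615 - 0.162 * y := by linarith
  have h3 : 0 ≤ 5 / 2 - y := by linarith
  simpa using hh_le_of (x := y + 2.49) (B := 0.615 - 0.162 * y) (by linarith) zero_le_one (by
    nlinarith [mul_nonneg h2 (pow_nonneg h0 4), mul_nonneg h2 (pow_nonneg h0 5),
      mul_nonneg h2 (pow_nonneg h0 6), mul_nonneg h3 h0, mul_nonneg h3 (pow_nonneg h0 2),
      mul_nonneg h3 (pow_nonneg h0 3)])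

theorem majorP {a b n m : ℕ} (hn : 83 ≤ n) (hb : n < b) (hab : b ≤ a) (ha : 150 ≤ a) {t : ℝ} (ht : 0 < t)
    (hY : (2 * n + 1) * t ≤ 5 / 2) (hY' : 5 / 2 ≤ (2 * n + 3) * t)
    (hμ : |m - mu a b n t| ≤ 1 / 2 + 0.0895 * (2 * n + 3)) :
    0 < sg a n t ∧ 0.3 * (Phi a b n m t / sg a n t) ≤
      (∫ θ in (0 : ℝ)..(π / (2 * n + 1)), II a b n m (t + θ * Complex.I)).re := by
  have hn' : (83 : ℝ) ≤ n := by exact_mod_cast hn
  have hb' : (n : ℝ) + 1 ≤ b := by exact_mod_cast hb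
  have ha' : (b : ℝ) ≤ a := by exact_mod_cast hab
  have ht1 : t ≤ 0.015 := by nlinarith
  have hs : ∀ i, 0 < ss a i * t := fun i => mul_pos (ss_pos a i) ht
  have hu : ∀ i, 0 < uu i * t := fun i => mul_pos (uu_pos i) ht
  have hat : 2.49 ≤ 2 * a * t := by
    rcases (show n + 2 ≤ a ∨ a = n + 1 by omega) with h | h
    · have : (n : ℝ) + 2 ≤ a := by exact_mod_cast h
      nlinarith
    · have h1 : (149 : ℝ) ≤ n := by exact_mod_cast (by omega : 149 ≤ n)
      have h2 : t ≤ 0.01 := by nlinarith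
      rw [h]; push_cast; linarith
  have hi1 : ∀ i < n, uu i * t + 2.49 ≤ ss a i * t ∧ uu i * t ≤ 5 / 2 := fun i hi => by
    have hi' : (i : ℝ) + 1 ≤ n := by exact_mod_cast hi
    unfold uu ss; exact ⟨by linarith, by nlinarith⟩
  have hS : 1 / 2 ≤ SS a n t * t := by
    have h1 : ∑ i ∈ range n, (0.385 + 0.162 * t * uu i - t ^ 2 / 12 * uu i ^ 2) ≤ SS a n t :=
      sum_le_sum fun i hi => by
        obtain ⟨a1, a2⟩ := hi1 i (mem_range.1 hi)
        have a3 := hh_anti (by linarith [hu i]) a1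
        nlinarith [hh_lin (hu i).le a2, hh_ge (hu i)]
    rw [sum_sub_distrib, sum_add_distrib, ← mul_sum, ← mul_sum, sum_uu, sum_uu_sq, sum_const,
      card_range, nsmul_eq_mul] at h1
    refine le_trans ?_ (mul_le_mul_of_nonneg_right h1 ht.le)
    obtain ⟨z, hz⟩ : ∃ z, z = n * t := ⟨_, rfl⟩
    have a1 : (z + t) * (2 * z + t) * (2 * z + 3 * t) ≤ (5 / 4 + t / 2) * (5 / 2) * (5 / 2 + 2 * t) :=
      mul_le_mul (mul_le_mul (by linarith) (by linarith) (by linarith) (by linarith)) (by linarith)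
        (by linarith) (by positivity)
    have a2 : (5 / 4 - 3 / 2 * t) * (5 / 4 + t / 2) ≤ z * (z + 2 * t) :=
      mul_le_mul (by linarith) (by linarith) (by linarith) (by linarith)
    have a3 : 5 / 4 - 3 / 2 * t ≤ z := by linarith
    calc _ ≤ 0.385 * z + 0.162 * (z * (z + 2 * t)) - (z + t) * (2 * z + t) * (2 * z + 3 * t) / 36 +
          t ^ 3 / 12 := by nlinarith [pow_pos ht 3]
      _ = _ := by rw [hz]; ring
  have hS' : 33.3 ≤ SS a n t := by nlinarith
  have hsq := sg_sq a n ht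
  set σ := sg a n t
  have hσ0 : 0 ≤ σ := by unfold σ sg; positivity
  have hr : 5.77 ≤ σ * t := le_of_sq_le_sq (by nlinarith) (by positivity)
  have hσ : 0 < σ := by
    by_contra h; rw [le_antisymm (not_lt.1 h) hσ0] at hr; linarith
  have hIco : ∀ (f : ℕ → ℝ) (c : ℝ), (∀ i ∈ Ico n b, f i * (ss a i * t - 4.955) ≤ c) →
      (∀ i, 0 ≤ f i) → (∑ i ∈ Ico n b, f i) * t ≤ c / 2 := by
    intro f c h h0
    have a1 : ∑ i ∈ Ico n b, f i * (2 * (b - n) * t) ≤ ∑ i ∈ Ico n b, c := sum_le_sum fun i hi => by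
      refine le_trans ?_ (h i hi)
      have : (n : ℝ) ≤ i := by exact_mod_cast (mem_Ico.1 hi).1
      have := h0 i
      gcongr; unfold ss; nlinarith
    rw [← sum_mul, sum_const, Nat.card_Ico, nsmul_eq_mul, Nat.cast_sub hb.le] at a1
    refine le_of_mul_le_mul_right ?_ (show (0 : ℝ) < b - n by linarith)
    linarith
  have hX : ∀ i ∈ Ico n b, 0 ≤ ss a i * t - 4.955 := fun i hi => by
    have : (n : ℝ) ≤ i := by exact_mod_cast (mem_Ico.1 hi).1
    unfold ss; nlinarith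
  have hR2 : ∑ i ∈ Ico n b, hh (ss a i * t) ≤ 0.12 * SS a n t := by
    have := hIco (fun i => hh (ss a i * t)) 0.12 (fun i hi => hh_le_of (hs i) (hX i hi) (by
      have a1 := hX i hi
      generalize ss a i * t = X at *
      nlinarith [sq_nonneg (X - 6.67), sq_nonneg (X ^ 2 - 6.67 ^ 2), mul_nonneg
        (sq_nonneg (X ^ 2 - 6.67 ^ 2)) (show 0 ≤ X ^ 2 + 2 * 6.67 ^ 2 by positivity)]))
      fun i => (hh_pos (hs i)).le
    refine le_of_mul_le_mul_right ?_ ht
    linarith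
  have hv : ∀ i, hh (uu i * t) - hh (ss a i * t) ≤ 1 := fun i => by
    linarith [hh_le_one (hu i), hh_pos (hs i)]
  refine ⟨hσ, le_trans ?_ (major (γ := 2) (δ := 0.045) (ε := 0.12) (c := 0.0045) (J := 90)
    (J' := 160) (N := 16) (M := 19) hb.le ⟨hab, by omega⟩ ht hσ hsq (by norm_num) (by norm_num) (by norm_num)
    (by norm_num) (by norm_num) (by norm_num) (by norm_num) (by norm_num) (by norm_num)
    (by norm_num) (fun θ h0 hθ => ?_) (hμ.trans ?_) ?_
    (fun i hi => by push_cast; linarith [hv i]) (by push_cast; exact hR2) fun θ h0 hθ => ?_)⟩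
  · have := Phi_pos a b n m ht
    gcongr
    exact le_trans (by norm_num) (Rat.cast_le.2 margP)
  · rw [← sum_range_add_sum_Ico _ hb.le]
    have a1 : ∀ (s : Finset ℕ) (v : ℕ → ℝ), (∀ i, 0 < v i) → ‖∑ i ∈ s, (v i : ℂ) ^ 3 *
        E3 (v i * (t + θ * Complex.I))‖ * t ^ 3 ≤ ∑ i ∈ s, hh (v i * t) * (2 + (v i * t) ^ 2 / 6) := by
      intro s v hv
      refine (mul_le_mul_of_nonneg_right (norm_sum_le _ _) (pow_pos ht 3).le).trans ?_
      rw [sum_mul]
      exact sum_le_sum fun i _ => norm_sE3 (hv i) ht θ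
    have a2 := (a1 (range n) _ (ss_pos a)).trans (sum_le_card_nsmul _ _ 1.87 fun i hi =>
      hh_le_of (hs i) (by positivity) (by
        have : (5 / 2) ^ 2 ≤ (ss a i * t) ^ 2 := by
          have : 5 / 2 ≤ ss a i * t := by
            unfold ss; nlinarith [mul_nonneg (Nat.cast_nonneg (α := ℝ) i) ht.le]
          gcongr
        nlinarith [mul_le_mul this this (by norm_num) (sq_nonneg _), pow_pos (hs i) 6]))
    have a3 := (a1 (range n) _ uu_pos).trans (sum_le_card_nsmul _ _ 2 fun i hi =>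
      hh_le_of (hu i) (by positivity) (by nlinarith [pow_pos (hu i) 4, pow_pos (hu i) 6]))
    have a4 := (mul_le_mul_of_nonneg_right (a1 (Ico n b) _ (ss_pos a)) ht.le).trans
      (hIco _ 1.5 (fun i hi => by
        rw [mul_assoc]
        refine hh_le_of (hs i) (mul_nonneg (by positivity) (hX i hi)) ?_
        generalize ss a i * t = X
        nlinarith [mul_nonneg (sq_nonneg X) (sq_nonneg (X ^ 2 - 64)), sq_nonneg (X ^ 2 - 6.087 * X),
          sq_nonneg (X - 7)]) fun i => by have := hh_pos (hs i); positivity)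
    rw [card_range, nsmul_eq_mul] at a2 a3
    refine ((norm_sub_le _ _).trans (add_le_add_left (norm_add_le _ _) _)).trans
      (le_of_mul_le_mul_right ?_ (pow_pos ht 4))
    have a5 := mul_le_mul_of_nonneg_right a2 ht.le
    have a6 := mul_le_mul_of_nonneg_right a3 ht.le
    have a7 : 5.77 * (1 / 2) ≤ σ * t * (SS a n t * t) := by gcongr
    rw [hsq] at a7
    push_cast; nlinarith
  · refine le_of_mul_le_mul_right ?_ ht
    push_cast; nlinarith
  · refine le_of_mul_le_mul_right ?_ ht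
    push_cast; nlinarith
  · have hU : (0 : ℝ) < 2 * n + 1 := by positivity
    rw [le_div_iff₀ hU] at hθ
    have e : θ ^ 2 / t ^ 2 * SS a n t = (σ * θ) ^ 2 := by rw [hsq]; field_simp
    have a1 : θ ^ 2 / t ^ 2 ≤ 1.272 ^ 2 := by
      rw [← div_pow]; gcongr
      rw [div_le_iff₀ ht]
      have a2 : θ * 2.47 ≤ θ * ((2 * n + 1) * t) := by gcongr; linarith
      nlinarith [pi_lt_d4]
    have := zone2 hb.le ⟨hab, by omega⟩ ht h0 (k := 0.405) (by norm_num)
      (fun p P a1 a2 => kOK_half p P a1 (by linarith)) (M := 0.66) (by norm_num) fun i hi => by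
        have a2 : 0.405 * (θ ^ 2 / t ^ 2) * (hh (uu i * t) - hh (ss a i * t)) ≤
          0.405 * (θ ^ 2 / t ^ 2) * 1 := by gcongr; exact hv i
        linarith
    have a3 : θ ^ 2 / t ^ 2 * ∑ i ∈ Ico n b, hh (ss a i * t) ≤ 0.12 * (σ * θ) ^ 2 := by
      rw [← e, mul_left_comm]; gcongr
    rw [mul_assoc _ _ (SS a n t), e] at this
    have a4 : 0.496 ≤ log (1 + 0.66) :=
      le_trans (by norm_num) (le_log_one_add_of_nonneg (x := 0.66) (by norm_num))
    have a5 := log_le_sub_one_of_pos (x := 1 + 0.0045 * (σ * θ) ^ 2) (by positivity)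
    have a6 := mul_le_mul_of_nonneg_right a4 (sq_nonneg (σ * θ))
    have a7 := sq_nonneg (σ * θ)
    rw [show 0.405 * (σ * θ) ^ 2 / 0.66 * log (1 + 0.66) = 27 / 44 * (log (1 + 0.66) * (σ * θ) ^ 2) by
      ring] at this
    push_cast
    generalize log (1 + 0.66) * (σ * θ) ^ 2 = y at *
    linarith

end Pool.Agent.Lib.MP_667609_co
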