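import Pool.Agent.Lib.MP_667609_co.Horiz
import Pool.Agent.Lib.MP_667609_co.MajorP

/-! Lower bounds for single coefficients. -/

open Finset Real

namespace Pool.Agent.Lib.MP_667609_co

theorem minor_int {a b n m : ℕ} {τ σ C P : ℝ} (hτ : 0 < τ) (hσ : 0 < σ) (hP : 0 < P)
    (h1 : Phi a b n m τ ≤ P * exp (C / 2))
    (h : ∀ θ, π / (2 * n + 1) ≤ θ → θ ≤ π → LL a b n τ θ + 2 * log σ + C ≤ -6.1) :
    -(0.15 * (P / σ)) ≤ (∫ θ in (π / (2 * n + 1))..π, II a b n m (τ + θ * Complex.I)).re := by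
  have h0 : 0 ≤ π / (2 * n + 1) := by positivity
  have h2 : π / (2 * n + 1) ≤ π := div_le_self pi_pos.le (by linarith [Nat.cast_nonneg (α := ℝ) n])
  have h3 : exp (-3.05) ≤ 0.0477 := by
    have := exp_ge (x := 3.05) (c := 21) (by norm_num) (by
      simp only [sum_range_succ, Nat.factorial]; norm_num)
    rw [exp_neg, inv_le_comm₀ (exp_pos _) (by norm_num)]; linarith
  have h4 := intervalIntegral.norm_integral_le_of_norm_le_const (a := π / (2 * n + 1)) (b := π)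
    (f := fun θ : ℝ => II a b n m (τ + θ * Complex.I)) (C := 0.0477 * (P / σ)) fun θ hθ => by
      rw [Set.uIoc_of_le h2] at hθ
      have a1 := h θ hθ.1.le hθ.2
      have a2 : exp (C / 2) * exp (LL a b n τ θ / 2) * σ ≤ 0.0477 := by
        rw [← exp_log hσ, ← exp_add, ← exp_add]
        exact le_trans (exp_le_exp.2 (by linarith)) h3
      rw [norm_II _ _ _ _ hτ, ← mul_div_assoc, le_div_iff₀ hσ]
      calc _ ≤ P * exp (C / 2) * exp (LL a b n τ θ / 2) * σ := by gcongr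
        _ ≤ _ := by nlinarith
  rw [abs_of_nonneg (sub_nonneg.2 h2)] at h4
  have h5 := (abs_le.1 ((Complex.abs_re_le_norm _).trans h4)).1
  have h6 := div_pos hP hσ
  nlinarith [pi_lt_d4]

theorem split_int (a b n m : ℕ) {t : ℝ} (ht : 0 < t) (θ1 : ℝ) :
    π * PowerSeries.coeff m (Kser a b n) = (∫ θ in (0 : ℝ)..θ1, II a b n m (t + θ * Complex.I)).re +
      (∫ θ in θ1..π, II a b n m (t + θ * Complex.I)).re := by
  rw [← cauchy a b n m ht, ← Complex.add_re, intervalIntegral.integral_add_adjacent_intervals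
    ((II_cont a b n m ht).intervalIntegrable _ _) ((II_cont a b n m ht).intervalIntegrable _ _)]

theorem mainP {a b n m : ℕ} (hn : 83 ≤ n) (hb : n < b) (hab : b ≤ a) (ha : 150 ≤ a) {t : ℝ}
    (ht : 0 < t) (hY : (2 * n + 1) * t ≤ 5 / 2) (hY' : 5 / 2 ≤ (2 * n + 3) * t)
    (hμ : |m - mu a b n t| ≤ 1 / 2 + 0.0895 * (2 * n + 3)) :
    0 ≤ PowerSeries.coeff m (Kser a b n) := by
  obtain ⟨hσ, h1⟩ := majorP hn hb hab ha ht hY hY' hμ
  have hn' : (83 : ℝ) ≤ n := by exact_mod_cast hn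
  have hb' : (n : ℝ) + 1 ≤ b := by exact_mod_cast hb
  have ha' : (b : ℝ) ≤ a := by exact_mod_cast hab
  have ht1 : t ≤ 0.015 := by nlinarith
  have hP := Phi_pos a b n m ht
  have h2 := minor_int (m := m) ht hσ hP (C := 0) (by simp) fun θ a1 a2 =>
    minorB (by omega) hb.le hab ha ht ht1 hY (by nlinarith) (Or.inr (by linarith)) hσ
      (by rw [← sg_sq a n ht]; exact SS_le' a n ht) a1 a2
  have h3 := split_int a b n m ht (π / (2 * n + 1))
  have h4 := div_pos hP hσ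
  have h5 : (0 : ℝ) ≤ PowerSeries.coeff m (Kser a b n) :=
    nonneg_of_mul_nonneg_right (a := π) (by linarith) pi_pos
  exact_mod_cast h5

theorem mainQ {a b m : ℕ} (hb : 22 ≤ b) (ha : a0 b ≤ a) (hab : b ≤ a) {t : ℝ} (ht : 0 < t)
    (ht1 : t ≤ 0.015) (hY : (2 * b + 1) * t ≤ 5 / 2) (hμ : |m - mu a b b t| ≤ 1 / 2)
    (hm : m ≤ a * b) (ht2 : 3199.5 * t ≤ b) : ∃ σ : ℝ, 0 < σ ∧ σ ^ 2 ≤ a * b * (a + b + 2) / 3 ∧
      0.12 * (LK a b * exp ((m - a * b) * t)) ≤ π * PowerSeries.coeff m (Kser a b b) * σ := by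
  obtain ⟨hσ, h1⟩ := majorQ hb ha hab ht ht1 hY hμ
  obtain ⟨h2, h3, h4⟩ := a0_cases ha hab
  have ha' : 150 ≤ a := by exact_mod_cast h3
  have hb' : (22 : ℝ) ≤ b := by exact_mod_cast hb
  have hm' : (m : ℝ) ≤ a * b := by exact_mod_cast hm
  have hP := Phi_pos a b b m ht
  have hσ2 : sg a b t ^ 2 ≤ a * b * (a + b + 2) / 3 := by
    refine le_of_mul_le_mul_right ?_ (pow_pos ht 2)
    rw [← sg_sq a b ht]; exact SS_le a b ht
  have h5 := split_int a b b m ht (π / (2 * b + 1))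
  have h6 := Phi_ge a b m ht
  refine ⟨_, hσ, hσ2, ?_⟩
  suffices -(0.18 * (Phi a b b m t / sg a b t)) ≤
      (∫ θ in (π / (2 * b + 1))..π, II a b b m (t + θ * Complex.I)).re by
    rw [← div_le_iff₀ hσ]
    calc _ ≤ 0.12 * Phi a b b m t / sg a b t := by gcongr
      _ ≤ _ := by rw [mul_div_assoc]; linarith
  by_cases h : 1.2 ≤ (a + b) * t
  · have := minor_int (m := m) ht hσ hP (C := 0) (by simp) fun θ a1 a2 =>
      minorB hb le_rfl hab ha' ht ht1 hY h (Or.inl ⟨rfl, ht2⟩) hσ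
        (by rw [← sg_sq a b ht]; exact SS_le' a b ht) a1 a2
    linarith [div_pos hP hσ]
  obtain ⟨τ, hτ⟩ : ∃ τ : ℝ, (a + b) * τ = 1.2 := ⟨1.2 / (a + b), by field_simp⟩
  have htτ : t ≤ τ := by nlinarith
  have hτ0 := ht.trans_le htτ
  have hτ1 : τ ≤ 0.006 := by rcases h4 with ⟨-, a1⟩ | ⟨a1, -, a2⟩ | a1 <;> nlinarith
  have hστ : sg a b t ^ 2 * τ ^ 2 ≤ b := by
    refine (mul_le_mul_of_nonneg_right hσ2 (sq_nonneg _)).trans ?_
    have a1 : a * τ ≤ 1.2 := by nlinarith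
    have a2 : a * τ * (1.2 + 2 * τ) / 3 ≤ 1 := by nlinarith
    calc _ = b * (a * τ * (1.2 + 2 * τ) / 3) := by rw [← hτ]; ring
      _ ≤ b * 1 := by gcongr
      _ = _ := mul_one _
  have hexp : ∀ x, t ≤ x → exp ((m - a * b) * x) ≤ exp ((m - a * b) * t) := fun x hx =>
    exp_le_exp.2 (by nlinarith)
  have hL := LK_pos a b
  have h7 := minor_int (m := m) hτ0 hσ hP (C := a * b * (a + b + 2) / 3 * τ ^ 2)
    ((Phi_le a b m hτ0).trans (by
      rw [mul_right_comm]; gcongr; exact (mul_le_mul_of_nonneg_left (hexp τ htτ) hL.le).trans h6))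
    fun θ a1 a2 => minorA hb ha hab hτ0 hτ hσ hστ a1 a2
  obtain ⟨q, hq0, hq1, hq⟩ := horiz (m := m) hb ha' hab hτ1 hτ
  have h8 := intervalIntegral.norm_integral_le_of_norm_le_const (a := t) (b := τ)
    (f := fun x : ℝ => II a b b m (x + (π / (2 * b + 1) : ℝ) * Complex.I))
    (C := q * Phi a b b m t) fun x hx => by
      rw [Set.uIoc_of_le htτ] at hx
      refine (hq x (ht.trans hx.1) hx.2).trans ?_
      rw [mul_right_comm, mul_comm q]
      gcongr; exact (mul_le_mul_of_nonneg_left (hexp x hx.1.le) hL.le).trans h6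
  rw [abs_of_nonneg (sub_nonneg.2 htτ)] at h8
  have h9 := (abs_le.1 ((Complex.abs_im_le_norm _).trans h8)).1
  have h10 : q * τ * sg a b t ≤ 0.03 := le_of_sq_le_sq (by nlinarith [sq_nonneg q]) (by norm_num)
  have h11 : q * Phi a b b m t * (τ - t) ≤ 0.03 * (Phi a b b m t / sg a b t) := by
    rw [← mul_div_assoc, le_div_iff₀ hσ]
    nlinarith [mul_nonneg (mul_nonneg hq0 ht.le) (mul_pos hP hσ).le]
  rw [rect a b b m ht htτ]
  linarith

end Pool.Agent.Lib.MP_667609_co
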