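import Pool.Agent.Lib.MP_667609_co.Steps

/-! The contribution of the major arc. -/

open Finset Real

namespace Pool.Agent.Lib.MP_667609_co

theorem neg_le_re_div {a b n m : ℕ} {t θ B : ℝ} (ht : 0 < t) (h : exp (LL a b n t θ / 2) ≤ B) :
    -B ≤ (II a b n m (t + θ * Complex.I)).re / Phi a b n m t := by
  have h1 := Phi_pos a b n m ht
  have h2 := Complex.abs_re_le_norm (II a b n m (t + θ * Complex.I))
  rw [norm_II _ _ _ _ ht, abs_le] at h2
  rw [le_div_iff₀ h1]; nlinarith [h2.1]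

theorem major {a b n m : ℕ} (hn : n ≤ b) (hab : b ≤ a ∧ 50 ≤ a) {t σ : ℝ} (ht : 0 < t) (hσ : 0 < σ)
    (hS : SS a n t = σ ^ 2 * t ^ 2) {γ δ ε c : ℚ} {J J' N M : ℕ}
    (hγ : (0 : ℝ) ≤ γ) (hδ : (0 : ℝ) ≤ δ) (hγδ : (δ : ℝ) * (3 / 2) + γ * (3 / 2) ^ 3 / 6 ≤ 3 / 2)
    (hε : (0 : ℝ) ≤ ε) (hε' : (ε : ℝ) * (J / 20) ^ 2 < 64) (hc : (0 : ℝ) < c) (hM : 0 < M)
    (hJ : 30 ≤ J) (hJ' : J ≤ J') (hN : 0 < N)
    (h1 : ∀ θ : ℝ, 0 ≤ θ → θ ≤ 3 / 2 / σ →
      ‖∑ i ∈ range b, (ss a i : ℂ) ^ 3 * E3 (ss a i * (t + θ * Complex.I)) -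
      ∑ i ∈ range n, (uu i : ℂ) ^ 3 * E3 (uu i * (t + θ * Complex.I))‖ ≤ γ * σ ^ 3)
    (h2 : |m - mu a b n t| ≤ δ * σ) (h3 : J / 20 * (2 * n + 1 : ℝ) ≤ 2 * σ)
    (h4 : ∀ i < n, (hh (uu i * t) - hh (ss a i * t)) * (2 * N) ≤ SS a n t)
    (h5 : ∑ i ∈ Ico n b, hh (ss a i * t) ≤ ε * SS a n t)
    (h6 : ∀ θ, 0 < θ → θ ≤ π / (2 * n + 1) →
      LL a b n t θ ≤ -(2 * (M + 1) * log (1 + c * (σ * θ) ^ 2))) :
    marg γ δ ε c J J' N M * (Phi a b n m t / σ) ≤
      (∫ θ in (0 : ℝ)..(π / (2 * n + 1)), II a b n m (t + θ * Complex.I)).re := by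
  have hP := Phi_pos a b n m ht
  have hU : (0 : ℝ) < 2 * n + 1 := by positivity
  have hN' : (0 : ℝ) < N := by exact_mod_cast hN
  have hJ1 : (30 : ℝ) ≤ J := by exact_mod_cast hJ
  have hcont := Complex.continuous_re.comp (II_cont a b n m ht)
  have h := zones12 (F := fun x => (II a b n m (t + (x / σ : ℝ) * Complex.I)).re / Phi a b n m t)
    ((hcont.comp (continuous_id.div_const σ)).div_const _) (xm := π / (2 * n + 1) * σ) (N := N)
    hγ hδ hγδ hε hε' hc hM hJ hJ'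
    (by rw [div_mul_eq_mul_div, le_div_iff₀ hU]; nlinarith [pi_gt_three])
    (fun x hx0 hx => by
      have e1 : (δ : ℝ) * σ * (x / σ) + γ * σ ^ 3 * (x / σ) ^ 3 / 6 = δ * x + γ * x ^ 3 / 6 := by
        field_simp
      have e2 : -(SS a n t / t ^ 2 * (x / σ) ^ 2 / 2) - γ * σ ^ 3 * (x / σ) ^ 3 / 6 =
          -(x ^ 2 / 2) - γ * x ^ 3 / 6 := by rw [hS]; field_simp
      have := zone1 (m := m) hn ht h1 h2 (θ := x / σ) (by positivity) (by gcongr) (by
        have : (δ : ℝ) * x + γ * x ^ 3 / 6 ≤ δ * (3 / 2) + γ * (3 / 2) ^ 3 / 6 := by gcongr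
        rw [e1]; linarith [pi_gt_three])
      rw [e1, e2] at this
      rw [le_div_iff₀ hP]; linarith)
    (fun x z hx0 hx hz => by
      have hz0 : 0 ≤ z := by
        by_contra h0
        nlinarith [mul_pos (show 0 < -z by linarith) (show (0 : ℝ) < (J / 20) ^ 2 by positivity)]
      have hk : 0 < kap z := mul_pos (by linarith) (pow_pos (by linarith) 2)
      have e : (x / σ) ^ 2 / t ^ 2 * SS a n t = x ^ 2 := by rw [hS]; field_simp
      have hz2 := zone2 hn hab ht (θ := x / σ) (by positivity) hk.le (kOK_kap (z := z) (by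
          have a1 : (J / 20 * (2 * n + 1 : ℝ)) ^ 2 ≤ (2 * σ) ^ 2 := by gcongr
          have a2 : (0 : ℝ) < (J / 20) ^ 2 := by positivity
          refine le_of_mul_le_mul_right ?_ a2
          calc _ = (J / 20 * (2 * n + 1 : ℝ)) ^ 2 * x ^ 2 / (2 * σ) ^ 2 := by field_simp
            _ ≤ (2 * σ) ^ 2 * x ^ 2 / (2 * σ) ^ 2 := by gcongr
            _ = x ^ 2 := by field_simp
            _ ≤ _ := hx) hz le_rfl) (M := kap z * x ^ 2 / (2 * N)) (by positivity) fun i hi => by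
        rw [le_div_iff₀ (by positivity), ← e, mul_assoc, mul_assoc]
        gcongr; exact h4 i hi
      have e3 : kap z * ((x / σ) ^ 2 / t ^ 2) * SS a n t / (kap z * x ^ 2 / (2 * N)) = 2 * N := by
        rw [mul_assoc, e]; field_simp
      have a3 : (x / σ) ^ 2 / t ^ 2 * ∑ i ∈ Ico n b, hh (ss a i * t) ≤ ε * x ^ 2 := by
        rw [← e, mul_left_comm]; gcongr
      rw [e3] at hz2
      refine neg_le_re_div ht ?_
      have a4 : 0 < 1 + kap z * x ^ 2 / (2 * N) := by positivity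
      rw [← exp_log (pow_pos a4 N), ← exp_sub, log_pow]
      exact exp_le_exp.2 (by linarith))
    (fun x hx0 hx => by
      refine neg_le_re_div ht ?_
      have := h6 (x / σ) (by positivity) (by rwa [div_le_iff₀ hσ])
      rw [mul_div_cancel₀ _ hσ.ne'] at this
      have a4 : 0 < 1 + c * x ^ 2 := by positivity
      rw [← exp_log (pow_pos a4 (M + 1)), one_div, ← exp_neg, log_pow]
      exact exp_le_exp.2 (by push_cast; linarith))
  rw [intervalIntegral.integral_div, intervalIntegral.integral_comp_div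
    (fun θ : ℝ => (II a b n m (t + θ * Complex.I)).re) hσ.ne', zero_div,
    mul_div_cancel_right₀ _ hσ.ne', smul_eq_mul, le_div_iff₀ hP] at h
  rw [← Complex.reCLM_apply, ← Complex.reCLM.intervalIntegral_comp_comm
    ((II_cont a b n m ht).intervalIntegrable _ _), ← mul_div_assoc, div_le_iff₀ hσ, mul_comm _ σ]
  exact h

theorem sum_uu (n : ℕ) : ∑ i ∈ range n, uu i = n * (n + 2) := by
  induction n with
  | zero => simp
  | succ n ih => rw [sum_range_succ, ih, uu]; push_cast; ring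

theorem sum_uu_sq (n : ℕ) : ∑ i ∈ range n, uu i ^ 2 = (n + 1) * (2 * n + 1) * (2 * n + 3) / 3 - 1 := by
  induction n with
  | zero => norm_num
  | succ n ih => rw [sum_range_succ, ih, uu]; push_cast; ring

theorem sum_ss (a n : ℕ) : ∑ i ∈ range n, ss a i = n * (2 * a + n + 2) := by
  induction n with
  | zero => simp
  | succ n ih => rw [sum_range_succ, ih, ss]; push_cast; ring

theorem tanh_ge_of {y c : ℝ} (hy : 0 < y) (h : c ^ 2 ≤ 1 - 1 / (1 + y ^ 2 / 2 + y ^ 4 / 24) ^ 2) :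
    c ≤ tanh y := by
  refine le_of_sq_le_sq (h.trans ?_) (tanh_pos' hy).le
  rw [tanh_sq]
  have := cosh_ge_poly y
  gcongr

theorem norm_sE3 {s t : ℝ} (hs : 0 < s) (ht : 0 < t) (θ : ℝ) :
    ‖(s : ℂ) ^ 3 * E3 (s * (t + θ * Complex.I))‖ * t ^ 3 ≤ hh (s * t) * (2 + (s * t) ^ 2 / 6) := by
  have h := norm_E3_le (z := s * (t + θ * Complex.I)) (re_mul_pos hs (by simpa using ht))
  rw [show ((s : ℂ) * (t + θ * Complex.I)).re = s * t by simp] at h
  rw [norm_mul, norm_pow, Complex.norm_real, norm_of_nonneg hs.le]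
  linarith [mul_pow s t 3]

theorem hh_ge' {x : ℝ} (hx : 0 < x) (h : x ^ 2 ≤ 24) : (1 - x ^ 2 / 24) ^ 2 ≤ hh x := by
  have h1 := sinh_le_mul_exp (half_pos hx).le
  have h2 := sinh_pos' (half_pos hx)
  have h3 := add_one_le_exp (-(x ^ 2 / 24))
  have h4 : exp ((x / 2) ^ 2 / 6) * exp (-(x ^ 2 / 24)) = 1 := by
    rw [← exp_add, exp_eq_one_iff]; ring
  rw [hh, ← div_pow]
  refine pow_le_pow_left₀ (by linarith) ?_ 2
  rw [le_div_iff₀ h2]
  calc _ ≤ exp (-(x ^ 2 / 24)) * (x / 2 * exp ((x / 2) ^ 2 / 6)) :=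
        mul_le_mul (by linarith) h1 h2.le (exp_pos _).le
    _ = x / 2 := by linear_combination x / 2 * h4

theorem vhat_eq {x : ℝ} (y : ℝ) (hx : 0 < x) :
    hh y - hh x - hh y * tanh (x / 4) ^ 2 = (hh y - hh (x / 2)) * (1 - tanh (x / 4) ^ 2) := by
  have h3 := cosh_pos (x / 4)
  rw [← hh_half hx, tanh_sq]
  field_simp
  ring

theorem pair_Q {s u t θ : ℝ} (hu : 0 < u) (hs : 1.996 * u ≤ s) (ht : 0 < t) (hθ : 0 ≤ θ)
    (hY : u * t ≤ 5 / 2) (hξ : s * t ≤ 4.2 → s * θ ≤ 2) :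
    ‖(s : ℂ) ^ 3 * E3 (s * (t + θ * Complex.I)) - (u : ℂ) ^ 3 * E3 (u * (t + θ * Complex.I))‖ *
      t ^ 3 ≤ 10.6 * (hh (u * t) * tanh (s * t / 4) ^ 3) := by
  have hs0 : 0 < s := by linarith
  have hX := mul_pos hs0 ht
  have hY0 := mul_pos hu ht
  have hXY : 1.996 * (u * t) ≤ s * t := by nlinarith
  have hth : 0.7812 ≤ tanh 1.05 := tanh_ge_of (by norm_num) (by norm_num)
  have hp := hh_pos hY0
  by_cases h : s * t ≤ 4.2
  · have hw : (t + θ * Complex.I : ℂ) ≠ 0 := fun h0 => by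
      have := congrArg Complex.re h0; simp at this; linarith
    have key : ∀ v : ℝ, 0 < v → v * θ ≤ 2 → ‖(v : ℂ) ^ 3 * E3 (v * (t + θ * Complex.I)) -
        2 / (t + θ * Complex.I) ^ 3‖ ≤ v ^ 3 * 0.0383 := by
      intro v hv h2
      have := E3_cancel (z := v * (t + θ * Complex.I)) (re_mul_pos hv (by simpa using ht))
        (by simpa [abs_of_nonneg hθ, abs_of_pos hv] using h2)
      have hv' : (v : ℂ) ≠ 0 := by exact_mod_cast hv.ne'
      rw [show (v : ℂ) ^ 3 * E3 (v * (t + θ * Complex.I)) - 2 / (t + θ * Complex.I) ^ 3 =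
        v ^ 3 * (E3 (v * (t + θ * Complex.I)) - 2 / (v * (t + θ * Complex.I)) ^ 3) by field_simp,
        norm_mul, norm_pow, Complex.norm_real, norm_of_nonneg hv.le]
      gcongr
    have h1 := norm_sub_le_of_le (key s hs0 (hξ h)) (key u hu (by nlinarith [hξ h]))
    rw [sub_sub_sub_cancel_right] at h1
    have h2 := tanh_div_le (y := s * t / 4) (x := 1.05) (by positivity) (by linarith)
    have h3 : (0.186 * (s * t)) ^ 3 ≤ tanh (s * t / 4) ^ 3 := by gcongr; nlinarith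
    have h4 : 0.66 ≤ hh (u * t) := by
      have a1 : (u * t) ^ 2 ≤ 4.43 := by nlinarith
      have a2 : (0.815 : ℝ) ^ 2 ≤ (1 - (u * t) ^ 2 / 24) ^ 2 := by gcongr; linarith
      linarith [hh_ge' hY0 (by linarith)]
    have h5 : (u * t) ^ 3 ≤ (0.502 * (s * t)) ^ 3 := pow_le_pow_left₀ hY0.le (by linarith) 3
    calc _ ≤ (s ^ 3 * 0.0383 + u ^ 3 * 0.0383) * t ^ 3 := by gcongr
      _ = 0.0383 * ((s * t) ^ 3 + (u * t) ^ 3) := by ring
      _ ≤ 10.6 * (0.66 * (0.186 * (s * t)) ^ 3) := by nlinarith [pow_pos hX 3]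
      _ ≤ _ := by gcongr
  · have h1 := norm_sE3 hs0 ht θ
    have h2 := norm_sE3 hu ht θ
    have h3 := tanh_mono (y := 1.05) (x := s * t / 4) (by norm_num) (by linarith)
    have h4 : (0.7812 : ℝ) ^ 3 ≤ tanh (s * t / 4) ^ 3 := by gcongr; linarith
    have h5 := hh_half hX
    have h6 : hh (s * t / 2) ≤ 1.005 * hh (u * t) := by
      have a1 := hh_anti (show 0 < 0.998 * (u * t) by positivity)
        (show 0.998 * (u * t) ≤ s * t / 2 by linarith)
      have a2 := hh_sub_le (show 0 < 0.998 * (u * t) by positivity)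
        (show 0.998 * (u * t) ≤ u * t by linarith)
      have a3 : (u * t) ^ 2 ≤ (5 / 2) ^ 2 := by gcongr
      nlinarith [hh_ge hY0]
    have h7 : 1 + (s * t) ^ 2 / 12 ≤ cosh (s * t / 4) ^ 2 := by
      have a1 := sinh_ge_poly (y := s * t / 4) (by positivity)
      have a2 : 1.18 * (s * t / 4) ≤ sinh (s * t / 4) := by
        generalize s * t = X at *
        nlinarith [pow_pos hX 5, pow_pos hX 7, mul_pos hX (show 0 < X ^ 2 - 17.6 by nlinarith)]
      have a3 : (1.18 * (s * t / 4)) ^ 2 ≤ sinh (s * t / 4) ^ 2 := by gcongr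
      nlinarith [cosh_sq (s * t / 4)]
    have h8 : hh (s * t) * (1 + (s * t) ^ 2 / 12) ≤ hh (s * t) * cosh (s * t / 4) ^ 2 := by
      have := hh_pos hX; gcongr
    have h9 : hh (u * t) * (u * t) ^ 2 ≤ hh (u * t) * (5 / 2) ^ 2 := by gcongr
    have h10 : hh (u * t) * 0.7812 ^ 3 ≤ hh (u * t) * tanh (s * t / 4) ^ 3 := by gcongr
    have h11 := mul_le_mul_of_nonneg_right (norm_sub_le ((s : ℂ) ^ 3 * E3 (s * (t + θ * Complex.I)))
      ((u : ℂ) ^ 3 * E3 (u * (t + θ * Complex.I)))) (pow_pos ht 3).le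
    linarith

end Pool.Agent.Lib.MP_667609_co
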