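import Pool.Agent.Lib.MP_667609_co.Major
import Pool.Agent.Lib.MP_667609_co.Bonf

/-! The two regimes for the major arc. -/

open Finset Real

namespace Pool.Agent.Lib.MP_667609_co

noncomputable def sg (a n : ℕ) (t : ℝ) : ℝ := √(SS a n t) / t

theorem uu_le_ss (a i : ℕ) : uu i ≤ ss a i := by
  unfold uu ss; linarith [Nat.cast_nonneg (α := ℝ) a]

theorem SS_nonneg (a n : ℕ) {t : ℝ} (ht : 0 < t) : 0 ≤ SS a n t :=
  sum_nonneg fun i _ => sub_nonneg.2 (hh_anti (mul_pos (uu_pos i) ht) (by gcongr; exact uu_le_ss a i))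

theorem sg_sq (a n : ℕ) {t : ℝ} (ht : 0 < t) : SS a n t = sg a n t ^ 2 * t ^ 2 := by
  rw [sg, div_pow, sq_sqrt (SS_nonneg a n ht)]; field_simp

theorem a0_cases {a b : ℕ} (ha : a0 b ≤ a) (hab : b ≤ a) : (b : ℝ) ≤ a ∧ (150 : ℝ) ≤ a ∧
    (((b : ℝ) ≤ 40 ∧ (350 : ℝ) ≤ a) ∨ (41 ≤ (b : ℝ) ∧ (b : ℝ) ≤ 60 ∧ (200 : ℝ) ≤ a) ∨ 61 ≤ (b : ℝ)) := by
  unfold a0 at ha
  have : b ≤ a ∧ 150 ≤ a ∧ ((b ≤ 40 ∧ 350 ≤ a) ∨ (41 ≤ b ∧ b ≤ 60 ∧ 200 ≤ a) ∨ 61 ≤ b) := by
    split_ifs at ha <;> omega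
  exact_mod_cast this

theorem Xi_ge {a b : ℕ} (hb : 22 ≤ b) (ha : a0 b ≤ a) (hab : b ≤ a) {t : ℝ} (ht : 0 < t)
    (ht1 : t ≤ 0.015) (hY : (2 * b + 1) * t ≤ 5 / 2) :
    18.8 ≤ ∑ i ∈ range b, hh (uu i * t) * (ss a i / (2 * a + 2 * b + 1)) ^ 2 := by
  obtain ⟨h1, -, h2⟩ := a0_cases ha hab
  have hb' : (22 : ℝ) ≤ b := by exact_mod_cast hb
  set w : ℝ := 2 * a + 2 * b + 1 with hw
  have hw0 : 0 < w := by positivity
  have h3 : ∑ i ∈ range b, (2 / w * ss a i - 1 - t ^ 2 / 12 * uu i ^ 2) ≤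
      ∑ i ∈ range b, hh (uu i * t) * (ss a i / w) ^ 2 := by
    refine sum_le_sum fun i hi => ?_
    have hi' : (i : ℝ) + 1 ≤ b := by exact_mod_cast mem_range.1 hi
    have a1 : ss a i / w ≤ 1 := by rw [div_le_one hw0, ss]; linarith
    have a2 : 0 < ss a i / w := div_pos (ss_pos a i) hw0
    have a3 := hh_ge (mul_pos (uu_pos i) ht)
    rw [show 2 / w * ss a i = 2 * (ss a i / w) by ring]
    generalize ss a i / w = r at *
    have a4 : (uu i * t) ^ 2 * r ^ 2 ≤ (uu i * t) ^ 2 * 1 := by gcongr; nlinarith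
    nlinarith [mul_le_mul_of_nonneg_right a3 (sq_nonneg r), sq_nonneg (r - 1)]
  refine le_trans ?_ h3
  rw [sum_sub_distrib, sum_sub_distrib, ← mul_sum, ← mul_sum, sum_ss, sum_uu_sq, sum_const,
    card_range, nsmul_eq_mul, mul_one,
    show 2 / w * (b * (2 * a + b + 2)) = 2 * b - 2 * b * ((b - 1) / w) by rw [hw]; field_simp; ring]
  have h4 : t ^ 2 / 12 * ((b + 1) * (2 * b + 1) * (2 * b + 3) / 3 - 1) ≤
      ((2 * b + 1) * t) ^ 2 * (b + 2.1) / 36 := by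
    rw [mul_pow]
    nlinarith [mul_pos (pow_pos ht 2) (show (0 : ℝ) < b ^ 2 - 2 * b by nlinarith), pow_pos ht 2]
  have h5 : ∀ c : ℝ, b - 1 ≤ c * w → 2 * b * ((b - 1) / w) ≤ 2 * b * c := fun c hc => by
    gcongr; rwa [div_le_iff₀ hw0]
  have h6 : ∀ c : ℝ, (2 * b + 1) * t ≤ c →
      ((2 * b + 1) * t) ^ 2 * (b + 2.1) / 36 ≤ c ^ 2 * (b + 2.1) / 36 := fun c hc => by gcongr
  rcases h2 with ⟨a1, a2⟩ | ⟨a1, a2, a3⟩ | a1
  · linarith [h5 0.05 (by linarith), h6 1.215 (by nlinarith)]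
  · linarith [h5 0.125 (by linarith), h6 _ hY]
  · linarith [h5 0.25 (by linarith), h6 _ hY]

theorem S_ends {A t : ℝ} (hA : 150 ≤ A) (ht : 0 < t) (hY : (2 * A + 1) * t ≤ 5 / 2) :
    hh (3 * t) * tanh ((2 * A + 3) * t / 4) ^ 2 +
      hh ((2 * A + 1) * t) * tanh ((4 * A + 1) * t / 4) ^ 2 ≤
    hh (3 * t) - hh ((2 * A + 3) * t) + (hh ((2 * A + 1) * t) - hh ((4 * A + 1) * t)) := by
  have h1 := vhat_eq (x := (2 * A + 3) * t) (3 * t) (by positivity)
  have h2 := vhat_eq (x := (4 * A + 1) * t) ((2 * A + 1) * t) (by positivity)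
  have ht1 : t ≤ 0.0084 := by nlinarith
  have ht2 := pow_pos ht 2
  have h3 := hh_sub_le (y := (4 * A + 1) * t / 2) (x := (2 * A + 1) * t) (by positivity)
    (by nlinarith)
  have h4 := hh_anti (y := (4 * A + 1) * t / 2) (x := (2 * A + 1) * t) (by positivity)
    (by nlinarith)
  have h5 : hh ((4 * A + 1) * t / 2) - hh ((2 * A + 1) * t) ≤ (2 * A + 1) / 12 * t ^ 2 := by
    nlinarith
  have h6 := hh_ge (x := 3 * t) (by positivity)
  obtain ⟨x, hx⟩ : ∃ x, x = (2 * A + 3) * t / 2 := ⟨_, rfl⟩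
  have hx0 : 0 < x := by rw [hx]; positivity
  have hx1 : x ≤ 1.26 := by rw [hx]; linarith
  have h7 : hh x ≤ 1 - x ^ 2 / 14 := by
    have a1 := hh_le hx0
    have a2 := hh_pos hx0
    have a3 : hh x * (1 + x ^ 2 / 12) ≤ 1 := by
      nlinarith [mul_pos a2 (pow_pos hx0 4), mul_pos a2 (pow_pos hx0 6)]
    have a4 : x ^ 2 ≤ 2 := by nlinarith
    refine le_of_mul_le_mul_right (a3.trans ?_) (show 0 < 1 + x ^ 2 / 12 by positivity)
    nlinarith [sq_nonneg x]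
  have h8 : tanh ((2 * A + 3) * t / 4) ^ 2 ≤ 0.4 := by
    rw [show (2 * A + 3) * t / 4 = x / 2 by rw [hx]; ring]
    have a1 : tanh (x / 2) ≤ x / 2 := by
      rw [tanh_eq_sinh_div_cosh, div_le_iff₀ (cosh_pos _)]
      exact sinh_le_mul_cosh (by positivity)
    nlinarith [tanh_pos' (half_pos hx0)]
  have h9 : (2 * A + 1) / 6 * t ^ 2 ≤ hh (3 * t) - hh x := by
    have a1 : x ^ 2 = (2 * A + 3) ^ 2 / 4 * t ^ 2 := by rw [hx]; ring
    have a2 : (2 * A + 1) / 6 + 3 / 4 ≤ (2 * A + 3) ^ 2 / 56 := by nlinarith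
    nlinarith [mul_le_mul_of_nonneg_right a2 ht2.le]
  rw [← hx] at h1
  have h10 : 0 ≤ (2 * A + 1) / 12 * t ^ 2 := by positivity
  nlinarith [mul_nonneg (sub_nonneg.2 h4) (sq_nonneg (tanh ((4 * A + 1) * t / 4))),
    mul_le_mul_of_nonneg_left h8 (show 0 ≤ hh (3 * t) - hh x by linarith)]

theorem S_le {a b : ℕ} (ha : (150 : ℝ) ≤ a) (hab : b ≤ a) {t : ℝ} (ht : 0 < t)
    (hY : (2 * b + 1) * t ≤ 5 / 2) :
    ∑ i ∈ range b, hh (uu i * t) * tanh (ss a i * t / 4) ^ 2 ≤ SS a b t := by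
  have h0 : ∀ i : ℕ, i + 2 ≤ a →
      hh (uu i * t) * tanh (ss a i * t / 4) ^ 2 ≤ hh (uu i * t) - hh (ss a i * t) := fun i hi =>
    vhat_ge (mul_pos (uu_pos i) ht) (by
      have : (i : ℝ) + 2 ≤ a := by exact_mod_cast hi
      unfold uu ss; nlinarith)
  rcases hab.lt_or_eq with h | rfl
  · exact sum_le_sum fun i hi => h0 i (by have := mem_range.1 hi; omega)
  obtain ⟨c, rfl⟩ : ∃ c, b = c + 1 + 1 := ⟨b - 2, by
    have : 150 ≤ b := by exact_mod_cast ha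
    omega⟩
  rw [SS, sum_range_succ _ (c + 1), sum_range_succ _ (c + 1), sum_range_succ' _ c,
    sum_range_succ' _ c]
  have h1 := sum_le_sum fun i (hi : i ∈ range c) => h0 (i + 1) (by have := mem_range.1 hi; omega)
  have h2 := S_ends ha ht hY
  have e1 : uu 0 = 3 := by simp [uu]
  have e2 : ss (c + 1 + 1) 0 = 2 * (c + 1 + 1 : ℕ) + 3 := by simp [ss]
  have e3 : uu (c + 1) = 2 * (c + 1 + 1 : ℕ) + 1 := by unfold uu; push_cast; ring
  have e4 : ss (c + 1 + 1) (c + 1) = 4 * (c + 1 + 1 : ℕ) + 1 := by unfold ss; push_cast; ring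
  rw [e1, e2, e3, e4]
  linarith

theorem majorQ {a b m : ℕ} (hb : 22 ≤ b) (ha : a0 b ≤ a) (hab : b ≤ a) {t : ℝ} (ht : 0 < t)
    (ht1 : t ≤ 0.015) (hY : (2 * b + 1) * t ≤ 5 / 2) (hμ : |m - mu a b b t| ≤ 1 / 2) :
    0 < sg a b t ∧ 0.3 * (Phi a b b m t / sg a b t) ≤
      (∫ θ in (0 : ℝ)..(π / (2 * b + 1)), II a b b m (t + θ * Complex.I)).re := by
  have hΞ := Xi_ge hb ha hab ht ht1 hY
  have h1 : (b : ℝ) ≤ a := (a0_cases ha hab).1
  have h150 : (150 : ℝ) ≤ a := (a0_cases ha hab).2.1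
  have hab5 : b ≤ a ∧ 50 ≤ a := ⟨hab, by exact_mod_cast (by linarith : (50 : ℝ) ≤ a)⟩
  have hb' : (22 : ℝ) ≤ b := by exact_mod_cast hb
  set w : ℝ := 2 * a + 2 * b + 1 with hw
  have hw0 : 0 < w := by positivity
  set ω := tanh (w * t / 4) with hω
  have hω0 : 0 < ω := tanh_pos' (by positivity)
  have hi1 : ∀ i < b, 1.996 * uu i ≤ ss a i ∧ ss a i ≤ w ∧ uu i * t ≤ 5 / 2 := fun i hi => by
    have hi' : (i : ℝ) + 1 ≤ b := by exact_mod_cast hi
    unfold uu ss; refine ⟨by linarith, by linarith, by nlinarith⟩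
  have hX : ∀ i, 0 < ss a i * t / 4 := fun i => by have := ss_pos a i; positivity
  have hi2 : ∀ i < b, tanh (ss a i * t / 4) ≤ ω := fun i hi =>
    tanh_mono (hX i) (by gcongr; exact (hi1 i hi).2.1)
  set S' := ∑ i ∈ range b, hh (uu i * t) * tanh (ss a i * t / 4) ^ 2 with hS'
  have hS1 : S' ≤ SS a b t := S_le h150 hab ht hY
  have hS2 : 18.8 * ω ^ 2 ≤ S' := by
    refine (mul_le_mul_of_nonneg_right hΞ (sq_nonneg ω)).trans ?_
    rw [sum_mul]
    refine sum_le_sum fun i hi => ?_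
    have a1 := tanh_div_le (hX i) (x := w * t / 4) (by gcongr; exact (hi1 i (mem_range.1 hi)).2.1)
    have a2 := hh_pos (mul_pos (uu_pos i) ht)
    have a3 := ss_pos a i
    rw [mul_assoc, ← mul_pow]
    gcongr
    rw [div_mul_eq_mul_div, div_le_iff₀ hw0]
    nlinarith
  have hsq := sg_sq a b ht
  set σ := sg a b t
  have hσ0 : 0 ≤ σ := by unfold σ sg; positivity
  have hr : 4.335 * ω ≤ σ * t := le_of_sq_le_sq (by nlinarith) (by positivity)
  have hσ : 0 < σ := by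
    by_contra h; rw [le_antisymm (not_lt.1 h) hσ0] at hr; linarith
  have h3 : 2.9 * (2 * b + 1 : ℝ) ≤ 2 * σ := by
    have a1 : 0.84 ≤ tanh 1.25 := tanh_ge_of (by norm_num) (by norm_num)
    have a0 : 0 < 0.499 * ((2 * b + 1) * t) := by positivity
    have a2 := tanh_div_le a0 (x := 1.25) (by linarith)
    have a3 := tanh_mono a0 (x := w * t / 4) (by nlinarith)
    refine le_of_mul_le_mul_right ?_ ht
    nlinarith
  refine ⟨hσ, le_trans ?_ (major (γ := 2.45) (δ := 0.01) (ε := 0) (c := 0.405 / 14) (J := 58)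
    (J' := 120) (N := 7) (M := 6) le_rfl hab5 ht hσ hsq (by norm_num) (by norm_num) (by norm_num)
    (by norm_num) (by norm_num) (by norm_num) (by norm_num) (by norm_num) (by norm_num)
    (by norm_num) (fun θ h0 hθ => ?_) (hμ.trans (by push_cast; linarith))
    (by push_cast; linarith) (fun i hi => ?_) (by simp) fun θ h0 hθ => ?_)⟩
  · have := Phi_pos a b b m ht
    gcongr
    exact le_trans (by norm_num) (Rat.cast_le.2 margQ)
  · rw [← sum_sub_distrib]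
    refine (norm_sum_le _ _).trans (le_of_mul_le_mul_right ?_ (pow_pos ht 3))
    rw [sum_mul]
    rw [le_div_iff₀ hσ] at hθ
    have hth : 0.78 ≤ tanh 1.05 := tanh_ge_of (by norm_num) (by norm_num)
    calc _ ≤ ∑ i ∈ range b, 10.6 * ω * (hh (uu i * t) * tanh (ss a i * t / 4) ^ 2) := by
          refine sum_le_sum fun i hi => ?_
          obtain ⟨a1, -, a3⟩ := hi1 i (mem_range.1 hi)
          have a4 := hi2 i (mem_range.1 hi)
          refine (pair_Q (uu_pos i) a1 ht h0 a3 fun a5 => ?_).trans ?_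
          · have a6 := tanh_div_le (hX i) (x := 1.05) (by linarith)
            have a7 : 0.75 * ss a i ≤ σ := by
              refine le_of_mul_le_mul_right ?_ ht
              nlinarith [hX i]
            nlinarith
          · have a6 := hh_pos (mul_pos (uu_pos i) ht)
            nlinarith [mul_le_mul_of_nonneg_left a4 (mul_nonneg a6.le
              (sq_nonneg (tanh (ss a i * t / 4))))]
      _ = 10.6 * ω * S' := by rw [← mul_sum]
      _ ≤ 2.45 * (σ * t) * (σ ^ 2 * t ^ 2) :=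
          mul_le_mul (by linarith) (by linarith) (by nlinarith) (by positivity)
      _ = _ := by push_cast; ring
  · have a1 := vhat_le (mul_pos (uu_pos i) ht) (mul_pos (ss_pos a i) ht)
    have a2 : tanh (ss a i * t / 4) ^ 2 ≤ ω ^ 2 := by
      have := (tanh_pos' (hX i)).le; gcongr; exact hi2 i hi
    push_cast; nlinarith
  · have hU : (0 : ℝ) < 2 * b + 1 := by positivity
    rw [le_div_iff₀ hU] at hθ
    have e : θ ^ 2 / t ^ 2 * SS a b t = (σ * θ) ^ 2 := by rw [hsq]; field_simp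
    have := zone2 le_rfl hab5 ht h0 (k := 0.405) (by norm_num)
      (fun p P a1 a2 => kOK_half p P a1 (by linarith)) (M := 0.405 / 14 * (σ * θ) ^ 2)
      (by positivity) fun i hi => by
        have a1 := vhat_le (mul_pos (uu_pos i) ht) (mul_pos (ss_pos a i) ht)
        have a2 : tanh (ss a i * t / 4) ^ 2 ≤ ω ^ 2 := by
          have := (tanh_pos' (hX i)).le; gcongr; exact hi2 i hi
        have a3 : hh (uu i * t) - hh (ss a i * t) ≤ SS a b t / 14 := by nlinarith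
        rw [← e]
        exact (mul_le_mul_of_nonneg_left a3 (by positivity)).trans (le_of_eq (by ring))
    rw [mul_assoc _ _ (SS a b t), e, show 0.405 * (σ * θ) ^ 2 / (0.405 / 14 * (σ * θ) ^ 2) = 14 by
      field_simp] at this
    push_cast
    simpa [show (2 : ℝ) * (6 + 1) = 14 by norm_num] using this

end Pool.Agent.Lib.MP_667609_co
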