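import Pool.Agent.Lib.MP_667609_co.Zone3
import Mathlib.Analysis.Complex.ExponentialBounds

/-! Numerical form of the minor arc bounds. -/

open Finset Real

namespace Pool.Agent.Lib.MP_667609_co

noncomputable def Nn (a b : ℕ) (t : ℝ) : ℝ := (1 - exp (-(2 * b * t))) / (t * sinh (2 * a * t))

theorem log_tan {x c : ℝ} (hx : 0 < x) (hc : 0 < c) : log x ≤ log c + x / c - 1 := by
  have := log_le_sub_one_of_pos (div_pos hx hc)
  rw [log_div hx.ne' hc.ne'] at this; linarith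

theorem log_tan2 {x : ℝ} (hx : 0 < x) (k : ℕ) : log x ≤ k * 0.6932 + x / 2 ^ k - 1 := by
  have := log_tan hx (c := 2 ^ k) (by positivity)
  rw [log_pow] at this
  nlinarith [log_two_lt_d9, Nat.cast_nonneg (α := ℝ) k]

theorem log_tan3 {x : ℝ} (hx : 0 < x) (k : ℕ) : k * 0.6931 + 1 - x * 2 ^ k / 2 ≤ log (2 / x) := by
  have := log_tan (half_pos hx) (c := (2 ^ k)⁻¹) (by positivity)
  rw [log_inv, log_pow, div_inv_eq_mul, ← inv_div 2 x, log_inv, inv_div] at this
  nlinarith [log_two_gt_d9, Nat.cast_nonneg (α := ℝ) k]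

theorem z3_common {a b n : ℕ} (ha : 0 < a) (hn : 0 < n) {t σ θ loss : ℝ} (ht : 0 < t)
    (hY : (2 * n + 1) * t ≤ 5 / 2) (hσ : 0 < σ) (hσ' : σ ^ 2 * t ^ 2 ≤ n)
    (h : (∑ i ∈ range n, WW (uu i * t)) / 2 - loss ≤
      ∑ i ∈ range n, log (fac (uu i * t) (uu i * θ))) :
    LL a b n t θ + 2 * log σ ≤ Nn a b t - n * (log (2 / ((2 * n + 1) * t)) + 1) -
      n * (2 * n * t) ^ 2 / 60 + 2 * log (2 * n + 1) - log 2 - 2 * log t + loss := by
  have h1 := numer_le ha b ht θ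
  have h2 := halfW_ge ht hY
  have h3 := log_le_log (by positivity) (hσ'.trans (show (n : ℝ) ≤ (2 * n + 1) / 2 by linarith))
  rw [log_mul (by positivity) (by positivity), log_pow, log_pow,
    log_div (by positivity) (by positivity)] at h3
  unfold LL Nn
  push_cast at h3
  linarith

theorem W1_le {t : ℝ} (ht : 0 < t) (ht1 : t ≤ 0.015) : WW (3 * t) ≤ -2 * log t - 0.799 := by
  have h1 := WW_le (x := 3 * t) (by positivity)
  have h2 := le_log_one_add_of_nonneg (x := 1 / 2) (by norm_num)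
  rw [show 2 / (3 * t) = ((1 + 1 / 2) * t)⁻¹ by field_simp; norm_num, log_inv,
    log_mul (by norm_num) ht.ne'] at h1
  norm_num at h1 h2 ⊢
  nlinarith

theorem log_U (n : ℕ) {t : ℝ} (ht : 0 < t) :
    log (2 / ((2 * n + 1) * t)) = log 2 - log (2 * n + 1) - log t := by
  rw [log_div (by positivity) (by positivity), log_mul (by positivity) ht.ne']; ring

theorem z3_small {a b n : ℕ} (ha : 0 < a) (hn : 22 ≤ n) {t σ θ C : ℝ} (ht : 0 < t)
    (ht1 : t ≤ 0.015) (hY : (2 * n + 1) * t ≤ 0.73) (hσ : 0 < σ) (hσ' : σ ^ 2 * t ^ 2 ≤ n)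
    (h0 : π / (2 * n + 1) ≤ θ) (h1 : θ ≤ π)
    (h : Nn a b t + C + 19.6 ≤ 0.818 * n + log (2 / ((2 * n + 1) * t)) * (0.6816 * n - 3.51)) :
    LL a b n t θ + 2 * log σ + C ≤ -6.1 := by
  have hn' : (22 : ℝ) ≤ n := by exact_mod_cast hn
  have hU : (0 : ℝ) < 2 * n + 1 := by positivity
  have hLU := log_U n ht
  set L := log (2 / ((2 * n + 1) * t)) with hL
  have hL1 : 1 ≤ L := by
    rw [hL, le_log_iff_exp_le (by positivity), le_div_iff₀ (by positivity)]
    nlinarith [exp_one_lt_d9, exp_pos 1]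
  have hW := W1_le ht ht1
  have hW0 := WW_nonneg (3 * t)
  have hK : (2 * n + 1) * (L + 0.0445) / (2 * π) ≤ 0.15916 * ((2 * n + 1) * (L + 0.0445)) := by
    rw [div_le_iff₀ (by positivity)]
    nlinarith [pi_gt_d4, mul_pos hU (show 0 < L + 0.0445 by linarith)]
  have hl : (∑ i ∈ range n, WW (uu i * t)) / 2 - (0.675 * WW (3 * t) + 0.15916 * ((2 * n + 1) *
      (L + 0.0445))) ≤ ∑ i ∈ range n, log (fac (uu i * t) (uu i * θ)) := by
    by_cases hθ : θ ≤ π / 2
    · refine le_trans ?_ (zone3_th ht h0 hθ (l := 4 / (2 * n + 1)) (by positivity) ?_)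
      · have : n * (4 / (2 * n + 1)) / 2 ≤ (1 : ℝ) := by
          rw [← mul_div_assoc, div_div, div_le_one (by positivity)]; linarith
        nlinarith
      · have a1 := WW_ge' (x := (2 * n + 5) * t) (by positivity)
        have a2 := log_tan (x := 2 / ((2 * n + 1) * t)) (c := 2 / ((2 * n + 5) * t))
          (by positivity) (by positivity)
        rw [show 2 / ((2 * n + 1) * t) / (2 / ((2 * n + 5) * t)) = 1 + 4 / (2 * n + 1 : ℝ) by
          field_simp; ring] at a2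
        linarith
    · refine le_trans (by linarith) (zone3_pi ht (not_le.1 hθ).le h1
        (K := (2 * n + 1) * (L + 0.0445)) (by positivity) fun i hi => ?_)
      have hi' : (i : ℝ) + 1 ≤ n := by exact_mod_cast hi
      have hu := uu_pos i
      have a0 : uu i ≤ 2 * n + 1 := by unfold uu; linarith
      have a1 := WW_le (mul_pos hu ht)
      have a2 := log_tan (x := 2 / (uu i * t)) (c := 2 / ((2 * n + 1) * t))
        (by positivity) (by positivity)
      have a3 : (uu i * t) ^ 2 ≤ 0.73 ^ 2 := by gcongr; nlinarith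
      have a4 : uu i * (2 / (uu i * t) / (2 / ((2 * n + 1) * t))) = 2 * n + 1 := by field_simp
      have a5 := mul_le_mul_of_nonneg_left (show WW (uu i * t) / 2 ≤ L + 2 / (uu i * t) /
        (2 / ((2 * n + 1) * t)) - 1 + 0.0445 by linarith) hu.le
      nlinarith
  have h2 := z3_common (b := b) ha (by omega) ht (by linarith) hσ hσ' hl
  have h3 := log_tan2 hU 6
  have h4 : 0 ≤ n * (2 * n * t) ^ 2 / 60 := by positivity
  rw [← hL] at h2
  norm_num at h3
  nlinarith [log_two_gt_d9]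

theorem yW_le {y : ℝ} (h0 : 0 < y) (h1 : y ≤ 5 / 2) : y * WW y / 2 ≤ 0.83 := by
  have a1 := mul_le_mul_of_nonneg_left (WW_le h0) h0.le
  have a2 : ∀ k : ℕ, y * log (2 / y) ≤ y * (k * 0.6932 - 1) + 2 / 2 ^ k := fun k => by
    refine (mul_le_mul_of_nonneg_left (log_tan2 (by positivity) k) h0.le).trans (le_of_eq ?_)
    field_simp; ring
  by_cases h : y ≤ 0.7
  · have := a2 2; norm_num at this; nlinarith
  by_cases h' : y ≤ 1.5
  · have := a2 1; norm_num at this
    nlinarith [mul_nonneg (show 0 ≤ y - 0.7 by linarith) (sub_nonneg.2 h')]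
  · have := a2 0; norm_num at this
    nlinarith [mul_nonneg (show 0 ≤ y - 1.5 by linarith) (sub_nonneg.2 h1)]

theorem z3_large {a b n : ℕ} (ha : 0 < a) (hn : 0 < n) {t σ θ C l x L : ℝ} (ht : 0 < t)
    (ht1 : t ≤ 0.015) (hY : (2 * n + 1) * t ≤ 5 / 2) (hσ : 0 < σ) (hσ' : σ ^ 2 * t ^ 2 ≤ n)
    (h0 : π / (2 * n + 1) ≤ θ) (h1 : θ ≤ π) (hx : x = 2 * n * t)
    (hL : L ≤ log (2 / (x + t))) (hl0 : 0 ≤ l) (hl : 1 - 2 * exp (-(x + 5 * t)) ≤ l)
    (h2 : t * (Nn a b t + C) - 5.35 * (t * log t) + t * (6.26 - 2 * L) ≤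
      x / 2 * (L + 1 + x ^ 2 / 60) - 0.1322)
    (h3 : t * (Nn a b t + C) - 4.5 * (t * log t) + t * (6.6 - 2 * L) ≤
      x / 2 * (L + 1 + x ^ 2 / 60 - l / 2)) :
    LL a b n t θ + 2 * log σ + C ≤ -6.1 := by
  have hLU := log_U n ht
  rw [show x + t = (2 * n + 1) * t by rw [hx]; ring] at hL
  have hW := W1_le ht ht1
  have hn' : (0 : ℝ) ≤ n := by positivity
  have h4 := mul_le_mul_of_nonneg_left hL hn'
  subst hx
  by_cases hθ : θ ≤ π / 2
  · have a1 := z3_common (b := b) ha hn ht hY hσ hσ' (zone3_th ht h0 hθ hl0 (by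
      have := WW_ge_exp (x := (2 * n + 5) * t) (by positivity)
      rw [show 2 * n * t + 5 * t = (2 * n + 5) * t by ring] at hl
      linarith))
    have a2 : Nn a b t + C - 4.5 * log t + (6.6 - 2 * L) ≤
        n * (L + 1 + (2 * n * t) ^ 2 / 60 - l / 2) := by
      refine le_of_mul_le_mul_left ?_ ht; linarith
    linarith [log_two_lt_d9]
  · have a1 := z3_common (b := b) ha hn ht hY hσ hσ' (zone3_pi ht (not_le.1 hθ).le h1
      (K := 0.83 / t) (by positivity) fun i hi => by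
        have hi' : (i : ℝ) + 1 ≤ n := by exact_mod_cast hi
        have := yW_le (mul_pos (uu_pos i) ht) (by unfold uu; nlinarith)
        rw [le_div_iff₀ ht]; linarith)
    have a3 : 0.83 / t / (2 * π) ≤ 0.1322 / t := by
      rw [div_right_comm]; gcongr; rw [div_le_iff₀ (by positivity)]; linarith [pi_gt_d4]
    have a2 : Nn a b t + C - 5.35 * log t + (6.26 - 2 * L) ≤
        n * (L + 1 + (2 * n * t) ^ 2 / 60) - 0.1322 / t := by
      refine le_of_mul_le_mul_left ?_ ht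
      rw [mul_sub t _ (0.1322 / t), mul_div_cancel₀ _ ht.ne']; linarith
    linarith [log_two_lt_d9]

theorem exp_ge {x c : ℝ} (hx : 0 ≤ x) (h : c ≤ ∑ i ∈ range 12, x ^ i / i.factorial) : c ≤ exp x :=
  h.trans (sum_le_exp_of_nonneg hx 12)

theorem Nn_le1 {a b : ℕ} {t D c : ℝ} (ht : 0 < t) (hD : 0 < D) (h : D ≤ 2 * a * t)
    (hc : 1 ≤ c * (D + D ^ 3 / 6 + D ^ 5 / 120 + D ^ 7 / 5040)) : t * Nn a b t ≤ c := by
  have h1 := (sinh_ge_poly hD.le).trans (sinh_le_sinh.2 h)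
  have h2 : 0 < D + D ^ 3 / 6 + D ^ 5 / 120 + D ^ 7 / 5040 := by positivity
  have h3 : 0 ≤ c := by by_contra h0; nlinarith
  rw [Nn, ← mul_div_assoc, mul_div_mul_left _ _ ht.ne', div_le_iff₀ (h2.trans_le h1)]
  nlinarith [exp_pos (-(2 * b * t))]

theorem Nn_le2 {a b : ℕ} (hab : b ≤ a) {t x c : ℝ} (ht : 0 < t) (hx : 0 < x) (h : x ≤ 2 * b * t)
    (hc : 2 ≤ c * (exp x + 1)) : t * Nn a b t ≤ c := by
  have hy := hx.trans_le h
  have h1 : sinh (2 * b * t) ≤ sinh (2 * a * t) := sinh_le_sinh.2 (by gcongr)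
  have h2 := sinh_pos' hy
  have h3 : 0 ≤ c := by by_contra h0; nlinarith [exp_pos x]
  have h4 : 2 ≤ c * (exp (2 * b * t) + 1) := hc.trans (by gcongr)
  have h5 := one_sub_exp_pos hy
  have h6 : exp (2 * b * t) * exp (-(2 * b * t)) = 1 := by rw [← exp_add]; simp
  rw [Nn, ← mul_div_assoc, mul_div_mul_left _ _ ht.ne', div_le_iff₀ (h2.trans_le h1)]
  refine le_trans ?_ (mul_le_mul_of_nonneg_left h1 h3)
  rw [sinh_eq]
  linear_combination (1 - exp (-(2 * b * t))) / 2 * h4 - c / 2 * h6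

theorem Nn_le3 {a b : ℕ} (hb : 0 < b) {t : ℝ} (ht : 0 < t) (h : 1.2 ≤ (a + b) * t)
    (hx : 2 * b * t ≤ 1.2) : Nn a b t ≤ b * (0.38 + 0.34 * (2 * b * t)) := by
  obtain ⟨x, hxd⟩ : ∃ x, x = 2 * b * t := ⟨_, rfl⟩
  have hx0 : 0 < x := by rw [hxd]; positivity
  rw [Nn, ← hxd]
  rw [← hxd] at hx
  have h1 : sinh (2.4 - x) ≤ sinh (2 * a * t) := sinh_le_sinh.2 (by linarith)
  have h2 := sinh_pos' (show 0 < 2.4 - x by linarith)
  have h3 : 1 - exp (-x) ≤ x * exp (-(0.45 * x)) := by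
    have a1 := sinh_le_mul_exp (half_pos hx0).le
    have a2 : exp (-(x / 2)) * exp ((x / 2) ^ 2 / 6) ≤ exp (-(0.45 * x)) := by
      rw [← exp_add]; exact exp_le_exp.2 (by nlinarith)
    rw [one_sub_exp_eq]
    nlinarith [exp_pos (-(x / 2))]
  have h4 : 2 * exp (-(0.45 * x)) ≤ (0.38 + 0.34 * x) * sinh (2.4 - x) := by
    have e1 : sinh (2.4 - x) = exp (-(0.45 * x)) * ((exp (2.4 - 0.55 * x) -
        exp (-(2.4 - 1.45 * x))) / 2) := by
      rw [sinh_eq, ← mul_div_assoc, mul_sub, ← exp_add, ← exp_add]; congr 3 <;> ring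
    have a1 : ∀ c d : ℝ, 0 < d → d ≤ exp c → c ≤ 2.4 - 1.45 * x → exp (-(2.4 - 1.45 * x)) ≤ 1 / d :=
      fun c d b1 b2 b3 => by
        rw [exp_neg, one_div]; gcongr; exact b2.trans (exp_le_exp.2 b3)
    have a2 : ∀ c d : ℝ, d ≤ exp c → 0 ≤ 2.4 - 0.55 * x - c + 1 →
        d * (2.4 - 0.55 * x - c + 1) ≤ exp (2.4 - 0.55 * x) := fun c d b1 b2 => by
      rw [show exp (2.4 - 0.55 * x) = exp c * exp (2.4 - 0.55 * x - c) by rw [← exp_add]; simp]
      exact mul_le_mul b1 (add_one_le_exp _) b2 (exp_pos _).le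
    suffices 4 ≤ (0.38 + 0.34 * x) * (exp (2.4 - 0.55 * x) - exp (-(2.4 - 1.45 * x))) by
      rw [e1]; nlinarith [mul_le_mul_of_nonneg_left this (exp_pos (-(0.45 * x))).le]
    by_cases h5 : x ≤ 0.6
    · have b1 := a1 1.53 4.6 (by norm_num) (exp_ge (by norm_num) (by
        simp only [sum_range_succ, Nat.factorial]; norm_num)) (by linarith)
      have b2 := a2 2.4 11.02 (exp_ge (by norm_num) (by
        simp only [sum_range_succ, Nat.factorial]; norm_num)) (by linarith)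
      refine le_trans ?_ (mul_le_mul_of_nonneg_left (sub_le_sub b2 b1) (by positivity))
      nlinarith [mul_nonneg hx0.le (sub_nonneg.2 h5)]
    · have b1 := a1 0.66 1.93 (by norm_num) (exp_ge (by norm_num) (by
        simp only [sum_range_succ, Nat.factorial]; norm_num)) (by linarith)
      have b2 := a2 1.74 5.69 (exp_ge (by norm_num) (by
        simp only [sum_range_succ, Nat.factorial]; norm_num)) (by linarith)
      refine le_trans ?_ (mul_le_mul_of_nonneg_left (sub_le_sub b2 b1) (by positivity))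
      nlinarith [mul_nonneg (sub_nonneg.2 (not_le.1 h5).le) (sub_nonneg.2 hx)]
  rw [div_le_iff₀ (mul_pos ht (h2.trans_le h1))]
  calc _ ≤ x / 2 * (2 * exp (-(0.45 * x))) := by linarith
    _ ≤ x / 2 * ((0.38 + 0.34 * x) * sinh (2 * a * t)) :=
      mul_le_mul_of_nonneg_left (h4.trans (mul_le_mul_of_nonneg_left h1 (by positivity)))
        (by positivity)
    _ = _ := by rw [hxd]; ring

end Pool.Agent.Lib.MP_667609_co
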