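import Pool.Agent.Lib.MP_667609_co.Minor
import Pool.Agent.Lib.MP_667609_co.MajorQ

/-! Case analysis for the minor arc. -/

open Finset Real

namespace Pool.Agent.Lib.MP_667609_co

theorem tlog_le {t : ℝ} (ht : 0 < t) (k : ℕ) : -(t * log t) ≤ 1 / 2 ^ k + t * (k * 0.6932 - 1) := by
  have := mul_le_mul_of_nonneg_left (log_tan2 (inv_pos.2 ht) k) ht.le
  rw [log_inv, show t * (k * 0.6932 + t⁻¹ / 2 ^ k - 1) = 1 / 2 ^ k + t * (k * 0.6932 - 1) by
    field_simp; ring] at this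
  linarith

theorem exp_tan1 (v : ℝ) : 0.7357 * (2 - v) ≤ 2 * exp (-v) := by
  have h := add_one_le_exp (1 - v)
  rw [show -v = -1 + (1 - v) by ring, exp_add]
  nlinarith [exp_neg_one_gt_d9, exp_pos (1 - v)]

theorem exp_tan2 (v : ℝ) : 0.2706 * (3 - v) ≤ 2 * exp (-v) := by
  have h := add_one_le_exp (2 - v)
  have h2 : 0.1353 ≤ exp (-1) * exp (-1) := by nlinarith [exp_neg_one_gt_d9]
  rw [show -v = -1 + -1 + (2 - v) by ring, exp_add, exp_add]
  nlinarith [exp_pos (2 - v)]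

theorem z3_large' {a b n : ℕ} (ha : 0 < a) (hn : 0 < n) {t σ θ C x : ℝ} (ht : 0 < t)
    (ht1 : t ≤ 0.015) (hY : (2 * n + 1) * t ≤ 5 / 2) (hσ : 0 < σ) (hσ' : σ ^ 2 * t ^ 2 ≤ n)
    (h0 : π / (2 * n + 1) ≤ θ) (h1 : θ ≤ π) (hx : x = 2 * n * t) (hx1 : 0.715 ≤ x)
    (h2 : x ≤ 1.4 → t * (Nn a b t + C) - 5.35 * (t * log t) + t * (2.904 + 2.5 * x) + 0.1322 ≤
      x / 2 * (2.6931 - x + x ^ 2 / 60) ∧ t * (Nn a b t + C) - 4.5 * (t * log t) + t * 8.1 ≤
      x / 2 * (2.9288 - 1.36785 * x + x ^ 2 / 60))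
    (h3 : 1.4 ≤ x → t * (Nn a b t + C) - 5.35 * (t * log t) + t * 7.4 + 0.1322 ≤
      x / 2 * (2 - x / 2 + x ^ 2 / 60) ∧ t * (Nn a b t + C) - 4.5 * (t * log t) + t * 8.6 ≤
      x / 2 * (1.9059 - 0.6353 * x + x ^ 2 / 60)) :
    LL a b n t θ + 2 * log σ + C ≤ -6.1 := by
  have hY' : x + t ≤ 5 / 2 := by linarith
  by_cases h : x ≤ 1.4
  · obtain ⟨a1, a2⟩ := h2 h
    refine z3_large ha hn ht ht1 hY hσ hσ' h0 h1 hx (L := 1.6931 - (x + t))
      (l := 1 - 0.7357 * (2 - (x + 5 * t))) ?_ (by linarith) (by linarith [exp_tan1 (x + 5 * t)])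
      (by nlinarith) (by nlinarith)
    have := log_tan3 (x := x + t) (by linarith) 1
    norm_num at this ⊢; linarith
  · obtain ⟨a1, a2⟩ := h3 (not_le.1 h).le
    refine z3_large ha hn ht ht1 hY hσ hσ' h0 h1 hx (L := 1 - (x + t) / 2)
      (l := 1 - 0.2706 * (3 - (x + 5 * t))) ?_ (by linarith) (by linarith [exp_tan2 (x + 5 * t)])
      (by nlinarith) (by nlinarith)
    have := log_tan3 (x := x + t) (by linarith) 0
    norm_num at this ⊢; linarith

theorem small_of {n N L L0 ρ n0 : ℝ} (hn : n0 ≤ n) (h0 : 22 ≤ n0) (hL : L0 ≤ L) (hN : N ≤ n * ρ)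
    (h1 : ρ ≤ 0.818 + 0.6816 * L0) (h2 : n0 * ρ + 19.6 ≤ 0.818 * n0 + L0 * (0.6816 * n0 - 3.51)) :
    N + 19.6 ≤ 0.818 * n + L * (0.6816 * n - 3.51) := by
  nlinarith [mul_le_mul_of_nonneg_right hL (show 0 ≤ 0.6816 * n - 3.51 by linarith),
    mul_le_mul_of_nonneg_right h1 (sub_nonneg.2 hn)]

theorem L_ge_one {y : ℝ} (h0 : 0 < y) (h : y ≤ 0.73) : 1 ≤ log (2 / y) := by
  rw [le_log_iff_exp_le (by positivity), le_div_iff₀ h0]
  nlinarith [exp_one_lt_d9, exp_pos 1]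

theorem minorA {a b : ℕ} (hb : 22 ≤ b) (ha : a0 b ≤ a) (hab : b ≤ a) {t σ θ : ℝ} (ht : 0 < t)
    (h : (a + b) * t = 1.2) (hσ : 0 < σ) (hσ' : σ ^ 2 * t ^ 2 ≤ b)
    (h0 : π / (2 * b + 1) ≤ θ) (h1 : θ ≤ π) :
    LL a b b t θ + 2 * log σ + a * b * (a + b + 2) / 3 * t ^ 2 ≤ -6.1 := by
  obtain ⟨h2, h3, h4⟩ := a0_cases ha hab
  have hb' : (22 : ℝ) ≤ b := by exact_mod_cast hb
  have ht1 : t ≤ 0.0057 := by rcases h4 with ⟨-, a1⟩ | ⟨a1, -, a2⟩ | a1 <;> nlinarith
  obtain ⟨x, hx⟩ : ∃ x, x = 2 * b * t := ⟨_, rfl⟩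
  have hx0 : 0 < x := by rw [hx]; positivity
  have hx1 : x ≤ 1.2 := by nlinarith
  have hN : Nn a b t + a * b * (a + b + 2) / 3 * t ^ 2 ≤ b * (0.865 + 0.14 * x) := by
    have a1 := Nn_le3 (a := a) (b := b) (by omega) ht h.ge (by linarith)
    have a2 : a * b * (a + b + 2) / 3 * t ^ 2 = b * ((1.2 - x / 2) * (1.2 + 2 * t) / 3) := by
      rw [hx, ← h]; ring
    have a3 : (1.2 - x / 2) * (1.2 + 2 * t) / 3 ≤ 0.485 - 0.2 * x := by nlinarith
    rw [← hx] at a1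
    nlinarith [mul_le_mul_of_nonneg_left a3 (show (0 : ℝ) ≤ b by positivity)]
  have hY : (2 * b + 1) * t = x + t := by rw [hx]; ring
  by_cases hs : x + t ≤ 0.73
  · refine z3_small (by omega) hb ht (by linarith) (by linarith) hσ hσ' h0 h1 ?_
    rw [hY]
    rcases h4 with ⟨a1, a2⟩ | ⟨a1, a2, a3⟩ | a1
    · have a4 : x + t ≤ 0.25 := by nlinarith
      have a5 := log_tan3 (x := x + t) (by linarith) 3
      exact small_of hb' le_rfl (L0 := 2.079) (ρ := 0.9) (by norm_num at a5; linarith)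
        (hN.trans (by gcongr; linarith)) (by norm_num) (by norm_num)
    · have a4 : x + t ≤ 0.56 := by nlinarith
      have a5 := log_tan3 (x := x + t) (by linarith) 2
      exact small_of a1 (by norm_num) (L0 := 1.266) (ρ := 0.95) (by norm_num at a5; linarith)
        (hN.trans (by gcongr; linarith)) (by norm_num) (by norm_num)
    · exact small_of a1 (by norm_num) (L_ge_one (by linarith) hs) (ρ := 0.97)
        (hN.trans (by gcongr; linarith)) (by norm_num) (by norm_num)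
  · have a1 : t * (Nn a b t + a * b * (a + b + 2) / 3 * t ^ 2) ≤ x / 2 * (0.865 + 0.14 * x) :=
      (mul_le_mul_of_nonneg_left hN ht.le).trans (le_of_eq (by rw [hx]; ring))
    have a2 := tlog_le ht 8
    have a3 : 150 * t + x / 2 ≤ 1.2 := by nlinarith
    have a4 := mul_nonneg (show 0 ≤ x - 0.72 by linarith) (show 0 ≤ 1.2 - x by linarith)
    have a5 := mul_nonneg ht.le (show 0 ≤ 1.2 - x by linarith)
    have a6 := mul_nonneg hx0.le (show 0 ≤ x ^ 2 - 0.5 by nlinarith)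
    norm_num at a2
    exact z3_large' (by omega) (by omega) ht (by linarith) (by linarith) hσ hσ' h0 h1 hx
      (by linarith) (fun _ => ⟨by linarith, by linarith⟩) fun a7 => by linarith

theorem minorB {a b n : ℕ} (hn : 22 ≤ n) (hb : n ≤ b) (hab : b ≤ a) (ha : 150 ≤ a) {t σ θ : ℝ}
    (ht : 0 < t) (ht1 : t ≤ 0.015) (hY : (2 * n + 1) * t ≤ 5 / 2) (h : 1.2 ≤ (a + b) * t)
    (hc : (n = b ∧ 3199.5 * t ≤ b) ∨ 1.9 ≤ 2 * n * t) (hσ : 0 < σ) (hσ' : σ ^ 2 * t ^ 2 ≤ n)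
    (h0 : π / (2 * n + 1) ≤ θ) (h1 : θ ≤ π) : LL a b n t θ + 2 * log σ + 0 ≤ -6.1 := by
  have hn' : (22 : ℝ) ≤ n := by exact_mod_cast hn
  have hb' : (n : ℝ) ≤ b := by exact_mod_cast hb
  have ha' : (150 : ℝ) ≤ a := by exact_mod_cast ha
  obtain ⟨x, hx⟩ : ∃ x, x = 2 * n * t := ⟨_, rfl⟩
  have hx0 : 0 < x := by rw [hx]; positivity
  have hY' : (2 * n + 1) * t = x + t := by rw [hx]; ring
  have hN : x ≤ 1.2 → Nn a b t + 0 ≤ n * (0.38 + 0.34 * x) := fun h2 => by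
    obtain ⟨rfl, -⟩ := hc.resolve_right (by linarith)
    rw [add_zero, hx]; exact Nn_le3 (by omega) ht h (by linarith)
  by_cases hs : x + t ≤ 0.73
  · refine z3_small (by omega) hn ht ht1 (by linarith) hσ hσ' h0 h1 ?_
    obtain ⟨rfl, h3⟩ := hc.resolve_right (by linarith)
    rw [hY']
    by_cases h4 : n ≤ 28
    · have a1 : (n : ℝ) ≤ 28 := by exact_mod_cast h4
      have a4 : x + t ≤ 0.5 := by nlinarith
      have a5 := log_tan3 (x := x + t) (by linarith) 2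
      exact small_of hn' le_rfl (L0 := 1.386) (ρ := 0.55) (by norm_num at a5; linarith)
        ((hN (by linarith)).trans (by gcongr; linarith)) (by norm_num) (by norm_num)
    · have a1 : (29 : ℝ) ≤ n := by exact_mod_cast not_le.1 h4
      exact small_of a1 (by norm_num) (L_ge_one (by linarith) hs) (ρ := 0.63)
        ((hN (by linarith)).trans (by gcongr; linarith)) (by norm_num) (by norm_num)
  have hx1 : 0.715 ≤ x := by linarith
  have hx2 : x ≤ 5 / 2 := by linarith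
  have b1 : x ≤ 1.4 → 0 ≤ (x - 0.715) * (1.4 - x) := fun h => mul_nonneg (by linarith) (by linarith)
  have b2 : 1.4 ≤ x → 0 ≤ (x - 1.4) * (5 / 2 - x) := fun h => mul_nonneg (by linarith) (by linarith)
  have b3 := mul_nonneg hx0.le (sq_nonneg (x - 2))
  have b4 : x ≤ 1.4 → 0 ≤ t * (1.4 - x) := fun h => mul_nonneg ht.le (by linarith)
  have univ : ∀ c, t * Nn a b t ≤ c → c - 5.35 * (t * log t) + t * 7.4 ≤ 0.54 →
      c - 4.5 * (t * log t) + t * 8.6 ≤ 0.51 → LL a b n t θ + 2 * log σ + 0 ≤ -6.1 :=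
    fun c a1 a2 a3 => z3_large' (by omega) (by omega) ht ht1 hY hσ hσ' h0 h1 hx hx1
      (fun a4 => ⟨by linarith [b1 a4, b4 a4], by linarith [b1 a4]⟩)
      fun a4 => ⟨by linarith [b2 a4], by linarith [b2 a4]⟩
  by_cases c1 : 0.011 ≤ t
  · have := tlog_le ht 6
    norm_num at this
    exact univ 0.075 (Nn_le1 ht (D := 3.3) (by norm_num) (by nlinarith) (by norm_num))
      (by linarith) (by linarith)
  have hT := tlog_le ht 7
  norm_num at hT
  by_cases c2 : 0.008 ≤ t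
  · exact univ 0.184 (Nn_le1 ht (D := 2.4) (by norm_num) (by nlinarith) (by norm_num))
      (by linarith) (by linarith)
  have hxb : x ≤ 2 * b * t := by rw [hx]; gcongr
  by_cases c3 : 1.9 ≤ x
  · exact univ 0.261 (Nn_le2 hab ht (x := 1.9) (by norm_num) (by linarith) (by
      have := exp_ge (x := 1.9) (c := 6.68) (by norm_num) (by
        simp only [sum_range_succ, Nat.factorial]; norm_num)
      linarith)) (by linarith) (by linarith)
  by_cases c4 : x ≤ 1.2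
  · have a1 : t * (Nn a b t + 0) ≤ x / 2 * (0.38 + 0.34 * x) :=
      (mul_le_mul_of_nonneg_left (hN c4) ht.le).trans (le_of_eq (by rw [hx]; ring))
    have a2 := mul_nonneg (sub_nonneg.2 hx1) (sub_nonneg.2 c4)
    exact z3_large' (by omega) (by omega) ht ht1 hY hσ hσ' h0 h1 hx hx1
      (fun a4 => ⟨by linarith [b4 a4, pow_pos hx0 3], by linarith [pow_pos hx0 3]⟩)
      fun a4 => by linarith
  · have a1 := Nn_le2 hab ht (x := 1.2) (c := 0.464) (by norm_num) (by linarith) (by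
      have := exp_ge (x := 1.2) (c := 3.32) (by norm_num) (by
        simp only [sum_range_succ, Nat.factorial]; norm_num)
      linarith)
    have a2 := mul_nonneg hx0.le (sq_nonneg (x - 1.5))
    exact z3_large' (by omega) (by omega) ht ht1 hY hσ hσ' h0 h1 hx hx1
      (fun a4 => by
        have := mul_nonneg (sub_nonneg.2 (not_le.1 c4).le) (sub_nonneg.2 a4)
        exact ⟨by linarith [b4 a4], by linarith⟩)
      fun a4 => by
        have := mul_nonneg (sub_nonneg.2 (not_le.1 c3).le) (sub_nonneg.2 a4)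
        exact ⟨by linarith, by linarith⟩

end Pool.Agent.Lib.MP_667609_co
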