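import Pool.Agent.Lib.MP_667609_co.Third
import Pool.Agent.Lib.MP_667609_co.Cauchy

/-! The modulus of the integrand, and its behaviour near the saddle point. -/

open Finset Complex

namespace Pool.Agent.Lib.MP_667609_co

def uu (i : ℕ) : ℝ := 2 * i + 3

def ss (a i : ℕ) : ℝ := 2 * a + 2 * i + 3

theorem uu_pos (i : ℕ) : 0 < uu i := by unfold uu; positivity

theorem ss_pos (a i : ℕ) : 0 < ss a i := by unfold ss; positivity

noncomputable def e1 (x : ℝ) : ℝ := Real.exp (-x) / (1 - Real.exp (-x))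

noncomputable def mu (a b n : ℕ) (t : ℝ) : ℝ :=
  ∑ i ∈ range n, uu i * e1 (uu i * t) - ∑ i ∈ range b, ss a i * e1 (ss a i * t)

noncomputable def SS (a n : ℕ) (t : ℝ) : ℝ := ∑ i ∈ range n, (hh (uu i * t) - hh (ss a i * t))

noncomputable def Phi (a b n m : ℕ) (t : ℝ) : ℝ :=
  (∏ i ∈ range b, (1 - Real.exp (-(ss a i * t)))) *
    (∏ i ∈ range n, (1 - Real.exp (-(uu i * t)))⁻¹) * Real.exp (m * t)

noncomputable def fac (x φ : ℝ) : ℝ := 1 + Real.sin (φ / 2) ^ 2 / Real.sinh (x / 2) ^ 2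

noncomputable def LL (a b n : ℕ) (t θ : ℝ) : ℝ :=
  ∑ i ∈ range b, Real.log (fac (ss a i * t) (ss a i * θ)) -
    ∑ i ∈ range n, Real.log (fac (uu i * t) (uu i * θ))

theorem one_le_fac (x φ : ℝ) : 1 ≤ fac x φ := le_add_of_nonneg_right (by positivity)

theorem fac_pos (x φ : ℝ) : 0 < fac x φ := one_pos.trans_le (one_le_fac x φ)

theorem one_sub_exp_pos {x : ℝ} (hx : 0 < x) : 0 < 1 - Real.exp (-x) := by
  rw [sub_pos, Real.exp_lt_one_iff]; linarith

theorem Phi_pos (a b n m : ℕ) {t : ℝ} (ht : 0 < t) : 0 < Phi a b n m t :=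
  mul_pos (mul_pos (prod_pos fun i _ => one_sub_exp_pos (mul_pos (ss_pos a i) ht))
    (prod_pos fun i _ => inv_pos.2 (one_sub_exp_pos (mul_pos (uu_pos i) ht)))) (Real.exp_pos _)

theorem norm_one_sub_exp {x : ℝ} (hx : 0 < x) (φ : ℝ) :
    ‖1 - exp (-(x + φ * I))‖ = (1 - Real.exp (-x)) * Real.exp (Real.log (fac x φ) / 2) := by
  have h0 := one_sub_exp_pos hx
  refine (pow_left_inj₀ (norm_nonneg _) (by positivity) two_ne_zero).1 ?_
  have hs := sinh_pos' (half_pos hx)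
  have h1 : Real.exp (Real.log (fac x φ) / 2) ^ 2 = fac x φ := by
    rw [← Real.exp_nat_mul, Nat.cast_ofNat, mul_div_cancel₀ _ two_ne_zero,
      Real.exp_log (fac_pos x φ)]
  have h2 : Real.cos (φ / 2) ^ 2 = 1 / 2 + Real.cos φ / 2 := by
    rw [Real.cos_sq, mul_div_cancel₀ _ two_ne_zero]
  have h3 := Real.sin_sq_add_cos_sq (φ / 2)
  have h4 := Real.sin_sq_add_cos_sq φ
  have h5 : (1 - Real.exp (-x)) ^ 2 * (Real.sin (φ / 2) ^ 2 / Real.sinh (x / 2) ^ 2) =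
      4 * Real.exp (-x) * Real.sin (φ / 2) ^ 2 := by
    rw [one_sub_exp_eq, exp_neg_eq_sq x]; field_simp; ring
  rw [mul_pow, h1, fac, mul_add, h5, Complex.sq_norm, normSq_apply]
  simp only [sub_re, one_re, exp_re, neg_re, add_re, ofReal_re, mul_re, I_re, mul_zero, ofReal_im,
    I_im, mul_one, sub_self, add_zero, neg_im, add_im, mul_im, zero_add, sub_im, one_im, exp_im,
    Real.cos_neg, Real.sin_neg]
  linear_combination Real.exp (-x) ^ 2 * h4 - 4 * Real.exp (-x) * h3 + 4 * Real.exp (-x) * h2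

theorem exp_neg_pow_s (a i : ℕ) (w : ℂ) : exp (-w) ^ (2 * a + 2 * i + 3) = exp (-(ss a i * w)) := by
  rw [← exp_nat_mul, ss]; congr 1; push_cast; ring

theorem exp_neg_pow_u (i : ℕ) (w : ℂ) : exp (-w) ^ (2 * i + 3) = exp (-(uu i * w)) := by
  rw [← exp_nat_mul, uu]; congr 1; push_cast; ring

theorem norm_II (a b n m : ℕ) {t : ℝ} (ht : 0 < t) (θ : ℝ) :
    ‖II a b n m (t + θ * I)‖ = Phi a b n m t * Real.exp (LL a b n t θ / 2) := by
  have h : ∀ s : ℝ, 0 < s → ‖1 - exp (-(s * (t + θ * I)))‖ =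
      (1 - Real.exp (-(s * t))) * Real.exp (Real.log (fac (s * t) (s * θ)) / 2) := by
    intro s hs
    rw [← norm_one_sub_exp (mul_pos hs ht)]; congr 4; push_cast; ring
  simp only [II, Phi, LL, exp_neg_pow_s, exp_neg_pow_u, norm_mul, norm_prod, norm_inv, norm_pow,
    h _ (ss_pos _ _), h _ (uu_pos _), prod_mul_distrib, mul_inv, sub_div, sum_div, Real.exp_sub,
    Real.exp_sum, prod_inv_distrib, norm_exp, Real.exp_nat_mul]
  simp only [add_re, ofReal_re, mul_re, I_re, mul_zero, ofReal_im, I_im, mul_one, sub_self,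
    add_zero]
  ring

/-- The logarithm of the integrand. -/
noncomputable def ff (a b n m : ℕ) (w : ℂ) : ℂ :=
  ∑ i ∈ range b, log (1 - exp (-(ss a i * w))) - ∑ i ∈ range n, log (1 - exp (-(uu i * w))) + m * w

theorem re_mul_pos {s : ℝ} (hs : 0 < s) {w : ℂ} (hw : 0 < w.re) : 0 < (s * w).re := by
  rw [re_ofReal_mul]; positivity

theorem II_eq_exp (a b n m : ℕ) {w : ℂ} (hw : 0 < w.re) : II a b n m w = exp (ff a b n m w) := by
  simp only [II, ff, exp_neg_pow_s, exp_neg_pow_u, exp_add, exp_sub, exp_sum, exp_nat_mul,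
    prod_inv_distrib, div_eq_mul_inv]
  rw [prod_congr rfl fun i _ => exp_log (one_sub_exp_ne (re_mul_pos (ss_pos a i) hw)),
    prod_congr rfl fun i _ => exp_log (one_sub_exp_ne (re_mul_pos (uu_pos i) hw))]

theorem II_real (a b n m : ℕ) (t : ℝ) : II a b n m t = Phi a b n m t := by
  simp only [II, Phi, exp_neg_pow_s, exp_neg_pow_u]; push_cast; rw [exp_nat_mul]

theorem E1_real (x : ℝ) : E1 x = e1 x := by simp [E1, e1]

theorem E2_real {x : ℝ} (hx : 0 < x) : E2 x = (hh x / x ^ 2 : ℝ) := by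
  have : Real.exp (-x) / (1 - Real.exp (-x)) ^ 2 = hh x / x ^ 2 := by
    have hs := sinh_pos' (half_pos hx)
    rw [one_sub_exp_eq, exp_neg_eq_sq x, hh]; field_simp
  rw [← this]; simp [E2]

theorem hasDerivAt_comp {f : ℂ → ℂ} {f' : ℂ} {s t θ : ℝ} (h : HasDerivAt f f' (s * (t + θ * I))) :
    HasDerivAt (fun θ : ℝ => f (s * (t + θ * I))) (f' * (s * I)) θ := by
  have h1 : HasDerivAt (fun θ : ℝ => (s * (t + θ * I) : ℂ)) (s * I) θ :=
    ((((ofRealCLM.hasDerivAt (x := θ)).mul_const I).const_add (t : ℂ)).const_mul (s : ℂ)).congr_deriv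
      (by simp)
  exact h.comp θ h1

theorem zone1 {a b n m : ℕ} (hn : n ≤ b) {t κ Θ Δ θ : ℝ} (ht : 0 < t)
    (hκ : ∀ θ : ℝ, 0 ≤ θ → θ ≤ Θ → ‖∑ i ∈ range b, (ss a i : ℂ) ^ 3 * E3 (ss a i * (t + θ * I)) -
      ∑ i ∈ range n, (uu i : ℂ) ^ 3 * E3 (uu i * (t + θ * I))‖ ≤ κ)
    (hΔ : |m - mu a b n t| ≤ Δ) (h0 : 0 ≤ θ) (hθ : θ ≤ Θ)
    (hπ : Δ * θ + κ * θ ^ 3 / 6 ≤ Real.pi / 2) :
    Phi a b n m t * (Real.exp (-(SS a n t / t ^ 2 * θ ^ 2 / 2) - κ * θ ^ 3 / 6) *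
      Real.cos (Δ * θ + κ * θ ^ 3 / 6)) ≤ (II a b n m (t + θ * I)).re := by
  have hw : ∀ x : ℝ, 0 < (t + x * I : ℂ).re := fun x => by simpa using ht
  have hs : ∀ (x : ℝ) i, 0 < (ss a i * (t + x * I) : ℂ).re := fun x i => re_mul_pos (ss_pos a i) (hw x)
  have hu : ∀ (x : ℝ) i, 0 < (uu i * (t + x * I) : ℂ).re := fun x i => re_mul_pos (uu_pos i) (hw x)
  have h := taylor3 (f0 := fun x : ℝ => ff a b n m (t + x * I))
    (f1 := fun x : ℝ => (∑ i ∈ range b, ss a i * E1 (ss a i * (t + x * I)) -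
      ∑ i ∈ range n, uu i * E1 (uu i * (t + x * I)) + m) * I)
    (f2 := fun x : ℝ => ∑ i ∈ range b, (ss a i : ℂ) ^ 2 * E2 (ss a i * (t + x * I)) -
      ∑ i ∈ range n, (uu i : ℂ) ^ 2 * E2 (uu i * (t + x * I)))
    (f3 := fun x : ℝ => (∑ i ∈ range b, (ss a i : ℂ) ^ 3 * E3 (ss a i * (t + x * I)) -
      ∑ i ∈ range n, (uu i : ℂ) ^ 3 * E3 (uu i * (t + x * I))) * (-I)) (κ := κ) (Θ := Θ)
    (fun x => (((HasDerivAt.fun_sum fun i _ => hasDerivAt_comp (hasDerivAt_L (hs x i))).fun_sub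
      (HasDerivAt.fun_sum fun i _ => hasDerivAt_comp (hasDerivAt_L (hu x i)))).fun_add
      (hasDerivAt_comp (s := m) (hasDerivAt_id' _))).congr_deriv (by
        simp only [add_mul, sub_mul, sum_mul, one_mul, ofReal_natCast]
        congr 2 <;> exact sum_congr rfl fun i _ => by ring))
    (fun x => ((((HasDerivAt.fun_sum fun i _ =>
      (hasDerivAt_comp (hasDerivAt_E1 (hs x i))).const_mul (ss a i : ℂ)).fun_sub
      (HasDerivAt.fun_sum fun i _ => (hasDerivAt_comp (hasDerivAt_E1 (hu x i))).const_mul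
        (uu i : ℂ))).add_const (m : ℂ)).mul_const I).congr_deriv (by
        simp only [sub_mul, sum_mul]
        congr 1 <;> exact sum_congr rfl fun i _ => by
          rw [mul_assoc, mul_assoc, mul_assoc, I_mul_I]; ring))
    (fun x => ((HasDerivAt.fun_sum fun i _ =>
      (hasDerivAt_comp (hasDerivAt_E2 (hs x i))).const_mul ((ss a i : ℂ) ^ 2)).fun_sub
      (HasDerivAt.fun_sum fun i _ => (hasDerivAt_comp (hasDerivAt_E2 (hu x i))).const_mul
        ((uu i : ℂ) ^ 2))).congr_deriv (by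
        simp only [sub_mul, sum_mul]
        congr 1 <;> exact sum_congr rfl fun i _ => by ring))
    (fun x h1 h2 => by rw [norm_mul, norm_neg, norm_I, mul_one]; exact hκ x h1 h2) h0 hθ
  simp only [ofReal_zero, zero_mul, add_zero, ← ofReal_mul, E1_real,
    E2_real (mul_pos (ss_pos _ _) ht), E2_real (mul_pos (uu_pos _) ht)] at h
  set σ : ℝ := (∑ i ∈ range n, hh (uu i * t) - ∑ i ∈ range b, hh (ss a i * t)) / t ^ 2 with hσ
  have hσle : σ ≤ SS a n t / t ^ 2 := by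
    rw [hσ, SS, sum_sub_distrib]
    gcongr
    exact fun i _ _ => (hh_pos (mul_pos (ss_pos _ _) ht)).le
  set R := ff a b n m (t + θ * I) - ff a b n m t -
    (((m - mu a b n t) * θ : ℝ) * I - (σ * θ ^ 2 / 2 : ℝ)) with hR
  have hRle : ‖R‖ ≤ κ * θ ^ 3 / 6 := by
    refine le_trans (le_of_eq ?_) h
    congr 1
    have e : ∀ s : ℝ, 0 < s → (s : ℂ) ^ 2 * ((hh (s * t) / (s * t) ^ 2 : ℝ) : ℂ) =
        ((hh (s * t) / t ^ 2 : ℝ) : ℂ) := by
      intro s hs
      rw [← ofReal_pow, ← ofReal_mul]; congr 1; field_simp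
    simp only [e _ (ss_pos _ _), e _ (uu_pos _)]
    rw [hR, hσ, mu, sub_div, sum_div, sum_div]; push_cast; ring
  have hII : II a b n m (t + θ * I) = Phi a b n m t *
      exp (((m - mu a b n t) * θ : ℝ) * I - (σ * θ ^ 2 / 2 : ℝ) + R) := by
    rw [← II_real, II_eq_exp _ _ _ _ (hw θ), II_eq_exp _ _ _ _ (by simpa using ht), ← exp_add, hR]
    congr 1; ring
  rw [hII, re_ofReal_mul, exp_re]
  simp only [add_re, sub_re, mul_re, ofReal_re, I_re, mul_zero, ofReal_im, I_im, mul_one, sub_self,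
    add_im, sub_im, mul_im, add_zero, sub_zero, zero_sub]
  have h1 := (abs_re_le_norm R).trans hRle
  have h2 := (abs_im_le_norm R).trans hRle
  have h3 : |(m - mu a b n t) * θ + R.im| ≤ Δ * θ + κ * θ ^ 3 / 6 := by
    refine (abs_add_le _ _).trans (add_le_add ?_ h2)
    rw [abs_mul, abs_of_nonneg h0]; gcongr
  have h4 := Real.cos_le_cos_of_nonneg_of_le_pi (abs_nonneg _) (by linarith [Real.pi_pos]) h3
  rw [Real.cos_abs] at h4
  have h5 : 0 ≤ Real.cos (Δ * θ + κ * θ ^ 3 / 6) :=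
    Real.cos_nonneg_of_neg_pi_div_two_le_of_le (by linarith [Real.pi_pos, abs_nonneg ((m - mu a b n t) * θ + R.im)]) hπ
  have h6 := Phi_pos a b n m ht
  have h7 : σ * θ ^ 2 ≤ SS a n t / t ^ 2 * θ ^ 2 := by gcongr
  gcongr
  linarith [(abs_le.1 h1).1]

end Pool.Agent.Lib.MP_667609_co
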