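import Pool.Agent.Lib.MP_667609_co.Roots

/-! The periodic part of the coefficients and its distance from the mean value. -/

open Polynomial Finset

namespace Pool.Agent.Lib.MP_667609_co

noncomputable def tau (ζ : ℂ) (d n : ℕ) : ℂ := if d ∣ n then ((n / d : ℕ) : ℂ) else 1 - ζ ^ n

def pole (a b d : ℕ) : Prop := ((range b).filter fun i => d ∣ 2 * i + 3).card =
  ((range (b - 1)).filter fun i => d ∣ 2 * a + 2 * i + 3).card + 1

instance (a b d : ℕ) : Decidable (pole a b d) := by unfold pole; infer_instance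

theorem P_eval {a b d : ℕ} {P : ℤ[X]} (hP : P * Dpoly b = (1 - X ^ Lam b) * Npoly a (b - 1))
    {ζ : ℂ} (hζ : IsPrimitiveRoot ζ d) (hd : d ∣ Lam b) :
    aeval ζ P / Lam b * ∏ i ∈ range b, tau ζ d (2 * i + 3) =
      if pole a b d then (∏ i ∈ range (b - 1), tau ζ d (2 * a + 2 * i + 3)) / d else 0 := by
  have hd0 : 0 < d := Nat.pos_of_dvd_of_pos hd (Lam_pos b)
  set T : ℕ → ℤ[X] := fun n => if d ∣ n then ∑ j ∈ range (n / d), (X ^ d) ^ j else 1 - X ^ n with hT
  have h1 : ∀ n, (1 - X ^ n : ℤ[X]) = (if d ∣ n then 1 - X ^ d else 1) * T n := by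
    intro n
    simp only [hT]
    split_ifs with h
    · rw [mul_neg_geom_sum, ← pow_mul, Nat.mul_div_cancel' h]
    · rw [one_mul]
  have h2 : ∀ n, aeval ζ (T n) = tau ζ d n := by
    intro n
    simp only [hT, tau]
    split_ifs with h
    · simp [hζ.pow_eq_one]
    · simp
  have h3 : ∀ (n : ℕ) (e : ℕ → ℕ), ∏ i ∈ range n, (1 - X ^ e i : ℤ[X]) =
      (1 - X ^ d) ^ ((range n).filter fun i => d ∣ e i).card * ∏ i ∈ range n, T (e i) := by
    intro n e
    rw [prod_congr rfl fun i _ => h1 (e i), prod_mul_distrib, ← prod_filter, prod_const]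
  have hle := count_le' a b d (odd_of_dvd_Lam hd)
  rw [Dpoly, Npoly, h3, h3, h1 (Lam b), if_pos hd] at hP
  unfold pole
  set k := ((range b).filter fun i => d ∣ 2 * i + 3).card
  set k' := ((range (b - 1)).filter fun i => d ∣ 2 * a + 2 * i + 3).card
  obtain ⟨e, he⟩ : ∃ e, k' + 1 = k + e := ⟨k' + 1 - k, by omega⟩
  have h4 : P * ∏ i ∈ range b, T (2 * i + 3) =
      (1 - X ^ d) ^ e * T (Lam b) * ∏ i ∈ range (b - 1), T (2 * a + 2 * i + 3) := by
    apply mul_left_cancel₀ (pow_ne_zero k (one_sub_ne hd0))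
    calc _ = P * ((1 - X ^ d) ^ k * ∏ i ∈ range b, T (2 * i + 3)) := by ring
      _ = (1 - X ^ d) ^ (k' + 1) * T (Lam b) * ∏ i ∈ range (b - 1), T (2 * a + 2 * i + 3) := by
        rw [hP]; ring
      _ = _ := by rw [he]; ring
  have h5 := congrArg (aeval ζ) h4
  simp only [map_mul, map_prod, h2, map_pow, map_sub, map_one, aeval_X, hζ.pow_eq_one,
    sub_self] at h5
  have hL : (Lam b : ℂ) ≠ 0 := by exact_mod_cast (Lam_pos b).ne'
  have hd' : (d : ℂ) ≠ 0 := by exact_mod_cast hd0.ne'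
  rw [div_mul_eq_mul_div, h5]
  split_ifs with h
  · have : e = 0 := by omega
    rw [this, tau, if_pos hd, Nat.cast_div hd hd']
    field_simp
  · have : e ≠ 0 := by omega
    simp [this]

/-- Product of the numerator exponents divisible by `d`. -/
def psd (a b d : ℕ) : ℕ :=
  ∏ i ∈ (range (b - 1)).filter fun i => d ∣ 2 * a + 2 * i + 3, (2 * a + 2 * i + 3)

/-- Product of the denominator exponents divisible by `d`. -/
def pud (b d : ℕ) : ℕ := ∏ i ∈ (range b).filter fun i => d ∣ 2 * i + 3, (2 * i + 3)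

noncomputable def Td (a b d : ℕ) : ℝ :=
  if pole a b d then (d - 1) * (2 * √d * psd a b d / (pud b d * Fd d ^ 3)) else 0

noncomputable def nu (a b : ℕ) : ℝ := ∑ i ∈ range b, Td a b (2 * i + 3)

noncomputable def LV (a b : ℕ) : ℝ :=
  (∏ i ∈ range (b - 1), (2 * a + 2 * i + 3 : ℕ) : ℕ) / (Lam b : ℕ)

theorem norm_prod_tau {ζ : ℂ} {d : ℕ} (n : ℕ) (e : ℕ → ℕ) :
    ‖∏ i ∈ range n, tau ζ d (e i)‖ * d ^ ((range n).filter fun i => d ∣ e i).card =
      (∏ i ∈ (range n).filter fun i => d ∣ e i, e i : ℕ) * ∏ i ∈ range n, gz ζ d (e i) := by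
  rw [norm_prod, ← prod_const, prod_filter, prod_filter, Nat.cast_prod, ← prod_mul_distrib,
    ← prod_mul_distrib]
  refine prod_congr rfl fun i _ => ?_
  unfold tau gz
  split_ifs with h
  · rw [Complex.norm_natCast, mul_one, ← Nat.cast_mul, Nat.div_mul_cancel h]
  · simp

theorem c_le {a b d : ℕ} (hb : 1 ≤ b) {P : ℤ[X]}
    (hP : P * Dpoly b = (1 - X ^ Lam b) * Npoly a (b - 1))
    {ζ : ℂ} (hζ : IsPrimitiveRoot ζ d) (hd : d ∣ Lam b) (hd3 : 3 ≤ d) :
    ‖aeval ζ P / Lam b‖ ≤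
      if pole a b d then 2 * √d * psd a b d / (pud b d * Fd d ^ 3) else 0 := by
  have hd0 : 0 < d := by omega
  have h := congrArg norm (P_eval hP hζ hd)
  have h1 := norm_prod_tau (ζ := ζ) (d := d) b fun i => 2 * i + 3
  have h2 := norm_prod_tau (ζ := ζ) (d := d) (b - 1) fun i => 2 * a + 2 * i + 3
  have hD : 0 < ∏ i ∈ range b, gz ζ d (2 * i + 3) := prod_pos fun _ _ => gz_pos hζ _
  have hpu : (0 : ℝ) < pud b d := by
    exact_mod_cast prod_pos fun _ _ => by omega
  have hd' : (0 : ℝ) < d := by exact_mod_cast hd0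
  rw [← pud] at h1
  rw [← psd] at h2
  rw [norm_mul] at h
  have ht : 0 < ‖∏ i ∈ range b, tau ζ d (2 * i + 3)‖ := by
    have : 0 < ‖∏ i ∈ range b, tau ζ d (2 * i + 3)‖ *
      (d : ℝ) ^ ((range b).filter fun i => d ∣ 2 * i + 3).card := by rw [h1]; positivity
    exact (mul_pos_iff_of_pos_right (by positivity)).1 this
  split_ifs at h ⊢ with hp
  · have h3 := ratio_le hζ (odd_of_dvd_Lam hd) hd3 hb hp
    have hF := Fd_pos d hd0
    rw [norm_div _ (d : ℂ), Complex.norm_natCast] at h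
    unfold pole at hp
    rw [hp, pow_succ] at h1
    set c := ‖aeval ζ P / (Lam b : ℂ)‖
    set w := (d : ℝ) ^ ((range (b - 1)).filter fun i => d ∣ 2 * a + 2 * i + 3).card
    have hc : c * (pud b d * ∏ i ∈ range b, gz ζ d (2 * i + 3)) =
        psd a b d * ∏ i ∈ range (b - 1), gz ζ d (2 * a + 2 * i + 3) := by
      rw [← h1, ← h2, ← mul_assoc, h]; field_simp
    rw [le_div_iff₀ (by positivity)]
    apply le_of_mul_le_mul_right _ hD
    calc c * (pud b d * Fd d ^ 3) * ∏ i ∈ range b, gz ζ d (2 * i + 3)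
        = psd a b d * ((∏ i ∈ range (b - 1), gz ζ d (2 * a + 2 * i + 3)) * Fd d ^ 3) := by
          rw [← mul_assoc (psd a b d : ℝ), ← hc]; ring
      _ ≤ psd a b d * (2 * √d * ∏ i ∈ range b, gz ζ d (2 * i + 3)) := by gcongr
      _ = _ := by ring
  · rw [norm_zero, mul_eq_zero] at h
    exact (h.resolve_right ht.ne').le

theorem pole_le {a b d : ℕ} (h : pole a b d) (hd : d ∣ Lam b) (h1 : d ≠ 1) :
    ∃ i < b, d = 2 * i + 3 := by
  have := odd_of_dvd_Lam hd
  obtain ⟨j, hj⟩ := card_pos.1 (show 0 < ((range b).filter fun i => d ∣ 2 * i + 3).card by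
    unfold pole at h; omega)
  rw [mem_filter, mem_range] at hj
  have := Nat.le_of_dvd (by omega) hj.2
  exact ⟨(d - 3) / 2, by omega, by omega⟩

theorem exists_per {a b E : ℕ} (hb : 1 ≤ b) (hE : E + 2 * a + 2 * b + 1 = 2 * a * b) :
    ∃ per : ℕ → ℤ, (∀ m, PowerSeries.coeff m (Vser a b) +
      (if m ≤ E then PowerSeries.coeff (E - m) (Vser a b) else 0) = per m) ∧
      (∀ m, |(per m : ℝ) - LV a b| ≤ nu a b) ∧
      ∀ L, (∀ i < b, pole a b (2 * i + 3) → 2 * i + 3 ∣ L) → ∀ m, per (m + L) = per m := by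
  classical
  obtain ⟨P, hP⟩ := exists_P a b
  have hL := Lam_pos b
  have : NeZero (Lam b) := ⟨hL.ne'⟩
  have hdeg := (P_reflect hb hE hP).1
  have hdft := dft P hL (T := Lam b + E + 1) (by omega)
  set R := nthRootsFinset (Lam b) (1 : ℂ) with hR
  have hord : ∀ ζ ∈ R, ∃ d, d ∣ Lam b ∧ IsPrimitiveRoot ζ d := by
    intro ζ hζ
    rw [mem_nthRootsFinset hL] at hζ
    exact ⟨orderOf ζ, orderOf_dvd_of_pow_eq_one hζ, IsPrimitiveRoot.orderOf ζ⟩
  have hnz : ∀ ζ ∈ R, ζ ≠ 1 → aeval ζ P / Lam b ≠ 0 →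
      ∃ i < b, pole a b (2 * i + 3) ∧ IsPrimitiveRoot ζ (2 * i + 3) := by
    intro ζ hζ h1 h0
    obtain ⟨d, hd, hp⟩ := hord ζ hζ
    have hd1 : d ≠ 1 := by rintro rfl; exact h1 (IsPrimitiveRoot.one_right_iff.1 hp)
    have hodd := odd_of_dvd_Lam hd
    have hc := c_le (a := a) hb hP hp hd (by omega)
    by_cases hpole : pole a b d
    · obtain ⟨i, hi, rfl⟩ := pole_le hpole hd hd1
      exact ⟨i, hi, hpole, hp⟩
    · rw [if_neg hpole] at hc
      exact absurd (norm_le_zero_iff.1 hc) h0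
  refine ⟨_, V_reflect hb hE hP, fun m => ?_, fun L hLp m => ?_⟩
  · have h1 : (1 : ℂ) ∈ R := by rw [mem_nthRootsFinset hL, one_pow]
    have hone : aeval (1 : ℂ) P / Lam b = (LV a b : ℝ) := by
      have := P_eval (a := a) hP (IsPrimitiveRoot.one (M := ℂ)) (one_dvd _)
      rw [if_pos (by unfold pole; simp; omega)] at this
      simp only [tau, one_dvd, if_true, Nat.div_one, Nat.cast_one, div_one] at this
      rw [← Nat.cast_prod, ← Nat.cast_prod, ← Lam] at this
      have hL' : (Lam b : ℂ) ≠ 0 := by exact_mod_cast hL.ne'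
      rw [LV, Complex.ofReal_div, Complex.ofReal_natCast, Complex.ofReal_natCast,
        eq_div_iff hL', this]
    have h2 := hdft m
    rw [← add_sum_erase R _ h1, hone, inv_one, one_pow, mul_one] at h2
    rw [← Real.norm_eq_abs, ← Complex.norm_real, Complex.ofReal_sub, Complex.ofReal_intCast, h2,
      add_sub_cancel_left]
    refine (norm_sum_le _ _).trans ?_
    have h3 : ∑ ζ ∈ R.erase 1, ‖aeval ζ P / Lam b * ζ⁻¹ ^ m‖ ≤
        ∑ ζ ∈ (range b).biUnion fun i => primitiveRoots (2 * i + 3) ℂ, ‖aeval ζ P / Lam b‖ := by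
      rw [← sum_filter_ne_zero]
      refine le_trans (le_of_eq (sum_congr rfl fun ζ hζ => ?_))
        (sum_le_sum_of_subset_of_nonneg (f := fun ζ : ℂ => ‖aeval ζ P / Lam b‖) ?_
          fun _ _ _ => norm_nonneg _)
      · obtain ⟨d, hd, hp⟩ := hord ζ (mem_of_mem_erase (mem_filter.1 hζ).1)
        rw [norm_mul, norm_pow, norm_inv, hp.norm'_eq_one (Nat.pos_of_dvd_of_pos hd hL).ne']
        simp
      · intro ζ hζ
        rw [mem_filter, mem_erase] at hζ
        obtain ⟨i, hi, -, hp⟩ := hnz ζ hζ.1.2 hζ.1.1 (by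
          intro e; apply hζ.2; rw [e]; simp)
        exact mem_biUnion.2 ⟨i, mem_range.2 hi, (mem_primitiveRoots (by omega)).2 hp⟩
    refine h3.trans ?_
    rw [sum_biUnion (fun i _ j _ hij => IsPrimitiveRoot.disjoint (by omega))]
    refine sum_le_sum fun i hi => ?_
    have hd : 2 * i + 3 ∣ Lam b := dvd_prod_of_mem _ hi
    refine (sum_le_card_nsmul _ _ _ fun ζ hζ =>
      c_le (a := a) hb hP ((mem_primitiveRoots (by omega)).1 hζ) hd (by omega)).trans ?_
    rw [Complex.card_primitiveRoots, nsmul_eq_mul, Td]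
    split_ifs
    · have hF := Fd_pos (2 * i + 3) (by omega)
      gcongr
      have := Nat.totient_lt (2 * i + 3) (by omega)
      rw [le_sub_iff_add_le]; exact_mod_cast this
    · simp
  · have : ((∑ j ∈ range (Lam b + E + 1), if j ≡ m + L [MOD Lam b] then P.coeff j else 0 : ℤ) : ℂ) =
        ((∑ j ∈ range (Lam b + E + 1), if j ≡ m [MOD Lam b] then P.coeff j else 0 : ℤ) : ℂ) := by
      rw [hdft, hdft]
      refine sum_congr rfl fun ζ hζ => ?_
      by_cases h0 : aeval ζ P / Lam b = 0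
      · rw [h0]; simp
      by_cases h1 : ζ = 1
      · subst h1; simp
      obtain ⟨i, hi, hpole, hp⟩ := hnz ζ hζ h1 h0
      rw [pow_add, inv_pow ζ L, (hp.pow_eq_one_iff_dvd L).2 (hLp i hi hpole)]
      simp
    exact_mod_cast this

end Pool.Agent.Lib.MP_667609_co
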