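import Pool.Agent.Lib.MP_667609_co.CI
import Mathlib.RingTheory.Polynomial.Cyclotomic.Basic
import Mathlib.Algebra.Polynomial.Reverse
import Mathlib.RingTheory.RootsOfUnity.Complex

/-! The polynomial `(1 - q ^ Λ) V` and the reflection identity. -/

open Polynomial Finset

namespace Pool.Agent.Lib.MP_667609_co

def Lam (b : ℕ) : ℕ := ∏ i ∈ range b, (2 * i + 3)

noncomputable def Npoly (a b : ℕ) : ℤ[X] := ∏ i ∈ range b, (1 - X ^ (2 * a + 2 * i + 3))

noncomputable def Dpoly (b : ℕ) : ℤ[X] := ∏ i ∈ range b, (1 - X ^ (2 * i + 3))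

theorem Lam_pos (b : ℕ) : 0 < Lam b := prod_pos fun _ _ => by omega

theorem Lam_odd (b : ℕ) : Lam b % 2 = 1 := by
  induction b with
  | zero => rfl
  | succ n ih => rw [Lam, prod_range_succ, ← Lam, Nat.mul_mod, ih]; omega

theorem odd_of_dvd_Lam {b d : ℕ} (h : d ∣ Lam b) : d % 2 = 1 := by
  have := Lam_odd b
  obtain ⟨c, hc⟩ := h
  rcases Nat.mod_two_eq_zero_or_one d with h0 | h0
  · rw [hc, Nat.mul_mod, h0] at this; simp at this
  · exact h0

theorem count_le (d c b : ℕ) (hd : d % 2 = 1) :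
    ((range b).filter fun i => d ∣ 2 * i + c).card ≤ (b - 1) / d + 1 := by
  rw [← card_range ((b - 1) / d + 1)]
  refine card_le_card_of_injOn (fun i => i / d) ?_ ?_
  · intro i hi
    simp only [coe_filter, mem_range, Set.mem_ofPred_eq, coe_range, Set.mem_Iio] at hi ⊢
    exact Nat.lt_succ_of_le (Nat.div_le_div_right (by omega))
  · have key : ∀ i j, i ≤ j → d ∣ 2 * i + c → d ∣ 2 * j + c → i / d = j / d → i = j := by
      intro i j hij hi hj h
      have h1 : d ∣ 2 * (j - i) := by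
        have := Nat.dvd_sub hj hi
        rwa [show 2 * j + c - (2 * i + c) = 2 * (j - i) by omega] at this
      have h2 : d ∣ j - i := (Nat.Coprime.dvd_mul_left
        (Nat.odd_iff.2 hd).coprime_two_right).1 h1
      have h3 := Nat.div_add_mod i d
      have h4 := Nat.div_add_mod j d
      have h5 := Nat.mod_lt j (show 0 < d by omega)
      rw [h] at h3
      have h6 : j - i < d := by omega
      have := Nat.eq_zero_of_dvd_of_lt h2 h6
      omega
    intro i hi j hj h
    simp only [coe_filter, mem_range, Set.mem_ofPred_eq] at hi hj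
    rcases le_total i j with hij | hij
    · exact key i j hij hi.2 hj.2 h
    · exact (key j i hij hj.2 hi.2 h.symm).symm

theorem count_le' (a b d : ℕ) (hd : d % 2 = 1) :
    ((range b).filter fun i => d ∣ 2 * i + 3).card ≤
      ((range (b - 1)).filter fun i => d ∣ 2 * a + 2 * i + 3).card + 1 := by
  refine (count_le d 3 b hd).trans (Nat.add_le_add_right ?_ 1)
  have := card_filter_odd d (2 * a + 3) (b - 1) hd
  convert this using 3
  ring_nf

theorem exists_P (a b : ℕ) : ∃ P : ℤ[X], P * Dpoly b = (1 - X ^ Lam b) * Npoly a (b - 1) := by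
  set A : ℕ → ℤ[X] := fun n => ∏ d ∈ (Lam b).divisors, if d ∣ n then cyclotomic d ℤ else 1 with hA
  have h1 : ∀ n, 0 < n → A n ∣ 1 - X ^ n := by
    intro n hn
    rw [← neg_sub, dvd_neg, ← prod_cyclotomic_eq_X_pow_sub_one hn]
    simp only [hA]
    rw [← prod_filter]
    refine prod_dvd_prod_of_subset _ _ _ fun d hd => ?_
    rw [mem_filter] at hd
    exact Nat.mem_divisors.2 ⟨hd.2, hn.ne'⟩
  have h2 : ∀ n, n ∣ Lam b → 1 - X ^ n ∣ A n := by
    intro n hn
    have hn0 : 0 < n := Nat.pos_of_dvd_of_pos hn (Lam_pos b)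
    rw [← neg_sub, neg_dvd, ← prod_cyclotomic_eq_X_pow_sub_one hn0]
    simp only [hA]
    rw [← prod_filter]
    refine prod_dvd_prod_of_subset _ _ _ fun d hd => ?_
    rw [Nat.mem_divisors] at hd
    exact mem_filter.2 ⟨Nat.mem_divisors.2 ⟨hd.1.trans hn, (Lam_pos b).ne'⟩, hd.1⟩
  have h3 : ∀ (n : ℕ) (e : ℕ → ℕ), ∏ i ∈ range n, A (e i) =
      ∏ d ∈ (Lam b).divisors, cyclotomic d ℤ ^ ((range n).filter fun i => d ∣ e i).card := by
    intro n e
    simp only [hA]
    rw [prod_comm]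
    exact prod_congr rfl fun d _ => by rw [← prod_filter, prod_const]
  have h4 : A (Lam b) = ∏ d ∈ (Lam b).divisors, cyclotomic d ℤ :=
    prod_congr rfl fun d hd => if_pos (Nat.mem_divisors.1 hd).1
  have : Dpoly b ∣ (1 - X ^ Lam b) * Npoly a (b - 1) := by
    calc Dpoly b ∣ ∏ i ∈ range b, A (2 * i + 3) :=
          prod_dvd_prod_of_dvd _ _ fun i hi => h2 _ (dvd_prod_of_mem _ hi)
      _ ∣ A (Lam b) * ∏ i ∈ range (b - 1), A (2 * a + 2 * i + 3) := by
          rw [h3, h3, h4, ← prod_mul_distrib]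
          refine prod_dvd_prod_of_dvd _ _ fun d hd => ?_
          rw [← pow_succ']
          exact pow_dvd_pow _ (count_le' a b d (odd_of_dvd_Lam (Nat.mem_divisors.1 hd).1))
      _ ∣ _ := mul_dvd_mul (h1 _ (Lam_pos b))
          (prod_dvd_prod_of_dvd _ _ fun i _ => h1 _ (by omega))
  obtain ⟨P, hP⟩ := this
  exact ⟨P, by rw [hP, mul_comm]⟩

theorem natDegree_one_sub {n : ℕ} (_hn : 0 < n) : (1 - X ^ n : ℤ[X]).natDegree = n := by
  rw [← neg_sub, natDegree_neg]; exact natDegree_X_pow_sub_C (r := 1)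

theorem one_sub_ne {n : ℕ} (hn : 0 < n) : (1 - X ^ n : ℤ[X]) ≠ 0 := by
  intro h; have := natDegree_one_sub hn; rw [h] at this; simp at this; omega

theorem prod_facts (e : ℕ → ℕ) (he : ∀ i, 0 < e i) (n : ℕ) :
    (∏ i ∈ range n, (1 - X ^ e i : ℤ[X])).natDegree = ∑ i ∈ range n, e i ∧
    reflect (∑ i ∈ range n, e i) (∏ i ∈ range n, (1 - X ^ e i : ℤ[X])) =
      (-1) ^ n * ∏ i ∈ range n, (1 - X ^ e i) := by
  have hd : ∀ n, (∏ i ∈ range n, (1 - X ^ e i : ℤ[X])).natDegree = ∑ i ∈ range n, e i := by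
    intro n
    rw [natDegree_prod _ _ fun i _ => one_sub_ne (he i)]
    exact sum_congr rfl fun i _ => natDegree_one_sub (he i)
  refine ⟨hd n, ?_⟩
  induction n with
  | zero => simp
  | succ n ih =>
    rw [sum_range_succ, prod_range_succ,
      reflect_mul _ _ (hd n).le (natDegree_one_sub (he n)).le, ih]
    simp; ring

theorem sum_s (a n : ℕ) : ∑ i ∈ range n, (2 * a + 2 * i + 3) = n * (2 * a + n + 2) := by
  induction n with
  | zero => simp
  | succ n ih => rw [sum_range_succ, ih]; ring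

theorem sum_u (n : ℕ) : ∑ i ∈ range n, (2 * i + 3) = n * (n + 2) := by
  simpa using sum_s 0 n

theorem P_reflect {a b E : ℕ} (hb : 1 ≤ b) (hE : E + 2 * a + 2 * b + 1 = 2 * a * b) {P : ℤ[X]}
    (hP : P * Dpoly b = (1 - X ^ Lam b) * Npoly a (b - 1)) :
    P.natDegree = Lam b + E ∧ reflect (Lam b + E) P = P := by
  obtain ⟨c, rfl⟩ : ∃ c, b = c + 1 := ⟨b - 1, by omega⟩
  simp only [Nat.add_sub_cancel] at hP
  obtain ⟨d1, r1⟩ := prod_facts (fun i => 2 * i + 3) (fun i => by omega) (c + 1)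
  obtain ⟨d2, r2⟩ := prod_facts (fun i => 2 * a + 2 * i + 3) (fun i => by omega) c
  rw [sum_u] at d1 r1
  rw [sum_s] at d2 r2
  change (Dpoly (c + 1)).natDegree = _ at d1
  change reflect _ (Dpoly (c + 1)) = _ * Dpoly (c + 1) at r1
  change (Npoly a c).natDegree = _ at d2
  change reflect _ (Npoly a c) = _ * Npoly a c at r2
  have hD : Dpoly (c + 1) ≠ 0 := prod_ne_zero_iff.2 fun i _ => one_sub_ne (by omega)
  have hN : Npoly a c ≠ 0 := prod_ne_zero_iff.2 fun i _ => one_sub_ne (by omega)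
  have hL := one_sub_ne (Lam_pos (c + 1))
  have hP0 : P ≠ 0 := by
    rintro rfl; rw [zero_mul] at hP; exact mul_ne_zero hL hN hP.symm
  have hsum : Lam (c + 1) + E + (c + 1) * (c + 1 + 2) = Lam (c + 1) + c * (2 * a + c + 2) := by
    nlinarith
  have hdeg : P.natDegree = Lam (c + 1) + E := by
    have := congrArg natDegree hP
    rw [natDegree_mul hP0 hD, natDegree_mul hL hN, d1, d2, natDegree_one_sub (Lam_pos _)] at this
    omega
  refine ⟨hdeg, ?_⟩
  have h1 := reflect_mul P (Dpoly (c + 1)) hdeg.le d1.le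
  rw [hP, hsum, reflect_mul _ _ (natDegree_one_sub (Lam_pos _)).le d2.le, r1, r2] at h1
  apply mul_right_cancel₀ (b := (-1) ^ (c + 1) * Dpoly (c + 1))
    (mul_ne_zero (pow_ne_zero _ (by simp)) hD)
  rw [← h1, mul_left_comm P, hP]
  simp; ring

theorem P_series {a b : ℕ} {P : ℤ[X]} (hP : P * Dpoly b = (1 - X ^ Lam b) * Npoly a (b - 1)) :
    Vser a b = (P : PowerSeries ℤ) * geo (Lam b) := by
  have h := congrArg Polynomial.coeToPowerSeries.ringHom hP
  simp only [map_mul, Dpoly, Npoly, map_prod, map_sub, map_one, map_pow,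
    Polynomial.coeToPowerSeries.ringHom_apply, Polynomial.coe_X] at h
  have h1 : Pser b * ∏ i ∈ range b, (1 - PowerSeries.X ^ (2 * i + 3)) = 1 := by
    rw [Pser, ← prod_mul_distrib]
    exact prod_eq_one fun i _ => geo_mul (by omega)
  have h2 := geo_mul (Lam_pos b)
  rw [Vser, Nser]
  linear_combination (-(geo (Lam b)) * Pser b) * h + (P : PowerSeries ℤ) * geo (Lam b) * h1 -
    (∏ i ∈ range (b - 1), (1 - PowerSeries.X ^ (2 * a + 2 * i + 3))) * Pser b * h2

theorem coeff_mul_geo (P : ℤ[X]) (L m : ℕ) : PowerSeries.coeff m ((P : PowerSeries ℤ) * geo L) =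
    ∑ j ∈ range (m + 1), if j ≡ m [MOD L] then P.coeff j else 0 := by
  rw [PowerSeries.coeff_mul, Finset.Nat.sum_antidiagonal_eq_sum_range_succ_mk]
  refine sum_congr rfl fun j hj => ?_
  have : j ≤ m := Nat.lt_succ_iff.1 (mem_range.1 hj)
  simp [geo, Nat.modEq_iff_dvd' this]

theorem V_reflect {a b E : ℕ} (hb : 1 ≤ b) (hE : E + 2 * a + 2 * b + 1 = 2 * a * b) {P : ℤ[X]}
    (hP : P * Dpoly b = (1 - X ^ Lam b) * Npoly a (b - 1)) (m : ℕ) :
    PowerSeries.coeff m (Vser a b) + (if m ≤ E then PowerSeries.coeff (E - m) (Vser a b) else 0) =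
      ∑ j ∈ range (Lam b + E + 1), if j ≡ m [MOD Lam b] then P.coeff j else 0 := by
  obtain ⟨hdeg, hrefl⟩ := P_reflect hb hE hP
  have hL := Lam_pos b
  set L := Lam b with hLdef
  set f : ℕ → ℤ := fun j => if j ≡ m [MOD L] then P.coeff j else 0 with hf
  have hsplit : ∀ T, m + 1 ≤ T → L + E + 1 ≤ T → ∑ j ∈ range (L + E + 1), f j =
      ∑ j ∈ range (m + 1), f j + ∑ j ∈ Ico (m + 1) T, f j := by
    intro T h1 h2
    rw [sum_range_add_sum_Ico _ h1]
    refine sum_subset (range_subset_range.2 h2) fun j _ hj => ?_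
    have : P.coeff j = 0 := coeff_eq_zero_of_natDegree_lt (by simp at hj; omega)
    simp [hf, this]
  have hgap : ∀ j, m < j → j < m + L → f j = 0 := by
    intro j h1 h2
    have : ¬ j ≡ m [MOD L] := by
      intro h
      have := Nat.le_of_dvd (by omega) ((Nat.modEq_iff_dvd' h1.le).1 h.symm)
      omega
    simp [hf, this]
  rw [P_series hP, coeff_mul_geo]
  split_ifs with hm
  · rw [hsplit (L + E + 1) (by omega) le_rfl, coeff_mul_geo]
    congr 1
    rw [← sum_subset (s₁ := Ico (m + L) (L + E + 1)) (Ico_subset_Ico (by omega) le_rfl)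
      (fun j hj hj' => hgap j (by simp at hj; omega) (by simp at hj hj'; omega))]
    refine sum_nbij' (fun j => L + E - j) (fun j => L + E - j) ?_ ?_ ?_ ?_ ?_
    · intro j hj; simp at hj ⊢; omega
    · intro j hj; simp at hj ⊢; omega
    · intro j hj; simp at hj ⊢; omega
    · intro j hj; simp at hj ⊢; omega
    · intro j hj
      have hj' : j ≤ E - m := Nat.lt_succ_iff.1 (mem_range.1 hj)
      have e1 : P.coeff j = P.coeff (L + E - j) := by
        conv_lhs => rw [← hrefl, coeff_reflect, revAt_le (by omega)]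
      have e2 : j ≡ E - m [MOD L] ↔ L + E - j ≡ m [MOD L] := by
        rw [Nat.modEq_iff_dvd' hj', Nat.ModEq.comm, Nat.modEq_iff_dvd' (by omega),
          show L + E - j - m = L + (E - m - j) by omega, Nat.dvd_add_right (dvd_refl L)]
      simp only [hf, e1, ← hLdef, e2]
  · rw [hsplit (m + L) (by omega) (by omega), add_zero,
      sum_eq_zero (s := Ico (m + 1) (m + L)) (fun j hj => hgap j (by simp at hj; omega)
        (by simp at hj; omega)), add_zero]

theorem dft (P : ℤ[X]) {L T : ℕ} (hL : 0 < L) (hT : P.natDegree < T) (m : ℕ) :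
    ((∑ j ∈ range T, if j ≡ m [MOD L] then P.coeff j else 0 : ℤ) : ℂ) =
      ∑ ζ ∈ nthRootsFinset L (1 : ℂ), aeval ζ P / L * ζ⁻¹ ^ m := by
  have hω := Complex.isPrimitiveRoot_exp L hL.ne'
  set ω := Complex.exp (2 * Real.pi * Complex.I / L)
  have : NeZero L := ⟨hL.ne'⟩
  have hω0 : ω ≠ 0 := hω.ne_zero hL.ne'
  have himg : nthRootsFinset L (1 : ℂ) = (range L).image (ω ^ ·) := by
    ext x
    rw [mem_nthRootsFinset hL, mem_image]
    constructor
    · intro hx
      obtain ⟨i, hi, h⟩ := hω.eq_pow_of_pow_eq_one hx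
      exact ⟨i, mem_range.2 hi, h⟩
    · rintro ⟨i, -, rfl⟩
      rw [← pow_mul, mul_comm, pow_mul, hω.pow_eq_one, one_pow]
  have orth : ∀ j : ℕ, ∑ i ∈ range L, (ω ^ i) ^ j * (ω ^ i)⁻¹ ^ m =
      if j ≡ m [MOD L] then (L : ℂ) else 0 := by
    intro j
    have e : ∀ i, (ω ^ i) ^ j * (ω ^ i)⁻¹ ^ m = (ω ^ j * ω⁻¹ ^ m) ^ i := by
      intro i; rw [mul_pow, ← inv_pow, ← pow_mul, ← pow_mul, ← pow_mul, ← pow_mul, mul_comm i j,
        mul_comm i m]
    simp only [e]
    have hx : ω ^ j * ω⁻¹ ^ m = 1 ↔ j ≡ m [MOD L] := by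
      rw [inv_pow, mul_inv_eq_one₀ (pow_ne_zero _ hω0),
        (hω.isOfFinOrder hL.ne').pow_eq_pow_iff_modEq, ← hω.eq_orderOf]
    split_ifs with h
    · rw [hx.2 h]; simp
    · have hne : ω ^ j * ω⁻¹ ^ m ≠ 1 := fun e => h (hx.1 e)
      rw [geom_sum_eq hne, mul_pow, ← pow_mul, ← pow_mul, mul_comm j, mul_comm m, pow_mul, pow_mul,
        inv_pow, hω.pow_eq_one]
      simp
  rw [himg, sum_image (fun i hi j hj h => hω.pow_inj (mem_range.1 hi) (mem_range.1 hj) h)]
  simp only [aeval_eq_sum_range' hT, sum_div, sum_mul]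
  rw [sum_comm]
  push_cast
  refine sum_congr rfl fun j _ => ?_
  have hL' : (L : ℂ) ≠ 0 := by exact_mod_cast hL.ne'
  have : ∀ i, P.coeff j • (ω ^ i) ^ j / L * (ω ^ i)⁻¹ ^ m =
      (P.coeff j : ℂ) / L * ((ω ^ i) ^ j * (ω ^ i)⁻¹ ^ m) := by
    intro i; rw [zsmul_eq_mul]; ring
  simp only [this]
  rw [← mul_sum, orth]
  split_ifs
  · field_simp
  · simp

end Pool.Agent.Lib.MP_667609_co
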