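import Pool.Agent.Lib.MP_667609_co.Per
import Mathlib.RingTheory.RootsOfUnity.Lemmas
import Mathlib.Analysis.SpecialFunctions.Trigonometric.Bounds
import Mathlib.Analysis.Convex.SpecificFunctions.Deriv

/-! Products of `|1 - ζ ^ j|` over intervals. -/

open Finset

namespace Pool.Agent.Lib.MP_667609_co

noncomputable def gz (ζ : ℂ) (d n : ℕ) : ℝ := if d ∣ n then 1 else ‖1 - ζ ^ n‖

noncomputable def QQ (η : ℂ) (d x : ℕ) : ℝ := ∏ j ∈ range x, gz η d (j + 1)

/-- The constant `∏_{j ≤ d / 6} 6 j / d`. -/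
noncomputable def Fd (d : ℕ) : ℝ := 6 ^ (d / 6) * (d / 6).factorial / d ^ (d / 6)

theorem gz_pos {ζ : ℂ} {d : ℕ} (h : IsPrimitiveRoot ζ d) (n : ℕ) : 0 < gz ζ d n := by
  unfold gz; split_ifs with hn
  · exact one_pos
  · rw [norm_pos_iff, sub_ne_zero]
    exact fun e => hn ((h.pow_eq_one_iff_dvd n).1 e.symm)

theorem QQ_pos {ζ : ℂ} {d : ℕ} (h : IsPrimitiveRoot ζ d) (n : ℕ) : 0 < QQ ζ d n :=
  prod_pos fun _ _ => gz_pos h _

theorem gz_add {ζ : ℂ} {d : ℕ} (h : IsPrimitiveRoot ζ d) (n : ℕ) : gz ζ d (n + d) = gz ζ d n := by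
  simp [gz, pow_add, h.pow_eq_one]

theorem gz_sub {ζ : ℂ} {d : ℕ} (h : IsPrimitiveRoot ζ d) (hd : 0 < d) {n : ℕ} (hn : n ≤ d) :
    gz ζ d (d - n) = gz ζ d n := by
  have h1 : d ∣ d - n ↔ d ∣ n := by
    constructor
    · intro h2; have := Nat.dvd_sub (dvd_refl d) h2; rwa [Nat.sub_sub_self hn] at this
    · intro h2; exact Nat.dvd_sub (dvd_refl d) h2
  unfold gz
  simp only [h1]
  split_ifs
  · rfl
  · have h2 : ‖ζ ^ n‖ = 1 := by rw [norm_pow, h.norm'_eq_one hd.ne', one_pow]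
    have h3 : ζ ^ n * ζ ^ (d - n) = 1 := by rw [← pow_add, Nat.add_sub_cancel' hn, h.pow_eq_one]
    calc ‖1 - ζ ^ (d - n)‖ = ‖ζ ^ n * (1 - ζ ^ (d - n))‖ := by rw [norm_mul, h2, one_mul]
      _ = _ := by rw [mul_sub, h3, mul_one, norm_sub_rev]

theorem gz_le {ζ : ℂ} {d : ℕ} (h : IsPrimitiveRoot ζ d) (hd : 0 < d) (n : ℕ) : gz ζ d n ≤ 2 := by
  unfold gz; split_ifs
  · norm_num
  · refine (norm_sub_le _ _).trans ?_
    rw [norm_pow, h.norm'_eq_one hd.ne']; norm_num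

theorem QQ_pred {ζ : ℂ} {d : ℕ} (h : IsPrimitiveRoot ζ d) (hd : 0 < d) : QQ ζ d (d - 1) = d := by
  obtain ⟨e, rfl⟩ : ∃ e, d = e + 1 := ⟨d - 1, by omega⟩
  have := congrArg norm h.prod_one_sub_pow_eq_order
  rw [norm_prod] at this
  rw [QQ, Nat.add_sub_cancel]
  rw [show ((e : ℂ) + 1) = ((e + 1 : ℕ) : ℂ) by push_cast; rfl, Complex.norm_natCast] at this
  rw [← this]
  refine prod_congr rfl fun j hj => if_neg fun h => ?_
  have := Nat.le_of_dvd (by omega) h
  simp at hj; omega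

theorem QQ_add {ζ : ℂ} {d : ℕ} (h : IsPrimitiveRoot ζ d) (hd : 0 < d) (x : ℕ) :
    QQ ζ d (x + d) = d * QQ ζ d x := by
  induction x with
  | zero =>
    have := QQ_pred h hd
    obtain ⟨e, rfl⟩ : ∃ e, d = e + 1 := ⟨d - 1, by omega⟩
    rw [Nat.add_sub_cancel] at this
    rw [zero_add, QQ, prod_range_succ, ← QQ, this]
    simp [gz, QQ]
  | succ x ih =>
    rw [show x + 1 + d = x + d + 1 by ring, QQ, prod_range_succ, ← QQ, ih, QQ, QQ, prod_range_succ,
      show x + d + 1 = x + 1 + d by ring, gz_add h]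
    ring

theorem QQ_mod {ζ : ℂ} {d : ℕ} (h : IsPrimitiveRoot ζ d) (hd : 0 < d) (x : ℕ) :
    QQ ζ d x = d ^ (x / d) * QQ ζ d (x % d) := by
  have : ∀ q r, QQ ζ d (r + d * q) = d ^ q * QQ ζ d r := by
    intro q r
    induction q with
    | zero => simp
    | succ q ih => rw [mul_add, mul_one, ← add_assoc, QQ_add h hd, ih]; ring
  rw [← this, Nat.mod_add_div]

theorem QQ_refl {ζ : ℂ} {d : ℕ} (h : IsPrimitiveRoot ζ d) {x : ℕ} (hx : x < d) :
    QQ ζ d x = ∏ j ∈ Ico (d - x) d, gz ζ d j := by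
  rw [QQ]
  refine prod_nbij' (fun j => d - (j + 1)) (fun j => d - j - 1) ?_ ?_ ?_ ?_ ?_
  · intro j hj; simp at hj ⊢; omega
  · intro j hj; simp at hj ⊢; omega
  · intro j hj; simp at hj ⊢; omega
  · intro j hj; simp at hj ⊢; omega
  · intro j hj; rw [gz_sub h (by omega) (by simp at hj; omega)]

theorem QQ_Ico (ζ : ℂ) (d x : ℕ) : QQ ζ d x = ∏ j ∈ Ico 1 (x + 1), gz ζ d j := by
  rw [QQ, prod_Ico_eq_prod_range]; simp [add_comm]

theorem QQ_mul {ζ : ℂ} {d : ℕ} (h : IsPrimitiveRoot ζ d) {r : ℕ} (hr : r < d) :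
    QQ ζ d r * QQ ζ d (d - 1 - r) = d := by
  rw [← QQ_pred h (by omega), QQ_refl h (x := d - 1 - r) (by omega), QQ_Ico, QQ_Ico,
    show d - (d - 1 - r) = r + 1 by omega, show d - 1 + 1 = d by omega]
  exact prod_Ico_consecutive _ (by omega) (by omega)

theorem two_sin_ge {φ : ℝ} (h0 : 0 ≤ φ) (h1 : φ ≤ Real.pi / 2) :
    min 1 (6 * φ / Real.pi) ≤ 2 * Real.sin φ := by
  have hpi := Real.pi_pos
  by_cases h : φ ≤ Real.pi / 6
  · refine (min_le_right _ _).trans ?_
    have hc := strictConcaveOn_sin_Icc.concaveOn.2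
    have := hc (x := 0) ⟨le_rfl, hpi.le⟩ (y := Real.pi / 6) ⟨by positivity, by linarith⟩
      (a := 1 - 6 * φ / Real.pi) (b := 6 * φ / Real.pi)
      (by rw [sub_nonneg, div_le_one hpi]; linarith) (by positivity) (by ring)
    simp only [smul_eq_mul, Real.sin_zero, mul_zero, zero_add, Real.sin_pi_div_six] at this
    rw [show 6 * φ / Real.pi * (Real.pi / 6) = φ by field_simp] at this
    linarith
  · refine (min_le_left _ _).trans ?_
    have := Real.sin_le_sin_of_le_of_le_pi_div_two (x := Real.pi / 6) (y := φ) (by linarith) h1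
      (by linarith)
    rw [Real.sin_pi_div_six] at this; linarith

theorem Fd_pos (d : ℕ) (hd : 0 < d) : 0 < Fd d := by unfold Fd; positivity

theorem Fd_eq {d : ℕ} (hd : 0 < d) : ∏ j ∈ Ico 1 d, min 1 (6 * (j : ℝ) / d) = Fd d := by
  have hd' : (0 : ℝ) < d := by exact_mod_cast hd
  have h1 : d / 6 + 1 ≤ d := by omega
  rw [← prod_Ico_consecutive _ (show 1 ≤ d / 6 + 1 by omega) h1,
    prod_eq_one (s := Ico (d / 6 + 1) d), mul_one]
  · rw [prod_congr rfl (g := fun j : ℕ => 6 * (j : ℝ) / d)]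
    · rw [prod_div_distrib, prod_mul_distrib, prod_const, prod_const, Nat.card_Ico,
        Nat.add_sub_cancel, ← Nat.cast_prod, prod_Ico_id_eq_factorial, Fd]
    · intro j hj
      refine min_eq_right ?_
      rw [div_le_one hd']
      have : 6 * j ≤ d := by simp at hj; omega
      exact_mod_cast this
  · intro j hj
    refine min_eq_left ?_
    rw [le_div_iff₀ hd', one_mul]
    have : d ≤ 6 * j := by simp at hj; omega
    exact_mod_cast this

theorem Fd_le_one {d : ℕ} (hd : 0 < d) : Fd d ≤ 1 := by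
  rw [← Fd_eq hd]
  exact prod_le_one (fun j _ => by positivity) fun j _ => min_le_left _ _

theorem Fd_ge {d : ℕ} (hd : 0 < d) : Real.exp (-(d / 6 : ℝ)) ≤ Fd d := by
  have hd' : (0 : ℝ) < d := by exact_mod_cast hd
  have := Real.pow_div_factorial_le_exp (d / 6 : ℝ) (by positivity) (d / 6)
  rw [Real.exp_neg, inv_le_comm₀ (Real.exp_pos _) (Fd_pos d hd)]
  refine le_trans (le_of_eq ?_) this
  rw [Fd, div_pow]; field_simp

theorem prod_min_ge {ζ : ℂ} {d : ℕ} (h : IsPrimitiveRoot ζ d) (hd : 0 < d) :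
    Fd d ^ 2 ≤ ∏ j ∈ Ico 1 d, min 1 (gz ζ d j) := by
  classical
  have hω := Complex.isPrimitiveRoot_exp d hd.ne'
  set ω := Complex.exp (2 * Real.pi * Complex.I / d) with hωd
  have : NeZero d := ⟨hd.ne'⟩
  have key : ∀ ξ : ℂ, IsPrimitiveRoot ξ d → ∏ j ∈ Ico 1 d, min 1 (gz ξ d j) =
      ∏ x ∈ (Polynomial.nthRootsFinset d (1 : ℂ)).erase 1, min 1 ‖1 - x‖ := by
    intro ξ hξ
    refine prod_bij (fun j _ => ξ ^ j) ?_ ?_ ?_ ?_
    · intro j hj
      rw [mem_Ico] at hj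
      rw [mem_erase, Polynomial.mem_nthRootsFinset hd]
      refine ⟨hξ.pow_ne_one_of_pos_of_lt (by omega) hj.2, ?_⟩
      rw [← pow_mul, mul_comm, pow_mul, hξ.pow_eq_one, one_pow]
    · intro i hi j hj e
      exact hξ.pow_inj (mem_Ico.1 hi).2 (mem_Ico.1 hj).2 e
    · intro x hx
      rw [mem_erase, Polynomial.mem_nthRootsFinset hd] at hx
      obtain ⟨i, hi, e⟩ := hξ.eq_pow_of_pow_eq_one hx.2
      refine ⟨i, mem_Ico.2 ⟨?_, hi⟩, e⟩
      rcases Nat.eq_zero_or_pos i with rfl | h0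
      · exact absurd (by simpa using e.symm) hx.1
      · exact h0
    · intro j hj
      rw [mem_Ico] at hj
      rw [gz, if_neg fun h => by have := Nat.le_of_dvd (by omega) h; omega]
  rw [key ζ h, ← key ω hω, sq]
  have hd' : (0 : ℝ) < d := by exact_mod_cast hd
  have e2 : Fd d = ∏ j ∈ Ico 1 d, min 1 (6 * ((d - j : ℕ) : ℝ) / d) := by
    rw [← Fd_eq hd]
    refine prod_nbij' (fun j => d - j) (fun j => d - j) ?_ ?_ ?_ ?_ ?_
    · intro j hj; simp at hj ⊢; omega
    · intro j hj; simp at hj ⊢; omega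
    · intro j hj; simp at hj ⊢; omega
    · intro j hj; simp at hj ⊢; omega
    · intro j hj; rw [Nat.sub_sub_self (by simp at hj; omega)]
  nth_rw 1 [← Fd_eq hd]
  rw [e2, ← prod_mul_distrib]
  have half : ∀ j, 1 ≤ j → 2 * j ≤ d → min 1 (6 * (j : ℝ) / d) ≤ min 1 (gz ω d j) := by
    intro j h1 h2
    refine le_min (min_le_left _ _) ?_
    rw [gz, if_neg fun h => by have := Nat.le_of_dvd (by omega) h; omega]
    have e : ω ^ j = Complex.exp (Complex.I * ((2 * (Real.pi * j / d) : ℝ) : ℂ)) := by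
      rw [hωd, ← Complex.exp_nat_mul]; congr 1; push_cast; ring
    have h2' : (2 * j : ℝ) ≤ d := by exact_mod_cast h2
    have hpi := Real.pi_pos
    rw [e, norm_sub_rev, Complex.norm_exp_I_mul_ofReal_sub_one, mul_div_cancel_left₀ _ two_ne_zero]
    have := two_sin_ge (φ := Real.pi * j / d) (by positivity)
      (by rw [div_le_div_iff₀ hd' two_pos]; nlinarith)
    rw [show 6 * (Real.pi * j / d) / Real.pi = 6 * j / d by field_simp] at this
    exact this.trans (le_abs_self _)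
  refine prod_le_prod (fun j _ => by positivity) fun j hj => ?_
  rw [mem_Ico] at hj
  by_cases h2 : 2 * j ≤ d
  · exact (mul_le_of_le_one_right (by positivity) (min_le_left _ _)).trans (half j hj.1 h2)
  · refine (mul_le_of_le_one_left (by positivity) (min_le_left _ _)).trans ?_
    rw [← gz_sub hω hd hj.2.le]
    exact half (d - j) (by omega) (by omega)

theorem prod_sub_ge {ζ : ℂ} {d : ℕ} (h : IsPrimitiveRoot ζ d) (hd : 0 < d) {T : Finset ℕ}
    (hT : T ⊆ Ico 1 d) : Fd d ^ 2 ≤ ∏ j ∈ T, gz ζ d j := by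
  refine (prod_min_ge h hd).trans (le_trans ?_
    (prod_le_prod (fun j _ => le_min zero_le_one (gz_pos h j).le) fun j _ => min_le_right 1 _))
  exact prod_le_prod_of_subset_of_le_one hT (fun j _ => le_min zero_le_one (gz_pos h j).le)
    fun j _ _ => min_le_left _ _

theorem QQ_ge {ζ : ℂ} {d : ℕ} (h : IsPrimitiveRoot ζ d) {x : ℕ} (hx : 2 * x < d) :
    Fd d ≤ QQ ζ d x := by
  have hd : 0 < d := by omega
  refine (pow_le_pow_iff_left₀ (Fd_pos d hd).le (QQ_pos h x).le two_ne_zero).1 ?_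
  rw [sq (QQ _ _ _)]
  nth_rw 1 [QQ_Ico]
  rw [QQ_refl h (by omega), ← prod_union]
  · refine prod_sub_ge h hd fun j hj => ?_
    simp at hj ⊢; omega
  · rw [disjoint_left]; intro j h1 h2; simp at h1 h2; omega

theorem QQ_ge' {ζ : ℂ} {d : ℕ} (h : IsPrimitiveRoot ζ d) {x : ℕ} (hx : x < d) :
    Fd d ^ 2 ≤ QQ ζ d x := by
  rw [QQ_Ico]
  refine prod_sub_ge h (by omega) fun j hj => ?_
  simp at hj ⊢; omega

theorem QQ_three {ζ : ℂ} {d h x y z : ℕ} (hζ : IsPrimitiveRoot ζ d) (hd : d = 2 * h + 1)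
    (h1 : 1 ≤ h) (hs : x + y + z = h + 1) : Fd d ^ 3 ≤ QQ ζ d x * QQ ζ d y * QQ ζ d z := by
  have hF := Fd_pos d (by omega)
  have hF1 := Fd_le_one (d := d) (by omega)
  have big : Fd d ^ 3 ≤ QQ ζ d (h + 1) :=
    le_trans (pow_le_pow_of_le_one hF.le hF1 (by norm_num)) (QQ_ge' hζ (by omega))
  have z0 : QQ ζ d 0 = 1 := by simp [QQ]
  by_cases hx : x = h + 1
  · rw [hx, show y = 0 by omega, show z = 0 by omega, z0]; simpa using big
  by_cases hy : y = h + 1
  · rw [hy, show x = 0 by omega, show z = 0 by omega, z0]; simpa using big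
  by_cases hz : z = h + 1
  · rw [hz, show x = 0 by omega, show y = 0 by omega, z0]; simpa using big
  have a1 := QQ_ge hζ (x := x) (by omega)
  have a2 := QQ_ge hζ (x := y) (by omega)
  have a3 := QQ_ge hζ (x := z) (by omega)
  calc Fd d ^ 3 = Fd d * Fd d * Fd d := by ring
    _ ≤ _ := by gcongr <;> first | exact (QQ_pos hζ _).le | exact (mul_pos (QQ_pos hζ _) (QQ_pos hζ _)).le

theorem count_shift (d c n : ℕ) :
    ((range n).filter fun i => d ∣ c + i + 1).card + c / d = (c + n) / d := by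
  induction n with
  | zero => simp
  | succ n ih =>
    rw [range_add_one, filter_insert, ← add_assoc, Nat.succ_div]
    split_ifs with h
    · rw [card_insert_of_notMem (by simp)]; omega
    · omega

theorem QQ_shift (η : ℂ) (d c n : ℕ) :
    QQ η d (c + n) = QQ η d c * ∏ i ∈ range n, gz η d (c + i + 1) := by
  rw [QQ, prod_range_add, ← QQ]

theorem ratio_le {ζ : ℂ} {d a b : ℕ} (hζ : IsPrimitiveRoot ζ d) (hd : d % 2 = 1) (hd3 : 3 ≤ d)
    (hb : 1 ≤ b)
    (hpole : ((range b).filter fun i => d ∣ 2 * i + 3).card =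
      ((range (b - 1)).filter fun i => d ∣ 2 * a + 2 * i + 3).card + 1) :
    (∏ i ∈ range (b - 1), gz ζ d (2 * a + 2 * i + 3)) * Fd d ^ 3 ≤
      2 * √d * ∏ i ∈ range b, gz ζ d (2 * i + 3) := by
  obtain ⟨h, hh⟩ : ∃ h, d = 2 * h + 1 := ⟨d / 2, by omega⟩
  have hd0 : 0 < d := by omega
  have hco : Nat.Coprime 2 d := (Nat.odd_iff.2 hd).coprime_two_left
  have hη := hζ.pow_of_coprime 2 hco
  have hdvd : ∀ i, d ∣ 2 * i + 3 ↔ d ∣ h + 1 + i + 1 := by
    intro i
    rw [← hco.symm.dvd_mul_left (n := h + 1 + i + 1),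
      show 2 * (h + 1 + i + 1) = 2 * i + 3 + d by omega, Nat.dvd_add_left (dvd_refl d)]
  have hg : ∀ i, gz ζ d (2 * i + 3) = gz (ζ ^ 2) d (h + 1 + i + 1) := by
    intro i
    unfold gz
    simp only [hdvd]
    rw [← pow_mul, show 2 * (h + 1 + i + 1) = 2 * i + 3 + d by omega, pow_add _ _ d,
      hζ.pow_eq_one, mul_one]
  have es : ∀ i, 2 * a + 2 * i + 3 = 2 * (a + i) + 3 := fun i => by ring
  have es' : ∀ i, h + 1 + (a + i) + 1 = h + 1 + a + i + 1 := fun i => by ring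
  simp only [es, hdvd, hg, es'] at hpole ⊢
  set η := ζ ^ 2
  have c1 := count_shift d (h + 1) b
  have c2 := count_shift d (h + 1 + a) (b - 1)
  have q1 := QQ_shift η d (h + 1) b
  have q2 := QQ_shift η d (h + 1 + a) (b - 1)
  rw [Nat.div_eq_of_lt (show h + 1 < d by omega)] at c1
  set A := h + 1 + a + (b - 1)
  set B := h + 1 + a
  set C := h + 1 + b
  have hq : C / d + B / d = A / d + 1 := by omega
  have mA := Nat.div_add_mod A d
  have mB := Nat.div_add_mod B d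
  have mC := Nat.div_add_mod C d
  have lA := Nat.mod_lt A hd0
  have hsum : (d - 1 - A % d) + B % d + C % d = h + 1 := by
    have : d * (C / d) + d * (B / d) = d * (A / d) + d := by rw [← mul_add, hq]; ring
    omega
  have h3 := QQ_three hη hh (by omega) hsum
  have hm := QQ_mul hη lA
  rw [QQ_mod hη hd0 A, QQ_mod hη hd0 B] at q2
  rw [QQ_mod hη hd0 C] at q1
  have hh2 : QQ η d h = √d := by
    have := QQ_mul hη (r := h) (by omega)
    rw [show d - 1 - h = h by omega] at this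
    rw [← this, Real.sqrt_mul_self (QQ_pos hη h).le]
  have hh3 : QQ η d (h + 1) ≤ 2 * √d := by
    rw [QQ, prod_range_succ, ← QQ, hh2, mul_comm]
    exact mul_le_mul_of_nonneg_right (gz_le hη hd0 _) (Real.sqrt_nonneg _)
  have p1 := QQ_pos hη (A % d)
  have p2 := QQ_pos hη (B % d)
  have p3 := QQ_pos hη (C % d)
  have p4 := QQ_pos hη (d - 1 - A % d)
  have p5 := QQ_pos hη (h + 1)
  have hd' : (0 : ℝ) < d := by exact_mod_cast hd0
  set N := ∏ i ∈ range (b - 1), gz η d (B + i + 1)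
  set D := ∏ i ∈ range b, gz η d (h + 1 + i + 1)
  have hD : 0 < D := prod_pos fun _ _ => gz_pos hη _
  have hN : 0 < N := prod_pos fun _ _ => gz_pos hη _
  have hpw : (d : ℝ) ^ (C / d) * d ^ (B / d) = d ^ (A / d) * d := by
    rw [← pow_add, hq, pow_succ]
  have key : N * (QQ η d (d - 1 - A % d) * QQ η d (B % d) * QQ η d (C % d)) =
      QQ η d (h + 1) * D := by
    rw [← q1]
    apply mul_left_cancel₀ (a := (d : ℝ) ^ (B / d)) (by positivity)
    calc (d : ℝ) ^ (B / d) * (N * (QQ η d (d - 1 - A % d) * QQ η d (B % d) * QQ η d (C % d)))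
        = (d ^ (B / d) * QQ η d (B % d) * N) * QQ η d (d - 1 - A % d) * QQ η d (C % d) := by ring
      _ = d ^ (A / d) * (QQ η d (A % d) * QQ η d (d - 1 - A % d)) * QQ η d (C % d) := by
          rw [← q2]; ring
      _ = _ := by rw [hm, ← hpw]; ring
  calc N * Fd d ^ 3 ≤ N * (QQ η d (d - 1 - A % d) * QQ η d (B % d) * QQ η d (C % d)) := by gcongr
    _ = QQ η d (h + 1) * D := key
    _ ≤ _ := by gcongr

end Pool.Agent.Lib.MP_667609_co
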