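import Pool.Agent.Lib.MP_667609_co.Main

/-! Choice of the saddle point, and positivity of the first half of the coefficients. -/

open Finset Real

namespace Pool.Agent.Lib.MP_667609_co

theorem e1_eq {x : ℝ} (hx : 0 < x) : x * e1 x = x / 2 * cosh (x / 2) / sinh (x / 2) - x / 2 := by
  have h1 := sinh_pos' (half_pos hx)
  have h2 := cosh_sub_sinh (x / 2)
  rw [e1, one_sub_exp_eq, exp_neg_eq_sq x, ← h2]
  have : cosh (x / 2) - sinh (x / 2) ≠ 0 := by rw [h2]; positivity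
  field_simp

theorem e1_lo {x : ℝ} (hx : 0 < x) : 1 - x / 2 ≤ x * e1 x := by
  have := (le_div_iff₀ (sinh_pos' (half_pos hx))).2
    ((one_mul _).le.trans (sinh_le_mul_cosh (half_pos hx).le))
  rw [e1_eq hx]; linarith

theorem e1_lo2 {x : ℝ} (hx : 0 < x) (h : x ≤ 3) : 1 - x / 2 + x ^ 2 / 16 ≤ x * e1 x := by
  have := (le_div_iff₀ (sinh_pos' (half_pos hx))).2 (le_mul_cosh (half_pos hx).le (by nlinarith))
  rw [e1_eq hx]; linarith

theorem e1_hi {x : ℝ} (hx : 0 < x) : x * e1 x ≤ 1 - x / 2 + x ^ 2 / 12 := by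
  have := (div_le_iff₀ (sinh_pos' (half_pos hx))).2 (mul_cosh_le (half_pos hx).le)
  rw [e1_eq hx]; linarith

theorem e1_pos {x : ℝ} (hx : 0 < x) : 0 < e1 x := div_pos (exp_pos _) (one_sub_exp_pos hx)

theorem e1_hi2 {x : ℝ} (hx : 0 < x) : x * e1 x ≤ exp (-(x / 2)) := by
  have h1 := sinh_ge (half_pos hx).le
  rw [e1, ← mul_div_assoc, div_le_iff₀ (one_sub_exp_pos hx), one_sub_exp_eq, exp_neg_eq_sq x]
  nlinarith [mul_le_mul_of_nonneg_left h1 (sq_nonneg (exp (-(x / 2))))]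

theorem mu_mul (a b n : ℕ) (t : ℝ) : mu a b n t * t = ∑ i ∈ range n, uu i * t * e1 (uu i * t) -
    ∑ i ∈ range b, ss a i * t * e1 (ss a i * t) := by
  rw [mu, sub_mul, sum_mul, sum_mul]
  congr 1 <;> exact sum_congr rfl fun i _ => by ring

theorem mu_cont (a b n : ℕ) {s T : ℝ} (hs : 0 < s) : ContinuousOn (mu a b n) (Set.Icc s T) := by
  have h : ∀ v : ℝ, 0 < v → ContinuousOn (fun t => v * e1 (v * t)) (Set.Icc s T) := fun v hv =>
    continuousOn_const.mul (ContinuousOn.div (by fun_prop) (by fun_prop) fun t ht =>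
      (one_sub_exp_pos (mul_pos hv (hs.trans_le ht.1))).ne')
  exact (continuousOn_finsetSum _ fun i _ => h _ (uu_pos i)).sub
    (continuousOn_finsetSum _ fun i _ => h _ (ss_pos a i))

theorem mu_le (a b n : ℕ) {t : ℝ} (ht : 0 < t) : mu a b n t * t * t ≤ 1 - exp (-(n * t)) := by
  have h1 : mu a b n t * t ≤ ∑ i ∈ range n, exp (-(uu i * t / 2)) := by
    rw [mu_mul]
    refine (sub_le_self _ (sum_nonneg fun i _ => ?_)).trans
      (sum_le_sum fun i _ => e1_hi2 (mul_pos (uu_pos i) ht))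
    have := mul_pos (ss_pos a i) ht
    exact (mul_pos this (e1_pos this)).le
  refine (mul_le_mul_of_nonneg_right h1 ht.le).trans ?_
  clear h1
  induction n with
  | zero => simp
  | succ n ih =>
    have a1 : exp (-(uu n * t / 2)) ≤ exp (-((n + 1 : ℕ) * t)) :=
      exp_le_exp.2 (by unfold uu; push_cast; nlinarith)
    have a2 : exp (-(n * t)) = exp (-((n + 1 : ℕ) * t)) * exp t := by
      rw [← exp_add]; congr 1; push_cast; ring
    rw [sum_range_succ, add_mul]
    nlinarith [add_one_le_exp t, exp_pos (-((n + 1 : ℕ) * t))]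

theorem mu_T0 (a b : ℕ) {n : ℕ} (hn : n ≤ 83) : mu a b n (5 / 2 / 167) ≤ 3199.5 := by
  have h1 := mu_le a b n (t := 5 / 2 / 167) (by norm_num)
  have h2 : (n : ℝ) ≤ 83 := by exact_mod_cast hn
  have h3 : exp (-1.2426) ≤ exp (-(n * (5 / 2 / 167))) := exp_le_exp.2 (by linarith)
  have h4 : 0.284 ≤ exp (-1.2426) := le_trans (by norm_num) (one_sub_div_pow_le_exp_neg (n := 64)
    (t := 1.2426) (by norm_num))
  linarith

theorem coeffQ {a b m : ℕ} (hb : 22 ≤ b) (ha : a0 b ≤ a) (hab : b ≤ a) {T : ℝ} (hT : 0 < T)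
    (hT1 : T ≤ 0.015) (hY : (2 * b + 1) * T ≤ 5 / 2) (hμ : mu a b b T ≤ m - 1 / 2)
    (hm0 : 3200 ≤ m) (hm : m ≤ a * b) : ∃ σ : ℝ, 0 < σ ∧ σ ^ 2 ≤ a * b * (a + b + 2) / 3 ∧
      0.12 * (LK a b * exp ((m - a * b) * T)) ≤ π * PowerSeries.coeff m (Kser a b b) * σ := by
  have hm' : (m : ℝ) ≤ a * b := by exact_mod_cast hm
  have hm0' : (3200 : ℝ) ≤ m := by exact_mod_cast hm0
  set Q := ∑ i ∈ range b, ss a i ^ 2 + 1
  have hQ : 0 < Q := by positivity
  have hs : 0 < min T (6 / Q) := by positivity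
  have h1 : m - 1 / 2 ≤ mu a b b (min T (6 / Q)) := by
    have a1 := (le_div_iff₀ hQ).1 (min_le_right T (6 / Q))
    generalize min T (6 / Q) = s at *
    have a2 : ∑ i ∈ range b, (a * s - s ^ 2 / 12 * ss a i ^ 2) ≤ mu a b b s * s := by
      rw [mu_mul, ← sum_sub_distrib]
      refine sum_le_sum fun i _ => ?_
      have := e1_lo (mul_pos (uu_pos i) hs)
      have := e1_hi (mul_pos (ss_pos a i) hs)
      have : ss a i * s = 2 * (a * s) + uu i * s := by unfold ss uu; ring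
      nlinarith
    rw [sum_sub_distrib, sum_const, ← mul_sum, card_range, nsmul_eq_mul] at a2
    refine le_of_mul_le_mul_right ?_ hs
    simp only [Q] at a1
    nlinarith
  obtain ⟨t, ht, h2⟩ := intermediate_value_Icc' (min_le_left _ _) (mu_cont a b b hs) ⟨hμ, h1⟩
  have ht0 := hs.trans_le ht.1
  obtain ⟨σ, a1, a2, a3⟩ := mainQ (m := m) hb ha hab ht0 (ht.2.trans hT1)
    (le_trans (by gcongr; exact ht.2) hY) (by rw [h2]; norm_num) hm (by
      have b1 := mu_le a b b ht0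
      have b2 := add_one_le_exp (-(b * t))
      refine le_of_mul_le_mul_right ?_ ht0
      nlinarith [mul_pos ht0 ht0])
  refine ⟨σ, a1, a2, le_trans ?_ a3⟩
  have := LK_pos a b
  have : (m - a * b) * T ≤ (m - a * b) * t := by nlinarith [ht.2]
  gcongr

theorem coeffQ' {a b m : ℕ} (hb : 22 ≤ b) (ha : a0 b ≤ a) (hab : b ≤ a) {T : ℝ} (hT : 0 < T)
    (hT1 : T ≤ 0.015) (hY : (2 * b + 1) * T ≤ 5 / 2) (hμ : mu a b b T ≤ m - 1 / 2)
    (hm0 : 3200 ≤ m) (hm : m ≤ a * b) : 0 ≤ PowerSeries.coeff m (Kser a b b) := by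
  obtain ⟨σ, a1, -, a3⟩ := coeffQ hb ha hab hT hT1 hY hμ hm0 hm
  have := LK_pos a b
  have h5 : (0 : ℝ) ≤ PowerSeries.coeff m (Kser a b b) := nonneg_of_mul_nonneg_right (a := π)
    (nonneg_of_mul_nonneg_left (le_trans (by positivity) a3) a1) pi_pos
  exact_mod_cast h5

theorem K_nonneg {a b : ℕ} (hb : 22 ≤ b) (ha : a0 b ≤ a) (hab : b ≤ a) {m : ℕ} (hm : m ≤ a * b) :
    0 ≤ PowerSeries.coeff m (Kser a b b) := by
  by_cases h83 : b ≤ 83
  · by_cases h : m < 3200
    · exact bonf hb h83 ha b m h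
    have a1 : (b : ℝ) ≤ 83 := by exact_mod_cast h83
    have a2 : (3200 : ℝ) ≤ m := by exact_mod_cast not_lt.1 h
    exact coeffQ' hb ha hab (T := 5 / 2 / 167) (by norm_num) (by norm_num) (by linarith)
      (by linarith [mu_T0 a b h83]) (not_lt.1 h) hm
  have ha' : 150 ≤ a := by exact_mod_cast (a0_cases ha hab).2.1
  have key : ∀ n, 83 ≤ n → n ≤ b → ∀ m : ℕ, (m < 3200 ∨ m - 1 / 2 < mu a b n (5 / 2 / (2 * n + 1))) →
      0 ≤ PowerSeries.coeff m (Kser a b n) := by
    intro n hn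
    induction n, hn using Nat.le_induction with
    | base =>
      intro _ m h
      refine bonf (by norm_num) le_rfl ha' b m (h.elim id fun h => ?_)
      have := mu_T0 a b (le_refl 83)
      norm_num at h this
      exact_mod_cast (show (m : ℝ) < 3200 by linarith)
    | succ n hn ih =>
      intro hnb m h
      rw [Kser_succ, PowerSeries.coeff_mul]
      refine sum_nonneg fun p hp => mul_nonneg ?_ (NN_geo _ _)
      have hp' : p.1 ≤ m := by have := mem_antidiagonal.1 hp; omega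
      have hp'' : (p.1 : ℝ) ≤ m := by exact_mod_cast hp'
      by_cases h1 : p.1 < 3200 ∨ p.1 - 1 / 2 < mu a b n (5 / 2 / (2 * n + 1))
      · exact ih (by omega) _ h1
      push Not at h1
      have h2 := h.resolve_left (by omega)
      have e : (2 * ((n + 1 : ℕ) : ℝ) + 1) = uu n := by rw [uu]; push_cast; ring
      have hu := uu_pos n
      have hs : 0 < 5 / 2 / uu n := by positivity
      have hle : 5 / 2 / uu n ≤ 5 / 2 / (2 * n + 1) := by gcongr; unfold uu; linarith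
      have hY : ∀ t, t ≤ 5 / 2 / (2 * n + 1 : ℝ) → (2 * n + 1) * t ≤ 5 / 2 := fun t ht => by
        rwa [le_div_iff₀' (by positivity)] at ht
      have hY' : ∀ t, 5 / 2 / uu n ≤ t → 5 / 2 ≤ (2 * n + 3) * t := fun t ht => by
        rwa [div_le_iff₀' hu] at ht
      rw [e] at h2
      by_cases h3 : p.1 - 1 / 2 ≤ mu a b n (5 / 2 / uu n)
      · obtain ⟨t, ht, h4⟩ := intermediate_value_Icc' hle (mu_cont a b n hs) ⟨h1.2, h3⟩
        refine mainP hn hnb hab ha' (hs.trans_le ht.1) (hY t ht.2) (hY' t ht.1) ?_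
        rw [h4]; norm_num; positivity
      · refine mainP hn hnb hab ha' hs (hY _ hle) (hY' _ le_rfl) ?_
        have a1 : e1 (5 / 2) ≤ 0.0895 := by
          have := exp_ge (x := 5 / 2) (c := 12.18) (by norm_num) (by
            simp only [sum_range_succ, Nat.factorial]; norm_num)
          have a2 : exp (5 / 2) * exp (-(5 / 2)) = 1 := by rw [← exp_add]; simp
          rw [e1, div_le_iff₀ (one_sub_exp_pos (by norm_num))]
          nlinarith [exp_pos (-(5 / 2))]
        have a2 : mu a b (n + 1) (5 / 2 / uu n) = mu a b n (5 / 2 / uu n) + uu n * e1 (5 / 2) := by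
          rw [mu, sum_range_succ, mul_div_cancel₀ _ hu.ne', mu]; ring
        have a3 := mul_le_mul_of_nonneg_left a1 hu.le
        rw [abs_of_nonneg (by linarith)]
        unfold uu at a3 a2 h2 ⊢
        linarith
  by_cases h : m < 3200 ∨ m - 1 / 2 < mu a b b (5 / 2 / (2 * b + 1))
  · exact key b (by omega) le_rfl m h
  push Not at h
  have a1 : (83 : ℝ) ≤ b := by exact_mod_cast (not_le.1 h83).le
  exact coeffQ' hb ha hab (by positivity) (by rw [div_le_iff₀ (by positivity)]; linarith)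
    (by rw [mul_div_cancel₀ _ (by positivity)]) h.2 h.1 hm

theorem K_window {a b : ℕ} (hb : 22 ≤ b) (ha : a0 b ≤ a) (hab : b ≤ a) {m : ℕ} (hm : m ≤ a * b)
    (hm' : a * b ≤ m + (2 * a + 2 * b + 1)) : ∃ σ : ℝ, 0 < σ ∧ σ ^ 2 ≤ a * b * (a + b + 2) / 3 ∧
      0.12 * (LK a b * exp (-2.2)) ≤ π * PowerSeries.coeff m (Kser a b b) * σ := by
  obtain ⟨h1, h2, h3⟩ := a0_cases ha hab
  have hb' : (22 : ℝ) ≤ b := by exact_mod_cast hb
  have hm1 : (a * b : ℝ) ≤ m + (2 * a + 2 * b + 1) := by exact_mod_cast hm'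
  set w : ℝ := 2 * a + 2 * b + 1 with hw
  obtain ⟨T, hT⟩ : ∃ T, w * T = 2.2 := ⟨2.2 / w, mul_div_cancel₀ _ (by positivity)⟩
  have hT0 : 0 < T := by by_contra h; nlinarith
  have hT1 : T ≤ 0.015 := by nlinarith
  have hm2 : (3200 : ℝ) ≤ m := by
    rcases h3 with ⟨-, a1⟩ | ⟨a1, -, a2⟩ | a1 <;> nlinarith
  obtain ⟨σ, a1, a2, a3⟩ := coeffQ (m := m) hb ha hab hT0 hT1 (by nlinarith) (by
    have b1 : mu a b b T * T ≤ ∑ i ∈ range b, (a * T - T ^ 2 * 0.04156 * (2 * w * ss a i - w ^ 2)) := by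
      rw [mu_mul, ← sum_sub_distrib]
      refine sum_le_sum fun i hi => ?_
      have hi' : (i : ℝ) + 1 ≤ b := by exact_mod_cast mem_range.1 hi
      have c0 := mul_pos (uu_pos i) hT0
      have c1 := e1_hi c0
      have c2 := e1_lo2 (mul_pos (ss_pos a i) hT0) (by unfold ss; nlinarith)
      have c3 : ss a i * T = 2 * (a * T) + uu i * T := by unfold ss uu; ring
      have c4 : (uu i * T) ^ 2 ≤ (0.5011 * (ss a i * T)) ^ 2 := by
        refine pow_le_pow_left₀ c0.le ?_ 2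
        unfold ss uu; nlinarith
      nlinarith [sq_nonneg ((ss a i - w) * T), sq_nonneg (ss a i * T)]
    rw [sum_sub_distrib, sum_const, ← mul_sum, sum_sub_distrib, sum_const, ← mul_sum, sum_ss,
      card_range, nsmul_eq_mul, nsmul_eq_mul] at b1
    have b2 : 22 * w ^ 2 / 2 ≤ 2 * w * (b * (2 * a + b + 2)) - b * w ^ 2 := by
      have : 22 * w / 2 ≤ b * (2 * a + 3) := by nlinarith
      calc _ = w * (22 * w / 2) := by ring
        _ ≤ w * (b * (2 * a + 3)) := by gcongr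
        _ = _ := by rw [hw]; ring
    have b3 := mul_le_mul_of_nonneg_left b2 (show 0 ≤ T ^ 2 * 0.04156 by positivity)
    have b4 : T ^ 2 * 0.04156 * (22 * w ^ 2 / 2) = 11 * 0.04156 * 2.2 ^ 2 := by rw [← hT]; ring
    refine le_of_mul_le_mul_right ?_ hT0
    nlinarith) (by exact_mod_cast hm2) hm
  refine ⟨σ, a1, a2, le_trans ?_ a3⟩
  have := LK_pos a b
  have : -2.2 ≤ (m - a * b) * T := by nlinarith
  gcongr

end Pool.Agent.Lib.MP_667609_co
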