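import Pool.Agent.Lib.MP_667609_co.Zone2

/-! Numerical lower bound for the integral over the major arc. -/

open Finset Real

namespace Pool.Agent.Lib.MP_667609_co

theorem steps_int {G : ℝ → ℝ} (hG : Continuous G) (c : ℕ → ℝ) {J J' : ℕ} (hJ : J ≤ J')
    (h : ∀ j, J ≤ j → j < J' → ∀ x : ℝ, (j : ℝ) / 20 ≤ x → x ≤ (j + 1) / 20 → c j ≤ G x) :
    (∑ j ∈ Ico J J', c j) / 20 ≤ ∫ x in ((J : ℝ) / 20)..((J' : ℝ) / 20), G x := by
  induction J', hJ using Nat.le_induction with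
  | base => simp
  | succ K hK ih =>
    rw [sum_Ico_succ_top hK, ← intervalIntegral.integral_add_adjacent_intervals (b := (K : ℝ) / 20)
      (hG.intervalIntegrable _ _) (hG.intervalIntegrable _ _), add_div]
    refine add_le_add (ih fun j h1 h2 => h j h1 (by omega)) ?_
    have := intervalIntegral.integral_mono_on (μ := MeasureTheory.volume) (a := (K : ℝ) / 20)
      (b := ((K + 1 : ℕ) : ℝ) / 20) (f := fun _ => c K) (by push_cast; linarith)
      intervalIntegrable_const (hG.intervalIntegrable _ _)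
      (fun x hx => h K hK (by omega) x hx.1 (by exact_mod_cast hx.2))
    refine le_trans (le_of_eq ?_) this
    simp; ring

theorem tail_int {c X Y : ℝ} (hc : 0 < c) (hX : 0 < X) (hY : X ≤ Y) {M : ℕ} (hM : 0 < M) :
    -(1 / ((1 + c * X ^ 2) ^ M * (2 * c * M * X))) ≤ ∫ x in X..Y, -(1 / (1 + c * x ^ 2) ^ (M + 1)) := by
  obtain ⟨K, rfl⟩ : ∃ K, M = K + 1 := ⟨M - 1, by omega⟩
  have hpos : ∀ x : ℝ, 0 < 1 + c * x ^ 2 := fun x => by positivity
  have hc1 : Continuous fun x : ℝ => -(1 / (1 + c * x ^ 2) ^ (K + 1 + 1)) :=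
    (continuous_const.div (by fun_prop) fun x => (pow_pos (hpos x) _).ne').neg
  have h := intervalIntegral.integral_eq_sub_of_hasDerivAt (a := X) (b := Y)
    (f := fun x => ((1 + c * x ^ 2) ^ (K + 1))⁻¹ / (2 * c * (K + 1 : ℕ) * X))
    (f' := fun x => x / X * -(1 / (1 + c * x ^ 2) ^ (K + 1 + 1)))
    (fun x _ => ((((((hasDerivAt_pow 2 x).const_mul c).const_add 1).fun_pow (K + 1)).fun_inv
      (pow_pos (hpos x) _).ne').div_const _).congr_deriv (by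
        have := hpos x
        simp only [Nat.add_sub_cancel]
        field_simp; push_cast; ring))
    (Continuous.intervalIntegrable ((by fun_prop : Continuous fun x : ℝ => x / X).mul hc1) _ _)
  refine le_trans ?_ (intervalIntegral.integral_mono_on
    (f := fun x => x / X * -(1 / (1 + c * x ^ 2) ^ (K + 1 + 1))) hY (Continuous.intervalIntegrable
    ((by fun_prop : Continuous fun x : ℝ => x / X).mul hc1) _ _) (hc1.intervalIntegrable _ _)
    fun x hx => ?_)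
  · rw [h, one_div, mul_inv, ← div_eq_mul_inv, le_sub_iff_add_le, neg_add_cancel]
    have := hpos Y
    positivity
  · have h1 : 1 ≤ x / X := by rw [one_le_div hX]; exact hx.1
    have h2 : 0 ≤ 1 / (1 + c * x ^ 2) ^ (K + 1 + 1) := by have := hpos x; positivity
    nlinarith

def cA (γ δ : ℚ) (j : ℕ) : ℚ :=
  (1 - (((j + 1) / 20) ^ 2 / 2 + γ * ((j + 1) / 20) ^ 3 / 6) / 32) ^ 32 *
    (2 * (1 - (δ * ((j + 1) / 20) + γ * ((j + 1) / 20) ^ 3 / 6) ^ 2 / 8) ^ 2 - 1)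

def cB (ε : ℚ) (J N j : ℕ) : ℚ :=
  -(1 / (1 - ε * ((j + 1) / 20) ^ 2 / 2 / 32) ^ 32 / (1 + (1 - ((j + 1) / J) ^ 2 / 9) *
    (1 - ((j + 1) / J) ^ 2 / 6) ^ 2 * (j / 20) ^ 2 / (2 * N)) ^ N)

def cC (c : ℚ) (M j : ℕ) : ℚ := -(1 / (1 + c * (j / 20) ^ 2) ^ (M + 1))

def marg (γ δ ε c : ℚ) (J J' N M : ℕ) : ℚ :=
  (∑ j ∈ Ico 0 30, cA γ δ j) / 20 + (∑ j ∈ Ico 30 J, cB ε J N j) / 20 +
    (∑ j ∈ Ico J J', cC c M j) / 20 - 1 / ((1 + c * (J' / 20) ^ 2) ^ M * (2 * c * M * (J' / 20)))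

theorem margQ : 0.3 ≤ marg 2.45 0.01 0 (0.405 / 14) 58 120 7 6 := by decide +kernel

theorem margP : 0.3 ≤ marg 2 0.045 0.12 0.0045 90 160 16 19 := by decide +kernel

theorem cos_ge_dbl {φ : ℝ} (h0 : 0 ≤ φ) (h1 : φ ≤ 3 / 2) : 2 * (1 - φ ^ 2 / 8) ^ 2 - 1 ≤ cos φ := by
  have b1 := one_sub_sq_div_two_le_cos (x := φ / 2)
  have b2 : (1 - φ ^ 2 / 8) ^ 2 ≤ cos (φ / 2) ^ 2 := by
    gcongr
    · nlinarith
    · linarith
  rw [cos_sq, mul_div_cancel₀ _ two_ne_zero] at b2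
  linarith

theorem cA_le {γ δ x r : ℝ} (hγ : 0 ≤ γ) (hδ : 0 ≤ δ)
    (hγδ : δ * (3 / 2) + γ * (3 / 2) ^ 3 / 6 ≤ 3 / 2) (hx0 : 0 ≤ x) (hx : x ≤ r) (hr : r ≤ 3 / 2) :
    (1 - (r ^ 2 / 2 + γ * r ^ 3 / 6) / 32) ^ 32 * (2 * (1 - (δ * r + γ * r ^ 3 / 6) ^ 2 / 8) ^ 2 - 1) ≤
      exp (-(x ^ 2 / 2) - γ * x ^ 3 / 6) * cos (δ * x + γ * x ^ 3 / 6) := by
  have hr0 : 0 ≤ r := hx0.trans hx
  have a1 : δ * r + γ * r ^ 3 / 6 ≤ 3 / 2 := le_trans (by gcongr) hγδ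
  have a2 : δ * x + γ * x ^ 3 / 6 ≤ δ * r + γ * r ^ 3 / 6 := by gcongr
  have a3 : 0 ≤ δ * x + γ * x ^ 3 / 6 := by positivity
  have a4 := cos_le_cos_of_nonneg_of_le_pi a3 (by linarith [pi_gt_three]) a2
  have a5 : 0 ≤ cos (δ * x + γ * x ^ 3 / 6) :=
    cos_nonneg_of_neg_pi_div_two_le_of_le (by linarith [pi_gt_three]) (by linarith [pi_gt_three])
  have a6 : r ^ 2 / 2 + γ * r ^ 3 / 6 ≤ (32 : ℕ) := by
    have : 0 ≤ δ * r := by positivity
    push_cast; nlinarith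
  have a8 : exp (-(r ^ 2 / 2 + γ * r ^ 3 / 6)) ≤ exp (-(x ^ 2 / 2) - γ * x ^ 3 / 6) := by
    have : x ^ 2 / 2 + γ * x ^ 3 / 6 ≤ r ^ 2 / 2 + γ * r ^ 3 / 6 := by gcongr
    exact exp_le_exp.2 (by linarith)
  exact (mul_le_mul_of_nonneg_left ((cos_ge_dbl (a3.trans a2) a1).trans a4)
    (Even.pow_nonneg (by decide) _)).trans
    (mul_le_mul_of_nonneg_right ((one_sub_div_pow_le_exp_neg a6).trans a8) a5)

theorem exp_le_inv {y : ℝ} (hy : y < 32) : exp y ≤ 1 / (1 - y / 32) ^ 32 := by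
  rw [le_div_iff₀ (pow_pos (by linarith) _)]
  calc _ ≤ exp y * exp (-y) :=
        mul_le_mul_of_nonneg_left (one_sub_div_pow_le_exp_neg (n := 32) hy.le) (exp_pos _).le
    _ = 1 := by rw [← exp_add]; simp

theorem zones12 {F : ℝ → ℝ} (hF : Continuous F) {γ δ ε c : ℚ} {J J' N M : ℕ} {xm : ℝ}
    (hγ : (0 : ℝ) ≤ γ) (hδ : (0 : ℝ) ≤ δ) (hγδ : (δ : ℝ) * (3 / 2) + γ * (3 / 2) ^ 3 / 6 ≤ 3 / 2)
    (hε : (0 : ℝ) ≤ ε) (hε' : (ε : ℝ) * (J / 20) ^ 2 < 64) (hc : (0 : ℝ) < c) (hM : 0 < M)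
    (hJ : 30 ≤ J) (hJ' : J ≤ J') (hxm : (J : ℝ) / 20 ≤ xm)
    (H1 : ∀ x : ℝ, 0 ≤ x → x ≤ 3 / 2 →
      exp (-(x ^ 2 / 2) - γ * x ^ 3 / 6) * cos (δ * x + γ * x ^ 3 / 6) ≤ F x)
    (H2 : ∀ x z : ℝ, 0 < x → x ^ 2 ≤ z * (J / 20) ^ 2 → z ≤ 1 →
      -(exp (ε * x ^ 2 / 2) / (1 + kap z * x ^ 2 / (2 * N)) ^ N) ≤ F x)
    (H3 : ∀ x : ℝ, 0 < x → x ≤ xm → -(1 / (1 + c * x ^ 2) ^ (M + 1)) ≤ F x) :
    (marg γ δ ε c J J' N M : ℝ) ≤ ∫ x in (0 : ℝ)..xm, F x := by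
  have hJ1 : (30 : ℝ) ≤ J := by exact_mod_cast hJ
  have hJ2 : (J : ℝ) ≤ J' := by exact_mod_cast hJ'
  have h1 := steps_int hF (fun j => (cA γ δ j : ℝ)) (J := 0) (J' := 30) (by norm_num)
    fun j _ hj x h0 hx => by
      have hj' : (j : ℝ) + 1 ≤ 30 := by exact_mod_cast hj
      have hx0 : 0 ≤ x := le_trans (by positivity) h0
      refine le_trans ?_ (H1 x hx0 (by linarith))
      unfold cA; push_cast
      exact cA_le hγ hδ hγδ hx0 hx (by linarith)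
  have h2 := steps_int hF (fun j => (cB ε J N j : ℝ)) hJ
    fun j hj0 hj x h0 hx => by
      have hj' : (j : ℝ) + 1 ≤ J := by exact_mod_cast hj
      have hj1 : (30 : ℝ) ≤ j := by exact_mod_cast hj0
      have hx0 : 0 < x := by linarith
      have hz : (((j : ℝ) + 1) / J) ^ 2 ≤ 1 := by
        rw [sq_le_one_iff₀ (by positivity), div_le_one (by linarith)]; exact hj'
      refine le_trans ?_ (H2 x (((j + 1) / J) ^ 2) hx0 (le_trans (pow_le_pow_left₀ hx0.le hx 2)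
        (le_of_eq (by field_simp))) hz)
      unfold cB kap; push_cast
      have a1 : (ε : ℝ) * ((j + 1) / 20) ^ 2 < 64 := lt_of_le_of_lt (by gcongr) hε'
      have a5 : 0 ≤ 1 - (((j : ℝ) + 1) / J) ^ 2 / 9 := by linarith
      have a4 : exp (ε * x ^ 2 / 2) ≤ 1 / (1 - (ε : ℝ) * ((j + 1) / 20) ^ 2 / 2 / 32) ^ 32 :=
        le_trans (by gcongr) (exp_le_inv (by linarith))
      gcongr
  have hT : Continuous fun x : ℝ => -(1 / (1 + c * x ^ 2) ^ (M + 1)) :=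
    (continuous_const.div (by fun_prop) fun x => by positivity).neg
  have h3 := steps_int hT (fun j => (cC c M j : ℝ)) hJ' fun j _ _ x h0 _ => by
    unfold cC; push_cast; gcongr
  have h4 := tail_int hc (X := J' / 20) (Y := max xm (J' / 20)) (by linarith) (le_max_right _ _) hM
  have h5 := intervalIntegral.integral_mono_on (μ := MeasureTheory.volume) hxm
    (hT.intervalIntegrable _ _) (hF.intervalIntegrable _ _)
    fun x hx => H3 x (by linarith [hx.1]) hx.2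
  have h6 : ∫ x in xm..(max xm (J' / 20)), -(1 / (1 + (c : ℝ) * x ^ 2) ^ (M + 1)) ≤ 0 := by
    rw [intervalIntegral.integral_neg, neg_nonpos]
    exact intervalIntegral.integral_nonneg (le_max_left _ _) fun x _ => by positivity
  have e1 := intervalIntegral.integral_add_adjacent_intervals (μ := MeasureTheory.volume)
    (hT.intervalIntegrable (J / 20) xm) (hT.intervalIntegrable xm (max xm (J' / 20)))
  have e2 := intervalIntegral.integral_add_adjacent_intervals (μ := MeasureTheory.volume)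
    (hT.intervalIntegrable (J / 20) (J' / 20)) (hT.intervalIntegrable (J' / 20) (max xm (J' / 20)))
  have e3 := intervalIntegral.integral_add_adjacent_intervals (μ := MeasureTheory.volume)
    (hF.intervalIntegrable (((0 : ℕ) : ℝ) / 20) ((30 : ℕ) / 20))
    (hF.intervalIntegrable ((30 : ℕ) / 20) (J / 20))
  have e4 := intervalIntegral.integral_add_adjacent_intervals (μ := MeasureTheory.volume)
    (hF.intervalIntegrable (((0 : ℕ) : ℝ) / 20) (J / 20)) (hF.intervalIntegrable (J / 20) xm)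
  rw [show (0 : ℝ) = ((0 : ℕ) : ℝ) / 20 by simp]
  unfold marg
  simp only [Rat.cast_sub, Rat.cast_add, Rat.cast_div, Rat.cast_sum, Rat.cast_mul, Rat.cast_pow,
    Rat.cast_one, Rat.cast_ofNat, Rat.cast_natCast]
  linarith

end Pool.Agent.Lib.MP_667609_co
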