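import Pool.Agent.Lib.MP_667609_co.Hyp
import Mathlib.NumberTheory.ModularForms.EisensteinSeries.QExpansion
import Mathlib.Analysis.Real.Pi.Bounds

/-! Bounds for the third derivative of `log (1 - exp (-z))`. -/

open Finset Complex

namespace Pool.Agent.Lib.MP_667609_co

noncomputable def E1 (z : ℂ) : ℂ := exp (-z) / (1 - exp (-z))
noncomputable def E2 (z : ℂ) : ℂ := exp (-z) / (1 - exp (-z)) ^ 2
noncomputable def E3 (z : ℂ) : ℂ := exp (-z) * (1 + exp (-z)) / (1 - exp (-z)) ^ 3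

theorem norm_exp_neg_lt' {w : ℂ} (hw : 0 < w.re) : ‖exp (-w)‖ < 1 := by
  rw [norm_exp, Real.exp_lt_one_iff]; simpa using hw

theorem re_one_sub_pos {w : ℂ} (hw : 0 < w.re) : 0 < (1 - exp (-w)).re := by
  have := (re_le_norm (exp (-w))).trans_lt (norm_exp_neg_lt' hw)
  simp only [sub_re, one_re]; linarith

theorem one_sub_exp_ne {w : ℂ} (hw : 0 < w.re) : 1 - exp (-w) ≠ 0 := by
  intro h; have := re_one_sub_pos hw; rw [h] at this; simp at this

theorem hasDerivAt_L {z : ℂ} (hz : 0 < z.re) :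
    HasDerivAt (fun z => log (1 - exp (-z))) (E1 z) z :=
  ((((hasDerivAt_id' z).fun_neg.cexp).const_sub 1).clog
    (Or.inl (re_one_sub_pos hz))).congr_deriv (by unfold E1; ring)

theorem hasDerivAt_E1 {z : ℂ} (hz : 0 < z.re) : HasDerivAt E1 (-E2 z) z := by
  have h := (hasDerivAt_id' z).fun_neg.cexp
  have h0 := one_sub_exp_ne hz
  refine (h.fun_div (h.const_sub 1) h0).congr_deriv ?_
  unfold E2; field_simp; ring

theorem hasDerivAt_E2 {z : ℂ} (hz : 0 < z.re) : HasDerivAt E2 (-E3 z) z := by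
  have h := (hasDerivAt_id' z).fun_neg.cexp
  have h0 := one_sub_exp_ne hz
  refine (h.fun_div ((h.const_sub 1).fun_pow 2) (pow_ne_zero 2 h0)).congr_deriv ?_
  unfold E3; norm_num; field_simp; ring

theorem one_sub_exp_eq (x : ℝ) : 1 - Real.exp (-x) = 2 * Real.exp (-(x / 2)) * Real.sinh (x / 2) := by
  have h1 : Real.exp (-(x / 2)) * Real.exp (x / 2) = 1 := by rw [← Real.exp_add]; simp
  have h2 : Real.exp (-(x / 2)) * Real.exp (-(x / 2)) = Real.exp (-x) := by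
    rw [← Real.exp_add]; congr 1; ring
  rw [Real.sinh_eq]; linear_combination -h1 + h2

theorem one_add_exp_eq (x : ℝ) : 1 + Real.exp (-x) = 2 * Real.exp (-(x / 2)) * Real.cosh (x / 2) := by
  have h1 : Real.exp (-(x / 2)) * Real.exp (x / 2) = 1 := by rw [← Real.exp_add]; simp
  have h2 : Real.exp (-(x / 2)) * Real.exp (-(x / 2)) = Real.exp (-x) := by
    rw [← Real.exp_add]; congr 1; ring
  rw [Real.cosh_eq]; linear_combination -h1 - h2

theorem exp_neg_eq_sq (x : ℝ) : Real.exp (-x) = Real.exp (-(x / 2)) ^ 2 := by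
  rw [← Real.exp_nat_mul]; congr 1; push_cast; ring

theorem norm_E3_le {z : ℂ} (hz : 0 < z.re) :
    ‖E3 z‖ * z.re ^ 3 ≤ hh z.re * (2 + z.re ^ 2 / 6) := by
  set x := z.re
  have hn : ‖exp (-z)‖ = Real.exp (-x) := by rw [norm_exp]; rfl
  have h1 : ‖1 + exp (-z)‖ ≤ 1 + Real.exp (-x) := by
    refine (norm_add_le _ _).trans ?_; rw [hn, norm_one]
  have h2 : 1 - Real.exp (-x) ≤ ‖1 - exp (-z)‖ := by
    have := norm_sub_norm_le (1 : ℂ) (exp (-z)); rwa [hn, norm_one] at this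
  have hs := sinh_pos' (half_pos hz)
  have he := Real.exp_pos (-(x / 2))
  have h3 : 0 < 1 - Real.exp (-x) := by rw [one_sub_exp_eq]; positivity
  have h4 := mul_cosh_le (half_pos hz).le
  have hc := Real.cosh_pos (x / 2)
  calc ‖E3 z‖ * x ^ 3
      ≤ Real.exp (-x) * (1 + Real.exp (-x)) / (1 - Real.exp (-x)) ^ 3 * x ^ 3 := by
        rw [E3, norm_div, norm_mul, norm_pow, hn]; gcongr
    _ = hh x * (2 * (x / 2 * Real.cosh (x / 2)) / Real.sinh (x / 2)) := by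
        rw [one_sub_exp_eq, one_add_exp_eq, exp_neg_eq_sq x, hh]; field_simp
    _ ≤ hh x * (2 * ((1 + (x / 2) ^ 2 / 3) * Real.sinh (x / 2)) / Real.sinh (x / 2)) := by
        have := hh_pos hz; gcongr
    _ = _ := by field_simp; ring

theorem E3_eq_tsum {z : ℂ} (hz : 0 < z.re) : ∑' n : ℕ, (n : ℂ) ^ 2 * exp (-z) ^ n = E3 z := by
  have hr := norm_exp_neg_lt' hz
  have h := (((hasSum_choose_mul_geometric_of_norm_lt_one 2 hr).mul_left 2).sub
    ((hasSum_choose_mul_geometric_of_norm_lt_one 1 hr).mul_left 3)).add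
    (hasSum_choose_mul_geometric_of_norm_lt_one 0 hr)
  have h0 := one_sub_exp_ne hz
  refine HasSum.tsum_eq ?_
  have e1 : (fun n : ℕ => (n : ℂ) ^ 2 * exp (-z) ^ n) = fun n : ℕ =>
      2 * (((n + 2).choose 2 : ℂ) * exp (-z) ^ n) - 3 * (((n + 1).choose 1 : ℂ) * exp (-z) ^ n) +
        ((n + 0).choose 0 : ℂ) * exp (-z) ^ n := by
    ext n
    rw [Nat.cast_choose_two]
    simp; ring
  have e2 : E3 z = 2 * (1 / (1 - exp (-z)) ^ (2 + 1)) - 3 * (1 / (1 - exp (-z)) ^ (1 + 1)) +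
      1 / (1 - exp (-z)) ^ (0 + 1) := by
    unfold E3; field_simp; ring
  rw [e1, e2]; exact h

theorem pair_le {τ : ℂ} (hτ : |τ.re| ≤ 1 / Real.pi) {n : ℝ} (hn : 1 ≤ n) :
    ‖1 / (τ + n) ^ 3 + 1 / (τ - n) ^ 3‖ ≤ 1 / (n - 1 / Real.pi) ^ 3 + 1 / n ^ 3 := by
  have hpi : 1 / Real.pi < 1 := by rw [div_lt_one Real.pi_pos]; linarith [Real.pi_gt_three]
  have h1 : |τ.re + n| ≤ ‖τ + n‖ := by simpa using abs_re_le_norm (τ + n)
  have h2 : |τ.re - n| ≤ ‖τ - n‖ := by simpa using abs_re_le_norm (τ - n)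
  rw [abs_le] at hτ
  rw [abs_of_pos (by linarith)] at h1
  rw [abs_of_neg (by linarith)] at h2
  have h3 : 0 < n - 1 / Real.pi := by linarith
  refine (norm_add_le _ _).trans ?_
  simp only [norm_div, norm_one, norm_pow]
  by_cases h : 0 ≤ τ.re
  · rw [add_comm]; gcongr <;> linarith
  · gcongr <;> linarith

theorem cube_tele {x : ℝ} (hx : 1 ≤ x) :
    1 / x ^ 3 ≤ 1 / (2 * (x - 1 / 2) ^ 2) - 1 / (2 * (x + 1 / 2) ^ 2) := by
  have h1 : 0 < x - 1 / 2 := by linarith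
  rw [div_sub_div _ _ (by positivity) (by positivity), div_le_div_iff₀ (by positivity)
    (by positivity)]
  nlinarith [pow_pos (show 0 < x by linarith) 2]

theorem E3_cancel {z : ℂ} (hz : 0 < z.re) (hi : |z.im| ≤ 2) : ‖E3 z - 2 / z ^ 3‖ ≤ 0.0383 := by
  have hpi := Real.pi_pos
  set τ : ℂ := I * z / (2 * Real.pi) with hτ
  have hpi' : (Real.pi : ℂ) ≠ 0 := by exact_mod_cast hpi.ne'
  have hτ' : τ = ((-z.im / (2 * Real.pi) : ℝ) : ℂ) + ((z.re / (2 * Real.pi) : ℝ) : ℂ) * I := by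
    rw [hτ]; nth_rw 1 [← re_add_im z]; push_cast; field_simp
    linear_combination (z.im : ℂ) * I_mul_I
  have him : 0 < τ.im := by rw [hτ']; simp only [add_im, ofReal_im, mul_im, ofReal_re, I_im, I_re]; simp; positivity
  have hre : |τ.re| ≤ 1 / Real.pi := by
    rw [hτ']; simp only [add_re, ofReal_im, mul_re, ofReal_re, I_im, I_re, mul_zero, zero_mul, sub_zero, add_zero]
    rw [abs_div, abs_neg, abs_of_pos (by positivity : 0 < 2 * Real.pi),
      div_le_div_iff₀ (by positivity) hpi]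
    nlinarith
  have hq := EisensteinSeries.qExpansion_identity (k := 2) (by norm_num) ⟨τ, him⟩
  simp only [] at hq
  have e1 : 2 * Real.pi * I * τ = -z := by
    rw [hτ]; field_simp; rw [I_sq]; ring
  rw [e1, E3_eq_tsum hz] at hq
  have hsum : Summable fun n : ℤ => 1 / (τ + n) ^ (2 + 1) := by
    have := EisensteinSeries.linear_right_summable τ 1 (k := 3) (by norm_num)
    refine this.congr fun n => ?_
    simp [zpow_ofNat]
  have h1 := (hasSum_nat_add_iff' 1).2 hsum.hasSum.nat_add_neg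
  rw [hq] at h1
  have hb : ∀ N : ℕ, ∑ n ∈ range (N + 1), ‖1 / (τ + ((n + 1 : ℕ) : ℤ)) ^ (2 + 1) +
      1 / (τ + ((-((n + 1 : ℕ) : ℤ) : ℤ) : ℂ)) ^ (2 + 1)‖ ≤
      4.7466 - 1 / (2 * ((N : ℝ) + 7 / 6) ^ 2) - 1 / (2 * ((N : ℝ) + 3 / 2) ^ 2) := by
    have hp : ∀ n : ℕ, ‖1 / (τ + ((n + 1 : ℕ) : ℤ)) ^ (2 + 1) +
        1 / (τ + ((-((n + 1 : ℕ) : ℤ) : ℤ) : ℂ)) ^ (2 + 1)‖ ≤
        1 / ((n : ℝ) + 1 - 1 / Real.pi) ^ 3 + 1 / ((n : ℝ) + 1) ^ 3 := by
      intro n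
      have := pair_le hre (n := (n : ℝ) + 1) (by simp)
      convert this using 4
      · push_cast; rfl
      · push_cast; ring
    have hp3 : 1 / Real.pi ≤ 0.31832 := by
      rw [div_le_iff₀ hpi]; linarith [Real.pi_gt_d4]
    intro N
    induction N with
    | zero =>
      rw [zero_add, sum_range_one]
      refine (hp 0).trans ?_
      have : 1 / ((0 : ℕ) + 1 - 1 / Real.pi : ℝ) ^ 3 ≤ 1 / (0.68168 : ℝ) ^ 3 := by
        gcongr; norm_num at hp3 ⊢; linarith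
      norm_num at this ⊢; linarith
    | succ N ih =>
      rw [sum_range_succ]
      have h2 := hp (N + 1)
      have hN : (0 : ℝ) ≤ N := Nat.cast_nonneg N
      have h3 := cube_tele (x := (N : ℝ) + 5 / 3) (by linarith)
      have h4 := cube_tele (x := (N : ℝ) + 2) (by linarith)
      have h5 : 1 / (((N + 1 : ℕ) : ℝ) + 1 - 1 / Real.pi) ^ 3 ≤ 1 / ((N : ℝ) + 5 / 3) ^ 3 := by
        gcongr; push_cast; linarith
      push_cast at h2 h5 ih ⊢
      rw [show (N : ℝ) + 1 + 1 = N + 2 by ring] at h2 h5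
      rw [show (N : ℝ) + 5 / 3 - 1 / 2 = N + 7 / 6 by ring,
        show (N : ℝ) + 5 / 3 + 1 / 2 = N + 1 + 7 / 6 by ring] at h3
      rw [show (N : ℝ) + 2 - 1 / 2 = N + 3 / 2 by ring,
        show (N : ℝ) + 2 + 1 / 2 = N + 1 + 3 / 2 by ring] at h4
      linarith
  have hb' : ∀ N : ℕ, ∑ n ∈ range N, ‖1 / (τ + ((n + 1 : ℕ) : ℤ)) ^ (2 + 1) +
      1 / (τ + ((-((n + 1 : ℕ) : ℤ) : ℤ) : ℂ)) ^ (2 + 1)‖ ≤ 4.7466 := by
    intro N
    rcases N with _ | N
    · norm_num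
    · refine (hb N).trans ?_
      have : 0 ≤ 1 / (2 * ((N : ℝ) + 7 / 6) ^ 2) := by positivity
      have : 0 ≤ 1 / (2 * ((N : ℝ) + 3 / 2) ^ 2) := by positivity
      linarith
  have hs := summable_of_sum_range_le (fun _ => norm_nonneg _) hb'
  have h2 := (norm_tsum_le_tsum_norm hs).trans (hs.tsum_le_of_sum_range_le hb')
  rw [h1.tsum_eq] at h2
  have hz0 : z ≠ 0 := by rintro rfl; simp at hz
  have e2 : (-2 * Real.pi * I) ^ (2 + 1) / (Nat.factorial 2 : ℂ) * E3 z +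
      1 / (τ + ((0 : ℤ) : ℂ)) ^ (2 + 1) - ∑ i ∈ range 1, (1 / (τ + ((i : ℤ) : ℂ)) ^ (2 + 1) +
        1 / (τ + ((-(i : ℤ) : ℤ) : ℂ)) ^ (2 + 1)) =
      (-2 * Real.pi * I) ^ 3 / 2 * (E3 z - 2 / z ^ 3) := by
    have : τ = z / (-2 * Real.pi * I) := by
      rw [eq_div_iff (by simp [hpi.ne']), ← neg_neg z, ← e1]; ring
    simp only [sum_range_one, Nat.cast_zero, neg_zero, Int.cast_zero, add_zero, Nat.factorial]
    have hI := I_ne_zero
    rw [this, div_pow, one_div_div]; push_cast; field_simp; ring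
  rw [e2, norm_mul] at h2
  have e3 : ‖(-2 * Real.pi * I : ℂ) ^ 3 / 2‖ = 4 * Real.pi ^ 3 := by
    simp [abs_of_pos hpi]; ring
  rw [e3] at h2
  have h6 : 3.1415 ^ 3 ≤ Real.pi ^ 3 := by gcongr; exact Real.pi_gt_d4.le
  have h7 := norm_nonneg (E3 z - 2 / z ^ 3)
  nlinarith

theorem taylor3 {f0 f1 f2 f3 : ℝ → ℂ} {κ Θ : ℝ} (h0 : ∀ x, HasDerivAt f0 (f1 x) x)
    (h1 : ∀ x, HasDerivAt f1 (f2 x) x) (h2 : ∀ x, HasDerivAt f2 (f3 x) x)
    (h3 : ∀ x, 0 ≤ x → x ≤ Θ → ‖f3 x‖ ≤ κ) {θ : ℝ} (hθ : 0 ≤ θ) (hΘ : θ ≤ Θ) :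
    ‖f0 θ - f0 0 - θ * f1 0 - θ ^ 2 / 2 * f2 0‖ ≤ κ * θ ^ 3 / 6 := by
  have step : ∀ {g g' : ℝ → ℂ} {B B' : ℝ → ℝ}, (∀ x, HasDerivAt g (g' x) x) → g 0 = 0 → B 0 = 0 →
      (∀ x, HasDerivAt B (B' x) x) → (∀ x, 0 ≤ x → x ≤ Θ → ‖g' x‖ ≤ B' x) →
      ∀ x, 0 ≤ x → x ≤ Θ → ‖g x‖ ≤ B x := by
    intro g g' B B' a1 a2 a3 a4 a5 x b1 b2
    exact image_norm_le_of_norm_deriv_right_le_deriv_boundary (a := 0) (b := Θ)
      (fun x _ => (a1 x).continuousAt.continuousWithinAt) (fun x _ => (a1 x).hasDerivWithinAt)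
      (by rw [a2, a3, norm_zero]) a4 (fun x hx => a5 x hx.1 hx.2.le) ⟨b1, b2⟩
  have hx : ∀ x : ℝ, HasDerivAt (fun x : ℝ => (x : ℂ)) 1 x := fun x => ofRealCLM.hasDerivAt
  have s2 := step (g := fun x => f2 x - f2 0) (B := fun x => κ * x) (B' := fun _ => κ)
    (fun x => (h2 x).sub_const _) (by simp) (by simp)
    (fun x => ((hasDerivAt_id' x).const_mul κ).congr_deriv (by ring)) h3
  have s1 := step (g := fun x => f1 x - f1 0 - x * f2 0) (B := fun x => κ * x ^ 2 / 2)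
    (fun x => (((h1 x).sub_const _).sub ((hx x).mul_const _)).congr_deriv (by ring)) (by simp)
    (by simp) (fun x => (((hasDerivAt_pow 2 x).const_mul κ).div_const 2).congr_deriv
      (by norm_num; ring)) s2
  exact step (g := fun x => f0 x - f0 0 - x * f1 0 - x ^ 2 / 2 * f2 0)
    (B := fun x => κ * x ^ 3 / 6)
    (fun x => ((((h0 x).sub_const _).sub ((hx x).mul_const _)).sub
      ((((hx x).fun_pow 2).div_const 2).mul_const _)).congr_deriv (by norm_num)) (by simp)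
    (by simp) (fun x => (((hasDerivAt_pow 3 x).const_mul κ).div_const 6).congr_deriv
      (by norm_num; ring)) s1 θ hθ hΘ

end Pool.Agent.Lib.MP_667609_co
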