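import Pool.Agent.Lib.MP_667609_co.Mod
import Mathlib.Analysis.Convex.SpecificFunctions.Basic

/-! Decay of the integrand on the major arc. -/

open Finset Real

namespace Pool.Agent.Lib.MP_667609_co

theorem chord {ζ M : ℝ} (h0 : 0 ≤ ζ) (h1 : ζ ≤ M) (hM : 0 < M) :
    ζ / M * log (1 + M) ≤ log (1 + ζ) := by
  have := strictConcaveOn_log_Ioi.concaveOn.2 (show (1 : ℝ) ∈ Set.Ioi 0 by simp)
    (show 1 + M ∈ Set.Ioi 0 by simp only [Set.mem_Ioi]; linarith)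
    (show 0 ≤ 1 - ζ / M by rw [sub_nonneg, div_le_one hM]; exact h1)
    (show 0 ≤ ζ / M by positivity) (by ring)
  simp only [log_one, smul_eq_mul, mul_zero, zero_add] at this
  rwa [show (1 - ζ / M) * 1 + ζ / M * (1 + M) = 1 + ζ by field_simp; ring] at this

theorem sin_le_poly {x : ℝ} (hx : 0 ≤ x) : sin x ≤ x - x ^ 3 / 6 + x ^ 5 / 120 := by
  have h1 : ∀ y, 0 ≤ y → cos y ≤ 1 - y ^ 2 / 2 + y ^ 4 / 24 := by
    intro y hy
    have := le_of_deriv (f := fun x => -(x ^ 2 / 2) + x ^ 4 / 24 - cos x)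
      (f' := fun x => sin x - (x - x ^ 3 / 6)) hy
      (fun x _ _ => ((((hasDerivAt_pow 2 x).div_const 2).neg.add ((hasDerivAt_pow 4 x).div_const
        24)).sub (hasDerivAt_cos x)).congr_deriv (by norm_num; ring))
      (fun x hx _ => sub_nonneg.2 (sin_ge_sub_cube hx))
    norm_num at this; linarith
  have := le_of_deriv (f := fun x => x - x ^ 3 / 6 + x ^ 5 / 120 - sin x)
    (f' := fun x => 1 - x ^ 2 / 2 + x ^ 4 / 24 - cos x) hx
    (fun x _ _ => ((((hasDerivAt_id' x).sub ((hasDerivAt_pow 3 x).div_const 6)).add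
      ((hasDerivAt_pow 5 x).div_const 120)).sub (hasDerivAt_sin x)).congr_deriv (by norm_num; ring))
    (fun x hx _ => sub_nonneg.2 (h1 x hx))
  norm_num at this; linarith

theorem sin_sq_mul_le {P : ℝ} (hP : 0 ≤ P) : (1 + P ^ 2 / 3) * sin P ^ 2 ≤ P ^ 2 := by
  by_cases h : P ^ 2 ≤ 3 / 2
  · have h1 := sin_le_poly hP
    have h2 : 0 ≤ sin P := sin_nonneg_of_nonneg_of_le_pi hP (by nlinarith [pi_gt_three])
    have h3 : sin P ^ 2 ≤ (P - P ^ 3 / 6 + P ^ 5 / 120) ^ 2 := by gcongr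
    have h4 : (1 + P ^ 2 / 3) * (1 - P ^ 2 / 6 + (P ^ 2) ^ 2 / 120) ^ 2 ≤ 1 := by
      have := sq_nonneg P
      generalize P ^ 2 = z at *
      have h5 : z ^ 3 ≤ 3 / 2 * z ^ 2 := by nlinarith
      have h6 : z ^ 5 ≤ 4 * z ^ 2 := by nlinarith [pow_nonneg this 3, pow_nonneg this 4]
      nlinarith [pow_nonneg this 4]
    calc _ ≤ (1 + P ^ 2 / 3) * (P - P ^ 3 / 6 + P ^ 5 / 120) ^ 2 := by gcongr
      _ = P ^ 2 * ((1 + P ^ 2 / 3) * (1 - P ^ 2 / 6 + (P ^ 2) ^ 2 / 120) ^ 2) := by ring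
      _ ≤ P ^ 2 * 1 := by gcongr
      _ = _ := mul_one _
  · nlinarith [sin_sq_le_one P, sq_nonneg (sin P)]

def kOK (k p0 : ℝ) : Prop := ∀ p P : ℝ, 0 < p → p ≤ p0 → 1.99 * p ≤ P → k * p ^ 2 ≤ sin p ^ 2 ∧
  ∃ J, 0 < J ∧ J * sin P ^ 2 ≤ P ^ 2 ∧ k * p ^ 2 * ((P ^ 2 - p ^ 2) / 3) ≤ J * sin p ^ 2 - p ^ 2

noncomputable def kap (z : ℝ) : ℝ := (1 - z / 9) * (1 - z / 6) ^ 2

theorem kOK_kap {k p0 z : ℝ} (h0 : p0 ^ 2 ≤ z) (h1 : z ≤ 1) (hk : k ≤ kap z) : kOK k p0 := by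
  intro p P hp hp0 hP
  have h2 : p ^ 2 ≤ z := le_trans (by gcongr) h0
  have h3 : k ≤ kap (p ^ 2) := by
    refine hk.trans ?_
    unfold kap; gcongr <;> linarith
  have h4 : p ^ 2 * (1 - p ^ 2 / 6) ^ 2 ≤ sin p ^ 2 := by
    rw [← mul_pow]
    have := sin_ge_sub_cube hp.le
    gcongr
    · exact mul_nonneg hp.le (by linarith)
    · linarith
  have h5 : 0 < p ^ 2 := by positivity
  have h6 : (1.99 * p) ^ 2 ≤ P ^ 2 := by gcongr
  have h7 : p ^ 2 ≤ 1 := h2.trans h1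
  rw [mul_pow] at h6
  unfold kap at h3
  refine ⟨?_, 1 + P ^ 2 / 3, by positivity, sin_sq_mul_le (by linarith), ?_⟩
  · nlinarith [mul_nonneg h5.le (mul_nonneg h5.le (sq_nonneg (1 - p ^ 2 / 6)))]
  · generalize p ^ 2 = y at *
    generalize P ^ 2 = Y at *
    have h8 : k * (y * ((Y - y) / 3)) ≤ (1 - y / 9) * (1 - y / 6) ^ 2 * (y * ((Y - y) / 3)) := by
      gcongr; exact mul_nonneg h5.le (by linarith)
    have h9 : (1 + Y / 3) * (y * (1 - y / 6) ^ 2) ≤ (1 + Y / 3) * sin p ^ 2 := by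
      gcongr; linarith
    have h10 : 0 ≤ y * y * (Y - 3.96 * y) * (1 - y / 6) ^ 2 :=
      mul_nonneg (mul_nonneg (by positivity) (by linarith)) (sq_nonneg _)
    have h11 : 0 ≤ y ^ 3 * (1 - y) := mul_nonneg (by positivity) (by linarith)
    nlinarith [pow_nonneg h5.le 5]

theorem kOK_half : kOK 0.405 (π / 2) := by
  intro p P hp hp0 hP
  by_cases h : p ≤ 1
  · exact kOK_kap (p0 := 1) (z := 1) (by norm_num) le_rfl (by norm_num [kap]) p P hp h hP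
  have h1 : 0.405 * p ^ 2 ≤ sin p ^ 2 := by
    have h2 := mul_le_sin hp.le hp0
    have h3 : 0.6366 ≤ 2 / π := by rw [le_div_iff₀ pi_pos]; linarith [pi_lt_d4]
    have h4 : (0.6366 * p) ^ 2 ≤ sin p ^ 2 := by gcongr; nlinarith
    nlinarith
  have h6 : (1.99 * p) ^ 2 ≤ P ^ 2 := by gcongr
  have h7 : 1 ≤ p ^ 2 := by nlinarith
  refine ⟨h1, P ^ 2, by nlinarith, by nlinarith [sin_sq_le_one P, sq_nonneg P], ?_⟩
  rw [mul_pow] at h6
  generalize p ^ 2 = y at *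
  generalize P ^ 2 = Y at *
  nlinarith

theorem fac_ratio {s u t θ k p0 : ℝ} (hu : 0 < u) (hs : 1.99 * u ≤ s) (ht : 0 < t) (hθ : 0 < θ)
    (hk0 : 0 ≤ k) (hk : kOK k p0) (hp : u * θ / 2 ≤ p0) :
    fac (s * t) (s * θ) * (1 + k * (θ ^ 2 / t ^ 2) * (hh (u * t) - hh (s * t))) ≤
      fac (u * t) (u * θ) := by
  obtain ⟨h1, J, hJ, h2, h3⟩ := hk (u * θ / 2) (s * θ / 2) (by positivity) hp (by nlinarith)
  have hs0 : 0 < s := by linarith
  have hle : u * t ≤ s * t := by nlinarith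
  have h4 := hh_sub_le (mul_pos hu ht) hle
  have h5 := hh_anti (mul_pos hu ht) hle
  have h6 := hh_pos (mul_pos hs0 ht)
  set z := θ ^ 2 / t ^ 2 with hz
  have hz0 : 0 < z := by positivity
  have e : ∀ s : ℝ, 0 < s → fac (s * t) (s * θ) =
      1 + sin (s * θ / 2) ^ 2 / (s * θ / 2) ^ 2 * (z * hh (s * t)) := by
    intro s hs
    have := sinh_pos' (half_pos (mul_pos hs ht))
    rw [fac, hh, hz]; field_simp
  have h7 : z * (hh (u * t) - hh (s * t)) ≤ ((s * θ / 2) ^ 2 - (u * θ / 2) ^ 2) / 3 := by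
    refine (mul_le_mul_of_nonneg_left h4 hz0.le).trans (le_of_eq ?_)
    rw [hz]; field_simp; ring
  rw [e s hs0, e u hu]
  have hP : 0 < (s * θ / 2) ^ 2 := by positivity
  have hp' : 0 < (u * θ / 2) ^ 2 := by positivity
  have h8 : sin (s * θ / 2) ^ 2 / (s * θ / 2) ^ 2 ≤ 1 / J := by
    rw [div_le_div_iff₀ hP hJ]; linarith
  have h9 : k ≤ sin (u * θ / 2) ^ 2 / (u * θ / 2) ^ 2 := by rwa [le_div_iff₀ hp']
  have h10 : k * (((s * θ / 2) ^ 2 - (u * θ / 2) ^ 2) / 3) ≤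
      J * (sin (u * θ / 2) ^ 2 / (u * θ / 2) ^ 2) - 1 := by
    rw [← mul_div_assoc J, le_sub_iff_add_le, le_div_iff₀ hp']; linarith
  generalize sin (u * θ / 2) ^ 2 / (u * θ / 2) ^ 2 = σ at *
  obtain ⟨v, hv⟩ : ∃ v, hh (u * t) = hh (s * t) + v := ⟨hh (u * t) - hh (s * t), by ring⟩
  rw [hv] at h5 h7 ⊢
  rw [add_sub_cancel_left] at h7 ⊢
  have hv0 : 0 ≤ v := by linarith
  generalize hh (s * t) = w at *
  have h11 : k * (z * v) ≤ J * σ - 1 := le_trans (by gcongr) h10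
  calc _ ≤ (1 + 1 / J * (z * w)) * (1 + k * z * v) := by gcongr
    _ = 1 + k * (z * v) + z * w / J * (1 + k * (z * v)) := by ring
    _ ≤ 1 + σ * (z * v) + z * w / J * (J * σ) := by gcongr; linarith
    _ = _ := by field_simp; ring

theorem log_fac_le {s t : ℝ} (hs : 0 < s) (ht : 0 < t) (θ : ℝ) :
    log (fac (s * t) (s * θ)) ≤ θ ^ 2 / t ^ 2 * hh (s * t) := by
  refine (log_le_sub_one_of_pos (fac_pos _ _)).trans ?_
  have := sinh_pos' (half_pos (mul_pos hs ht))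
  calc _ = sin (s * θ / 2) ^ 2 / sinh (s * t / 2) ^ 2 := by rw [fac]; ring
    _ ≤ (s * θ / 2) ^ 2 / sinh (s * t / 2) ^ 2 := div_le_div_of_nonneg_right sin_sq_le_sq (by positivity)
    _ = _ := by rw [hh]; field_simp

theorem zone2 {a b n : ℕ} (hn : n ≤ b) (hab : b ≤ a ∧ 50 ≤ a) {t θ k M : ℝ} (ht : 0 < t) (hθ : 0 < θ)
    (hk0 : 0 ≤ k) (hk : kOK k ((2 * n + 1) * θ / 2)) (hM : 0 < M)
    (hv : ∀ i < n, k * (θ ^ 2 / t ^ 2) * (hh (uu i * t) - hh (ss a i * t)) ≤ M) :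
    LL a b n t θ ≤ θ ^ 2 / t ^ 2 * ∑ i ∈ Ico n b, hh (ss a i * t) -
      k * (θ ^ 2 / t ^ 2) * SS a n t / M * log (1 + M) := by
  rw [LL, ← sum_range_add_sum_Ico _ hn, SS, mul_sum, mul_sum, sum_div, sum_mul]
  have h1 := sum_le_sum fun i (_ : i ∈ Ico n b) => log_fac_le (ss_pos a i) ht θ
  have h2 : ∑ i ∈ range n, (log (fac (ss a i * t) (ss a i * θ)) + k * (θ ^ 2 / t ^ 2) *
      (hh (uu i * t) - hh (ss a i * t)) / M * log (1 + M)) ≤
      ∑ i ∈ range n, log (fac (uu i * t) (uu i * θ)) := by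
    refine sum_le_sum fun i hi => ?_
    have hi' : (i : ℝ) + 1 ≤ n := by exact_mod_cast mem_range.1 hi
    have ha : (n : ℝ) ≤ a := by exact_mod_cast hn.trans hab.1
    have ha' : (50 : ℝ) ≤ a := by exact_mod_cast hab.2
    have hs : 1.99 * uu i ≤ ss a i := by unfold uu ss; linarith
    have h3 := fac_ratio (uu_pos i) hs ht hθ hk0 hk (by unfold uu; nlinarith)
    have h4 : 0 ≤ k * (θ ^ 2 / t ^ 2) * (hh (uu i * t) - hh (ss a i * t)) := by
      have := hh_anti (mul_pos (uu_pos i) ht) (show uu i * t ≤ ss a i * t by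
        gcongr; linarith [uu_pos i])
      have := sub_nonneg.2 this
      positivity
    have h5 := chord h4 (hv i (mem_range.1 hi)) hM
    have h6 := log_le_log (mul_pos (fac_pos _ _) (by linarith)) h3
    rw [log_mul (fac_pos _ _).ne' (by linarith)] at h6
    linarith
  rw [sum_add_distrib] at h2
  linarith

end Pool.Agent.Lib.MP_667609_co
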