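import Pool.Agent.Lib.MP_667609_co.Major

/-! Bounds on the minor arc. -/

open Finset Real

namespace Pool.Agent.Lib.MP_667609_co

theorem abel_le {W c : ℕ → ℝ} (hW : ∀ k, W (k + 1) ≤ W k) (hW0 : ∀ k, 0 ≤ W k) {A B : ℝ}
    (hA : 0 ≤ A) (hB : 0 ≤ B) {n k0 : ℕ} (h1 : ∀ k < n, k < k0 → ∑ j ∈ range (k + 1), c j ≤ A)
    (h2 : ∀ k < n, ∑ j ∈ range (k + 1), c j ≤ A + B) :
    ∑ j ∈ range n, W j * c j ≤ A * W 0 + B * W k0 := by
  have key : ∀ N ≤ n, ∑ j ∈ range N, W j * c j - (∑ j ∈ range N, c j) * W N +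
      (A * W N + B * W (max N k0)) ≤ A * W 0 + B * W k0 := by
    intro N hN
    induction N with
    | zero => simp
    | succ N ih =>
      have a1 := ih (by omega)
      have a2 := sub_nonneg.2 (hW N)
      rw [sum_range_succ]
      by_cases h : N < k0
      · have a3 := mul_le_mul_of_nonneg_right (h1 N hN h) a2
        rw [max_eq_right h.le] at a1
        rw [max_eq_right h]
        rw [sum_range_succ] at a3 ⊢
        linarith
      · have a3 := mul_le_mul_of_nonneg_right (h2 N hN) a2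
        rw [max_eq_left (not_lt.1 h)] at a1
        rw [max_eq_left (by omega)]
        rw [sum_range_succ] at a3 ⊢
        linarith
  have a1 := key n le_rfl
  rcases n with _ | N
  · have := hW0 0; have := hW0 k0; simp; positivity
  by_cases h : N < k0
  · have := mul_le_mul_of_nonneg_right (h1 N (by omega) h) (hW0 (N + 1))
    have := mul_nonneg hB (hW0 (max (N + 1) k0))
    linarith
  · have := mul_le_mul_of_nonneg_right (h2 N (by omega)) (hW0 (N + 1))
    rw [max_eq_left (by omega)] at a1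
    linarith

theorem sum_cos (θ : ℝ) (p k : ℕ) : 2 * sin θ * ∑ j ∈ range k, cos (uu (p + j) * θ) =
    sin ((2 * (p + k) + 2) * θ) - sin ((2 * p + 2) * θ) := by
  induction k with
  | zero => simp
  | succ k ih =>
    rw [sum_range_succ, mul_add, ih, show ((2 * (p + (k + 1 : ℕ)) + 2 : ℝ)) * θ =
      uu (p + k) * θ + θ by rw [uu]; push_cast; ring,
      show ((2 * (p + k) + 2 : ℝ)) * θ = uu (p + k) * θ - θ by rw [uu]; push_cast; ring,
      sin_add, sin_sub]
    ring

theorem log_fac_ge (x φ : ℝ) : WW x / 2 - WW x * cos φ / 2 ≤ log (fac x φ) := by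
  have h2 : sin (φ / 2) ^ 2 = 1 / 2 - cos φ / 2 := by
    rw [sin_sq_eq_half_sub, mul_div_cancel₀ _ two_ne_zero]
  by_cases h : sinh (x / 2) = 0
  · simp [WW, fac, h]
  have := chord (ζ := sin (φ / 2) ^ 2 / sinh (x / 2) ^ 2) (M := 1 / sinh (x / 2) ^ 2)
    (by positivity) (by gcongr; exact sin_sq_le_one _) (by positivity)
  rw [show sin (φ / 2) ^ 2 / sinh (x / 2) ^ 2 / (1 / sinh (x / 2) ^ 2) = sin (φ / 2) ^ 2 by
    field_simp, ← WW, ← fac, h2] at this
  linarith

theorem WW_uu {t : ℝ} (ht : 0 < t) {i j : ℕ} (h : i ≤ j) : WW (uu j * t) ≤ WW (uu i * t) :=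
  WW_anti (mul_pos (uu_pos i) ht) (by unfold uu; gcongr)

theorem le_sin_mul' {ε : ℝ} (h0 : 0 ≤ ε) (h1 : ε ≤ π / 2) : ε ≤ sin ε * (1 + 0.38 * ε) := by
  by_cases h : ε ≤ 1.4
  · have := mul_le_mul_of_nonneg_right (sin_ge_sub_cube h0) (show 0 ≤ 1 + 0.38 * ε by positivity)
    nlinarith [mul_nonneg (mul_nonneg h0 h0) (show 0 ≤ 0.38 - ε / 6 - 0.38 / 6 * ε ^ 2 by nlinarith)]
  · have h2 := one_sub_sq_div_two_le_cos (x := π / 2 - ε)
    rw [cos_pi_div_two_sub] at h2
    have h3 : 0.985 ≤ sin ε := by nlinarith [pi_lt_d4]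
    nlinarith [pi_lt_d4]

theorem zone3_pi {n : ℕ} {t θ K : ℝ} (ht : 0 < t) (h0 : π / 2 ≤ θ) (h1 : θ ≤ π) (hK0 : 0 ≤ K)
    (hK : ∀ i < n, uu i * WW (uu i * t) / 2 ≤ K) :
    (∑ i ∈ range n, WW (uu i * t)) / 2 - (0.675 * WW (3 * t) + K / (2 * π)) ≤
      ∑ i ∈ range n, log (fac (uu i * t) (uu i * θ)) := by
  refine le_trans ?_ (sum_le_sum fun i _ => log_fac_ge _ _)
  rw [sum_sub_distrib, ← sum_div, ← sum_div]
  have hW1 := WW_nonneg (3 * t)
  have hK1 : 0 ≤ K / π := by positivity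
  have e0 : uu 0 = 3 := by simp [uu]
  suffices ∑ i ∈ range n, WW (uu i * t) * cos (uu i * θ) ≤ 1.35 * WW (3 * t) + K / π by
    rw [show K / (2 * π) = K / π / 2 by ring]; linarith
  rcases h1.eq_or_lt with rfl | h1
  · refine le_trans (sum_nonpos fun i _ => ?_) (by positivity)
    rw [show uu i * π = (i + 1 : ℕ) * (2 * π) + π by rw [uu]; push_cast; ring,
      cos_nat_mul_two_pi_add_pi]
    linarith [WW_nonneg (uu i * t)]
  have hs : 0 < sin θ := sin_pos_of_pos_of_lt_pi (by linarith [pi_pos]) h1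
  have hD : ∀ k, ∑ j ∈ range (k + 1), cos (uu j * θ) =
      -sin ((2 * k + 4) * (π - θ)) / (2 * sin θ) - cos θ := by
    intro k
    have := sum_cos θ 0 (k + 1)
    simp only [zero_add, Nat.cast_zero, mul_zero] at this
    rw [show (2 * ((k + 1 : ℕ) : ℝ) + 2) * θ = (k + 2 : ℕ) * (2 * π) - (2 * k + 4) * (π - θ) by
      push_cast; ring, sin_nat_mul_two_pi_sub, sin_two_mul] at this
    field_simp; linarith
  have hD1 : ∀ k : ℕ, (2 * k + 4) * (π - θ) ≤ π → ∑ j ∈ range (k + 1), cos (uu j * θ) ≤ 1 := by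
    intro k hk
    have := sin_nonneg_of_nonneg_of_le_pi (mul_nonneg (by positivity) (sub_pos.2 h1).le) hk
    have : 0 ≤ sin ((2 * k + 4) * (π - θ)) / (2 * sin θ) := by positivity
    rw [hD, neg_div]; linarith [neg_one_le_cos θ]
  by_cases h : ∃ k < n, π < (2 * k + 4) * (π - θ)
  · classical
    have hk := Nat.find_spec h
    have := abel_le (W := fun i => WW (uu i * t)) (fun k => WW_uu ht (Nat.le_succ k))
      (fun k => WW_nonneg _) zero_le_one (B := 1 / (2 * sin θ)) (by positivity) (n := n)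
      (k0 := Nat.find h) (fun k a1 a2 => hD1 k (not_lt.1 fun a3 => Nat.find_min h a2 ⟨a1, a3⟩))
      fun k _ => by
        have : -sin ((2 * k + 4) * (π - θ)) / (2 * sin θ) ≤ 1 / (2 * sin θ) := by
          gcongr; linarith [neg_one_le_sin ((2 * k + 4) * (π - θ))]
        rw [hD]; linarith [neg_one_le_cos θ]
    refine this.trans ?_
    set k := Nat.find h
    have a1 := le_sin_mul' (sub_pos.2 h1).le (by linarith)
    rw [sin_pi_sub] at a1
    have a2 : 1 / (2 * sin θ) ≤ (uu k + 1) / (2 * π) + 0.19 := by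
      rw [div_le_iff₀ (by positivity)]
      refine le_of_mul_le_mul_right ?_ (sub_pos.2 h1)
      have a3 : 1 ≤ (uu k + 1) / π * (π - θ) := by
        rw [div_mul_eq_mul_div, le_div_iff₀ pi_pos, uu]; linarith [hk.2]
      have a4 := mul_le_mul_of_nonneg_right a3 hs.le
      rw [show (uu k + 1) / (2 * π) = (uu k + 1) / π / 2 by ring]
      linarith
    have a3 := hK k hk.1
    have a4 := WW_uu ht (Nat.zero_le k)
    have a5 := WW_nonneg (uu k * t)
    have a6 : WW (uu k * t) / (2 * π) ≤ 0.16 * WW (uu k * t) := by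
      rw [div_le_iff₀ (by positivity)]; nlinarith [pi_gt_d2]
    have a7 : uu k * WW (uu k * t) / 2 / π ≤ K / π := by gcongr
    have a8 := mul_le_mul_of_nonneg_right a2 a5
    rw [show ((uu k + 1) / (2 * π) + 0.19) * WW (uu k * t) = uu k * WW (uu k * t) / 2 / π +
      WW (uu k * t) / (2 * π) + 0.19 * WW (uu k * t) by ring] at a8
    rw [e0] at a4 ⊢
    linarith
  · push Not at h
    have := abel_le (W := fun i => WW (uu i * t)) (fun k => WW_uu ht (Nat.le_succ k))
      (fun k => WW_nonneg _) zero_le_one le_rfl (n := n) (k0 := 0)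
      (fun k a1 _ => hD1 k (h k a1)) fun k a1 => by rw [add_zero]; exact hD1 k (h k a1)
    rw [e0] at this
    linarith

theorem sum_log_le (p : ℕ) : ∑ i ∈ range p, log (uu p / uu i) ≤ p := by
  have : p * log (uu p) - ∑ i ∈ range p, log (uu i) ≤ p := by
    induction p with
    | zero => simp
    | succ p ih =>
      have h1 := log_le_sub_one_of_pos (div_pos (uu_pos (p + 1)) (uu_pos p))
      have h2 : (p + 1) * (uu (p + 1) / uu p - 1) ≤ 1 := by
        have := uu_pos p
        rw [div_sub_one this.ne', ← mul_div_assoc, div_le_one this]; unfold uu; push_cast; linarith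
      rw [log_div (uu_pos _).ne' (uu_pos _).ne'] at h1
      rw [sum_range_succ]; push_cast
      nlinarith [Nat.cast_nonneg (α := ℝ) p]
  rwa [sum_congr rfl fun i _ => log_div (uu_pos p).ne' (uu_pos i).ne', sum_sub_distrib, sum_const,
    card_range, nsmul_eq_mul]

theorem sum_log_uu (n : ℕ) : ∑ i ∈ range n, log (uu i) ≤ (n + 1) * log (2 * n + 1) - n := by
  induction n with
  | zero => simp
  | succ n ih =>
    have hn := Nat.cast_nonneg (α := ℝ) n
    have h1 := le_log_one_add_of_nonneg (x := 2 / (2 * n + 1)) (by positivity)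
    rw [show (1 : ℝ) + 2 / (2 * n + 1) = uu n / (2 * n + 1) by rw [uu]; field_simp; ring,
      log_div (uu_pos _).ne' (by positivity),
      show 2 * (2 / (2 * n + 1)) / (2 / (2 * n + 1) + 2) = 1 / (n + 1 : ℝ) by field_simp; ring,
      div_le_iff₀ (by positivity)] at h1
    rw [sum_range_succ, show 2 * ((n + 1 : ℕ) : ℝ) + 1 = uu n by rw [uu]; push_cast; ring]
    push_cast; linarith

theorem sin_sq_ge_half {x φ : ℝ} (h0 : 0 ≤ x) (h1 : x ≤ 1) (h2 : x * (π / 4) ≤ φ) (h3 : φ ≤ π / 2) :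
    x ^ 2 / 2 ≤ sin φ ^ 2 := by
  have := strictConcaveOn_sin_Icc.concaveOn.2 (show (0 : ℝ) ∈ Set.Icc 0 π by simp [pi_pos.le])
    (show π / 4 ∈ Set.Icc 0 π by constructor <;> linarith [pi_pos])
    (sub_nonneg.2 h1) h0 (by ring)
  simp only [smul_eq_mul, sin_zero, mul_zero, zero_add, sin_pi_div_four] at this
  have h4 : sin (x * (π / 4)) ≤ sin φ :=
    sin_le_sin_of_le_of_le_pi_div_two (by nlinarith [pi_pos]) h3 h2
  calc x ^ 2 / 2 = (x * (√2 / 2)) ^ 2 := by rw [mul_pow, div_pow, sq_sqrt two_pos.le]; ring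
    _ ≤ _ := by gcongr; exact this.trans h4

theorem zone3_th {n : ℕ} {t θ l : ℝ} (ht : 0 < t) (h0 : π / (2 * n + 1) ≤ θ) (h1 : θ ≤ π / 2)
    (hl0 : 0 ≤ l) (hl : 1 - WW ((2 * n + 5) * t) / 2 ≤ l) :
    (∑ i ∈ range n, WW (uu i * t)) / 2 - (WW (3 * t) / 4 + n * l / 2) ≤
      ∑ i ∈ range n, log (fac (uu i * t) (uu i * θ)) := by
  classical
  have hθ : 0 < θ := lt_of_lt_of_le (by positivity) h0
  rw [div_le_iff₀ (by positivity)] at h0
  have hex : ∃ p, π / 2 < uu p * θ := ⟨n, by unfold uu; nlinarith⟩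
  set p := Nat.find hex
  have hp1 : π / 2 < uu p * θ := Nat.find_spec hex
  have hp2 : ∀ i < p, uu i * θ ≤ π / 2 := fun i hi => not_lt.1 (Nat.find_min hex hi)
  have hp3 : (2 * p + 1) * θ ≤ π / 2 := by
    rcases hp : p with _ | q
    · simpa using h1
    · have := hp2 q (by omega); unfold uu at this; push_cast; linarith
  have hp4 : 2 * (2 * p + 1 : ℝ) ≤ 2 * n + 1 := by
    refine le_of_mul_le_mul_right ?_ hθ; linarith
  have hp5 : p ≤ n := by
    have : (p : ℝ) ≤ n := by linarith [Nat.cast_nonneg (α := ℝ) p]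
    exact_mod_cast this
  obtain ⟨q, rfl⟩ := Nat.exists_eq_add_of_le hp5
  have hY := mul_pos (uu_pos p) ht
  have a1 : ∑ i ∈ range p, (WW (uu i * t) / 2 - log (uu p / uu i) + (1 - l)) ≤
      ∑ i ∈ range p, log (fac (uu i * t) (uu i * θ)) := sum_le_sum fun i hi => by
    have hi' := mem_range.1 hi
    have b0 : uu i ≤ uu p := by unfold uu; gcongr
    have hY' := mul_pos (uu_pos i) ht
    have b1 := WW_ratio hY' (x := uu p * t) (by gcongr)
    rw [mul_div_mul_right _ _ ht.ne'] at b1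
    have b2 := WW_anti (y := 2 * (uu p * t)) (x := (2 * (p + q : ℕ) + 5) * t) (by positivity)
      (by unfold uu; nlinarith)
    have b3 := sin_sq_ge_half (x := uu i / uu p) (φ := uu i * θ / 2)
      (div_pos (uu_pos i) (uu_pos p)).le ((div_le_one (uu_pos p)).2 b0) (by
        rw [div_mul_eq_mul_div, div_le_iff₀ (uu_pos p)]; nlinarith [uu_pos i])
      (by linarith [hp2 i hi', pi_pos])
    have b4 := le_sinh_div (half_pos hY') (x := uu p * t / 2) (by gcongr)
    have b5 := sinh_pos' (half_pos hY')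
    have b6 := sinh_pos' (half_pos hY)
    have b7 : sinh (uu i * t / 2) ≤ uu i / uu p * sinh (uu p * t / 2) := by
      rw [div_mul_eq_mul_div, le_div_iff₀ (uu_pos p)]
      refine le_of_mul_le_mul_right ?_ ht; linarith
    have b8 : log (1 + 1 / (2 * sinh (uu p * t / 2) ^ 2)) ≤ log (fac (uu i * t) (uu i * θ)) := by
      refine log_le_log (by positivity) (add_le_add_right ?_ 1)
      rw [div_le_div_iff₀ (by positivity) (by positivity)]
      have := pow_le_pow_left₀ b5.le b7 2
      nlinarith [mul_le_mul_of_nonneg_right b3 (sq_nonneg (sinh (uu p * t / 2)))]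
    rw [WW_half hY] at b8
    linarith
  have hs : 0 < sin θ := sin_pos_of_pos_of_lt_pi hθ (by linarith [pi_pos])
  have a2 := abel_le (W := fun i => WW (uu (p + i) * t)) (c := fun i => cos (uu (p + i) * θ))
    (fun k => WW_uu ht (by omega)) (fun k => WW_nonneg _) (A := 1 / 2) (by norm_num) le_rfl (n := q)
    (k0 := 0) (fun k _ h => absurd h (by omega)) fun k _ => by
      have b1 := sum_cos θ p (k + 1)
      have b2 : cos θ ≤ sin ((2 * p + 2) * θ) := by
        rw [← cos_pi_div_two_sub ((2 * p + 2) * θ), ← cos_abs (π / 2 - _)]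
        refine cos_le_cos_of_nonneg_of_le_pi (abs_nonneg _) (by linarith [pi_pos]) ?_
        unfold uu at hp1
        rw [abs_le]; constructor <;> linarith
      have b3 := cos_nonneg_of_neg_pi_div_two_le_of_le (x := θ) (by linarith [pi_pos]) h1
      have b4 : 1 ≤ sin θ + cos θ := by
        nlinarith [sin_sq_add_cos_sq θ, sin_le_one θ, cos_le_one θ]
      refine le_of_mul_le_mul_left ?_ hs
      linarith [sin_le_one ((2 * (p + (k + 1 : ℕ)) + 2) * θ)]
  have a3 := sum_le_sum fun i (_ : i ∈ range q) => log_fac_ge (uu (p + i) * t) (uu (p + i) * θ)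
  have a4 := WW_uu ht (Nat.zero_le (p + 0))
  rw [show uu 0 = 3 by simp [uu]] at a4
  have a5 := sum_log_le p
  rw [sum_add_distrib, sum_sub_distrib, sum_const, card_range, nsmul_eq_mul, ← sum_div] at a1
  rw [sum_sub_distrib, ← sum_div, ← sum_div] at a3
  rw [sum_range_add, sum_range_add]
  nlinarith

theorem halfW_ge {n : ℕ} {t : ℝ} (ht : 0 < t) (hY : (2 * n + 1) * t ≤ 5 / 2) :
    n * (log (2 / ((2 * n + 1) * t)) + 1) - log (2 * n + 1) + n * (2 * n * t) ^ 2 / 60 ≤
      (∑ i ∈ range n, WW (uu i * t)) / 2 := by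
  have h1 : ∑ i ∈ range n, (2 * (log (2 / t) - log (uu i)) + t ^ 2 / 10 * uu i ^ 2) ≤
      ∑ i ∈ range n, WW (uu i * t) := sum_le_sum fun i hi => by
    have hi' : (i : ℝ) + 1 ≤ n := by exact_mod_cast mem_range.1 hi
    have := WW_ge (mul_pos (uu_pos i) ht) (by unfold uu; nlinarith)
    rw [mul_comm (uu i), ← div_div, log_div (by positivity) (uu_pos i).ne'] at this
    rw [mul_comm (uu i)]; linarith
  rw [sum_add_distrib, ← mul_sum, ← mul_sum, sum_sub_distrib, sum_const, card_range, nsmul_eq_mul,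
    sum_uu_sq] at h1
  rw [mul_comm _ t, ← div_div, log_div (by positivity) (by positivity)]
  have hn := Nat.cast_nonneg (α := ℝ) n
  nlinarith [sum_log_uu n, mul_nonneg (sq_nonneg t) hn, mul_nonneg (sq_nonneg t) (sq_nonneg (n : ℝ))]

theorem numer_le {a : ℕ} (ha : 0 < a) (b : ℕ) {t : ℝ} (ht : 0 < t) (θ : ℝ) :
    ∑ i ∈ range b, log (fac (ss a i * t) (ss a i * θ)) ≤
      (1 - exp (-(2 * b * t))) / (t * sinh (2 * a * t)) := by
  have hD : 0 < 2 * (a : ℝ) * t := by positivity
  have hs := sinh_pos' hD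
  induction b with
  | zero => simp
  | succ b ih =>
    have hX := mul_pos (ss_pos a b) ht
    have h1 : log (fac (ss a b * t) (ss a b * θ)) ≤ WW (ss a b * t) := by
      refine log_le_log (fac_pos _ _) (add_le_add_right ?_ 1)
      gcongr; exact sin_sq_le_one _
    have h2 : sinh (2 * a * t) * exp ((2 * b + 1) * t) ≤ sinh (ss a b * t) := by
      have a1 : sinh (2 * a * t + (2 * b + 1) * t) ≤ sinh (ss a b * t) :=
        sinh_le_sinh.2 (by unfold ss; nlinarith)
      have a2 : 0 ≤ sinh ((2 * b + 1) * t) := sinh_nonneg_iff.2 (by positivity)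
      rw [sinh_add] at a1
      rw [← cosh_add_sinh]
      nlinarith [mul_le_mul_of_nonneg_right (sinh_lt_cosh (2 * a * t)).le a2]
    have h3 : 2 / sinh (ss a b * t) ≤
        (exp (-(2 * b * t)) - exp (-(2 * (b + 1 : ℕ) * t))) / (t * sinh (2 * a * t)) := by
      refine le_trans (div_le_div_of_nonneg_left two_pos.le (by positivity) h2) ?_
      rw [div_le_div_iff₀ (by positivity) (by positivity)]
      have a1 : exp (-(2 * b * t)) * exp ((2 * b + 1) * t) = exp t := by
        rw [← exp_add]; congr 1; ring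
      have a2 : exp (-(2 * (b + 1 : ℕ) * t)) * exp ((2 * b + 1) * t) = exp (-t) := by
        rw [← exp_add]; congr 1; push_cast; ring
      have a3 := sinh_ge ht.le
      rw [sinh_eq] at a3
      rw [mul_left_comm _ (sinh _), sub_mul, a1, a2]
      nlinarith
    rw [sum_range_succ]
    refine (add_le_add ih (h1.trans ((WW_le_sinh hX).trans h3))).trans (le_of_eq ?_)
    ring

end Pool.Agent.Lib.MP_667609_co
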